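import Mathlib
import Pool.Agent.Lib.MP_caab05_ag.WZ.Core

/-! The elimination step for a linear family of subspaces. -/

namespace Pool.Agent.Lib.MP_caab05_ag.NC

open MvPolynomial Filter Topology Asymptotics Complex
open Pool.Agent.Lib.MP_caab05_ag.LT (AlgCoeff val GoodC)
open Pool.Agent.Lib.MP_caab05_ag.ZE (Ord)
open Pool.Agent.Lib.MP_caab05_ag.WZ (Form)

section Defs

variable {ι ν σ : Type} [Fintype ν] [Fintype σ]

/-- the vector with coordinates `∑ A m n s * x s * y n` -/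
noncomputable def jl (A : ι → ν → σ → ℤ) (x : σ → ℂ) (y : ν → ℂ) : ι → ℂ :=
  fun m => ∑ n, (∑ s, (A m n s : ℂ) * x s) * y n

lemma jl_add (A : ι → ν → σ → ℤ) (x : σ → ℂ) (y y' : ν → ℂ) :
    jl A x (y + y') = jl A x y + jl A x y' := by
  funext m
  simp only [jl, Pi.add_apply, mul_add, Finset.sum_add_distrib]

lemma jl_smul (A : ι → ν → σ → ℤ) (x : σ → ℂ) (c : ℂ) (y : ν → ℂ) :
    jl A x (c • y) = c • jl A x y := by
  funext m
  simp only [jl, Pi.smul_apply, smul_eq_mul]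
  rw [Finset.mul_sum]
  exact Finset.sum_congr rfl fun _ _ => by ring

lemma jl_smul_left (A : ι → ν → σ → ℤ) (x : σ → ℂ) (c : ℂ) (y : ν → ℂ) :
    jl A (c • x) y = c • jl A x y := by
  funext m
  simp only [jl, Pi.smul_apply, smul_eq_mul]
  rw [Finset.mul_sum]
  refine Finset.sum_congr rfl fun _ _ => ?_
  rw [← mul_assoc, Finset.mul_sum]
  congr 1
  exact Finset.sum_congr rfl fun _ _ => by ring

/-- the subspace with parameter `x` -/
def Wl (A : ι → ν → σ → ℤ) (x : σ → ℂ) : Submodule ℂ (ι → ℂ) where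
  carrier := Set.range (jl A x)
  zero_mem' := ⟨0, by funext m; simp [jl]⟩
  add_mem' := by
    rintro _ _ ⟨y, rfl⟩ ⟨y', rfl⟩
    exact ⟨y + y', jl_add A x y y'⟩
  smul_mem' := by
    rintro c _ ⟨y, rfl⟩
    exact ⟨c • y, jl_smul A x c y⟩

lemma mem_Wl {A : ι → ν → σ → ℤ} {x : σ → ℂ} {w : ι → ℂ} : w ∈ Wl A x ↔ ∃ y, jl A x y = w :=
  Iff.rfl

end Defs

/-- the elimination step -/
def CoreS : Prop :=
  ∀ (ι ν σ κ : Type) [Fintype ι] [Fintype ν] [Fintype σ] [Fintype κ] (A : ι → ν → σ → ℤ)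
    (η : σ → ℂ) (G : MvPolynomial σ ℤ) (e : ℕ) (E : κ → Polynomial (MvPolynomial σ ℤ))
    (dg : κ → ℕ) (F : IntermediateField ℚ ℂ) (t : ℕ) (c : ℂ), Algebra.trdeg ℚ F ≤ t →
    (∀ s, η s ∈ F) → G.IsHomogeneous e → aeval η G ≠ 0 →
    (∀ k (c' l : ℂ) (x : σ → ℂ), val (E k) c' (l • x) = l ^ dg k * val (E k) c' x) →
    (∀ k, val (E k) c η = 0) → IsIntegral ℤ c → ∃ C : ℝ, 1 ≤ C ∧
    ∀ (N : ℕ) (f : (ι → ℂ) → ℂ) (τ V L : ℝ), C ≤ N → Differentiable ℂ f → 0 ≤ τ →
      C * (N + 1) ≤ Real.exp L →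
      (∀ n ≤ N, Form c n (Real.exp τ) (Real.exp τ)
        fun w => iteratedDeriv n (fun s : ℂ => f (s • w)) 0) →
      (∀ y : ν → ℂ, ‖y‖ ≤ 1 → ‖f (jl A η y)‖ ≤ Real.exp (-V)) →
      (∀ x : σ → ℂ, aeval x G ≠ 0 → (∀ k, val (E k) c x = 0) → ¬ Ord (Wl A x) f 0 (N + 1)) →
      V ≤ C * (τ + N * L + N) * (N : ℝ) ^ t

namespace CoreAux

lemma grid {ι ν σ : Type} [Fintype ν] [Fintype σ] (A : ι → ν → σ → ℤ) {j N : ℕ}
    (Q : Polynomial (MvPolynomial ι ℤ)) (c : ℂ) (x : σ → ℂ)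
    (hQ : ∀ (l : ℂ) (w : ι → ℂ), val Q c (l • w) = l ^ j * val Q c w)
    (hj : j ≤ N) {y : ν → ℂ} (h : val Q c (jl A x y) ≠ 0) :
    ∃ a : ν → ℕ, (∀ k, a k ≤ N) ∧ val Q c (jl A x fun k => (a k : ℂ)) ≠ 0 := by
  classical
  let p : MvPolynomial ν ℂ := val Q (C c) fun m => ∑ n, C (∑ s, (A m n s : ℂ) * x s) * X n
  have hp : ∀ y : ν → ℂ, eval y p = val Q c (jl A x y) := by
    intro y
    simp only [p, val, Polynomial.hom_eval₂, eval_C]
    congr 1
    refine ringHom_ext' (RingHom.ext_int _ _) fun s => ?_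
    rw [RingHom.comp_apply, eval₂Hom_X', eval₂Hom_X', map_sum]
    simp only [jl, map_mul, eval_C, eval_X]
  have hh : p.IsHomogeneous j := LT.isHomogeneous_of_scaling fun l y _ => by
    rw [aeval_eq_eval, aeval_eq_eval, hp, hp, ← hQ, jl_smul]
  by_contra hcon
  push Not at hcon
  have h0 : p = 0 := by
    refine eq_zero_of_eval_zero_at_prod_finset p
      (fun _ => (Finset.range (N + 1)).image (Nat.cast : ℕ → ℂ)) (fun i => ?_) fun y hy => ?_
    · rw [Finset.card_image_of_injective _ Nat.cast_injective, Finset.card_range]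
      have := degreeOf_le_totalDegree p i
      have := hh.totalDegree_le
      omega
    · simp only [Finset.mem_image, Finset.mem_range] at hy
      choose a ha1 ha2 using hy
      rw [hp, ← funext ha2]
      exact hcon a fun k => Nat.lt_succ_iff.1 (ha1 k)
  exact h (by rw [← hp, h0, map_zero])

lemma cont {σ : Type} (Q : Polynomial (MvPolynomial σ ℤ)) (c : ℂ) :
    Continuous fun x : σ → ℂ => val Q c x := by
  have : (fun x : σ → ℂ => val Q c x) =
      fun x => eval x (val Q (C c : MvPolynomial σ ℂ) fun m => X m) := by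
    funext x
    simp only [val, Polynomial.hom_eval₂, eval_C]
    congr 1
    refine ringHom_ext' (RingHom.ext_int _ _) fun s => ?_
    rw [RingHom.comp_apply, eval₂Hom_X', eval₂Hom_X', eval_X]
  rw [this]
  exact continuous_eval _

lemma bdd {σ : Type} [Fintype σ] (Q : Polynomial (MvPolynomial σ ℤ)) {c : ℂ}
    (hc : IsIntegral ℤ c) : ∃ B : ℝ, ∀ c' : ℂ, Polynomial.aeval c' (minpoly ℤ c) = 0 →
      ∀ x : σ → ℂ, ‖x‖ ≤ 1 → ‖val Q c' x‖ ≤ B := by
  classical
  have h1 : ∀ c' : ℂ, ∃ B : ℝ, 0 ≤ B ∧ ∀ x : σ → ℂ, ‖x‖ ≤ 1 → ‖val Q c' x‖ ≤ B := by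
    intro c'
    obtain ⟨B, hB⟩ := (isCompact_closedBall (0 : σ → ℂ) 1).exists_bound_of_continuousOn
      (cont Q c').continuousOn
    exact ⟨max B 0, le_max_right _ _, fun x hx =>
      (hB x (mem_closedBall_zero_iff.2 hx)).trans (le_max_left _ _)⟩
  choose B hB0 hB using h1
  refine ⟨∑ c' ∈ ((minpoly ℤ c).aroots ℂ).toFinset, B c', fun c' hc' x hx => (hB c' x hx).trans ?_⟩
  refine Finset.single_le_sum (fun i _ => hB0 i) ?_
  rw [Multiset.mem_toFinset, Polynomial.mem_aroots']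
  exact ⟨((minpoly.monic hc).map _).ne_zero, hc'⟩

open LT.Pluck in
lemma pad {σ : Type} [Fintype σ] (i₀ : σ) {c : ℂ} {η : σ → ℂ} (hη : η i₀ = 1) {j N : ℕ}
    (hj : j ≤ N) {B ε : ℝ} {Q : Polynomial (MvPolynomial σ ℤ)} (hQ : GoodC c η j B ε Q)
    {x : σ → ℂ} (hx : x i₀ ≠ 0) (h0 : val Q c x ≠ 0) :
    ∃ Q', GoodC c η N B ε Q' ∧ val Q' c x ≠ 0 := by
  have hval : ∀ (c' : ℂ) (x : σ → ℂ), val (Polynomial.C (X i₀ ^ (N - j)) * Q) c' x =
      x i₀ ^ (N - j) * val Q c' x := fun c' x => by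
    rw [val_C_mul]
    simp
  refine ⟨Polynomial.C (X i₀ ^ (N - j)) * Q, ⟨fun c' l x => ?_, fun c' hc' x hx => ?_, ?_⟩, ?_⟩
  · rw [hval, hval, hQ.1, Pi.smul_apply, smul_eq_mul, mul_pow,
      show l ^ N = l ^ (N - j) * l ^ j by rw [← pow_add]; congr 1; omega]
    ring
  · rw [hval, norm_mul, norm_pow]
    exact (mul_le_of_le_one_left (norm_nonneg _)
      (pow_le_one₀ (norm_nonneg _) ((norm_le_pi_norm x i₀).trans hx))).trans (hQ.2.1 c' hc' x hx)
  · rw [hval, hη, one_pow, one_mul]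
    exact hQ.2.2
  · rw [hval]
    exact mul_ne_zero (pow_ne_zero _ hx) h0

lemma norm_jl {ι ν σ : Type} [Fintype ι] [Fintype ν] [Fintype σ] (A : ι → ν → σ → ℤ) :
    ∃ K : ℝ, 1 ≤ K ∧ ∀ (x : σ → ℂ) (y : ν → ℂ) (r : ℝ), ‖x‖ ≤ 1 → 0 ≤ r → (∀ n, ‖y n‖ ≤ r) →
      ‖jl A x y‖ ≤ K * r := by
  refine ⟨1 + ∑ m, ∑ n, ∑ s, ‖(A m n s : ℂ)‖, le_add_of_nonneg_right (by positivity), ?_⟩
  intro x y r hx hr hy
  refine (pi_norm_le_iff_of_nonneg (by positivity)).2 fun m => ?_
  have h1 : ‖jl A x y m‖ ≤ (∑ n, ∑ s, ‖(A m n s : ℂ)‖) * r := by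
    rw [Finset.sum_mul]
    refine (norm_sum_le _ _).trans (Finset.sum_le_sum fun n _ => ?_)
    rw [norm_mul]
    refine mul_le_mul ((norm_sum_le _ _).trans (Finset.sum_le_sum fun s _ => ?_)) (hy n)
      (norm_nonneg _) (by positivity)
    rw [norm_mul]
    exact mul_le_of_le_one_right (norm_nonneg _) ((norm_le_pi_norm x s).trans hx)
  refine h1.trans (mul_le_mul_of_nonneg_right ?_ hr)
  have := Finset.single_le_sum (f := fun m => ∑ n, ∑ s, ‖(A m n s : ℂ)‖)
    (fun i _ => by positivity) (Finset.mem_univ m)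
  linarith

end CoreAux

open CoreAux LT.Pluck WZ.CoreAux in
theorem core0 (h : LT.ElimAS) {ι ν σ κ : Type} [Fintype ι] [Fintype ν] [Fintype σ] [Fintype κ]
    (A : ι → ν → σ → ℤ) (η : σ → ℂ) (i₀ : σ) (E : κ → Polynomial (MvPolynomial σ ℤ))
    (dg : κ → ℕ) (F : IntermediateField ℚ ℂ) (t : ℕ) (c : ℂ) (hF : Algebra.trdeg ℚ F ≤ t)
    (hηF : ∀ s, η s ∈ F) (hη1 : η i₀ = 1)
    (hE : ∀ k (c' l : ℂ) (x : σ → ℂ), val (E k) c' (l • x) = l ^ dg k * val (E k) c' x)
    (hE0 : ∀ k, val (E k) c η = 0) (hc : IsIntegral ℤ c) : ∃ C : ℝ, 1 ≤ C ∧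
    ∀ (N : ℕ) (f : (ι → ℂ) → ℂ) (τ V L : ℝ), C ≤ N → Differentiable ℂ f → 0 ≤ τ →
      C * (N + 1) ≤ Real.exp L →
      (∀ n ≤ N, Form c n (Real.exp τ) (Real.exp τ)
        fun w => iteratedDeriv n (fun s : ℂ => f (s • w)) 0) →
      (∀ y : ν → ℂ, ‖y‖ ≤ 1 → ‖f (jl A η y)‖ ≤ Real.exp (-V)) →
      (∀ x : σ → ℂ, x i₀ ≠ 0 → (∀ k, val (E k) c x = 0) → ¬ Ord (Wl A x) f 0 (N + 1)) →
      V ≤ C * (τ + N * L + N) * (N : ℝ) ^ t := by
  classical
  obtain ⟨Ce, hCe, he⟩ := h t F hF _ i₀ η (by rw [hη1]; exact one_ne_zero) hηF c hc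
  obtain ⟨K, hK1, hK⟩ := norm_jl A
  choose B hB using fun k => bdd (E k) hc
  obtain ⟨S, hS0, hSd, hSB⟩ : ∃ S : ℝ, 0 ≤ S ∧ (∀ k, (dg k : ℝ) ≤ S) ∧ ∀ k, B k ≤ S := by
    refine ⟨∑ k, ((dg k : ℝ) + |B k|), by positivity, fun k => ?_, fun k => ?_⟩
    · have := Finset.single_le_sum (f := fun k => (dg k : ℝ) + |B k|)
        (fun i _ => by positivity) (Finset.mem_univ k)
      have := abs_nonneg (B k)
      linarith
    · have := Finset.single_le_sum (f := fun k => (dg k : ℝ) + |B k|)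
        (fun i _ => by positivity) (Finset.mem_univ k)
      have := le_abs_self (B k)
      have : (0 : ℝ) ≤ dg k := Nat.cast_nonneg _
      linarith
  refine ⟨S + K + 2 * (Ce + 1), by linarith, ?_⟩
  intro N f τ V L hN hf hτ hL hform hV hord
  have hN1' : (1 : ℝ) ≤ N := by linarith
  have hN1 : 1 ≤ N := by exact_mod_cast hN1'
  have hKL : 2 * ((N : ℝ) + 1) ≤ Real.exp L := le_trans (by gcongr; linarith) hL
  have hKL' : K * N ≤ Real.exp L :=
    le_trans (mul_le_mul (by linarith) (by linarith) (by linarith) (by linarith)) hL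
  have hSL : S ≤ Real.exp L := le_trans (by nlinarith) hL
  have hL0 : 0 ≤ L := by
    rw [← Real.one_le_exp_iff]
    linarith
  have hNL : 0 ≤ N * L := by positivity
  have key := he N (τ + 2 * (N * L)) (V - (τ + 2 * (N * L))) hN1 (by positivity) ?_
  · have h1 : (1 : ℝ) ≤ (N : ℝ) ^ t := one_le_pow₀ hN1'
    have h3 : τ + 2 * (N * L) + N ≤ 2 * (τ + N * L + N) := by linarith
    have h4 : τ + 2 * (N * L) ≤ 2 * (τ + N * L + N) * (N : ℝ) ^ t :=
      le_trans (by linarith) (le_mul_of_one_le_right (by positivity) h1)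
    have h5 : Ce * (τ + 2 * (N * L) + N) * (N : ℝ) ^ t ≤
        Ce * (2 * (τ + N * L + N)) * (N : ℝ) ^ t := by gcongr
    have h6 : 2 * (Ce + 1) * (τ + N * L + N) * (N : ℝ) ^ t ≤
        (S + K + 2 * (Ce + 1)) * (τ + N * L + N) * (N : ℝ) ^ t := by gcongr; linarith
    linarith
  intro x hxi
  by_cases hEx : ∃ k, val (E k) c x ≠ 0
  · obtain ⟨k, hk⟩ := hEx
    have hkN : dg k ≤ N := by exact_mod_cast (by linarith [hSd k] : (dg k : ℝ) ≤ N)
    refine pad i₀ hη1 hkN ⟨hE k, fun c' hc' x hx => (hB k c' hc' x hx).trans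
      ((hSB k).trans (hSL.trans (Real.exp_le_exp.2 ?_))), ?_⟩ hxi hk
    · have : L ≤ N * L := le_mul_of_one_le_left hL0 hN1'
      linarith
    · rw [hE0, norm_zero]
      exact (Real.exp_pos _).le
  push Not at hEx
  have hline : ∀ w : ι → ℂ, Differentiable ℂ fun s : ℂ => f (s • w) :=
    fun w => hf.comp (f := fun s : ℂ => s • w) (by fun_prop)
  have hex : ∃ y : ν → ℂ, ∃ j ≤ N,
      iteratedDeriv j (fun s : ℂ => f (s • jl A x y)) 0 ≠ 0 := by
    by_contra hcon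
    push Not at hcon
    refine hord x hxi hEx ?_
    rintro _ ⟨y, rfl⟩
    simp only [zero_add]
    exact (LT.isBigO_pow_iff ((hline _).analyticAt 0) (N + 1)).2 fun j hj =>
      hcon y j (Nat.lt_succ_iff.1 hj)
  obtain ⟨y, j, hjN, hw0⟩ := hex
  obtain ⟨Q, κ', hκ0, hκ, hQ1, hQ2, hQ3⟩ := hform j hjN
  obtain ⟨a, ha, ha0⟩ := grid A Q c x (hQ3 c) hjN (y := y)
    (by rw [hQ1]; exact mul_ne_zero hκ0 hw0)
  let g : ι → MvPolynomial σ ℤ :=
    fun m => ∑ n, (∑ s, C (A m n s) * X s) * (a n : MvPolynomial σ ℤ)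
  have hval : ∀ (c' : ℂ) (x : σ → ℂ), val (Q.map (eval₂Hom C g)) c' x =
      val Q c' (jl A x fun k => (a k : ℂ)) := fun c' x => by
    rw [val_map]
    congr 1
    ext m
    simp [g, jl]
  have hjN' : (j : ℝ) ≤ N := by exact_mod_cast hjN
  have e1 : (N : ℝ) ^ j ≤ Real.exp (N * L) := pow_le_exp (by linarith) (by linarith) hL0 hjN
  refine pad i₀ hη1 hjN (Q := Q.map (eval₂Hom C g))
    ⟨fun c' l x => ?_, fun c' hc' x hx => ?_, ?_⟩ hxi (by rw [hval]; exact ha0)
  · rw [hval, hval, jl_smul_left, hQ3]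
  · rw [hval]
    have e2 : ‖jl A x fun k => (a k : ℂ)‖ ≤ K * N := hK x _ N hx (by linarith) fun n => by
      rw [Complex.norm_natCast]
      exact_mod_cast ha n
    calc _ ≤ Real.exp τ * Real.exp (N * L) := by
          refine (hQ2 c' hc' _).trans ?_
          gcongr
          exact pow_le_exp (norm_nonneg _) (e2.trans hKL') hL0 hjN
      _ ≤ _ := by
          simp only [← Real.exp_add, Real.exp_le_exp]
          linarith
  · have hN0 : (0 : ℝ) < N := by linarith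
    have h1 : ∀ s ∈ Metric.sphere (0 : ℂ) (N : ℝ)⁻¹,
        ‖f (s • jl A η fun k => (a k : ℂ))‖ ≤ Real.exp (-V) := by
      intro s hs
      rw [mem_sphere_zero_iff_norm] at hs
      rw [← jl_smul]
      refine hV _ ((pi_norm_le_iff_of_nonneg zero_le_one).2 fun k => ?_)
      rw [Pi.smul_apply, smul_eq_mul, norm_mul, hs, Complex.norm_natCast, inv_mul_le_iff₀ hN0,
        mul_one]
      exact_mod_cast ha k
    have e4 := Complex.norm_iteratedDeriv_le_of_forall_mem_sphere_norm_le j (inv_pos.2 hN0)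
      (hline _).diffContOnCl h1
    have e2 : (j.factorial : ℝ) ≤ Real.exp (N * L) := by
      refine le_trans (by exact_mod_cast Nat.factorial_le_pow j) (pow_le_exp (x := j)
        (by positivity) (by linarith) hL0 hjN)
    rw [inv_pow, div_inv_eq_mul] at e4
    rw [hval, hQ1, norm_mul]
    calc _ ≤ Real.exp τ * (Real.exp (N * L) * Real.exp (-V) * Real.exp (N * L)) := by
          gcongr
          refine e4.trans ?_
          gcongr
      _ ≤ _ := by
          simp only [← Real.exp_add, Real.exp_le_exp]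
          linarith

open LT.Pluck WZ.CoreAux in
theorem coreS (h : LT.ElimAS) : CoreS := by
  classical
  intro ι ν σ κ _ _ _ _ A η₀ G e E dg F t c hF hηF hG hG0 hE hE0 hc
  let η : Option (Option σ) → ℂ := fun o => o.elim 1 fun o' => o'.elim (aeval η₀ G)⁻¹ η₀
  let A' : ι → ν → Option (Option σ) → ℤ := fun m n o => o.elim 0 fun o' => o'.elim 0 (A m n)
  let R : MvPolynomial (Option (Option σ)) ℤ :=
    X (some none) * rename (fun s => some (some s)) G - X none ^ (e + 1)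
  let E' : Option κ → Polynomial (MvPolynomial (Option (Option σ)) ℤ) := fun o =>
    o.elim (Polynomial.C R * 1) fun k => (E k).map (eval₂Hom C fun s => X (some (some s)))
  have hA : ∀ x y, jl A' x y = jl A (mat x) y := fun x y => by
    funext m
    simp [jl, A', mat, Fintype.sum_option]
  have hR : ∀ (c' : ℂ) (x : Option (Option σ) → ℂ), val (E' none) c' x =
      x (some none) * aeval (mat x) G - x none ^ (e + 1) := fun c' x => by
    change val (Polynomial.C R * 1) c' x = _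
    rw [val_C_mul, val_one, mul_one]
    simp only [R, map_sub, map_mul, map_pow, aeval_X, aeval_rename]
    rfl
  have hE' : ∀ k (c' : ℂ) (x : Option (Option σ) → ℂ), val (E' (some k)) c' x =
      val (E k) c' (mat x) := fun k c' x => by
    change val ((E k).map (eval₂Hom C fun s => X (some (some s)))) c' x = _
    rw [val_map]
    simp only [aeval_X]
    rfl
  have hGF : aeval η₀ G ∈ F := by
    have : aeval η₀ G = ((aeval (fun s => (⟨η₀ s, hηF s⟩ : F)) G : F) : ℂ) := by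
      change _ = (algebraMap F ℂ).toIntAlgHom _
      rw [← AlgHom.comp_apply, comp_aeval]
      rfl
    rw [this]
    exact SetLike.coe_mem _
  obtain ⟨C, hC1, hC⟩ := core0 h A' η none E' (fun o => o.elim (e + 1) dg) F t c hF
    (by
      rintro (_ | _ | p)
      · exact one_mem F
      · exact inv_mem hGF
      · exact hηF p) rfl
    (by
      rintro (_ | k) c' l x
      · rw [hR, hR, show mat (l • x) = l • mat x from rfl, LT.aeval_smul_of_hom hG]
        simp only [Pi.smul_apply, smul_eq_mul, mul_pow, Option.elim]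
        ring
      · rw [hE', hE']
        exact hE k c' l _)
    (by
      rintro (_ | k)
      · rw [hR]
        change (aeval η₀ G)⁻¹ * aeval η₀ G - 1 ^ (e + 1) = 0
        rw [inv_mul_cancel₀ hG0, one_pow, sub_self]
      · rw [hE']
        exact hE0 k) hc
  refine ⟨C, hC1, fun N f τ V L hN hf hτ hL hform hV hord => hC N f τ V L hN hf hτ hL hform
    (fun y hy => by rw [hA]; exact hV y hy) fun x hx hEx hO => ?_⟩
  refine hord (mat x) (fun h0 => ?_) (fun k => by rw [← hE']; exact hEx _) ?_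
  · have := hEx none
    rw [hR, h0, mul_zero, zero_sub, neg_eq_zero] at this
    exact pow_ne_zero _ hx this
  · rintro _ ⟨y, rfl⟩
    exact hO _ ⟨y, hA x y⟩

end Pool.Agent.Lib.MP_caab05_ag.NC
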