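import Mathlib
import Pool.Agent.Lib.MP_caab05_ag.WZ.Defs

/-! Periods and quasi-periods of an abelian variety: definitions. -/

namespace Pool.Agent.Lib.MP_caab05_ag.NC

open MvPolynomial Complex Module
open Pool.Agent.Lib.MP_caab05_ag.LT (E)
open Pool.Agent.Lib.MP_caab05_ag.ZE (VX)
open Pool.Agent.Lib.MP_caab05_ag.WZ (EE zz col)

variable {d M : ℕ}

/-- periods and quasi-periods -/
noncomputable def lf (A : VX d M) (x : E d) : EE (Fin d) := Sum.elim x (A.H x)

/-- the auxiliary functions: a form in the theta functions times a sum of Landau levels -/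
noncomputable def cw (A : VX d M) (P : MvPolynomial (Fin (M + 1)) ℤ) (D : ℕ) (s : E d)
    (x : EE (Fin d)) : ℂ :=
  aeval (A.θ (zz x)) P * col (fun z => A.θ z 0) D s x

/-- the complex span of the lifted periods `y` -/
noncomputable def Jy (A : VX d M) {ν : Type} [Fintype ν] (y : ν → E d) (t : ν → ℂ) :
    EE (Fin d) := ∑ i, t i • lf A (y i)

/-- the complex span of the lifted vectors of `U` -/
noncomputable def SE (A : VX d M) (U : Submodule ℂ (E d)) : Submodule ℂ (EE (Fin d)) :=
  Submodule.span ℂ (lf A '' (U : Set (E d)))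

/-- the slope condition with slope `a / d` -/
structure AdmE (A : VX d M) (a : ℕ) (W : Submodule ℂ (EE (Fin d))) : Prop where
  dim : ∀ U, ZE.Rat A U →
    d * d + a * d + d * finrank ℂ U ≤ d * finrank ℂ ↥(W ⊔ SE A U) + a * finrank ℂ U
  hor : ∀ U, ZE.Rat A U → U ≠ ⊤ → ∃ w ∈ W, zz w ∉ U

/-- the dimension of the part of the real span of `y` which lies in `U` -/
noncomputable def dimIn {V ν : Type} [AddCommGroup V] [Module ℝ V] [Module ℂ V]
    [IsScalarTower ℝ ℂ V] (y : ν → V) (U : Submodule ℂ V) : ℕ :=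
  finrank ℝ ↥(U.restrictScalars ℝ ⊓ Submodule.span ℝ (Set.range y))

/-- the semistability condition which is used in the proof -/
structure Semi (A : VX d M) {ν : Type} [Fintype ν] (y : ν → E d) : Prop where
  le : ∀ U, ZE.Rat A U → d * dimIn y U ≤ Fintype.card ν * finrank ℂ U
  lt : ∀ U, ZE.Rat A U → U ≠ ⊥ → U ≠ ⊤ → dimIn y U + d < Fintype.card ν + finrank ℂ U

end Pool.Agent.Lib.MP_caab05_ag.NC
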