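import Mathlib
import Pool.Agent.Lib.MP_caab05_ag.NC.Defs
import Pool.Agent.Lib.MP_caab05_ag.NC.Core
import Pool.Agent.Lib.MP_caab05_ag.ZF.Defs
import Pool.Agent.Lib.MP_caab05_ag.LT.Defs5
import Pool.Agent.Lib.MP_caab05_ag.LT.AuxP

/-! Statements of the steps. -/

namespace Pool.Agent.Lib.MP_caab05_ag.NC

open MvPolynomial Filter Topology Asymptotics Complex Module
open Pool.Agent.Lib.MP_caab05_ag.LT (E AlgCoeff val sl)
open Pool.Agent.Lib.MP_caab05_ag.ZE (Ord VX)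
open Pool.Agent.Lib.MP_caab05_ag.WZ (EE zz uu col Form Arith)

/-! ### The Riemann form -/

/-- the hermitian form is anisotropic -/
def PosS : Prop :=
  ∀ (d M : ℕ) (A : VX d M) (γ : E d), (A.H γ ⬝ᵥ γ + A.H (I • γ) ⬝ᵥ (I • γ)).re = 0 → γ = 0

/-- the period matrix is invertible -/
def NondS : Prop :=
  ∀ (d M : ℕ) (A : VX d M), Submodule.span ℂ (lf A '' (A.Λ : Set (E d))) = ⊤

/-- complete reducibility -/
def PoinS : Prop :=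
  ∀ (d M : ℕ) (A : VX d M) (U : Submodule ℂ (E d)), ZE.Rat A U →
    ∃ (N : ℕ) (φ : E d →ₗ[ℂ] E d), 0 < N ∧ (∀ l ∈ A.Λ, φ l ∈ A.Λ) ∧
      (∀ u ∈ U, φ u = (N : ℂ) • u) ∧ ∀ z, φ z ∈ U

/-- endomorphisms act on periods and quasi-periods by algebraic matrices -/
def EndS : Prop :=
  ∀ (d M : ℕ) (A : VX d M), Arith A → Submodule.span ℂ (lf A '' (A.Λ : Set (E d))) = ⊤ →
    ∀ φ : E d →ₗ[ℂ] E d, (∀ l ∈ A.Λ, φ l ∈ A.Λ) →
    ∃ a : Matrix (Fin d ⊕ Fin d) (Fin d ⊕ Fin d) ℂ, (∀ m m', IsAlgebraic ℚ (a m m')) ∧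
      ∀ l ∈ A.Λ, lf A (φ l) = a.mulVec (lf A l)

/-- the lifted tangent spaces of the abelian subvarieties have algebraic equations -/
def AlgS : Prop :=
  ∀ (d M : ℕ) (A : VX d M), Arith A → ∀ U, ZE.Rat A U →
    ∃ a : Matrix (Fin d ⊕ Fin d) (Fin d ⊕ Fin d) ℂ, (∀ m m', IsAlgebraic ℚ (a m m')) ∧
      ∀ v, v ∈ SE A U ↔ a.mulVec v = 0

/-! ### The auxiliary function -/

/-- the auxiliary function -/
def AuxVS : Prop :=
  ∀ (d M : ℕ) (A : VX d M) (ν : Type) [Fintype ν] (y : ν → E d), (∀ i, y i ∈ A.Λ) →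
    LinearIndependent ℝ y → ∃ C : ℝ, 1 ≤ C ∧ ∀ (ι : Type) [Fintype ι]
    (P : ι → MvPolynomial (Fin (M + 1)) ℤ) (s : ι → E d) (n D : ℕ) (m V S : ℝ), 1 ≤ D → 1 ≤ m →
      (∀ i, (P i).IsHomogeneous n ∧ ∀ x : Fin (M + 1) → ℂ, ‖aeval x (P i)‖ ≤ ‖x‖ ^ n) →
      (∀ i, ‖s i‖ ≤ m) → C * (n + 1) ≤ V → D ≤ V → 1 ≤ S → S ≤ V →
      (Fintype.card ι : ℝ) ≤ Real.exp V → (D * m) ^ D ≤ Real.exp V →
      C * ((n : ℝ) + 1) ^ Fintype.card ν *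
        (D : ℝ) ^ (2 * (Fintype.card ν - finrank ℂ (Submodule.span ℂ (Set.range y)))) *
        V ^ (2 * finrank ℂ (Submodule.span ℂ (Set.range y)) - Fintype.card ν + 2) ≤
          (Fintype.card ι * S) ^ 2 →
      ∃ p : ι → ℤ, p ≠ 0 ∧ (∀ i, |(p i : ℝ)| ≤ Real.exp S) ∧ ∀ t : ν → ℂ, ‖t‖ ≤ 1 →
        ‖∑ i, (p i : ℂ) * cw A (P i) D (s i) (Jy A y t)‖ ≤ Real.exp (-V)

/-- the auxiliary functions are independent -/
def IndS : Prop :=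
  ∀ (d M : ℕ) (A : VX d M), ∃ s : Fin d → Fin (M + 1), ∀ (k m D : ℕ)
    (p : (Fin d → Fin (k + 1)) × (Fin d → Fin (m + 1)) → ℂ), d * m ≤ D →
    (∀ x, ∑ a, p a * cw A (LT.AuxPAux.mono s k a.1) D (fun j => ((a.2 j : ℕ) : ℂ)) x = 0) → p = 0

/-- the jets of the auxiliary function -/
def JetS : Prop :=
  ∀ (d M : ℕ) (A : VX d M), Arith A → ∀ S : Finset ℂ, (∀ α ∈ S, IsAlgebraic ℚ α) →
    ∃ (c : ℂ) (C : ℝ), IsIntegral ℤ c ∧ 1 ≤ C ∧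
    (∃ a : ℕ, 0 < a ∧ ∀ α ∈ S, ∃ q : Polynomial ℤ, (a : ℂ) * α = Polynomial.aeval c q) ∧
    ∀ (ι : Type) [Fintype ι] (P : ι → MvPolynomial (Fin (M + 1)) ℤ) (s : ι → Fin d → ℕ)
      (p : ι → ℤ) (k D n m : ℕ) (B : ℝ), 1 ≤ m → (∀ i j, s i j ≤ m) →
      (∀ i, (P i).IsHomogeneous k ∧ ∀ x : Fin (M + 1) → ℂ, ‖aeval x (P i)‖ ≤ ‖x‖ ^ k) →
      ∑ i, |(p i : ℝ)| ≤ B →
      Form c n (C ^ (k + D + n + 1))
        (B * C ^ (k + 1) * (C * m * (D + 1)) ^ D * (C * (n + 1)) ^ n)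
        fun w : EE (Fin d) => iteratedDeriv n
          (fun σ : ℂ => ∑ i, (p i : ℂ) * cw A (P i) D (fun j => (s i j : ℂ)) (σ • w)) 0

/-- the multiplicity estimate for the auxiliary functions -/
def BrS : Prop :=
  ∀ (d M : ℕ) (A : VX d M), ZF.ZEst A → ∀ a K : ℕ, a ≤ d → 0 < d → ∃ C : ℕ,
    ∀ (W : Submodule ℂ (EE (Fin d))) (ι : Type) [Fintype ι]
      (P : ι → MvPolynomial (Fin (M + 1)) ℤ) (s : ι → E d) (p : ι → ℂ) (n D : ℕ), AdmE A a W →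
      (∀ i, (P i).IsHomogeneous n) → (n + 1) ^ d ≤ K * (D + 1) ^ a →
      Differentiable ℂ (fun x => ∑ i, p i * cw A (P i) D (s i) x) ∧
      (Ord W (fun x => ∑ i, p i * cw A (P i) D (s i) x) 0 (C * (D + 1)) →
        ∀ x, ∑ i, p i * cw A (P i) D (s i) x = 0)

/-! ### The transcendence theorem -/

/-- the abstract form, for a linear family of subspaces -/
def MainGS : Prop :=
  ∀ (d M : ℕ) (A : VX d M) (ν σ κ : Type) [Fintype ν] [Fintype σ] [Fintype κ] (y : ν → E d)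
    (cf : Fin d ⊕ Fin d → ν → σ → ℤ) (η : σ → ℂ) (G : MvPolynomial σ ℤ) (e : ℕ)
    (eq : κ → σ → ℂ) (c : ℂ) (F : IntermediateField ℚ ℂ) (t : ℕ), Arith A → ZF.ZEst A →
    (∀ i, y i ∈ A.Λ) → LinearIndependent ℝ y → 0 < d → d ≤ Fintype.card ν →
    Algebra.trdeg ℚ F ≤ t → (∀ s, η s ∈ F) → G.IsHomogeneous e → aeval η G ≠ 0 →
    (∀ r s, IsAlgebraic ℚ (eq r s)) → (∀ r, ∑ s, eq r s * η s = 0) →
    ‖c‖ ≤ 1 → (∀ u, jl cf η u = Jy A y (c • u)) →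
    (∀ x : σ → ℂ, aeval x G ≠ 0 → (∀ r, ∑ s, eq r s * x s = 0) →
      AdmE A (Fintype.card ν - d) (Wl cf x)) →
    Fintype.card ν * (2 * d - Fintype.card ν) ≤
      t * d * (2 * finrank ℂ (Submodule.span ℂ (Set.range y)) - Fintype.card ν + 2)

/-- `B` is the `p`-th power of `A` -/
structure IsPow {d M d' M' p : ℕ} (A : VX d M) (B : VX d' M') (δ : Fin p × Fin d ≃ Fin d') :
    Prop where
  lat : ∀ z, z ∈ B.Λ ↔ ∀ j, sl δ z j ∈ A.Λ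
  H : ∀ z j, sl δ (B.H z) j = A.H (sl δ z j)

/-- all powers satisfy the multiplicity estimate -/
def Pw {d M : ℕ} (A : VX d M) : Prop :=
  ∀ p : ℕ, 0 < p → ∃ (d' M' : ℕ) (B : VX d' M') (δ : Fin p × Fin d ≃ Fin d'),
    IsPow A B δ ∧ Arith B ∧ ZF.ZEst B

/-- the periods `y` placed in the blocks of a power -/
def ypow {d d' p : ℕ} {ν : Type} (δ : Fin p × Fin d ≃ Fin d') (y : ν → E d) (i : Fin p × ν) :
    E d' := fun k => if (δ.symm k).1 = i.1 then y i.2 (δ.symm k).2 else 0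

/-- linear algebra on a power -/
def YpS : Prop :=
  ∀ (d M d' M' p : ℕ) (A : VX d M) (B : VX d' M') (δ : Fin p × Fin d ≃ Fin d') (ν : Type)
    [Fintype ν] (y : ν → E d), IsPow A B δ → (∀ i, y i ∈ A.Λ) → LinearIndependent ℝ y →
    (∀ U, ZE.Rat A U → d * dimIn y U ≤ Fintype.card ν * finrank ℂ U) →
    (∀ i, ypow δ y i ∈ B.Λ) ∧ LinearIndependent ℝ (ypow δ y) ∧
    finrank ℂ (Submodule.span ℂ (Set.range (ypow δ y))) =
      p * finrank ℂ (Submodule.span ℂ (Set.range y)) ∧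
    (∀ U, ZE.Rat B U → d * dimIn (ypow δ y) U ≤ Fintype.card ν * finrank ℂ U) ∧
    ∀ U, ZE.Rat B U → U ≠ ⊤ → ∃ (j : Fin p) (U₀ : Submodule ℂ (E d)), ZE.Rat A U₀ ∧ U₀ ≠ ⊤ ∧
      ∀ z : E d, z ∈ U₀ ↔ (fun k => if (δ.symm k).1 = j then z (δ.symm k).2 else 0) ∈ U

/-- the dimension count: `X` is a complex linear isomorphism from the complexified lattice -/
def DimS : Prop :=
  ∀ (d M : ℕ) (A : VX d M) (ν : Type) [Fintype ν] (y : ν → E d) (ξ : E d →ₗ[ℝ] EE (Fin d)),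
    (∀ i, y i ∈ A.Λ) → LinearIndependent ℝ y → Submodule.span ℂ (Set.range ξ) = ⊤ →
    ∀ U : Submodule ℂ (E d), Fintype.card ν + 2 * finrank ℂ U ≤
      finrank ℂ ↥(Submodule.span ℂ (Set.range fun i => ξ (y i)) ⊔
        Submodule.span ℂ (ξ '' (U : Set (E d)))) + dimIn y U

/-- the theorem for one abelian variety -/
def TwoS : Prop :=
  ∀ (d M : ℕ) (A : VX d M) (ν : Type) [Fintype ν] (y : ν → E d) (c : ℂ)
    (F : IntermediateField ℚ ℂ) (t : ℕ), Pw A → (∀ i, y i ∈ A.Λ) → LinearIndependent ℝ y →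
    0 < d → d ≤ Fintype.card ν → Semi A y → c ≠ 0 → (∀ l ∈ A.Λ, ∀ m, c * lf A l m ∈ F) →
    Algebra.trdeg ℚ F ≤ t →
    Fintype.card ν * (2 * d - Fintype.card ν) ≤
      t * d * (2 * finrank ℂ (Submodule.span ℂ (Set.range y)) - Fintype.card ν)

/-- products of simple abelian varieties -/
def ProdS : Prop :=
  ∀ (K : Type) [Fintype K] (g M : K → ℕ) (A : ∀ i, VX (g i) (M i)), (∀ i, (A i).Simple) →
    (∀ i, Arith (A i)) → ∃ (d M' : ℕ) (B : VX d M') (e : (Σ i, Fin (g i)) ≃ Fin d),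
      Arith B ∧ ZF.ZEst B ∧ (∀ z, z ∈ B.Λ ↔ ∀ i, (fun j => z (e ⟨i, j⟩)) ∈ (A i).Λ) ∧
      ∀ x i j, B.H x (e ⟨i, j⟩) = (A i).H (fun j => x (e ⟨i, j⟩)) j

/-- kernels of homomorphisms are tangent spaces of abelian subvarieties -/
def KerS : Prop :=
  ∀ (d M d' M' : ℕ) (A : VX d M) (B : VX d' M') (φ : E d →ₗ[ℂ] E d'), (∀ l ∈ A.Λ, φ l ∈ B.Λ) →
    ZE.Rat A (LinearMap.ker φ)

/-- the theorem for a product of simple abelian varieties -/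
def FinS : Prop :=
  ∀ (K : Type) [Fintype K] (g M : K → ℕ) (A : ∀ i, VX (g i) (M i)) (ν : Type) [Fintype ν]
    (y : ν → ∀ i, E (g i)) (c : ℂ) (F : IntermediateField ℚ ℂ) (t : ℕ),
    (∀ i, (A i).Simple ∧ Arith (A i)) → (∀ j i, y j i ∈ (A i).Λ) → LinearIndependent ℝ y →
    0 < ∑ i, g i → ∑ i, g i ≤ Fintype.card ν →
    (∀ U : Submodule ℂ (∀ i, E (g i)),
      Submodule.span ℝ {x | x ∈ U ∧ ∀ i, x i ∈ (A i).Λ} = U.restrictScalars ℝ → U ≠ ⊥ → U ≠ ⊤ →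
      (∑ i, g i) * dimIn y U < Fintype.card ν * finrank ℂ U) →
    c ≠ 0 → (∀ i, ∀ l ∈ (A i).Λ, ∀ m, c * lf (A i) l m ∈ F) → Algebra.trdeg ℚ F ≤ t →
    Fintype.card ν * (2 * (∑ i, g i) - Fintype.card ν) ≤
      t * (∑ i, g i) * (2 * finrank ℂ (Submodule.span ℂ (Set.range y)) - Fintype.card ν)

/-- abelian varieties without endomorphisms -/
def GenS : Prop :=
  ∀ (g M : ℕ) (A : VX g M) (c : ℂ) (F : IntermediateField ℚ ℂ), Arith A → 2 ≤ g →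
    (∀ φ : E g →ₗ[ℂ] E g, (∀ l ∈ A.Λ, φ l ∈ A.Λ) → ∃ n : ℤ, ∀ z, φ z = (n : ℂ) • z) →
    c ≠ 0 → (∀ l ∈ A.Λ, ∀ m, c * lf A l m ∈ F) → 3 ≤ Algebra.trdeg ℚ F

end Pool.Agent.Lib.MP_caab05_ag.NC
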