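import Mathlib
import Pool.Agent.Lib.MP_caab05_ag.NC.Stmt
import Pool.Agent.Lib.MP_caab05_ag.LT.Quad

/-! The hermitian form is anisotropic and the period matrix is invertible. -/

namespace Pool.Agent.Lib.MP_caab05_ag.NC

open Filter Topology Complex Matrix
open Pool.Agent.Lib.MP_caab05_ag.LT (E)
open Pool.Agent.Lib.MP_caab05_ag.ZE (VX)
open Pool.Agent.Lib.MP_caab05_ag.WZ (EE)

namespace PosAux

variable {d M : ℕ}

/-- the real bilinear form -/
noncomputable def bR (A : VX d M) : E d →ₗ[ℝ] E d →ₗ[ℝ] ℝ :=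
  LinearMap.mk₂ ℝ (fun x y => (A.H x ⬝ᵥ y).re) (fun x x' y => by simp [add_dotProduct])
    (fun c x y => by simp [smul_dotProduct]) (fun x y y' => by simp [dotProduct_add])
    fun c x y => by simp [dotProduct_smul]

lemma bR_apply (A : VX d M) (x y : E d) : bR A x y = (A.H x ⬝ᵥ y).re := rfl

lemma symm (A : VX d M) (x y : E d) : bR A x y = bR A y x := by
  obtain ⟨ι, _, b, hb⟩ := LT.exists_basis A.toAbVar
  have hm : ∀ j, b j ∈ A.Λ := fun j => hb ▸ Submodule.subset_span ⟨j, rfl⟩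
  have s0 : bR A = (bR A).flip := LinearMap.ext_basis b b fun j k =>
    LT.QuadAux.symm_re A.toAbVar (a := dotProductBilin ℂ ℂ (A.H (b j)))
      (a' := dotProductBilin ℂ ℂ (A.H (b k))) (A.law _ (hm j)) (A.law _ (hm k))
  conv_lhs => rw [s0]
  rfl

/-- the growth of the theta functions -/
lemma growth (A : VX d M) : ∃ (L : E d →ₗ[ℝ] ℝ) (c : ℝ), ∀ z,
    ‖A.θ z‖ ≤ c * Real.exp (bR A z z / 2 + L z) := by
  obtain ⟨ι, _, b, hb⟩ := LT.exists_basis A.toAbVar
  have hm : ∀ j, b j ∈ A.Λ := fun j => hb ▸ Submodule.subset_span ⟨j, rfl⟩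
  let L : E d →ₗ[ℝ] ℝ := b.constr ℝ fun j => (A.β (b j)).re - bR A (b j) (b j) / 2
  have eL : ∀ j, L (b j) = (A.β (b j)).re - bR A (b j) (b j) / 2 := fun j => b.constr_basis ℝ _ j
  let q : E d → ℝ := fun z => bR A z z / 2 + L z
  have hq : Continuous q := by
    have h1 := A.H.continuous_of_finiteDimensional
    refine Continuous.add ?_ L.continuous_of_finiteDimensional
    simp only [bR_apply, dotProduct]
    fun_prop
  have hP : ∀ l ∈ A.Λ, LT.QuadAux.Pr A.toAbVar q l := fun l hl => by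
    refine LT.QuadAux.Pr.span (s := Set.range b) ?_ (hb ▸ hl)
    rintro _ ⟨j, rfl⟩ z
    refine ⟨_, A.law _ (hm j) z, ?_⟩
    rw [Complex.norm_exp, Complex.add_re, ← bR_apply]
    congr 1
    simp only [q, map_add, LinearMap.add_apply, eL, symm A z (b j)]
    ring
  obtain ⟨R, hR⟩ := LT.exists_fund A.toAbVar
  have hF : Continuous fun z => ‖A.θ z‖ * Real.exp (-q z) :=
    A.holo.continuous.norm.mul (Real.continuous_exp.comp hq.neg)
  obtain ⟨C, hC⟩ := (isCompact_closedBall (0 : E d) R).bddAbove_image hF.continuousOn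
  refine ⟨L, C, fun z => ?_⟩
  obtain ⟨l, hl, hz⟩ := hR z
  obtain ⟨κ, h1, h2⟩ := hP l hl (z - l)
  rw [sub_add_cancel] at h1 h2
  have h3 : ‖A.θ (z - l)‖ * Real.exp (-q (z - l)) ≤ C :=
    hC ⟨z - l, mem_closedBall_zero_iff.2 hz, rfl⟩
  calc ‖A.θ z‖ = ‖A.θ (z - l)‖ * Real.exp (-q (z - l)) * Real.exp (q z) := by
        rw [h1, norm_smul, h2, mul_assoc, ← Real.exp_add, mul_comm]
        congr 2
        ring
    _ ≤ _ := mul_le_mul_of_nonneg_right h3 (Real.exp_pos _).le

/-- the lift is real linear -/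
noncomputable def lfR (A : VX d M) : E d →ₗ[ℝ] EE (Fin d) where
  toFun := lf A
  map_add' x y := by
    funext m
    rcases m with m | m <;> simp [lf]
  map_smul' c x := by
    funext m
    rcases m with m | m <;> simp [lf]

lemma lfR_apply (A : VX d M) (x : E d) : lfR A x = lf A x := rfl

end PosAux

open PosAux

theorem posS : PosS := by
  intro d M A γ h
  obtain ⟨L, c, hc⟩ := growth A
  rw [Complex.add_re, ← bR_apply, ← bR_apply] at h
  let α : ℂ := ⟨bR A γ γ / 2, -(bR A γ (I • γ) / 2)⟩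
  let ρ : ℂ := ⟨L γ, -L (I • γ)⟩
  have hq : ∀ τ : ℂ, bR A (τ • γ) (τ • γ) / 2 + L (τ • γ) = (α * τ ^ 2 + ρ * τ).re := fun τ => by
    have e : τ • γ = τ.re • γ + τ.im • (I • γ) := by
      ext i
      simp only [Pi.smul_apply, Pi.add_apply, smul_eq_mul, Complex.real_smul]
      conv_lhs => rw [← Complex.re_add_im τ]
      ring
    rw [e]
    simp only [map_add, map_smul, LinearMap.add_apply, LinearMap.smul_apply, smul_eq_mul, sq,
      Complex.add_re, Complex.mul_re, Complex.mul_im, symm A (I • γ) γ, α, ρ]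
    linear_combination τ.im ^ 2 / 2 * h
  let g : ℂ → Fin (M + 1) → ℂ := fun τ => cexp (-(α * τ ^ 2 + ρ * τ)) • A.θ (τ • γ)
  have hg : Differentiable ℂ g :=
    Differentiable.smul (c := fun τ : ℂ => cexp (-(α * τ ^ 2 + ρ * τ))) (by fun_prop)
      (A.holo.comp (differentiable_id.smul_const γ))
  have hb : Bornology.IsBounded (Set.range g) := by
    refine isBounded_iff_forall_norm_le.2 ⟨c, ?_⟩
    rintro _ ⟨τ, rfl⟩
    have h1 := hc (τ • γ)
    rw [hq] at h1
    rw [norm_smul, Complex.norm_exp, Complex.neg_re, Real.exp_neg,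
      inv_mul_le_iff₀ (Real.exp_pos _), mul_comm]
    exact h1
  have hm : ∀ τ : ℂ, τ • γ ∈ A.Λ := fun τ => by
    have h1 := hg.apply_eq_apply_of_bounded hb 0 τ
    have h2 := A.inj 0 (τ • γ) (cexp (-(α * τ ^ 2 + ρ * τ))) (by simpa [g] using h1)
    simpa using h2
  have := A.discrete
  have h3 := PreconnectedSpace.constant (α := ℂ) inferInstance
    (f := fun τ : ℂ => (⟨τ • γ, hm τ⟩ : A.Λ)) (Continuous.subtype_mk (by fun_prop) _)
    (x := 1) (y := 0)
  simpa using congrArg Subtype.val h3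

theorem nondS (h : PosS) : NondS := by
  intro d M A
  by_contra hne
  obtain ⟨f, hf0, hf⟩ := Submodule.exists_le_ker_of_lt_top _ (lt_top_iff_ne_top.2 hne)
  have h1 : (f.restrictScalars ℝ ∘ₗ lfR A) = 0 :=
    LinearMap.ext_on A.span_top fun l hl => hf (Submodule.subset_span ⟨l, hl, rfl⟩)
  let al : E d := fun k => f (Pi.single (.inl k) 1)
  let ga : E d := fun k => f (Pi.single (.inr k) 1)
  have hf' : ∀ v, f v = (fun k => v (.inl k)) ⬝ᵥ al + (fun k => v (.inr k)) ⬝ᵥ ga := fun v => by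
    rw [LinearMap.pi_apply_eq_sum_univ f v, Fintype.sum_sum_type]
    simp only [dotProduct, al, ga, smul_eq_mul]
    congr 1 <;> refine Finset.sum_congr rfl fun k _ => ?_ <;> congr 2 <;> funext j <;>
      simp [Pi.single_apply, eq_comm]
  have h2 : ∀ x, x ⬝ᵥ al + A.H x ⬝ᵥ ga = 0 := fun x => by
    have : f (lf A x) = 0 := LinearMap.congr_fun h1 x
    rw [hf'] at this
    exact this
  have h3 : ga = 0 := h d M A ga (by
    have e1 := h2 ga
    have e2 := h2 (I • ga)
    rw [smul_dotProduct, smul_eq_mul] at e2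
    have : A.H ga ⬝ᵥ ga + A.H (I • ga) ⬝ᵥ (I • ga) = 0 := by
      rw [dotProduct_smul, smul_eq_mul]
      linear_combination e1 + I * e2 - (ga ⬝ᵥ al) * I_mul_I
    rw [this, Complex.zero_re])
  have h4 : al = 0 := funext fun k => by simpa [h3] using h2 (Pi.single k 1)
  exact hf0 (LinearMap.ext fun v => by simp [hf', h3, h4])

end Pool.Agent.Lib.MP_caab05_ag.NC
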