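import Mathlib
import Pool.Agent.Lib.MP_caab05_ag.NC.Pos

/-! Algebraic equations for the lifted tangent spaces of the abelian subvarieties. -/

namespace Pool.Agent.Lib.MP_caab05_ag.NC

open Matrix PosAux

theorem algS (h1 : NondS) (h2 : PoinS) (h3 : EndS) : AlgS := by
  intro d M A hA U hU
  obtain ⟨N, φ, hN, hφ, hφU, hφ'⟩ := h2 d M A U hU
  obtain ⟨a, ha, hl⟩ := h3 d M A hA (h1 d M A) φ hφ
  refine ⟨a - (N : ℂ) • 1, fun m m' => (ha m m').sub ?_, fun v => ⟨fun hv => ?_, fun hv => ?_⟩⟩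
  · rw [Matrix.smul_apply, Matrix.one_apply]
    split_ifs
    · simpa using isAlgebraic_natCast N
    · simpa using isAlgebraic_zero
  · have h4 : SE A U ≤ LinearMap.ker (a - (N : ℂ) • 1).mulVecLin := by
      refine Submodule.span_le.2 ?_
      rintro _ ⟨u, hu, rfl⟩
      have h5 : Submodule.span ℝ ((U : Set _) ∩ (A.Λ : Set _)) ≤
          LinearMap.ker (((a - (N : ℂ) • 1).mulVecLin.restrictScalars ℝ) ∘ₗ lfR A) := by
        refine Submodule.span_le.2 fun l hl' => ?_
        change (a - (N : ℂ) • 1) *ᵥ lf A l = 0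
        rw [sub_mulVec, ← hl l hl'.2, hφU l hl'.1, smul_mulVec, one_mulVec, ← lfR_apply,
          ← lfR_apply, Nat.cast_smul_eq_nsmul, Nat.cast_smul_eq_nsmul, map_nsmul, sub_self]
      exact h5 (hU.ge hu)
    exact h4 hv
  · have h4 : (⊤ : Submodule ℂ _) ≤ (SE A U).comap a.mulVecLin := by
      rw [← h1 d M A]
      refine Submodule.span_le.2 ?_
      rintro _ ⟨l, hl', rfl⟩
      change a *ᵥ lf A l ∈ SE A U
      rw [← hl l hl']
      exact Submodule.subset_span ⟨_, hφ' l, rfl⟩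
    have h5 : a *ᵥ v ∈ SE A U := h4 Submodule.mem_top
    rw [sub_mulVec, smul_mulVec, one_mulVec, sub_eq_zero] at hv
    rw [hv] at h5
    exact (Submodule.smul_mem_iff _ (Nat.cast_ne_zero.2 hN.ne')).1 h5

end Pool.Agent.Lib.MP_caab05_ag.NC
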