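import Mathlib
import Pool.Agent.Lib.MP_caab05_ag.WZ.Tube

/-! Growth away from the real points, for a general quadratic weight. -/

namespace Pool.Agent.Lib.MP_caab05_ag.NC

open Complex
open Pool.Agent.Lib.MP_caab05_ag.LT (Quadr)

variable {ν : Type} [Fintype ν]

/-- entire functions of controlled growth which are polynomials of degree at most `T` in the
directions of `P` -/
structure Ent (P : Submodule ℂ (ν → ℂ)) (c : ℝ) (T : ℕ) (V : ℝ) (Q : (ν → ℂ) → ℝ)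
    (G : (ν → ℂ) → ℂ) : Prop where
  hol : Differentiable ℂ G
  quad : Quadr c Q
  pure : ∀ y, ∀ v ∈ P, Q (y + v) = Q y
  poly : ∀ y, ∀ v ∈ P, ∃ p : Polynomial ℂ, p.natDegree ≤ T ∧ ∀ s : ℂ, G (y + s • v) = p.eval s
  bd : ∀ y, ‖G y‖ ≤ Real.exp (Q y + V + c * ‖y - star y‖)

namespace TubeAux

variable {P : Submodule ℂ (ν → ℂ)} {c V μ : ℝ} {T : ℕ} {Q : (ν → ℂ) → ℝ} {G : (ν → ℂ) → ℂ}

theorem quad (hc : 0 ≤ c) (h : Quadr c Q) (x w : ν → ℂ) (hw : ‖w‖ ≤ 1) :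
    ∃ (a b : ℂ) (γ : ℝ), |γ| ≤ c ∧
      ∀ σ : ℂ, Q (x + σ • w) = Q x + (b * σ).re + γ * ‖σ‖ ^ 2 + (a * σ ^ 2).re := by
  obtain ⟨α, β, γ, -, h2, h3⟩ := h x w
  refine ⟨α - (γ / 2 : ℝ), β, γ / 2, ?_, fun σ => ?_⟩
  · have k : c * ‖w‖ ^ 2 ≤ c := mul_le_of_le_one_right hc (pow_le_one₀ (norm_nonneg _) hw)
    rw [abs_div, abs_two]
    linarith [abs_nonneg γ]
  · rw [h3, ← normSq_eq_norm_sq]
    simp only [normSq_apply, add_re, mul_re, mul_im, pow_two, sub_re, sub_im, ofReal_re, ofReal_im]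
    ring

theorem unit (p : ν → ℂ) {t : ℝ} (ht : 0 ≤ t) (hp : ‖p‖ ≤ t) :
    ∃ r : ℝ, ‖(r : ℂ) • p‖ ≤ 1 ∧ (t : ℂ) • (r : ℂ) • p = p := by
  rcases ht.eq_or_lt with rfl | h0
  · exact ⟨0, by simp, by simp [norm_le_zero_iff.1 hp]⟩
  · refine ⟨t⁻¹, ?_, ?_⟩
    · rw [norm_smul, norm_real, Real.norm_eq_abs, abs_of_pos (inv_pos.2 h0), inv_mul_le_iff₀ h0,
        mul_one]
      exact hp
    · rw [smul_smul, ← ofReal_mul, mul_inv_cancel₀ h0.ne', ofReal_one, one_smul]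

theorem twist {F : ℂ} {a m u : ℝ} {z : ℂ} (hz : z.re = a) :
    ‖F * cexp (-z)‖ ≤ m * Real.exp u ↔ ‖F‖ ≤ m * Real.exp (u + a) := by
  rw [norm_mul, norm_exp, neg_re, hz, Real.exp_neg, ← div_eq_mul_inv, div_le_iff₀ (Real.exp_pos _),
    Real.exp_add, mul_assoc]

/-- the first step -/
theorem step (hc : 0 ≤ c) (hT : 1 ≤ T) (hG : Ent P c T V Q G) (hμ : 0 ≤ μ)
    (hU : ∀ a, star a = a → ‖G a‖ ≤ μ * Real.exp (Q a)) {ρ p : ν → ℂ} (hρ : star ρ = ρ)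
    (hp : p ∈ P) {t : ℝ} (ht : 0 ≤ t) (h1 : ‖p‖ ≤ t) :
    ‖G (ρ + p)‖ ≤ μ * Real.exp (Q (ρ + p) + (c + 1) * (√T * t)) := by
  obtain ⟨r, e1, e3⟩ := unit p ht h1
  have e2 : (r : ℂ) • p ∈ P := P.smul_mem _ hp
  generalize (r : ℂ) • p = e at e1 e2 e3
  obtain ⟨a, b, γ, hγ, hq⟩ := quad hc hG.quad ρ (star e) (by rwa [norm_star])
  have H := WZ.TubeAux.circle
    (f := fun ζ s => G (ρ + ζ • star e + s • e) * cexp (-(a * ζ ^ 2))) hT
    (fun s => (hG.hol.comp (f := fun ζ : ℂ => ρ + ζ • star e + s • e) (by fun_prop)).mul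
      (by fun_prop))
    (fun ζ => by
      obtain ⟨R, r1, r2⟩ := hG.poly (ρ + ζ • star e) e e2
      refine ⟨R * Polynomial.C (cexp (-(a * ζ ^ 2))),
        (Polynomial.natDegree_mul_C_le _ _).trans r1, fun s => ?_⟩
      rw [r2, Polynomial.eval_mul, Polynomial.eval_C])
    (q := Q ρ) (b := b) hμ hγ ht
    (fun ζ => by
      rw [twist rfl, ← hq, ← hG.pure _ _ (P.smul_mem (starRingEnd ℂ ζ) e2)]
      refine hU _ ?_
      rw [star_add, star_add, star_smul, star_smul, star_star, hρ, add_right_comm]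
      simp)
  simp only [zero_smul, add_zero, e3, ne_eq, OfNat.ofNat_ne_zero, not_false_eq_true, zero_pow,
    mul_zero, neg_zero, exp_zero, mul_one] at H
  rwa [hG.pure _ _ hp]

end TubeAux

open TubeAux in
/-- growth away from the real points -/
theorem tube {P : Submodule ℂ (ν → ℂ)} {c V μ : ℝ} {T : ℕ} {Q : (ν → ℂ) → ℝ} {G : (ν → ℂ) → ℂ}
    (hc : 0 ≤ c) (hT : 1 ≤ T) (hV : 1 ≤ V) (hG : Ent P c T V Q G) (hμ : Real.exp (-V) ≤ μ)
    (hU : ∀ a, star a = a → ‖G a‖ ≤ μ * Real.exp (Q a)) {ρ p w : ν → ℂ} (hρ : star ρ = ρ)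
    (hp : p ∈ P) (hw : star w = w) {t₁ t₂ : ℝ} (a2 : t₁ ≤ √V) (b2 : t₂ ≤ √V) (h1 : ‖p‖ ≤ t₁)
    (h2 : ‖w‖ ≤ t₂) :
    ‖G (ρ + p + I • w)‖ ≤
      μ * Real.exp (Q (ρ + p + I • w) + (2 + 8 * c) * (√T * t₁ + √V * t₂)) := by
  have a1 : 0 ≤ t₁ := (norm_nonneg _).trans h1
  have b1 : 0 ≤ t₂ := (norm_nonneg _).trans h2
  have hμ0 : 0 < μ := (Real.exp_pos _).trans_le hμ
  obtain ⟨v, hv⟩ : ∃ v : ℝ, v = √V := ⟨_, rfl⟩
  have v1 : 1 ≤ v := hv ▸ Real.one_le_sqrt.2 hV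
  have v2 : v ^ 2 = V := hv ▸ Real.sq_sqrt (by linarith)
  rw [← hv] at a2 b2 ⊢
  obtain ⟨r, e1, e3⟩ := unit w b1 h2
  have e2 : star ((r : ℂ) • w) = (r : ℂ) • w := by
    rw [star_smul, hw]
    simp
  generalize (r : ℂ) • w = e at e1 e2 e3
  obtain ⟨a, b, γ, hγ, hq⟩ := quad hc hG.quad (ρ + p) e e1
  have p1 : 0 ≤ √T * t₁ := by positivity
  have H := WZ.TubeAux.lines (F := fun σ => G (ρ + p + σ • e) * cexp (-(a * σ ^ 2)))
    ((hG.hol.comp (f := fun σ : ℂ => ρ + p + σ • e) (by fun_prop)).mul (by fun_prop))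
    (μ := μ * Real.exp ((c + 1) * (√T * t₁))) (q := Q (ρ + p))
    (b := b) (L := 1 + 4 * c) hγ (by linarith) b1 b2
    (v2 ▸ hμ.trans (le_mul_of_one_le_right hμ0.le (Real.one_le_exp (by positivity))))
    (fun σ hσ => by
      rw [twist rfl, ← hq, mul_assoc, ← Real.exp_add, add_comm _ (Q _), add_right_comm ρ]
      refine step hc hT hG hμ0.le hU ?_ hp a1 h1
      rw [star_add, star_smul, hρ, e2]
      congr 2
      exact conj_eq_iff_im.2 hσ)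
    (fun σ k0 k1 => by
      rw [← one_mul (Real.exp _), twist rfl, one_mul, add_right_comm _ _ (a * σ ^ 2).re, ← hq]
      refine (hG.bd _).trans (Real.exp_le_exp.2 ?_)
      have k3 : ρ + p + σ • e - star (ρ + p + σ • e) =
          p - star p + (σ - starRingEnd ℂ σ) • e := by
        rw [star_add, star_add, star_smul, hρ, e2, sub_smul]
        simp only [RCLike.star_def]
        abel
      have k4 : ‖(σ - starRingEnd ℂ σ) • e‖ ≤ 2 * v := by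
        rw [sub_conj, norm_smul, norm_mul, norm_I, norm_real, Real.norm_eq_abs,
          abs_of_nonneg (by linarith)]
        nlinarith [norm_nonneg e]
      have k5 : ‖p - star p‖ ≤ 2 * v := by
        refine (norm_sub_le _ _).trans ?_
        rw [norm_star]
        linarith
      have k2 : ‖ρ + p + σ • e - star (ρ + p + σ • e)‖ ≤ 4 * v ^ 2 := by
        rw [k3]
        nlinarith [norm_add_le (p - star p) ((σ - starRingEnd ℂ σ) • e)]
      nlinarith [mul_le_mul_of_nonneg_left k2 hc])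
  rw [twist rfl, add_right_comm _ _ (a * _).re, ← hq, mul_smul, e3, mul_assoc,
    ← Real.exp_add] at H
  refine H.trans (mul_le_mul_of_nonneg_left (Real.exp_le_exp.2 ?_) hμ0.le)
  nlinarith [mul_nonneg hc p1]

end Pool.Agent.Lib.MP_caab05_ag.NC
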