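import Mathlib
import Pool.Agent.Lib.MP_caab05_ag.NC.Tube
import Pool.Agent.Lib.MP_caab05_ag.LT.Net

/-! Sampling on an anisotropic net of real points, for a general quadratic weight. -/

namespace Pool.Agent.Lib.MP_caab05_ag.NC

open Complex Module
open Pool.Agent.Lib.MP_caab05_ag.LT (Quadr)

variable {ν : Type} [Fintype ν]

namespace NetAux

theorem grid (E : Type) [NormedAddCommGroup E] [NormedSpace ℝ E] [FiniteDimensional ℝ E] :
    ∃ C : ℝ, 1 ≤ C ∧ ∀ R a : ℝ, 1 ≤ R → 1 ≤ a → ∃ s : Finset E,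
      (s.card : ℝ) ≤ (C * R * a) ^ finrank ℝ E ∧ ∀ x, ‖x‖ ≤ R → ∃ y ∈ s, ‖x - y‖ ≤ 1 / a := by
  classical
  let e : E ≃L[ℝ] (Fin (finrank ℝ E) → ℝ) := (Module.finBasis ℝ E).equivFunL
  obtain ⟨A, hA0, hA⟩ := (e : E →L[ℝ] (Fin (finrank ℝ E) → ℝ)).bound
  obtain ⟨B, hB0, hB⟩ := (e.symm : (Fin (finrank ℝ E) → ℝ) →L[ℝ] E).bound
  have hAB : 0 < A * B := mul_pos hA0 hB0
  refine ⟨2 * (A * B) + 5, by linarith, fun R a hR ha => ?_⟩
  obtain ⟨s, h1, h2⟩ := LT.NetAux.grid1 (h := 1 / (B * a)) (R := A * R) (by positivity)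
    (by positivity)
  refine ⟨(Fintype.piFinset fun _ => s).image e.symm, ?_, fun x hx => ?_⟩
  · refine (Nat.cast_le.2 Finset.card_image_le).trans ?_
    rw [Fintype.card_piFinset, Finset.prod_const, Finset.card_univ, Fintype.card_fin, Nat.cast_pow]
    refine pow_le_pow_left₀ (Nat.cast_nonneg _) (h1.trans ?_) _
    have e1 : 2 * (A * R) / (1 / (B * a)) = 2 * (A * B) * (R * a) := by field_simp
    have e2 : 1 ≤ R * a := one_le_mul_of_one_le_of_one_le hR ha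
    rw [e1]
    nlinarith
  · have k : ∀ i, ∃ y ∈ s, |e x i - y| ≤ 1 / (B * a) := fun i => h2 _
      ((norm_le_pi_norm (e x) i).trans ((hA x).trans (mul_le_mul_of_nonneg_left hx hA0.le)))
    choose y y1 y2 using k
    refine ⟨e.symm y, Finset.mem_image_of_mem _ (Fintype.mem_piFinset.2 y1), ?_⟩
    have e1 : x - e.symm y = e.symm (e x - y) := by simp
    have e2 : ‖e x - y‖ ≤ 1 / (B * a) :=
      (pi_norm_le_iff_of_nonneg (by positivity)).2 fun i => y2 i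
    rw [e1]
    refine (hB _).trans ((mul_le_mul_of_nonneg_left e2 hB0.le).trans_eq ?_)
    field_simp

/-- the real vector with given coordinates -/
def ofR (u : ν → ℝ) : ν → ℂ := fun i => u i

omit [Fintype ν] in
theorem star_ofR (u : ν → ℝ) : star (ofR u) = ofR u := funext fun i => by simp [ofR]

theorem norm_ofR (u : ν → ℝ) : ‖ofR u‖ = ‖u‖ := by
  simp [Pi.norm_def, ofR]

omit [Fintype ν] in
theorem real_eq {u : ν → ℂ} (hu : star u = u) : u = ofR fun i => (u i).re :=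
  funext fun i => (conj_eq_iff_re.1 (congrFun hu i)).symm

/-- splitting of the real vectors -/
theorem split (P : Submodule ℂ (ν → ℂ)) (hP : ∀ v ∈ P, star v ∈ P → v = 0) :
    ∃ (K : Submodule ℝ (ν → ℝ)) (C : ℝ), 1 ≤ C ∧
      finrank ℝ K + 2 * finrank ℂ P = Fintype.card ν ∧ ∀ u : ν → ℝ, ∃ (π : P) (w : K),
        ofR u = (π : ν → ℂ) + star (π : ν → ℂ) + ofR (w : ν → ℝ) ∧ ‖π‖ ≤ C * ‖u‖ ∧ ‖w‖ ≤ C * ‖u‖ := by
  let φ : P →ₗ[ℝ] (ν → ℝ) :=
    { toFun := fun π i => 2 * ((π : ν → ℂ) i).re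
      map_add' := fun x y => funext fun i => by simp [mul_add]
      map_smul' := fun r x => funext fun i => by simp [mul_left_comm] }
  have hφ : ∀ π : P, ofR (φ π) = (π : ν → ℂ) + star (π : ν → ℂ) := fun π => funext fun i => by
    simp only [ofR, φ, LinearMap.coe_mk, AddHom.coe_mk, Pi.add_apply, Pi.star_apply,
      RCLike.star_def, add_conj]
  have hi : LinearMap.ker φ = ⊥ := LinearMap.ker_eq_bot'.2 fun π h => by
    have k := hφ π
    rw [h] at k
    have k2 : star (π : ν → ℂ) = -(π : ν → ℂ) := by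
      refine eq_neg_of_add_eq_zero_right (k.symm.trans ?_)
      funext i
      simp [ofR]
    exact Subtype.ext (hP _ π.2 (k2 ▸ P.neg_mem π.2))
  obtain ⟨g, hg⟩ := φ.exists_leftInverse_of_injective hi
  have hg' : ∀ π, g (φ π) = π := fun π => LinearMap.congr_fun hg π
  let ω : (ν → ℝ) →ₗ[ℝ] LinearMap.ker g :=
    (LinearMap.id - φ ∘ₗ g).codRestrict _ fun u => by simp [hg']
  obtain ⟨A, hA0, hA⟩ := (LinearMap.toContinuousLinearMap g).bound
  obtain ⟨B, hB0, hB⟩ := (LinearMap.toContinuousLinearMap ω).bound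
  refine ⟨LinearMap.ker g, 1 + A + B, by linarith, ?_, fun u => ⟨g u, ω u, ?_, ?_, ?_⟩⟩
  · have k := g.finrank_range_add_finrank_ker
    rw [LinearMap.range_eq_top.2 fun π => ⟨φ π, hg' π⟩, finrank_top, finrank_real_of_complex,
      finrank_fintype_fun_eq_card] at k
    omega
  · rw [← hφ]
    funext i
    simp [ofR, ω]
  · exact (hA u).trans (mul_le_mul_of_nonneg_right (by linarith) (norm_nonneg _))
  · exact (hB u).trans (mul_le_mul_of_nonneg_right (by linarith) (norm_nonneg _))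

/-- the net -/
theorem cover (P : Submodule ℂ (ν → ℂ)) (hP : ∀ v ∈ P, star v ∈ P → v = 0) :
    ∃ C : ℝ, 1 ≤ C ∧ 2 * finrank ℂ P ≤ Fintype.card ν ∧ ∀ R a b : ℝ, 1 ≤ R → 1 ≤ a → 1 ≤ b →
      ∃ s : Finset (ν → ℂ), (∀ q ∈ s, star q = q) ∧
      (s.card : ℝ) ≤ (C * R * a) ^ (2 * finrank ℂ P) *
        (C * R * b) ^ (Fintype.card ν - 2 * finrank ℂ P) ∧
      ∀ u, star u = u → ‖u‖ ≤ R → ∃ q ∈ s, ∃ π ∈ P, ∃ w, star w = w ∧
        u = q + (π + star π + w) ∧ ‖π‖ ≤ 1 / a ∧ ‖w‖ ≤ 1 / b := by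
  classical
  obtain ⟨K, C, hC, hK, hs⟩ := split P hP
  obtain ⟨C₁, hC₁, g₁⟩ := grid P
  obtain ⟨C₂, hC₂, g₂⟩ := grid K
  refine ⟨(C₁ + C₂) * C, one_le_mul_of_one_le_of_one_le (by linarith) hC, by omega,
    fun R a b hR ha hb => ?_⟩
  have hCR : 1 ≤ C * R := one_le_mul_of_one_le_of_one_le hC hR
  obtain ⟨s₁, a1, a2⟩ := g₁ (C * R) a hCR ha
  obtain ⟨s₂, b1, b2⟩ := g₂ (C * R) b hCR hb
  refine ⟨(s₁ ×ˢ s₂).image fun y => (y.1 : ν → ℂ) + star (y.1 : ν → ℂ) + ofR (y.2 : ν → ℝ),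
    ?_, ?_,
    fun u hu hR' => ?_⟩
  · intro q hq
    obtain ⟨y, -, rfl⟩ := Finset.mem_image.1 hq
    rw [star_add, star_add, star_star, star_ofR, add_comm (star _)]
  · refine (Nat.cast_le.2 Finset.card_image_le).trans ?_
    rw [Finset.card_product, Nat.cast_mul]
    rw [finrank_real_of_complex] at a1
    rw [show Fintype.card ν - 2 * finrank ℂ P = finrank ℝ K by omega]
    refine mul_le_mul (a1.trans ?_) (b1.trans ?_) (Nat.cast_nonneg _) (by positivity)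
    · rw [mul_assoc (C₁ + C₂)]
      gcongr
      linarith
    · rw [mul_assoc (C₁ + C₂)]
      gcongr
      linarith
  · obtain ⟨π, w, e1, e2, e3⟩ := hs fun i => (u i).re
    have k : ‖fun i => (u i).re‖ ≤ R := by rwa [← norm_ofR, ← real_eq hu]
    have k' := mul_le_mul_of_nonneg_left k (zero_le_one.trans hC)
    obtain ⟨π', p1, p2⟩ := a2 π (e2.trans k')
    obtain ⟨w', q1, q2⟩ := b2 w (e3.trans k')
    refine ⟨_, Finset.mem_image_of_mem _ (Finset.mk_mem_product p1 q1), (π - π' : P), (π - π').2,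
      ofR ((w - w' : K) : ν → ℝ), star_ofR _, ?_, p2, by rw [norm_ofR]; exact q2⟩
    rw [real_eq hu, e1]
    funext i
    simp [ofR]
    ring

/-- the Schwarz step: from a point of the net to a near point -/
theorem near {P : Submodule ℂ (ν → ℂ)} {c V μ ε : ℝ} {T : ℕ} {Q : (ν → ℂ) → ℝ}
    {G : (ν → ℂ) → ℂ} (hc : 0 ≤ c) (hT : 1 ≤ T) (hV : 1 ≤ V) (hG : Ent P c T V Q G)
    (hμ : Real.exp (-V) ≤ μ) (hU : ∀ a, star a = a → ‖G a‖ ≤ μ * Real.exp (Q a))
    {q π w : ν → ℂ} (hq : star q = q) (hπ : π ∈ P) (hw : star w = w) {k : ℝ}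
    (hk : k = 4 * Real.exp (2 * (2 + 8 * c) + 4 * c)) (h1 : ‖π‖ ≤ 1 / (2 * k * √T))
    (h2 : ‖w‖ ≤ 1 / (k * √V)) (hε : ‖G q‖ ≤ ε / 4 * Real.exp (Q q)) :
    ‖G (q + (π + star π + w))‖ * Real.exp (-Q (q + (π + star π + w))) ≤ ε / 4 + μ / 2 := by
  have hμ0 : 0 < μ := (Real.exp_pos _).trans_le hμ
  have hT1 : 1 ≤ √(T : ℝ) := Real.one_le_sqrt.2 (by exact_mod_cast hT)
  have hV1 : 1 ≤ √V := Real.one_le_sqrt.2 hV
  set K := Real.exp (2 * (2 + 8 * c) + 4 * c) with hK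
  have hK1 : 1 ≤ K := Real.one_le_exp (by positivity)
  have hk0 : 0 < k := by linarith
  obtain ⟨a, ha⟩ : ∃ a, a = (k : ℂ) • π := ⟨_, rfl⟩
  obtain ⟨b, hb⟩ : ∃ b, b = (k : ℂ) • w := ⟨_, rfl⟩
  have aP : a ∈ P := ha ▸ P.smul_mem _ hπ
  have b0 : star b = b := by
    rw [hb, star_smul, hw]
    simp
  have a1 : 2 * ‖a‖ ≤ 1 / √T := by
    rw [ha, norm_smul, norm_real, Real.norm_eq_abs, abs_of_pos hk0]
    calc 2 * (k * ‖π‖) ≤ 2 * (k * (1 / (2 * k * √T))) := by gcongr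
      _ = _ := by field_simp
  have b1 : ‖b‖ ≤ 1 / √V := by
    rw [hb, norm_smul, norm_real, Real.norm_eq_abs, abs_of_pos hk0]
    calc k * ‖w‖ ≤ k * (1 / (k * √V)) := by gcongr
      _ = _ := by field_simp
  have hT2 : 1 / √(T : ℝ) ≤ 1 := (div_le_one (by linarith)).2 hT1
  have hV2 : 1 / √V ≤ 1 := (div_le_one (by linarith)).2 hV1
  have he : ‖a + star a + b‖ ≤ 2 := by
    have := norm_add₃_le (a := a) (b := star a) (c := b)
    rw [norm_star] at this
    linarith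
  obtain ⟨α, β, γ, -, hγ, hQ⟩ := hG.quad q (a + star a + b)
  have hγ' : γ ≤ 4 * c := by
    have := pow_le_pow_left₀ (norm_nonneg _) he 2
    nlinarith [le_abs_self γ]
  obtain ⟨f, hf, hfn⟩ : ∃ f : ℂ → ℂ, Differentiable ℂ f ∧ ∀ τ : ℂ, ‖f τ‖ =
      ‖G (q + τ • (a + star a + b))‖ *
        Real.exp (-Q (q + τ • (a + star a + b)) + γ * τ.im ^ 2) := by
    refine ⟨fun τ => G (q + τ • (a + star a + b)) * cexp (-((Q q : ℂ) + (β * τ + α * τ ^ 2))),
      (hG.hol.comp (f := fun τ : ℂ => q + τ • (a + star a + b)) (by fun_prop)).mul (by fun_prop),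
      fun τ => ?_⟩
    rw [norm_mul, norm_exp, hQ τ, neg_re, add_re, ofReal_re]
    congr 2
    ring
  have hbd : ∀ τ : ℂ, ‖τ‖ ≤ 1 → ‖f τ‖ ≤ μ * K := by
    intro τ hτ
    have h4 : |τ.im| ≤ 1 := (abs_im_le_norm τ).trans hτ
    have e1 : q + τ • (a + star a + b) =
        (q + (starRingEnd ℂ τ • a + τ • star a + (τ.re : ℂ) • b)) + (2 * I * τ.im) • a +
          I • ((τ.im : ℂ) • b) := by
      funext i
      have k1 := sub_conj τ
      have k2 := re_add_im τ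
      simp only [Pi.add_apply, Pi.smul_apply, smul_eq_mul]
      push_cast at k1
      linear_combination a i * k1 - b i * k2
    have h0 := tube hc hT hV hG hμ hU
      (ρ := q + (starRingEnd ℂ τ • a + τ • star a + (τ.re : ℂ) • b)) (p := (2 * I * τ.im) • a)
      (w := (τ.im : ℂ) • b) (t₁ := 1 / √T) (t₂ := 1 / √V)
      (by
        rw [star_add, star_add, star_add, star_smul, star_smul, star_smul, star_star, hq, b0,
          add_comm (star _ • star a)]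
        simp)
      (P.smul_mem _ aP) (by rw [star_smul, b0]; simp) (by linarith) (by linarith)
      (by
        rw [norm_smul, norm_mul, norm_mul, norm_I, norm_real, Real.norm_eq_abs, norm_ofNat]
        nlinarith [norm_nonneg a, abs_nonneg τ.im])
      (by
        rw [norm_smul, norm_real, Real.norm_eq_abs]
        nlinarith [norm_nonneg b, abs_nonneg τ.im])
    have h3 : √(T : ℝ) * (1 / √T) + √V * (1 / √V) = 2 := by
      field_simp
      norm_num
    rw [h3, ← e1] at h0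
    rw [hfn]
    refine (mul_le_mul_of_nonneg_right h0 (Real.exp_pos _).le).trans ?_
    rw [mul_assoc, ← Real.exp_add]
    refine mul_le_mul_of_nonneg_left (Real.exp_le_exp.2 ?_) hμ0.le
    have h5 : τ.im ^ 2 ≤ 1 := by
      rw [← sq_abs]
      exact pow_le_one₀ (abs_nonneg _) h4
    have h6 : γ * τ.im ^ 2 ≤ 4 * c * 1 := mul_le_mul hγ' h5 (sq_nonneg _) (by positivity)
    linarith
  have hδ : ‖((k⁻¹ : ℝ) : ℂ)‖ = k⁻¹ := by
    rw [norm_real, Real.norm_eq_abs, abs_of_pos (inv_pos.2 hk0)]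
  have hS := Complex.dist_le_div_mul_dist_of_mapsTo_ball (f := f) (c := 0) (R₁ := 1)
    (R₂ := 2 * (μ * K)) (z := ((k⁻¹ : ℝ) : ℂ)) hf.differentiableOn
    (by
      intro τ hτ
      rw [Metric.mem_closedBall, dist_eq_norm]
      have h3 := hbd τ (mem_ball_zero_iff.1 hτ).le
      have h4 := hbd 0 (by simp)
      linarith [norm_sub_le (f τ) (f 0)])
    (by
      rw [mem_ball_zero_iff, hδ]
      exact inv_lt_one_of_one_lt₀ (by linarith))
  rw [dist_eq_norm, dist_zero_right, hδ] at hS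
  have h3 : 2 * (μ * K) / 1 * k⁻¹ = μ / 2 := by
    rw [hk]
    field_simp
    norm_num
  rw [h3] at hS
  have h4 : ((k⁻¹ : ℝ) : ℂ) • (a + star a + b) = π + star π + w := by
    have k1 : (k : ℂ) ≠ 0 := by exact_mod_cast hk0.ne'
    rw [ha, hb, star_smul, RCLike.star_def, conj_ofReal, ← smul_add, ← smul_add, smul_smul,
      ofReal_inv, inv_mul_cancel₀ k1, one_smul]
  have h5 := hfn ((k⁻¹ : ℝ) : ℂ)
  rw [h4, ofReal_im] at h5
  have h6 := hfn 0
  rw [zero_smul, add_zero, zero_im] at h6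
  simp only [ne_eq, OfNat.ofNat_ne_zero, not_false_eq_true, zero_pow, mul_zero, add_zero] at h5 h6
  have h7 : ‖f 0‖ ≤ ε / 4 := by
    rw [h6]
    refine (mul_le_mul_of_nonneg_right hε (Real.exp_pos _).le).trans ?_
    rw [mul_assoc, ← Real.exp_add]
    simp
  rw [← h5]
  linarith [norm_add_le (f ((k⁻¹ : ℝ) : ℂ) - f 0) (f 0),
    congrArg norm (sub_add_cancel (f ((k⁻¹ : ℝ) : ℂ)) (f 0))]

end NetAux

/-- a net of real points which controls the size -/
theorem net (P : Submodule ℂ (ν → ℂ)) (hP : ∀ v ∈ P, star v ∈ P → v = 0) {c : ℝ} (hc : 0 ≤ c) :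
    ∃ C : ℝ, 1 ≤ C ∧ ∀ (T : ℕ) (V R : ℝ), 1 ≤ T → 1 ≤ V → 1 ≤ R → ∃ s : Finset (ν → ℂ),
      (∀ q ∈ s, star q = q) ∧ (s.card : ℝ) ^ 2 ≤ C * (R ^ 2) ^ Fintype.card ν *
        (T : ℝ) ^ (2 * finrank ℂ P) * V ^ (Fintype.card ν - 2 * finrank ℂ P) ∧
      ∀ (Q : (ν → ℂ) → ℝ) (G : (ν → ℂ) → ℂ) (ε : ℝ), Ent P c T V Q G →
        (∀ a, star a = a → ∃ a', star a' = a' ∧ ‖a'‖ ≤ R ∧
          ‖G a‖ * Real.exp (-Q a) = ‖G a'‖ * Real.exp (-Q a')) →
        Real.exp (-V) ≤ ε → (∀ a ∈ s, ‖G a‖ ≤ ε / 4 * Real.exp (Q a)) →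
        ∀ a, star a = a → ‖G a‖ ≤ ε * Real.exp (Q a) := by
  obtain ⟨C, hC, hr, hcov⟩ := NetAux.cover P hP
  obtain ⟨k, hk⟩ : ∃ k, k = 4 * Real.exp (2 * (2 + 8 * c) + 4 * c) := ⟨_, rfl⟩
  have hk1 : 1 ≤ k := by
    have : 1 ≤ Real.exp (2 * (2 + 8 * c) + 4 * c) := Real.one_le_exp (by positivity)
    linarith
  have hCk : 1 ≤ C * (2 * k) := one_le_mul_of_one_le_of_one_le hC (by linarith)
  refine ⟨((C * (2 * k)) ^ 2) ^ Fintype.card ν, one_le_pow₀ (one_le_pow₀ hCk),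
    fun T V R hT hV hR => ?_⟩
  have hT' : (1 : ℝ) ≤ T := by exact_mod_cast hT
  have hT1 : 1 ≤ √(T : ℝ) := Real.one_le_sqrt.2 hT'
  have hV1 : 1 ≤ √V := Real.one_le_sqrt.2 hV
  obtain ⟨s, s1, s2, s3⟩ := hcov R (2 * k * √T) (k * √V) hR
    (one_le_mul_of_one_le_of_one_le (by linarith) hT1) (one_le_mul_of_one_le_of_one_le hk1 hV1)
  refine ⟨s, s1, ?_, fun Q G ε hA hper hε hs => ?_⟩
  · obtain ⟨m, hm⟩ := Nat.exists_eq_add_of_le hr
    rw [show Fintype.card ν - 2 * finrank ℂ P = m by omega] at s2 ⊢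
    rw [hm]
    generalize 2 * finrank ℂ P = j at s2 ⊢
    have s4 : C * R * (k * √V) ≤ C * R * (2 * k * √V) := by
      gcongr
      linarith
    have s5 : 0 < 2 * k := by linarith
    generalize 2 * k = k' at s2 s4 s5 ⊢
    calc (s.card : ℝ) ^ 2 ≤ ((C * R * (k' * √T)) ^ j * (C * R * (k' * √V)) ^ m) ^ 2 := by
          refine pow_le_pow_left₀ (Nat.cast_nonneg _) (s2.trans ?_) 2
          gcongr
      _ = ((C * k') ^ 2) ^ (j + m) * (R ^ 2) ^ (j + m) * (√(T : ℝ) ^ 2) ^ j *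
            (√V ^ 2) ^ m := by ring
      _ = _ := by rw [Real.sq_sqrt (by linarith), Real.sq_sqrt (by linarith)]
  · set S : Set ℝ := (fun u => ‖G u‖ * Real.exp (-Q u)) '' {u | star u = u} with hS
    have hSb : BddAbove S := by
      refine ⟨Real.exp V, ?_⟩
      rintro _ ⟨u, hu, rfl⟩
      refine (mul_le_mul_of_nonneg_right (hA.bd u) (Real.exp_pos _).le).trans ?_
      rw [← Real.exp_add, show star u = u from hu, sub_self, norm_zero]
      apply le_of_eq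
      congr 1
      ring
    have hSn : S.Nonempty := ⟨_, 0, star_zero _, rfl⟩
    have hconv : ∀ (m : ℝ) (u : ν → ℂ), ‖G u‖ * Real.exp (-Q u) ≤ m →
        ‖G u‖ ≤ m * Real.exp (Q u) := fun m u h => by
      rwa [Real.exp_neg, ← div_eq_mul_inv, div_le_iff₀ (Real.exp_pos _)] at h
    have hle : ∀ u, star u = u → ‖G u‖ * Real.exp (-Q u) ≤ sSup S :=
      fun u hu => le_csSup hSb ⟨u, hu, rfl⟩
    have key : sSup S ≤ ε / 4 + max (sSup S) ε / 2 := by
      refine csSup_le hSn ?_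
      rintro _ ⟨u, hu, rfl⟩
      obtain ⟨u', hu', hR', he⟩ := hper u hu
      obtain ⟨q, hq, π, hπ, w, hw, rfl, k1, k2⟩ := s3 u' hu' hR'
      exact he.trans_le (NetAux.near hc hT hV hA (hε.trans (le_max_right _ _))
        (fun u hu => hconv _ u ((hle u hu).trans (le_max_left _ _))) (s1 q hq) hπ hw hk k1 k2
        (hs q hq))
    have hfin : sSup S ≤ ε := by
      have hε0 : 0 < ε := (Real.exp_pos _).trans_le hε
      rcases le_total (sSup S) ε with h | h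
      · exact h
      · rw [max_eq_left h] at key
        linarith
    exact fun u hu => hconv _ u ((hle u hu).trans hfin)

end Pool.Agent.Lib.MP_caab05_ag.NC
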