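import Mathlib
import Pool.Agent.Lib.MP_caab05_ag.NC.Net
import Pool.Agent.Lib.MP_caab05_ag.WZ.AuxF

/-! The auxiliary function, by the box principle, for functions of large weight. -/

namespace Pool.Agent.Lib.MP_caab05_ag.NC

open Complex Module
open Pool.Agent.Lib.MP_caab05_ag.LT (Quadr)

variable {ν : Type} [Fintype ν]

namespace AuxAux

omit [Fintype ν] in
theorem star_smul_real (r : ℝ) (y : ν → ℂ) : star ((r : ℂ) • y) = (r : ℂ) • star y := by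
  rw [star_smul, RCLike.star_def, conj_ofReal]

/-- rescaling -/
theorem scale {P : Submodule ℂ (ν → ℂ)} {c V n r : ℝ} {T : ℕ} {Q : (ν → ℂ) → ℝ}
    {G : (ν → ℂ) → ℂ} (hc : 0 ≤ c) (hr0 : 0 < r) (hr1 : r ≤ 1) (hn : n * r ^ 2 = 1)
    (hQ : Quadr c Q) (h1 : ∀ y, ∀ v ∈ P, Q (y + v) = Q y) (h2 : Differentiable ℂ G)
    (h3 : ∀ y, ∀ v ∈ P, ∃ p : Polynomial ℂ, p.natDegree ≤ T ∧ ∀ s : ℂ, G (y + s • v) = p.eval s)
    (h4 : ∀ y, ‖G y‖ ≤ Real.exp (n * Q y + V + c * ‖y - star y‖)) :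
    Ent P c T V (fun y => n * Q ((r : ℂ) • y)) fun y => G ((r : ℂ) • y) := by
  have hn0 : 0 < n := pos_of_mul_pos_left (b := r ^ 2) (by linarith) (sq_nonneg r)
  have hw : ∀ w : ν → ℂ, ‖(r : ℂ) • w‖ = r * ‖w‖ := fun w => by
    rw [norm_smul, norm_real, Real.norm_eq_abs, abs_of_pos hr0]
  refine ⟨h2.comp (f := fun y : ν → ℂ => (r : ℂ) • y) (by fun_prop), fun z w => ?_,
    fun y v hv => ?_, fun y v hv => ?_, fun y => ?_⟩
  · obtain ⟨α, β, γ, a1, a2, a3⟩ := hQ ((r : ℂ) • z) ((r : ℂ) • w)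
    have k : n * (c * ‖(r : ℂ) • w‖ ^ 2) = c * ‖w‖ ^ 2 := by
      rw [hw]
      linear_combination c * ‖w‖ ^ 2 * hn
    refine ⟨n * α, n * β, n * γ, ?_, ?_, fun τ => ?_⟩
    · rw [norm_mul, norm_real, Real.norm_eq_abs, abs_of_pos hn0, ← k]
      gcongr
    · rw [abs_mul, abs_of_pos hn0, ← k]
      gcongr
    · rw [smul_add, smul_comm, a3, mul_assoc, mul_assoc, ← mul_add, re_ofReal_mul]
      ring
  · rw [smul_add, h1 _ _ (P.smul_mem _ hv)]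
  · obtain ⟨p, p1, p2⟩ := h3 ((r : ℂ) • y) _ (P.smul_mem (r : ℂ) hv)
    exact ⟨p, p1, fun s => by rw [smul_add, smul_comm, p2]⟩
  · refine (h4 _).trans (Real.exp_le_exp.2 ?_)
    rw [star_smul_real, ← smul_sub, hw]
    have := mul_le_mul_of_nonneg_left
      (mul_le_of_le_one_left (norm_nonneg (y - star y)) hr1) hc
    linarith

theorem floor (a : ν → ℂ) (ha : star a = a) :
    ∃ m : ν → ℤ, star (a - fun i => (m i : ℂ)) = (a - fun i => (m i : ℂ)) ∧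
      ‖a - fun i => (m i : ℂ)‖ ≤ 1 := by
  refine ⟨fun i => ⌊(a i).re⌋, ?_, (pi_norm_le_iff_of_nonneg zero_le_one).2 fun i => ?_⟩
  · rw [star_sub, ha]
    congr 1
    funext i
    simp
  · have k : a i = ((a i).re : ℂ) := congrFun (NetAux.real_eq ha) i
    have k2 : (a - fun i => ((⌊(a i).re⌋ : ℤ) : ℂ)) i = (Int.fract (a i).re : ℝ) := by
      rw [Pi.sub_apply, Int.fract, ofReal_sub, ← k, ofReal_intCast]
    rw [k2, norm_real, Real.norm_eq_abs, abs_of_nonneg (Int.fract_nonneg _)]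
    exact (Int.fract_lt_one _).le

theorem parts (y : ν → ℂ) : ∃ a w : ν → ℂ, star a = a ∧ star w = w ∧ ‖w‖ ≤ ‖y‖ ∧
    y = a + 0 + I • w := by
  refine ⟨NetAux.ofR fun i => (y i).re, NetAux.ofR fun i => (y i).im, NetAux.star_ofR _,
    NetAux.star_ofR _, (pi_norm_le_iff_of_nonneg (norm_nonneg _)).2 fun i => ?_, ?_⟩
  · rw [NetAux.ofR, norm_real]
    exact (abs_im_le_norm _).trans (norm_le_pi_norm y i)
  · funext i
    simp [NetAux.ofR, mul_comm I]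

end AuxAux

open AuxAux in
/-- the auxiliary function -/
theorem aux (P : Submodule ℂ (ν → ℂ)) (hP : ∀ v ∈ P, star v ∈ P → v = 0) {c : ℝ} (hc : 0 ≤ c)
    (ρ : ℝ) : ∃ C : ℝ, 1 ≤ C ∧ ∀ (Q : (ν → ℂ) → ℝ) (ι : Type) [Fintype ι]
      (G : ι → (ν → ℂ) → ℂ) (D : ℕ) (n V S : ℝ), Quadr c Q → (∀ y, ∀ v ∈ P, Q (y + v) = Q y) →
      (∀ y, ‖y‖ ≤ ρ → Q y ≤ c) → 1 ≤ n → 1 ≤ D → C * n ≤ V → S ≤ V →
      (Fintype.card ι : ℝ) ≤ Real.exp V → (∀ i, Differentiable ℂ (G i)) →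
      (∀ i y, ∀ v ∈ P, ∃ p : Polynomial ℂ, p.natDegree ≤ D ∧ ∀ s : ℂ, G i (y + s • v) = p.eval s) →
      (∀ i y, ‖G i y‖ ≤ Real.exp (n * Q y + V + c * ‖y - star y‖)) →
      (∀ (m : ν → ℤ) (y : ν → ℂ), ∃ e : ℂ,
        ‖e‖ = Real.exp (n * Q (y + fun i => (m i : ℂ)) - n * Q y) ∧
        ∀ i, G i (y + fun i => (m i : ℂ)) = e * G i y) →
      C * n ^ Fintype.card ν * (D : ℝ) ^ (2 * finrank ℂ P) *
        V ^ (Fintype.card ν - 2 * finrank ℂ P + 2) ≤ (Fintype.card ι * S) ^ 2 → 0 ≤ S →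
      ∃ p : ι → ℤ, p ≠ 0 ∧ (∀ i, |(p i : ℝ)| ≤ Real.exp S) ∧
        ∀ y, ‖y‖ ≤ ρ → ‖∑ i, (p i : ℂ) * G i y‖ ≤ Real.exp (-V) := by
  classical
  obtain ⟨CN, hCN, hnet⟩ := net P hP hc
  generalize Fintype.card ν - 2 * finrank ℂ P = x at hnet ⊢
  obtain ⟨C, hC18, hC2, hC3, hC4, hC5⟩ : ∃ C : ℝ, 18 ≤ C ∧
      18 ^ 2 * (CN * 4 ^ x) < C ∧ ρ ^ 2 ≤ C ∧ c ≤ C ∧ ((2 + 8 * c) * |ρ|) ^ 2 ≤ C := by
    have e3 : 0 ≤ 18 ^ 2 * (CN * 4 ^ x) := by positivity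
    have e5 := sq_nonneg ρ
    have e6 := sq_nonneg ((2 + 8 * c) * |ρ|)
    refine ⟨18 + 18 ^ 2 * (CN * 4 ^ x) + ρ ^ 2 + c + ((2 + 8 * c) * |ρ|) ^ 2, ?_, ?_, ?_, ?_,
      ?_⟩ <;> linarith
  refine ⟨C, by linarith, fun Q ι _ G D n V S hQ hpure hρ hn hD hV hSV hι hG hpoly hbd hlaw hmain
    hS0 => ?_⟩
  have hV18 : 18 ≤ V := by nlinarith
  have hD' : (1 : ℝ) ≤ D := by exact_mod_cast hD
  obtain ⟨R, hR⟩ : ∃ R : ℝ, R = √n := ⟨_, rfl⟩
  have R1 : 1 ≤ R := hR ▸ Real.one_le_sqrt.2 hn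
  have R2 : R ^ 2 = n := hR ▸ Real.sq_sqrt (by linarith)
  have R0 : 0 < R := by linarith
  have R3 : ∀ y : ν → ℂ, ((R⁻¹ : ℝ) : ℂ) • (R : ℂ) • y = y := fun y => by
    rw [smul_smul, ← ofReal_mul, inv_mul_cancel₀ R0.ne', ofReal_one, one_smul]
  have R4 : ∀ y : ν → ℂ, ‖(R : ℂ) • y‖ = R * ‖y‖ := fun y => by
    rw [norm_smul, norm_real, Real.norm_eq_abs, abs_of_pos R0]
  obtain ⟨s₀, hreal, hcard, hfin⟩ := hnet D (4 * V) R hD (by linarith) R1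
  rw [R2] at hcard
  obtain ⟨H, hH1, hH2⟩ : ∃ H : ℕ, (H : ℝ) ≤ Real.exp S ∧ Real.exp S ≤ (H : ℝ) + 1 :=
    ⟨⌊Real.exp S⌋₊, Nat.floor_le (Real.exp_pos _).le, (Nat.lt_floor_add_one _).le⟩
  have hLH : (Fintype.card ι : ℝ) * H ≤ Real.exp (2 * V) := by
    rw [two_mul, Real.exp_add]
    exact mul_le_mul hι (hH1.trans (Real.exp_le_exp.2 hSV)) (by positivity) (Real.exp_pos _).le
  obtain ⟨p, hp0, hpH, hp⟩ := LT.box (κ := s₀)
    (fun a i => G i (((R⁻¹ : ℝ) : ℂ) • (a : ν → ℂ)) *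
      (Real.exp (-(n * Q (((R⁻¹ : ℝ) : ℂ) • (a : ν → ℂ)))) : ℝ)) (B := Real.exp (2 * V))
    (ε := Real.exp (-(4 * V)) / 4) (Real.exp_pos _).le (by positivity)
    (fun a i => by
      have e1 := hbd i (((R⁻¹ : ℝ) : ℂ) • (a : ν → ℂ))
      rw [star_smul_real, hreal a a.2, sub_self, norm_zero, mul_zero, add_zero] at e1
      rw [norm_mul, norm_real, Real.norm_of_nonneg (Real.exp_pos _).le, Real.exp_neg,
        ← div_eq_mul_inv, div_le_iff₀ (Real.exp_pos _), ← Real.exp_add]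
      exact e1.trans (Real.exp_le_exp.2 (by linarith)))
    H (WZ.AuxFAux.count (S := S) hV18 hLH hH2 (by
      rw [Fintype.card_coe]
      refine lt_of_pow_lt_pow_left₀ 2 (by positivity) ?_
      have e1 : 0 < n ^ Fintype.card ν * (D : ℝ) ^ (2 * finrank ℂ P) * V ^ (x + 2) := by
        positivity
      calc (18 * V * s₀.card) ^ 2 = 18 ^ 2 * V ^ 2 * (s₀.card : ℝ) ^ 2 := by ring
        _ ≤ 18 ^ 2 * V ^ 2 * (CN * n ^ Fintype.card ν * (D : ℝ) ^ (2 * finrank ℂ P) *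
            (4 * V) ^ x) := by gcongr
        _ = 18 ^ 2 * (CN * 4 ^ x) *
            (n ^ Fintype.card ν * (D : ℝ) ^ (2 * finrank ℂ P) * V ^ (x + 2)) := by
            rw [mul_pow]
            ring
        _ < C * (n ^ Fintype.card ν * (D : ℝ) ^ (2 * finrank ℂ P) * V ^ (x + 2)) := by gcongr
        _ ≤ _ := by rw [← mul_assoc, ← mul_assoc]; exact hmain))
  have hpH' : ∀ i, |(p i : ℝ)| ≤ H := fun i => by exact_mod_cast hpH i
  refine ⟨p, hp0, fun i => (hpH' i).trans hH1, ?_⟩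
  have hadm := scale (P := P) (T := D) (V := 4 * V) (n := n) (r := R⁻¹)
    (G := fun y => ∑ i, (p i : ℂ) * G i y) hc (inv_pos.2 R0) (inv_le_one_of_one_le₀ R1)
    (by rw [← R2]; field_simp) hQ hpure
    (Differentiable.fun_sum fun i _ => (hG i).const_mul _)
    (fun y v hv => by
      choose q q1 q2 using fun i => hpoly i y v hv
      refine ⟨∑ i, Polynomial.C (p i : ℂ) * q i, Polynomial.natDegree_sum_le_of_forall_le _ _
        fun i _ => (Polynomial.natDegree_C_mul_le _ _).trans (q1 i), fun s => ?_⟩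
      simp only [q2, Polynomial.eval_finsetSum, Polynomial.eval_mul, Polynomial.eval_C])
    (fun y => by
      refine (norm_sum_le _ _).trans ?_
      have e1 : ∀ i, ‖(p i : ℂ) * G i y‖ ≤ H * Real.exp (n * Q y + V + c * ‖y - star y‖) := by
        intro i
        rw [norm_mul, norm_intCast]
        exact mul_le_mul (hpH' i) (hbd i y) (norm_nonneg _) (Nat.cast_nonneg _)
      refine (Finset.sum_le_card_nsmul _ _ _ fun i _ => e1 i).trans ?_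
      rw [nsmul_eq_mul, Finset.card_univ, ← mul_assoc]
      refine (mul_le_mul_of_nonneg_right hLH (Real.exp_pos _).le).trans ?_
      rw [← Real.exp_add, Real.exp_le_exp]
      linarith)
  have hre := hfin _ _ (Real.exp (-(4 * V))) hadm
    (fun a ha => by
      obtain ⟨m, m1, m2⟩ := floor (((R⁻¹ : ℝ) : ℂ) • a) (by rw [star_smul_real, ha])
      obtain ⟨e, e1, e2⟩ := hlaw m (((R⁻¹ : ℝ) : ℂ) • a - fun i => (m i : ℂ))
      rw [sub_add_cancel] at e1 e2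
      refine ⟨(R : ℂ) • (((R⁻¹ : ℝ) : ℂ) • a - fun i => (m i : ℂ)), by rw [star_smul_real, m1],
        by rw [R4]; exact mul_le_of_le_one_right R0.le m2, ?_⟩
      simp only [R3, e2, mul_left_comm _ e, ← Finset.mul_sum]
      rw [norm_mul, e1, mul_right_comm, ← Real.exp_add, mul_comm]
      congr 2
      ring)
    le_rfl
    (fun a ha => by
      have e1 := hp ⟨a, ha⟩
      simp only [← mul_assoc, ← Finset.sum_mul] at e1
      rwa [norm_mul, norm_real, Real.norm_of_nonneg (Real.exp_pos _).le,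
        Real.exp_neg (n * Q _), ← div_eq_mul_inv, div_le_iff₀ (Real.exp_pos _)] at e1)
  intro y hy
  obtain ⟨a, w, a1, a2, a3, a4⟩ := parts ((R : ℂ) • y)
  have k1 : ‖w‖ ≤ R * |ρ| := by
    rw [R4] at a3
    exact a3.trans (mul_le_mul_of_nonneg_left (hy.trans (le_abs_self ρ)) R0.le)
  have k2 : R * |ρ| ≤ √(4 * V) := by
    refine Real.le_sqrt_of_sq_le ?_
    rw [mul_pow, sq_abs, R2]
    nlinarith
  have key := tube hc hD (by linarith) hadm le_rfl hre a1 P.zero_mem a2 (t₁ := 0)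
    (Real.sqrt_nonneg _) k2 norm_zero.le k1
  rw [← a4, R3] at key
  refine key.trans ?_
  rw [← Real.exp_add, Real.exp_le_exp, mul_zero, zero_add]
  have e1 : n * Q y ≤ V := by nlinarith [hρ y hy]
  have e3 : √(4 * V) = 2 * √V := by
    rw [Real.sqrt_mul (by norm_num), show (4 : ℝ) = 2 ^ 2 by norm_num,
      Real.sqrt_sq (by norm_num)]
  have e4 : (2 + 8 * c) * |ρ| * R ≤ √V := Real.le_sqrt_of_sq_le (by
    rw [mul_pow, R2]
    nlinarith)
  have e5 : √V * √V = V := Real.mul_self_sqrt (by linarith)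
  have e6 : (2 + 8 * c) * (√(4 * V) * (R * |ρ|)) ≤ 2 * V := by
    calc _ = 2 * (√V * ((2 + 8 * c) * |ρ| * R)) := by rw [e3]; ring
      _ ≤ 2 * (√V * √V) := by gcongr
      _ = 2 * V := by rw [e5]
  linarith

end Pool.Agent.Lib.MP_caab05_ag.NC
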