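import Mathlib
import Pool.Agent.Lib.MP_caab05_ag.NC.Stmt
import Pool.Agent.Lib.MP_caab05_ag.NC.Box
import Pool.Agent.Lib.MP_caab05_ag.LT.Quad
import Pool.Agent.Lib.MP_caab05_ag.WZ.Lan

/-! The auxiliary function on the span of a family of periods. -/

namespace Pool.Agent.Lib.MP_caab05_ag.NC

open MvPolynomial Complex Module
open Pool.Agent.Lib.MP_caab05_ag.LT (E Quadr)
open Pool.Agent.Lib.MP_caab05_ag.ZE (VX)
open Pool.Agent.Lib.MP_caab05_ag.WZ (EE zz uu col psi)

namespace AuxVAux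

variable {d M : ℕ}

/-- the real part of the Riemann form is symmetric -/
theorem symm (A : VX d M) (x y : E d) : (A.H x ⬝ᵥ y).re = (A.H y ⬝ᵥ x).re := by
  obtain ⟨ι, _, b, hb⟩ := LT.exists_basis A.toAbVar
  have hm : ∀ j, b j ∈ A.Λ := fun j => hb ▸ Submodule.subset_span ⟨j, rfl⟩
  let B : E d →ₗ[ℝ] E d →ₗ[ℝ] ℝ := LinearMap.mk₂ ℝ (fun x y => (A.H x ⬝ᵥ y).re)
    (fun _ _ _ => by simp [add_dotProduct]) (fun _ _ _ => by simp [smul_dotProduct])
    (fun _ _ _ => by simp [dotProduct_add]) fun _ _ _ => by simp [dotProduct_smul]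
  have s0 : B = B.flip := LinearMap.ext_basis b b fun j k =>
    LT.QuadAux.symm_re A.toAbVar (a := dotProductBilin ℂ ℂ (A.H (b j)))
      (a' := dotProductBilin ℂ ℂ (A.H (b k))) (A.law _ (hm j)) (A.law _ (hm k))
  exact LinearMap.congr_fun₂ s0 x y

/-- the weight -/
theorem weight (A : VX d M) : ∃ (q : E d → ℝ) (c : ℝ), 1 ≤ c ∧ Continuous q ∧ Quadr c q ∧
    (∀ z s, q (z + s) = q z + (A.H z ⬝ᵥ s).re + q s) ∧
    (∀ l ∈ A.Λ, ∀ z, ‖cexp (A.H l ⬝ᵥ z + A.β l)‖ = Real.exp (q (z + l) - q z)) ∧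
    ∀ z, ‖A.θ z‖ ≤ c * Real.exp (q z) := by
  obtain ⟨ι, _, b, hb⟩ := LT.exists_basis A.toAbVar
  have hm : ∀ j, b j ∈ A.Λ := fun j => hb ▸ Submodule.subset_span ⟨j, rfl⟩
  let B0 : E d →ₗ[ℝ] E d →ₗ[ℝ] ℝ := LinearMap.mk₂ ℝ (fun x y => (A.H x ⬝ᵥ y).re)
    (fun _ _ _ => by simp [add_dotProduct]) (fun _ _ _ => by simp [smul_dotProduct])
    (fun _ _ _ => by simp [dotProduct_add]) fun _ _ _ => by simp [dotProduct_smul]
  let B : E d →L[ℝ] E d →L[ℝ] ℝ := LinearMap.toContinuousLinearMap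
    ((LinearMap.toContinuousLinearMap : (E d →ₗ[ℝ] ℝ) ≃ₗ[ℝ] _).toLinearMap ∘ₗ B0)
  have eB : ∀ x y, B x y = (A.H x ⬝ᵥ y).re := fun x y => rfl
  have hB : ∀ x y, B x y = B y x := symm A
  let L : E d →ₗ[ℝ] ℝ := b.constr ℝ fun j => (A.β (b j)).re - B (b j) (b j) / 2
  have eL : ∀ j, L (b j) = (A.β (b j)).re - B (b j) (b j) / 2 := fun j => b.constr_basis ℝ _ j
  let q : E d → ℝ := fun z => B z z / 2 + L z
  have hq : Continuous q :=
    ((B.continuous.clm_apply continuous_id).div_const 2).add L.continuous_of_finiteDimensional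
  have hadd : ∀ z s, q (z + s) = q z + B z s + q s := fun z s => by
    simp only [q, map_add, add_apply, hB s z]
    ring
  have hP : ∀ l ∈ A.Λ, LT.QuadAux.Pr A.toAbVar q l := fun l hl => by
    refine LT.QuadAux.Pr.span (s := Set.range b) ?_ (hb ▸ hl)
    rintro _ ⟨j, rfl⟩ z
    refine ⟨_, A.law _ (hm j) z, ?_⟩
    rw [norm_exp, add_re, ← eB, hadd, hB z]
    congr 1
    simp only [q, eL]
    ring
  obtain ⟨R, hR⟩ := LT.exists_fund A.toAbVar
  have hF : Continuous fun z => ‖A.θ z‖ * Real.exp (-q z) :=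
    A.holo.continuous.norm.mul (Real.continuous_exp.comp hq.neg)
  obtain ⟨C, hC⟩ := (isCompact_closedBall (0 : E d) R).bddAbove_image hF.continuousOn
  refine ⟨q, max (max ‖B‖ C) 1, le_max_right _ _, hq,
    LT.QuadAux.quadr B hB L ((le_max_left _ _).trans (le_max_left _ _)), hadd, fun l hl z => ?_,
    fun z => ?_⟩
  · obtain ⟨κ, h1, h2⟩ := hP l hl z
    rw [← h2, smul_left_injective ℂ (A.ne_zero z) (h1.symm.trans (A.law l hl z))]
  · obtain ⟨l, hl, hz⟩ := hR z
    obtain ⟨κ, h1, h2⟩ := hP l hl (z - l)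
    rw [sub_add_cancel] at h1 h2
    have h3 : ‖A.θ (z - l)‖ * Real.exp (-q (z - l)) ≤ C :=
      hC ⟨z - l, mem_closedBall_zero_iff.2 hz, rfl⟩
    calc ‖A.θ z‖ = ‖A.θ (z - l)‖ * Real.exp (-q (z - l)) * Real.exp (q z) := by
          rw [h1, norm_smul, h2, mul_assoc, ← Real.exp_add, mul_comm]
          congr 2
          ring
      _ ≤ _ := mul_le_mul_of_nonneg_right
          (h3.trans ((le_max_right _ _).trans (le_max_left _ _))) (Real.exp_pos _).le

theorem col_law (A : VX d M) {l : E d} (hl : l ∈ A.Λ) (D : ℕ) (s : E d) (x : EE (Fin d)) :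
    col (fun z => A.θ z 0) D s (x + lf A l) =
      cexp (A.H l ⬝ᵥ zz x + A.β l) * col (fun z => A.θ z 0) D s x := by
  have h : ∀ s, psi (fun z => A.θ z 0) (x + lf A l) s =
      cexp (A.H l ⬝ᵥ zz x + A.β l) * psi (fun z => A.θ z 0) x s := fun s => by
    have h1 : zz (x + lf A l) + s = zz x + s + l := add_right_comm (zz x) l s
    have h2 : uu (x + lf A l) = uu x + A.H l := rfl
    unfold psi
    simp only [h1, h2, A.law l hl, Pi.smul_apply, smul_eq_mul, dotProduct_add, add_dotProduct]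
    rw [mul_right_comm, ← Complex.exp_add, mul_comm (A.θ _ _), ← mul_assoc, ← Complex.exp_add]
    congr 2
    ring
  unfold col
  simp only [h, mul_left_comm _ (cexp (A.H l ⬝ᵥ zz x + A.β l))]
  rw [iteratedDeriv_const_mul_field]

theorem cw_law (A : VX d M) {l : E d} (hl : l ∈ A.Λ) {P : MvPolynomial (Fin (M + 1)) ℤ} {n : ℕ}
    (hP : P.IsHomogeneous n) (D : ℕ) (s : E d) (x : EE (Fin d)) :
    cw A P D s (x + lf A l) = cexp (A.H l ⬝ᵥ zz x + A.β l) ^ (n + 1) * cw A P D s x := by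
  have h1 : zz (x + lf A l) = zz x + l := rfl
  rw [cw, cw, col_law A hl, h1, A.law l hl, LT.aeval_smul_of_hom hP]
  ring

theorem col_le (A : VX d M) {q : E d → ℝ} {c c₁ : ℝ} (hc : 0 ≤ c)
    (h1 : ∀ z s, q (z + s) = q z + (A.H z ⬝ᵥ s).re + q s)
    (h2 : ∀ z, ‖A.θ z‖ ≤ c * Real.exp (q z)) (h3 : ∀ s, ‖s‖ ≤ 1 → q s ≤ c₁) (D : ℕ) {m : ℝ}
    {s : E d} (x : EE (Fin d)) (hm : 1 ≤ m) (hs : ‖s‖ ≤ m) :
    ‖col (fun z => A.θ z 0) D s x‖ ≤ (D * m) ^ D *
      (c * Real.exp (q (zz x) + d * ‖uu x - A.H (zz x)‖ + (1 + c₁))) := by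
  have hm0 : 0 < m := by linarith
  have hθ : Differentiable ℂ fun z => A.θ z 0 := differentiable_pi.1 A.holo 0
  have hd : Differentiable ℂ fun τ : ℂ => cexp τ * psi (fun z => A.θ z 0) x (τ • s) :=
    differentiable_exp.mul (WZ.LanAux.psi_line hθ x s)
  have k1 : ∀ τ ∈ Metric.sphere (0 : ℂ) m⁻¹, ‖cexp τ * psi (fun z => A.θ z 0) x (τ • s)‖ ≤
      c * Real.exp (q (zz x) + d * ‖uu x - A.H (zz x)‖ + (1 + c₁)) := by
    intro τ hτ
    rw [mem_sphere_zero_iff_norm] at hτ
    have k2 : ‖τ • s‖ ≤ 1 := by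
      rw [norm_smul, hτ, inv_mul_le_iff₀ hm0, mul_one]
      exact hs
    have k3 : τ.re ≤ 1 := (re_le_norm τ).trans (hτ ▸ inv_le_one_of_one_le₀ hm)
    generalize τ • s = y at k2
    have k4 : ‖(uu x - A.H (zz x)) ⬝ᵥ y‖ ≤ d * ‖uu x - A.H (zz x)‖ := by
      unfold dotProduct
      refine (norm_sum_le _ _).trans ((Finset.sum_le_card_nsmul _ _ ‖uu x - A.H (zz x)‖
        fun k _ => ?_).trans_eq (by simp))
      rw [norm_mul]
      exact (mul_le_of_le_one_right (norm_nonneg _) ((norm_le_pi_norm y k).trans k2)).trans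
        (norm_le_pi_norm _ k)
    have k5 := (neg_le_abs _).trans ((abs_re_le_norm _).trans k4)
    rw [sub_dotProduct, sub_re] at k5
    unfold psi
    rw [norm_mul, norm_mul, norm_exp, norm_exp, neg_re]
    refine (mul_le_mul_of_nonneg_left (mul_le_mul_of_nonneg_right
      ((norm_le_pi_norm _ 0).trans (h2 _)) (Real.exp_pos _).le) (Real.exp_pos _).le).trans ?_
    rw [mul_assoc, mul_left_comm, ← Real.exp_add, ← Real.exp_add, h1]
    gcongr c * Real.exp ?_
    linarith [h3 y k2]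
  refine (Complex.norm_iteratedDeriv_le_of_forall_mem_sphere_norm_le D (inv_pos.2 hm0)
    hd.diffContOnCl k1).trans ?_
  have k3 : (D.factorial : ℝ) ≤ (D : ℝ) ^ D := by exact_mod_cast Nat.factorial_le_pow D
  rw [inv_pow, div_inv_eq_mul, mul_pow, mul_right_comm]
  gcongr

theorem quadr_comp {ν : Type} [Fintype ν] {q : E d → ℝ} {c c' a : ℝ} (hc : 0 ≤ c) (h : Quadr c q)
    (φ : (ν → ℂ) →ₗ[ℂ] E d) (ha : ∀ t, ‖φ t‖ ≤ a * ‖t‖) (h' : c * a ^ 2 ≤ c') :
    Quadr c' fun t => q (φ t) := fun z w => by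
  obtain ⟨α, β, γ, a1, a2, a3⟩ := h (φ z) (φ w)
  have k : c * ‖φ w‖ ^ 2 ≤ c' * ‖w‖ ^ 2 := by
    calc c * ‖φ w‖ ^ 2 ≤ c * (a * ‖w‖) ^ 2 := by gcongr; exact ha w
      _ = c * a ^ 2 * ‖w‖ ^ 2 := by ring
      _ ≤ _ := by gcongr
  exact ⟨α, β, γ, a1.trans k, a2.trans k, fun τ => by simp only [map_add, map_smul, a3]⟩

end AuxVAux

open AuxVAux in
theorem auxV : AuxVS := by
  intro d M A ν _ y hy hli
  classical
  obtain ⟨q, c, hc, q1, q2, q3, q4, q5⟩ := weight A
  have hθ : Differentiable ℂ fun z => A.θ z 0 := differentiable_pi.1 A.holo 0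
  let φ : (ν → ℂ) →ₗ[ℂ] E d := Fintype.linearCombination ℂ y
  let u : (ν → ℂ) →ₗ[ℂ] E d := Fintype.linearCombination ℂ fun i => A.H (y i)
  have hJ : ∀ t, Jy A y t = Sum.elim (φ t) (u t) := fun t => by
    funext k
    rcases k with k | k <;> simp [Jy, lf, φ, u, Fintype.linearCombination_apply]
  have hz : ∀ t, zz (Jy A y t) = φ t := fun t => by rw [hJ]; rfl
  have hu : ∀ t, uu (Jy A y t) = u t := fun t => by rw [hJ]; rfl
  have hR : ∀ r : ν → ℝ, φ (NetAux.ofR r) = ∑ i, r i • y i := fun r => by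
    simp [φ, Fintype.linearCombination_apply, NetAux.ofR]
  have hre : ∀ t, star t = t → u t = A.H (φ t) := fun t ht => by
    rw [NetAux.real_eq ht, hR]
    simp [u, Fintype.linearCombination_apply, NetAux.ofR]
  let ψ : (ν → ℂ) →ₗ[ℝ] E d := u.restrictScalars ℝ - A.H ∘ₗ φ.restrictScalars ℝ
  have hψ : ∀ t, u t - A.H (φ t) = ψ ((1 / 2 : ℝ) • (t - star t)) := fun t => by
    have k1 : ψ ((1 / 2 : ℝ) • (t + star t)) = 0 := by
      rw [map_smul]
      refine smul_eq_zero_of_right _ (sub_eq_zero.2 (hre _ ?_))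
      rw [star_add, star_star, add_comm]
    have k2 : t = (1 / 2 : ℝ) • (t - star t) + (1 / 2 : ℝ) • (t + star t) := by module
    have k3 : ψ t = ψ ((1 / 2 : ℝ) • (t - star t)) := by
      conv_lhs => rw [k2, map_add, k1, add_zero]
    exact k3
  obtain ⟨a, ha0, ha⟩ := (LinearMap.toContinuousLinearMap φ).bound
  obtain ⟨b, hb0, hb⟩ := (LinearMap.toContinuousLinearMap ψ).bound
  obtain ⟨c₁, hc₁⟩ := (isCompact_closedBall (0 : E d) (1 + a)).bddAbove_image q1.continuousOn
  have hq : ∀ s, ‖s‖ ≤ 1 + a → q s ≤ |c₁| := fun s hs =>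
    (hc₁ ⟨s, mem_closedBall_zero_iff.2 hs, rfl⟩).trans (le_abs_self _)
  have hP : ∀ v ∈ LinearMap.ker φ, star v ∈ LinearMap.ker φ → v = 0 := fun v h1 h2 => by
    have k : ∀ w ∈ LinearMap.ker φ, star w = w → w = 0 := fun w w1 w2 => by
      rw [NetAux.real_eq w2, LinearMap.mem_ker, hR] at w1
      rw [NetAux.real_eq w2, show (fun i => (w i).re) = 0 from
        funext (Fintype.linearIndependent_iff.1 hli _ w1)]
      funext i
      simp [NetAux.ofR]
    have k1 := k _ (Submodule.add_mem _ h1 h2) (by rw [star_add, star_star, add_comm])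
    have k2 := k _ (Submodule.smul_mem _ I (Submodule.sub_mem _ h1 h2)) (by
      rw [star_smul, star_sub, star_star, RCLike.star_def, conj_I, neg_smul, ← smul_neg, neg_sub])
    rw [smul_eq_zero_iff_right I_ne_zero] at k2
    have k3 : (2 : ℂ) • v = 0 := by
      rw [two_smul]
      linear_combination k1 + k2
    exact (smul_eq_zero_iff_right two_ne_zero).1 k3
  have hrk := φ.finrank_range_add_finrank_ker
  rw [Fintype.range_linearCombination, finrank_fintype_fun_eq_card] at hrk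
  have p1 : 0 ≤ c * a ^ 2 := by positivity
  have p2 : 0 ≤ d * b := by positivity
  have p3 := abs_nonneg c₁
  obtain ⟨C, hC, haux⟩ := aux (LinearMap.ker φ) hP (c := c * a ^ 2 + d * b + |c₁|)
    (by linarith) 1
  rw [show Fintype.card ν - 2 * finrank ℂ (LinearMap.ker φ) =
      2 * finrank ℂ (Submodule.span ℂ (Set.range y)) - Fintype.card ν by omega,
    show finrank ℂ (LinearMap.ker φ) =
      Fintype.card ν - finrank ℂ (Submodule.span ℂ (Set.range y)) by omega] at haux
  generalize 2 * finrank ℂ (Submodule.span ℂ (Set.range y)) - Fintype.card ν + 2 = x at haux ⊢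
  have p4 : 1 ≤ C * 2 ^ x := one_le_mul_of_one_le_of_one_le hC (one_le_pow₀ one_le_two)
  have p5 : C ≤ C * 2 ^ x := le_mul_of_one_le_right (by linarith) (one_le_pow₀ one_le_two)
  refine ⟨C * 2 ^ x + (c + 1 + |c₁|), by linarith,
    fun ι _ P s n D m V S hD hm hPn hs hV _ hS hSV hι hDm hmain => ?_⟩
  have n0 : (0 : ℝ) ≤ n := Nat.cast_nonneg n
  have V0 : 0 ≤ V := by linarith
  obtain ⟨p, r1, r2, r3⟩ := haux (fun t => q (φ t)) ι (fun i t => cw A (P i) D (s i) (Jy A y t)) D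
    (n + 1) (2 * V) S (quadr_comp (by linarith) q2 φ ha (by linarith))
    (fun t v hv => by simp only [map_add, LinearMap.mem_ker.1 hv, add_zero])
    (fun t ht => (hq _ ((ha t).trans (by nlinarith))).trans (by linarith)) (by linarith) hD
    (by nlinarith) (by linarith) (hι.trans (Real.exp_le_exp.2 (by linarith)))
    (fun i => by
      have k : Differentiable ℂ (Jy A y) := by
        unfold Jy
        fun_prop
      refine Differentiable.mul ?_ ((WZ.LanAux.diff hθ D _ (WZ.LanAux.mem hθ D (s i))).comp k)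
      simp only [hz, aeval_def, eval₂_eq']
      have k' : ∀ j, Differentiable ℂ fun t => A.θ (φ t) j := fun j =>
        (differentiable_pi.1 A.holo j).comp (LinearMap.toContinuousLinearMap φ).differentiable
      fun_prop)
    (fun i t v hv => by
      obtain ⟨R, k1, k2⟩ := WZ.LanAux.poly hθ D _ (WZ.LanAux.mem hθ D (s i)) (Jy A y t) (u v)
      refine ⟨Polynomial.C (aeval (A.θ (φ t)) (P i)) * R,
        (Polynomial.natDegree_C_mul_le _ _).trans k1, fun σ => ?_⟩
      have k3 : Jy A y (t + σ • v) = Jy A y t + σ • Sum.elim (0 : E d) (u v) := by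
        rw [hJ, hJ, map_add, map_add, map_smul, map_smul, LinearMap.mem_ker.1 hv]
        funext k
        rcases k with k | k <;> rfl
      rw [Polynomial.eval_mul, Polynomial.eval_C, ← k2, cw, hz, k3, map_add, map_smul,
        LinearMap.mem_ker.1 hv, smul_zero, add_zero])
    (fun i t => by
      have k1 := col_le A (by linarith) q3 q5 (fun s hs => hq s (by linarith)) D (Jy A y t) hm
        (hs i)
      have k2 : ‖u t - A.H (φ t)‖ ≤ b * ‖t - star t‖ := by
        rw [hψ]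
        refine (hb _).trans (mul_le_mul_of_nonneg_left ?_ hb0.le)
        rw [norm_smul, Real.norm_of_nonneg (by norm_num)]
        linarith [norm_nonneg (t - star t)]
      have k3 : c ≤ Real.exp c := by linarith [Real.add_one_le_exp c]
      rw [hz, hu] at k1
      rw [cw, norm_mul, hz]
      calc _ ≤ (Real.exp c * Real.exp (q (φ t))) ^ n * (Real.exp V * (Real.exp c *
            Real.exp (q (φ t) + d * (b * ‖t - star t‖) + (1 + |c₁|)))) := by
            refine mul_le_mul (((hPn i).2 _).trans ?_) (k1.trans ?_) (norm_nonneg _)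
              (by positivity)
            · exact pow_le_pow_left₀ (norm_nonneg _) ((q5 _).trans (by gcongr)) n
            · gcongr
        _ ≤ _ := by
            rw [← Real.exp_add, ← Real.exp_nat_mul, ← Real.exp_add, ← Real.exp_add,
              ← Real.exp_add, Real.exp_le_exp]
            nlinarith [norm_nonneg (t - star t), mul_nonneg n0 p3])
    (fun e t => by
      have k1 : φ (fun i => (e i : ℂ)) ∈ A.Λ := by
        rw [Fintype.linearCombination_apply]
        exact Submodule.sum_mem _ fun i _ => by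
          rw [Int.cast_smul_eq_zsmul]
          exact Submodule.smul_mem _ _ (hy i)
      have k2 : Jy A y (t + fun i => (e i : ℂ)) = Jy A y t + lf A (φ fun i => (e i : ℂ)) := by
        rw [hJ, hJ, map_add, map_add, hre (fun i => (e i : ℂ)) (funext fun i => by simp)]
        funext k
        rcases k with k | k <;> rfl
      refine ⟨_, ?_, fun i => by rw [k2, cw_law A k1 (hPn i).1]⟩
      rw [norm_pow, q4 _ k1, hz, ← Real.exp_nat_mul, map_add]
      congr 1
      push_cast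
      ring)
    (by
      refine le_trans ?_ hmain
      rw [mul_pow, ← mul_assoc, mul_right_comm _ _ ((2 : ℝ) ^ x), mul_right_comm C]
      gcongr
      linarith)
    (by linarith)
  exact ⟨p, r1, r2, fun t ht => (r3 t ht).trans (Real.exp_le_exp.2 (by linarith))⟩

end Pool.Agent.Lib.MP_caab05_ag.NC
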