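import Mathlib
import Pool.Agent.Lib.MP_caab05_ag.NC.Stmt
import Pool.Agent.Lib.MP_caab05_ag.ZF.Prod
import Pool.Agent.Lib.MP_caab05_ag.WZ.Lan

/-! The bridge to the multiplicity estimate in two degrees. -/

namespace Pool.Agent.Lib.MP_caab05_ag.NC

open MvPolynomial Complex Module
open Pool.Agent.Lib.MP_caab05_ag.LT (E)
open Pool.Agent.Lib.MP_caab05_ag.ZE (Ord VX InP Sp)
open Pool.Agent.Lib.MP_caab05_ag.WZ (EE zz col)
open Pool.Agent.Lib.MP_caab05_ag.ZF (inP_mul inP_sum inP_mono inP_mon inP_lan)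

namespace BrAux

variable {d M e : ℕ} (A : VX d M)

lemma inP_prod (σ : Fin e → E d) (m : Fin (M + 1) → ℕ) (S : Finset (Fin (M + 1))) :
    InP A σ (∑ i ∈ S, m i) 0 fun z => ∏ i ∈ S, A.θ z.1 i ^ m i := by
  induction S using Finset.induction_on with
  | empty => simpa using inP_mon A σ 0 Fin.elim0
  | insert i S hi ih =>
    have h : InP A σ (m i) 0 fun z => A.θ z.1 i ^ m i := by
      simpa using inP_mon A σ (m i) fun _ => i
    simpa only [Finset.sum_insert hi, Finset.prod_insert hi] using inP_mul h ih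

lemma inP_form (σ : Fin e → E d) {P : MvPolynomial (Fin (M + 1)) ℤ} {n : ℕ}
    (hP : P.IsHomogeneous n) : InP A σ n 0 fun z => aeval (A.θ z.1) P := by
  simp only [aeval_def, eval₂_eq]
  exact inP_sum _ _ fun m hm => hP.degree_eq_sum_deg_support hm ▸ inP_prod A σ m m.support

lemma inP_col (D : ℕ) (s : E d) : InP A (fun j => Pi.single j 1) 1 D fun z =>
    col (fun z => A.θ z 0) D s (Sum.elim z.1 z.2) := by
  simp only [WZ.LanAux.col_eq (differentiable_pi.1 A.holo 0), Finset.sum_apply, Pi.smul_apply,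
    smul_eq_mul]
  exact inP_sum _ _ fun i _ => inP_mono (Nat.sub_le D i) (inP_lan A 0 (D - i) s)

/-- the two descriptions of the Lie algebra -/
noncomputable abbrev eq (d : ℕ) : EE (Fin d) ≃ₗ[ℂ] Sp d d :=
  LinearEquiv.sumArrowLequivProdArrow (Fin d) (Fin d) ℂ ℂ

lemma su_eq (U : Submodule ℂ (E d)) :
    ZF.SU A (fun j => Pi.single j 1) U = (SE A U).map (eq d).toLinearMap := by
  rw [SE, Submodule.map_span, Set.image_image, ZF.SU]
  congr 2
  funext x
  exact Prod.ext rfl
    (_root_.funext fun j => (dotProduct_single (A.H x) 1 j).trans (mul_one _))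

end BrAux

open BrAux in
theorem brS : BrS := by
  intro d M A h a K ha hd
  obtain ⟨C, hC⟩ := h d a d K ha hd
  refine ⟨C, fun W ι _ P s p n D hW hP hn => ?_⟩
  have h1 : InP A (fun j => Pi.single j 1) (n + 1) D fun z =>
      ∑ i, p i * cw A (P i) D (s i) (Sum.elim z.1 z.2) :=
    inP_sum _ _ fun i _ => by
      have h := inP_mul (inP_form A _ (hP i)) (inP_col A D (s i))
      rwa [zero_add] at h
  have h2 : ∀ x : EE (Fin d), Sum.elim (eq d x).1 (eq d x).2 = x := fun x =>
    _root_.funext fun k => by cases k <;> rfl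
  refine ⟨?_, fun ho x => ?_⟩
  · simpa only [Function.comp_def, LinearEquiv.coe_toContinuousLinearEquiv', h2] using
      h1.1.diff.comp (eq d).toContinuousLinearEquiv.differentiable
  · have h3 := hC _ (W.map (eq d).toLinearMap) _ D _ ⟨fun U hU => ?_, fun U hU hU' => ?_⟩ hn h1 ?_
    · simpa only [h2, Pi.zero_apply] using congrFun h3 (eq d x)
    · rw [su_eq, ← Submodule.map_sup, LinearEquiv.finrank_map_eq]
      exact hW.dim U hU
    · obtain ⟨w, hw, hw'⟩ := hW.hor U hU hU'
      exact ⟨_, ⟨w, hw, rfl⟩, hw'⟩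
    · rintro _ ⟨w, hw, rfl⟩
      simpa only [zero_add, LinearEquiv.coe_coe, ← map_smul, h2] using ho w hw

end Pool.Agent.Lib.MP_caab05_ag.NC
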