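import Mathlib
import Pool.Agent.Lib.MP_caab05_ag.WZ.QTw
import Pool.Agent.Lib.MP_caab05_ag.WZ.OdeV
import Pool.Agent.Lib.MP_caab05_ag.WZ.Var3
import Pool.Agent.Lib.MP_caab05_ag.CM.Jet
import Pool.Agent.Lib.MP_caab05_ag.NC.Stmt

/-! Endomorphisms act on periods and quasi-periods through algebraic matrices. -/

namespace Pool.Agent.Lib.MP_caab05_ag.NC

open MvPolynomial Filter Topology Asymptotics Complex Matrix
open Pool.Agent.Lib.MP_caab05_ag.LT (AlgCoeff E)
open Pool.Agent.Lib.MP_caab05_ag.ZE (VX)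
open Pool.Agent.Lib.MP_caab05_ag.WZ (Ode Arith)
open Pool.Agent.Lib.MP_caab05_ag.GB (Der Tw cD dP BiH Charts osg pol)
open Pool.Agent.Lib.MP_caab05_ag.GB.HomAux (zero_of_mul diff_elim diff_ev diff_dP aD aD_apply
  tw_lin)
open Pool.Agent.Lib.MP_caab05_ag.WZ.QTwAux (tw imm)

namespace EndAux

variable {d M : ℕ}

lemma cD_alg {σ : Type} (D : Der) {P : MvPolynomial σ ℂ} (hP : AlgCoeff P) : cD D P = 0 := by
  ext m
  rw [pol.coeff_cD, coeff_zero]
  exact pol.D_alg D _ (hP m)

lemma tw_ev {κ σ : Type} [Fintype κ] [Fintype σ] {D : Der} {Φ : (κ → ℂ) → σ → ℂ}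
    (h : ∀ s, Tw D (fun z => Φ z s) fun _ => 0) {P : MvPolynomial σ ℂ} (hP : AlgCoeff P) :
    Tw D (fun z => eval (Φ z) P) fun _ => 0 := by
  refine tw.congr _ D _ _ _ _ (tw.poly _ _ D Φ (fun _ _ => 0) P h)
    (Eventually.of_forall fun _ => rfl) (Eventually.of_forall fun z => ?_)
  simp [cD_alg D hP, dP]

/-- a solution of an algebraic differential system and its derivatives are rigid -/
lemma tw_ode {f : E d → ℂ} (hf : Ode f) (D : Der) :
    (Tw D f fun _ => 0) ∧ ∀ k, Tw D (fun z => fderiv ℂ f z (Pi.single k 1)) fun _ => 0 := by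
  obtain ⟨σ, _, Φ, P, P₀, h0, hP, hP₀, h⟩ := hf
  choose P' hP' using fun s k => LT.JetAAux.lift (hP s k)
  have h1 : ∀ᶠ z in 𝓝 (0 : E d), DifferentiableAt ℂ Φ z ∧ ∀ i j,
      fderiv ℂ Φ z (Pi.single j 1) i = eval (Φ z) (P i j) := h.mono fun z hz =>
    ⟨hz.1, fun i j => by
      rw [hz.2.1, Finset.sum_eq_single j (fun b _ hb => by simp [hb]) (by simp)]
      simp⟩
  have hΦ : ∀ s, Tw D (fun z => Φ z s) fun _ => 0 := by
    intro s n
    obtain ⟨T, hT⟩ := CM.JetAux.picard Φ P' h0 (h1.mono fun z hz =>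
      ⟨hz.1, fun i j => by rw [hz.2, hP']⟩) n
    refine ⟨map (algebraMap LT.JetAAux.K ℂ) (T s), (hT s).congr_left fun u => ?_, ?_⟩
    · rw [eval_map, aeval_def]
    · have h4 : cD D (map (algebraMap LT.JetAAux.K ℂ) (T s)) = 0 := cD_alg D fun m => by
        rw [coeff_map]
        exact mem_algebraicClosure_iff.1 (Subtype.property _)
      simp only [h4, map_zero, sub_self]
      exact isBigO_zero _ _
  have he : f =ᶠ[𝓝 0] fun z => eval (Φ z) P₀ := h.mono fun z hz => hz.2.2
  refine ⟨tw.congr _ D _ _ _ _ (tw_ev hΦ hP₀) he.symm (Eventually.of_forall fun _ => rfl),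
    fun k => ?_⟩
  have h2 := tw.sum _ _ D (fun s z => eval (Φ z) (pderiv s P₀) * eval (Φ z) (P s k)) _
    fun s => tw.mul _ D _ _ _ _ (tw_ev hΦ (P := pderiv s P₀) fun m => by
      rw [coeff_pderiv]
      exact (hP₀ _).mul ((isAlgebraic_natCast _).add isAlgebraic_one)) (tw_ev hΦ (hP s k))
  refine tw.congr _ D _ _ _ _ h2 ?_ (Eventually.of_forall fun z => by simp)
  filter_upwards [h1, he.fderiv (𝕜 := ℂ)] with z hz hz'
  have h3 := ((pol.diff_eval _ P₀ (Φ z)).hasFDerivAt.comp z hz.1.hasFDerivAt).fderiv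
  change fderiv ℂ (fun z => eval (Φ z) P₀) z = _ at h3
  rw [hz', h3, ContinuousLinearMap.comp_apply, pol.fderiv_eval, dP]
  simp only [hz.2]

lemma th (A : VX d M) (a : Fin (M + 1)) : Differentiable ℂ fun z => A.θ z a :=
  differentiable_pi.1 A.holo a

lemma anal {g : E d → ℂ} (hg : Differentiable ℂ g) (z : E d) : AnalyticAt ℂ g z :=
  osg _ _ g Set.univ isOpen_univ hg.differentiableOn z trivial

lemma diff_fd {g : E d → ℂ} (hg : Differentiable ℂ g) {a v : E d → E d} (ha : Differentiable ℂ a)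
    (hv : Differentiable ℂ v) : Differentiable ℂ fun z => fderiv ℂ g (a z) (v z) := fun z =>
  ((anal hg (a z)).fderiv.differentiableAt.comp z (ha z)).clm_apply (hv z)

lemma tw_th (A : VX d M) (hA : Arith A) (D : Der) (a : Fin (M + 1)) :
    Tw D (fun z => A.θ z a) fun _ => 0 := by
  have h1 := tw.mul _ D _ _ _ _ (CM.jetS d M A.toAbVar D a) (tw_ode (WZ.odeV d M A hA) D).1
  refine tw.congr _ D _ _ _ _ h1 ?_ (Eventually.of_forall fun z => by simp)
  filter_upwards [(th A 0).continuous.continuousAt.eventually_ne A.origin] with z hz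
  exact div_mul_cancel₀ _ hz

/-- the law of the derivatives -/
lemma dlaw (A : VX d M) {l : E d} (hl : l ∈ A.Λ) (b : Fin (M + 1)) (z v : E d) :
    fderiv ℂ (fun z => A.θ z b) (z + l) v = cexp (A.H l ⬝ᵥ z + A.β l) *
      (fderiv ℂ (fun z => A.θ z b) z v + A.H l ⬝ᵥ v * A.θ z b) := by
  have h1 := WZ.OdeVAux.line (th A b) (z + l) v 0
  have h2 := WZ.OdeVAux.line (th A b) z v 0
  have h3 : HasDerivAt (fun s : ℂ => A.H l ⬝ᵥ z + A.β l + s * (A.H l ⬝ᵥ v)) (A.H l ⬝ᵥ v) 0 := by
    simpa using ((hasDerivAt_id (0 : ℂ)).mul_const (A.H l ⬝ᵥ v)).const_add (A.H l ⬝ᵥ z + A.β l)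
  have h4 := h3.cexp.fun_mul h2
  have h5 : (fun s : ℂ => A.θ (z + l + s • v) b) = fun s =>
      cexp (A.H l ⬝ᵥ z + A.β l + s * (A.H l ⬝ᵥ v)) * A.θ (z + s • v) b := by
    funext s
    rw [add_right_comm, A.law l hl, dotProduct_add, dotProduct_smul, Pi.smul_apply, smul_eq_mul,
      smul_eq_mul, add_right_comm]
  rw [h5] at h1
  have := h1.unique h4
  simp only [zero_smul, add_zero, zero_mul] at this
  rw [this]
  ring

/-- the twist of a quotient of two functions with the same factor is periodic -/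
theorem wron (A : VX d M) {D : Der} (hT : ∀ i, Tw D (fun z => A.θ z i) fun _ => 0) {β : Type}
    [Fintype β] {Y : E d → β → ℂ} (hY : Differentiable ℂ Y) (hne : ∀ z, Y z ≠ 0)
    {e : E d → E d → ℂ} (he : ∀ l ∈ A.Λ, ∀ z, e l z ≠ 0 ∧ Y (z + l) = e l z • Y z)
    (t : Fin 2 → β) (h0 : Y 0 (t 0) ≠ 0) {G G' : E d → Fin 2 → ℂ} (hG : Differentiable ℂ G)
    (hG' : Differentiable ℂ G') (hTw : ∀ b, Tw D (fun z => Y z (t b)) fun z => G z b) {l : E d}
    (hl : l ∈ A.Λ) (h : ∀ z, G (z + l) = e l z • (G z + G' z)) (z : E d) :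
    Y z (t 0) * G' z 1 - Y z (t 1) * G' z 0 = 0 := by
  obtain ⟨R, hR⟩ := LT.exists_fund A.toAbVar
  have hθ := A.holo
  have hc : Charts (ι := Unit) (fun _ => (Set.univ : Set (Fin d → ℂ)))
      (fun _ => Metric.closedBall 0 R) (fun _ => A.θ) (fun _ => Y) :=
    { op := fun _ => isOpen_univ
      cpt := fun _ => isCompact_closedBall _ _
      sub := fun _ => Set.subset_univ _
      holX := fun _ => hθ.differentiableOn
      holY := fun _ => hY.differentiableOn
      neX := fun _ p _ => A.ne_zero p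
      neY := fun _ p _ => hne p
      mtch := fun _ u _ => by
        obtain ⟨l, h1, h2⟩ := hR u
        refine subset_closure ⟨Set.mem_univ _, (), u - l, mem_closedBall_zero_iff.2 h2,
          cexp (A.H l ⬝ᵥ (u - l) + A.β l), e l (u - l), ?_, ?_⟩
        · rw [← A.law l h1, sub_add_cancel]
        · rw [← (he l h1 _).2, sub_add_cancel] }
  obtain ⟨Q, k, k', hQ, hz, u0, -, hu0⟩ := GB.rel osg pol (GB.dep osg) _ _ _ _ _ _ _ _ hc ()
    t isPreconnected_univ ⟨0, Set.mem_univ _, A.ne_zero 0, imm A⟩ ⟨0, Set.mem_univ _, h0⟩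
  let y : E d → Fin 2 → ℂ := fun z b => Y z (t b)
  have hy : Differentiable ℂ y := differentiable_pi.2 fun b => differentiable_pi.1 hY _
  let F : E d → Fin (M + 1) ⊕ Fin 2 → ℂ := fun z => Sum.elim (A.θ z) (y z)
  have hF : Differentiable ℂ F := diff_elim hθ hy
  have hz' : ∀ z, eval (F z) Q = 0 := fun z => hz z (Set.mem_univ _)
  have hE : Differentiable ℂ fun z => eval (F z) (cD D Q) + dP Q (F z) (Sum.elim 0 (G z)) :=
    (diff_ev pol _ hF).add (diff_dP pol Q hF (diff_elim (differentiable_const _) hG))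
  have hA := osg _ _ _ Set.univ isOpen_univ hE.differentiableOn
  have hp := tw.poly _ _ D F (fun z => Sum.elim 0 (G z)) Q (by
    rintro (i | b)
    · exact hT i
    · exact hTw b)
  have hu := tw.uniq _ D _ _ _ (tw.congr _ D _ _ _ _ hp (Eventually.of_forall hz')
    (Eventually.of_forall fun z => rfl)) (tw.const _ D 0) (hA 0 (Set.mem_univ _)) analyticAt_const
  rw [map_zero] at hu
  have hE0 : ∀ z, eval (F z) (cD D Q) + dP Q (F z) (Sum.elim 0 (G z)) = 0 := fun z =>
    hA.eqOn_zero_of_preconnected_of_eventuallyEq_zero isPreconnected_univ (Set.mem_univ 0) hu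
      (Set.mem_univ z)
  have key : ∀ z, dP Q (F z) (Sum.elim 0 (G' z)) = 0 := by
    intro z
    obtain ⟨ε, hε⟩ : ∃ ε, ε = cexp (A.H l ⬝ᵥ z + A.β l) := ⟨_, rfl⟩
    have hε0 : ε ≠ 0 := hε ▸ Complex.exp_ne_zero _
    have eF : F (z + l) = Sum.elim (ε • A.θ z) (e l z • y z) := by
      simp only [F, y, A.law l hl z, (he l hl z).2, hε]
      rfl
    have eG : (Sum.elim 0 (G (z + l)) : Fin (M + 1) ⊕ Fin 2 → ℂ) =
        Sum.elim (ε • (0 : Fin (M + 1) → ℂ)) (e l z • (G z + G' z)) := by rw [h, smul_zero]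
    have h1 := hE0 (z + l)
    rw [eF, eG, pol.bih_dP _ _ Q k k' hQ, pol.bih_eval _ _ _ k k' (pol.bih_cD _ _ D Q k k' hQ),
      ← mul_add] at h1
    have h2 := (mul_eq_zero.1 h1).resolve_left
      (mul_ne_zero (pow_ne_zero _ hε0) (pow_ne_zero _ (he l hl z).1))
    have e3 : (Sum.elim 0 (G z + G' z) : Fin (M + 1) ⊕ Fin 2 → ℂ) =
        Sum.elim (0 : Fin (M + 1) → ℂ) (G z) + Sum.elim (0 : Fin (M + 1) → ℂ) (G' z) := by
      funext j
      rcases j with i | b <;> simp
    rw [e3, pol.dP_add] at h2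
    linear_combination h2 - hE0 z
  exact zero_of_mul osg (f := fun u => eval (F u) (pderiv (Sum.inr 1) Q))
    (k := fun u => y u 0 * G' u 1 - y u 1 * G' u 0) (diff_ev pol _ hF)
    (((differentiable_pi.1 hy 0).mul (differentiable_pi.1 hG' 1)).sub
      ((differentiable_pi.1 hy 1).mul (differentiable_pi.1 hG' 0)))
    (fun u => pol.wronski _ Q k k' hQ _ _ _ (hz' u) (key u)) hu0 z

/-- the tangent map of an endomorphism is rigid -/
theorem step1 (A : VX d M) {D : Der} (hT : ∀ i, Tw D (fun z => A.θ z i) fun _ => 0)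
    (φ : E d →ₗ[ℂ] E d) (hφ : ∀ l ∈ A.Λ, φ l ∈ A.Λ) : aD D φ = 0 := by
  have ha : Differentiable ℂ φ := (LinearMap.toContinuousLinearMap φ).differentiable
  have hb : Differentiable ℂ (aD D φ) := (LinearMap.toContinuousLinearMap (aD D φ)).differentiable
  suffices h : (aD D φ).restrictScalars ℝ = 0 from LinearMap.ext fun x => LinearMap.congr_fun h x
  refine LinearMap.ext_on A.span_top fun l hl => ?_
  change aD D φ l = 0
  refine imm A _ (fderiv ℂ (fun z => A.θ z 0) 0 (aD D φ l) / A.θ 0 0) (funext fun j => ?_)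
  have h1 := wron A hT (Y := fun z => A.θ (φ z)) (A.holo.comp ha) (fun z => A.ne_zero _)
    (e := fun l z => cexp (A.H (φ l) ⬝ᵥ φ z + A.β (φ l)))
    (fun l hl z => ⟨Complex.exp_ne_zero _, by rw [map_add, A.law _ (hφ l hl)]⟩) ![0, j]
    (by simpa using A.origin)
    (G := fun z b => fderiv ℂ (fun z => A.θ z (![0, j] b)) (φ z) (aD D φ z))
    (G' := fun z b => fderiv ℂ (fun z => A.θ z (![0, j] b)) (φ z) (aD D φ l) +
      A.H (φ l) ⬝ᵥ aD D φ (z + l) * A.θ (φ z) (![0, j] b))
    (differentiable_pi.2 fun b => diff_fd (th A _) ha hb)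
    (differentiable_pi.2 fun b => (diff_fd (th A _) ha (differentiable_const _)).add
      (Differentiable.mul (by
        simp only [dotProduct]
        exact Differentiable.fun_sum fun i _ => (differentiable_pi.1
          (hb.comp (differentiable_id.add_const l)) i).const_mul _) ((th A _).comp ha)))
    (fun b => tw.congr _ D _ _ _ _ (tw.comp _ _ D _ _ φ (aD D φ) (hT _) (anal (th A _) 0)
      (map_zero φ) (tw_lin tw D φ)) (Eventually.of_forall fun _ => rfl)
      (Eventually.of_forall fun _ => zero_add _)) hl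
    (fun z => by
      funext b
      simp only [map_add φ, dlaw A (hφ l hl), Pi.smul_apply, Pi.add_apply, smul_eq_mul,
        map_add (aD D φ), map_add (fderiv ℂ _ _)]
      ring) 0
  have h2 : fderiv ℂ A.θ 0 (aD D φ l) j = fderiv ℂ (fun z => A.θ z j) 0 (aD D φ l) := by
    rw [(hasFDerivAt_pi'.1 (A.holo 0).hasFDerivAt j).fderiv]
    rfl
  have ho := A.origin
  simp only [map_zero, Matrix.cons_val_zero, Matrix.cons_val_one] at h1
  rw [h2, Pi.smul_apply, smul_eq_mul]
  field_simp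
  linear_combination h1

lemma fd_sum (g : E d → ℂ) (z n : E d) :
    fderiv ℂ g z n = ∑ j, n j * fderiv ℂ g z (Pi.single j 1) :=
  GB.HomAux.lin_apply (fderiv ℂ g z).toLinearMap n

/-- the action on the quasi-periods is rigid -/
theorem step2 (A : VX d M) (hA : Arith A) (D : Der) (φ : E d →ₗ[ℂ] E d)
    (hφ : ∀ l ∈ A.Λ, φ l ∈ A.Λ) (k : Fin d) (m n : E d)
    (hmn : ∀ l ∈ A.Λ, A.H (φ l) k = m ⬝ᵥ l + n ⬝ᵥ A.H l) {l : E d} (hl : l ∈ A.Λ) :
    (fun j => D (m j)) ⬝ᵥ l + (fun j => D (n j)) ⬝ᵥ A.H l = 0 := by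
  have hT := tw_th A hA D
  have hT' := (tw_ode (WZ.odeV d M A hA) D).2
  have ha : Differentiable ℂ φ := (LinearMap.toContinuousLinearMap φ).differentiable
  have hdot : ∀ v : E d, Differentiable ℂ fun z : E d => v ⬝ᵥ z := fun v => by
    simp only [dotProduct]
    fun_prop
  have hc : ∀ {F : E d → ℂ}, Differentiable ℂ F → (Tw D F fun _ => 0) →
      Tw D (fun z => F (φ z)) fun _ => 0 := fun hF h =>
    tw.congr _ D _ _ _ _ (tw.comp _ _ D _ _ φ (aD D φ) h (anal hF 0) (map_zero φ) (tw_lin tw D φ))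
      (Eventually.of_forall fun _ => rfl) (Eventually.of_forall fun _ => by
        simp [step1 A hT φ hφ])
  let f : E d → ℂ := fun z => A.θ z 0
  have hf : Differentiable ℂ f := th A 0
  have hf' : ∀ v, Differentiable ℂ fun z => fderiv ℂ f z v := fun v =>
    diff_fd hf differentiable_id (differentiable_const v)
  let y : E d → E d → E d → ℂ := fun m n z => -(f (φ z) * (fderiv ℂ f z n + f z * (m ⬝ᵥ z)))
  have hy : ∀ m n, Differentiable ℂ (y m n) := fun m n =>
    ((hf.comp ha).mul ((hf' n).add (hf.mul (hdot m)))).neg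
  have hyl : ∀ m n, ∀ l ∈ A.Λ, ∀ z, y m n (z + l) = cexp (A.H l ⬝ᵥ z + A.β l) *
      cexp (A.H (φ l) ⬝ᵥ φ z + A.β (φ l)) *
        (y m n z - f (φ z) * f z * (m ⬝ᵥ l + n ⬝ᵥ A.H l)) := fun m n l hl z => by
    simp only [y, f, map_add φ, dlaw A hl, A.law _ hl, A.law _ (hφ l hl), Pi.smul_apply,
      smul_eq_mul, dotProduct_add, dotProduct_comm n]
    ring
  let Y : E d → Option (Fin (M + 1) × Fin (M + 1)) → ℂ := fun z o =>
    o.elim (f z * fderiv ℂ f (φ z) (Pi.single k 1) + y m n z) fun p => A.θ z p.1 * A.θ (φ z) p.2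
  have h1 := wron A hT (Y := Y)
    (differentiable_pi.2 fun o => by
      rcases o with _ | p
      · exact (hf.mul ((hf' _).comp ha)).add (hy m n)
      · exact (th A _).mul ((th A _).comp ha))
    (fun z h => by
      obtain ⟨a, ha⟩ := Function.ne_iff.1 (A.ne_zero z)
      obtain ⟨b, hb⟩ := Function.ne_iff.1 (A.ne_zero (φ z))
      exact mul_ne_zero ha hb (congrFun h (some (a, b))))
    (e := fun l z => cexp (A.H l ⬝ᵥ z + A.β l) * cexp (A.H (φ l) ⬝ᵥ φ z + A.β (φ l)))
    (fun l hl z => ⟨mul_ne_zero (Complex.exp_ne_zero _) (Complex.exp_ne_zero _), by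
      funext o
      rcases o with _ | p
      · simp only [Y, Option.elim, hyl m n l hl, ← hmn l hl, f, map_add φ, dlaw A (hφ l hl),
          A.law _ hl, Pi.smul_apply, smul_eq_mul, dotProduct_single, mul_one]
        ring
      · simp only [Y, Option.elim, map_add φ, A.law _ hl, A.law _ (hφ l hl), Pi.smul_apply,
          smul_eq_mul]
        ring⟩) ![some (0, 0), none]
    (by simpa [Y] using A.origin)
    (G := fun z => ![0, y (fun j => D (m j)) (fun j => D (n j)) z])
    (G' := fun z => ![0, -(f (φ z) * f z *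
      ((fun j => D (m j)) ⬝ᵥ l + (fun j => D (n j)) ⬝ᵥ A.H l))])
    (differentiable_pi.2 fun b => by
      fin_cases b
      · exact differentiable_const _
      · exact hy _ _)
    (differentiable_pi.2 fun b => by
      fin_cases b
      · exact differentiable_const _
      · exact (((hf.comp ha).mul hf).mul_const _).neg)
    (fun b => by
      fin_cases b
      · exact tw.congr _ D _ _ _ _ (tw.mul _ D _ _ _ _ (hT 0) (hc hf (hT 0)))
          (Eventually.of_forall fun _ => rfl) (Eventually.of_forall fun _ => by simp)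
      · have t1 := tw.mul _ D _ _ _ _ (hT 0) (hc (hf' _) (hT' k))
        have t2 := tw.sum _ _ D _ _ fun j => tw.mul _ D _ _ _ _ (tw.const _ D (n j)) (hT' j)
        have t3 := tw.sum _ _ D _ _ fun j =>
          tw.mul _ D _ _ _ _ (tw.const _ D (m j)) (tw.coord (Fin d) D j)
        have t4 := tw.add _ D _ _ _ _ t1 (tw.mul _ D _ _ _ _ (tw.const _ D (-1))
          (tw.mul _ D _ _ _ _ (hc hf (hT 0))
            (tw.add _ D _ _ _ _ t2 (tw.mul _ D _ _ _ _ (hT 0) t3))))
        refine tw.congr _ D _ _ _ _ t4 (Eventually.of_forall fun z => ?_)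
          (Eventually.of_forall fun z => ?_)
        · simp [Y, y, f, fd_sum _ z n, dotProduct]
        · simp [y, f, fd_sum _ z fun j => D (n j), dotProduct]) hl
    (fun z => by
      funext b
      fin_cases b
      · simp
      · simp [hyl _ _ l hl, sub_eq_add_neg]) 0
  have ho : f 0 ≠ 0 := A.origin
  simpa [Y, ho, A.origin] using h1

end EndAux

open EndAux in
theorem endS' (d M : ℕ) (A : VX d M) (hA : Arith A)
    (hsp : Submodule.span ℂ ((fun x => (Sum.elim x (A.H x) : Fin d ⊕ Fin d → ℂ)) ''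
      (A.Λ : Set (E d))) = ⊤) (φ : E d →ₗ[ℂ] E d) (hφ : ∀ l ∈ A.Λ, φ l ∈ A.Λ) :
    ∃ a : Matrix (Fin d ⊕ Fin d) (Fin d ⊕ Fin d) ℂ, (∀ m m', IsAlgebraic ℚ (a m m')) ∧
      ∀ l ∈ A.Λ, Sum.elim (φ l) (A.H (φ l)) = a *ᵥ Sum.elim l (A.H l) := by
  let lf : E d →ₗ[ℝ] (Fin d ⊕ Fin d → ℂ) :=
    { toFun := fun x => Sum.elim x (A.H x)
      map_add' := fun x y => by
        funext m
        rcases m with m | m <;> simp
      map_smul' := fun c x => by
        funext m
        rcases m with m | m <;> simp }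
  have huniq : ∀ r : Fin d ⊕ Fin d → ℂ, (∀ l ∈ A.Λ, r ⬝ᵥ lf l = 0) → r = 0 := fun r hr => by
    have h1 : (dotProductBilin ℂ ℂ r : (Fin d ⊕ Fin d → ℂ) →ₗ[ℂ] ℂ) = 0 :=
      LinearMap.ext_on hsp (by
        rintro _ ⟨l, hl, rfl⟩
        exact hr l hl)
    funext m
    simpa using LinearMap.congr_fun h1 (Pi.single m 1)
  obtain ⟨ι, _, b, hb⟩ := LT.exists_basis A.toAbVar
  have hcard : Fintype.card ι = Module.finrank ℂ (Fin d ⊕ Fin d → ℂ) := by
    rw [← Module.finrank_eq_card_basis b, Module.finrank_pi_fintype,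
      Module.finrank_fintype_fun_eq_card]
    simp [mul_two]
  have htop : ⊤ ≤ Submodule.span ℂ (Set.range fun i => lf (b i)) := by
    rw [← hsp, Submodule.span_le]
    rintro _ ⟨l, hl, rfl⟩
    rw [← hb] at hl
    change lf l ∈ Submodule.span ℂ (Set.range fun i => lf (b i))
    induction hl using Submodule.span_induction with
    | mem x hx =>
      obtain ⟨i, rfl⟩ := hx
      exact Submodule.subset_span ⟨i, rfl⟩
    | zero => rw [map_zero]; exact zero_mem _
    | add x y _ _ hx hy => rw [map_add]; exact add_mem hx hy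
    | smul c x _ hx => rw [map_zsmul]; exact zsmul_mem hx c
  let B := basisOfTopLeSpanOfCardEqFinrank _ htop hcard
  let L := B.constr ℂ fun i => lf (φ (b i))
  have hL : ∀ l ∈ A.Λ, lf (φ l) = LinearMap.toMatrix' L *ᵥ lf l := by
    intro l hl
    rw [LinearMap.toMatrix'_mulVec]
    rw [← hb] at hl
    induction hl using Submodule.span_induction with
    | mem x hx =>
      obtain ⟨i, rfl⟩ := hx
      have : lf (b i) = B i := by simp [B]
      rw [this, Module.Basis.constr_basis]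
    | zero => simp
    | add x y _ _ hx hy => simp only [map_add, hx, hy]
    | smul c x _ hx => simp only [map_zsmul, hx]
  refine ⟨LinearMap.toMatrix' L, fun m m' => WZ.Var3Aux.alg_of_der fun D => ?_, hL⟩
  generalize LinearMap.toMatrix' L = a at hL
  rcases m with k | k
  · have h1 := huniq (a (.inl k) - Sum.elim (fun j => φ (Pi.single j 1) k) 0) fun l hl => by
      have h2 : φ l k = a (.inl k) ⬝ᵥ lf l := congrFun (hL l hl) (.inl k)
      rw [sub_dotProduct, ← h2, GB.HomAux.lin_apply φ l]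
      simp [dotProduct, lf, mul_comm]
    rw [sub_eq_zero.1 h1]
    rcases m' with j | j
    · have h3 : aD D φ (Pi.single j 1) k = 0 := by rw [step1 A (tw_th A hA D) φ hφ]; rfl
      rw [aD_apply, Finset.sum_eq_single j (fun b _ hb => by simp [hb]) (by simp)] at h3
      simpa using h3
    · exact map_zero D
  · have h1 := huniq (fun m' => D (a (.inr k) m')) fun l hl => by
      have := step2 A hA D φ hφ k (fun j => a (.inr k) (.inl j)) (fun j => a (.inr k) (.inr j))
        (fun l hl => by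
          have h2 : A.H (φ l) k = a (.inr k) ⬝ᵥ lf l := congrFun (hL l hl) (.inr k)
          rw [h2]
          simp [dotProduct, lf]) hl
      simpa [dotProduct, lf] using this
    exact congrFun h1 m'

theorem endS : EndS := endS'

end Pool.Agent.Lib.MP_caab05_ag.NC
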