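import Mathlib
import Pool.Agent.Lib.MP_caab05_ag.NC.Stmt

/-! The theorem for a product of simple abelian varieties. -/

namespace Pool.Agent.Lib.MP_caab05_ag.NC

open Complex Module
open Pool.Agent.Lib.MP_caab05_ag.LT (E sl)
open Pool.Agent.Lib.MP_caab05_ag.ZE (VX)
open Pool.Agent.Lib.MP_caab05_ag.WZ (EE Arith)

set_option linter.unusedSectionVars false

namespace FinAux

variable {K : Type} {g M : K → ℕ} {d M' : ℕ}

/-- regrouping of the coordinates of a power of a product -/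
def reg (p : ℕ) (g : K → ℕ) : Fin p × (Σ i, Fin (g i)) ≃ Σ x : Fin p × K, Fin (g x.2) where
  toFun x := ⟨(x.1, x.2.1), x.2.2⟩
  invFun x := (x.1.1, ⟨x.1.2, x.2⟩)
  left_inv _ := rfl
  right_inv _ := rfl

/-- the powers of a product of simple abelian varieties -/
theorem pw (h1 : ProdS) [Fintype K] (A : ∀ i, VX (g i) (M i)) (hs : ∀ i, (A i).Simple)
    (ha : ∀ i, Arith (A i)) (B : VX d M') (e : (Σ i, Fin (g i)) ≃ Fin d)
    (hl : ∀ z, z ∈ B.Λ ↔ ∀ i, (fun j => z (e ⟨i, j⟩)) ∈ (A i).Λ)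
    (hH : ∀ x i j, B.H x (e ⟨i, j⟩) = (A i).H (fun j => x (e ⟨i, j⟩)) j) : Pw B := by
  intro p _
  obtain ⟨d', M'', B', e', h2, h3, h4, h5⟩ := h1 (Fin p × K) (fun x => g x.2) (fun x => M x.2)
    (fun x => A x.2) (fun x => hs x.2) (fun x => ha x.2)
  refine ⟨d', M'', B', ((Equiv.refl _).prodCongr e.symm).trans ((reg p g).trans e'), ⟨?_, ?_⟩,
    h2, h3⟩
  · intro z
    rw [h4]
    simp only [hl, Prod.forall]
    refine forall_congr' fun j => forall_congr' fun i => ?_
    simp [sl, reg]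
  · intro z j
    funext m
    obtain ⟨⟨i, k⟩, rfl⟩ := e.surjective m
    rw [hH]
    simpa [sl, reg] using h5 z (j, i) k

section Tr

variable {V W ν : Type} [AddCommGroup V] [Module ℝ V] [Module ℂ V] [IsScalarTower ℝ ℂ V]
  [AddCommGroup W] [Module ℝ W] [Module ℂ W] [IsScalarTower ℝ ℂ W]

theorem dimIn_tr (T : V ≃ₗ[ℂ] W) (y : ν → V) (U : Submodule ℂ W) :
    dimIn (fun j => T (y j)) U = dimIn y (U.comap T.toLinearMap) := by
  unfold dimIn
  rw [← LinearEquiv.finrank_map_eq (T.restrictScalars ℝ),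
    Submodule.map_inf _ (T.restrictScalars ℝ).injective, Submodule.map_span, ← Set.range_comp]
  have : Submodule.map ((T.restrictScalars ℝ : V ≃ₗ[ℝ] W) : V →ₗ[ℝ] W)
      ((U.comap T.toLinearMap).restrictScalars ℝ) = U.restrictScalars ℝ := by
    ext w
    constructor
    · rintro ⟨v, hv, rfl⟩
      exact hv
    · intro hw
      exact ⟨T.symm w, by simpa using hw, by simp⟩
  rw [this]
  rfl

theorem finrank_tr (T : V ≃ₗ[ℂ] W) (U : Submodule ℂ W) :
    finrank ℂ (U.comap T.toLinearMap) = finrank ℂ U := by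
  rw [← LinearEquiv.finrank_map_eq T, Submodule.map_comap_eq_of_surjective T.surjective]

theorem span_tr (T : V ≃ₗ[ℂ] W) (y : ν → V) :
    finrank ℂ (Submodule.span ℂ (Set.range fun j => T (y j))) =
      finrank ℂ (Submodule.span ℂ (Set.range y)) := by
  rw [← LinearEquiv.finrank_map_eq T, Submodule.map_span, ← Set.range_comp]
  rfl

theorem dimIn_le [Fintype ν] (y : ν → V) (U : Submodule ℂ V) : dimIn y U ≤ Fintype.card ν := by
  have : Module.Finite ℝ (Submodule.span ℝ (Set.range y)) :=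
    Module.Finite.span_of_finite ℝ (Set.finite_range y)
  exact (Submodule.finrank_mono inf_le_right).trans (finrank_range_le_card y)

theorem dimIn_bot (y : ν → V) : dimIn y ⊥ = 0 := by
  unfold dimIn
  rw [Submodule.restrictScalars_bot, bot_inf_eq, finrank_bot]

end Tr

/-- stability implies the condition used in the proof -/
theorem semi {ν : Type} [Fintype ν] (B : VX d M') (y : ν → E d) (hd : d ≤ Fintype.card ν)
    (h : ∀ U, ZE.Rat B U → U ≠ ⊥ → U ≠ ⊤ → d * dimIn y U < Fintype.card ν * finrank ℂ U) :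
    Semi B y := by
  constructor
  · intro U hU
    by_cases h0 : U = ⊥
    · simp [h0, dimIn_bot]
    by_cases h1 : U = ⊤
    · rw [h1, finrank_top, finrank_fin_fun, mul_comm]
      exact Nat.mul_le_mul_right _ (dimIn_le y ⊤)
    exact (h U hU h0 h1).le
  · intro U hU h0 h1
    have h2 := h U hU h0 h1
    have h3 : finrank ℂ U ≤ d := by simpa using U.finrank_le
    by_contra h4
    obtain ⟨a, ha⟩ := Nat.exists_eq_add_of_le hd
    obtain ⟨b, hb⟩ := Nat.exists_eq_add_of_le h3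
    rw [ha] at h2 h4
    generalize finrank ℂ U = u at *
    generalize dimIn y U = x at *
    subst hb
    have h5 : a + u ≤ x := by omega
    nlinarith [Nat.mul_le_mul_left (u + b) h5, Nat.zero_le (a * b)]

/-- the coordinates of a product -/
noncomputable def tr (e : (Σ i, Fin (g i)) ≃ Fin d) : (∀ i, E (g i)) ≃ₗ[ℂ] E d :=
  (LinearEquiv.piCurry ℂ fun i (_ : Fin (g i)) => ℂ).symm.trans
    (LinearEquiv.funCongrLeft ℂ ℂ e.symm)

theorem tr_apply (e : (Σ i, Fin (g i)) ≃ Fin d) (x : ∀ i, E (g i)) (i : K) (j : Fin (g i)) :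
    tr e x (e ⟨i, j⟩) = x i j := by
  show x (e.symm (e ⟨i, j⟩)).1 (e.symm (e ⟨i, j⟩)).2 = x i j
  rw [e.symm_apply_apply]

theorem mem_field (A : ∀ i, VX (g i) (M i)) (B : VX d M') (e : (Σ i, Fin (g i)) ≃ Fin d)
    (hl : ∀ z, z ∈ B.Λ ↔ ∀ i, (fun j => z (e ⟨i, j⟩)) ∈ (A i).Λ)
    (hH : ∀ x i j, B.H x (e ⟨i, j⟩) = (A i).H (fun j => x (e ⟨i, j⟩)) j) {c : ℂ}
    {F : IntermediateField ℚ ℂ} (hF : ∀ i, ∀ l ∈ (A i).Λ, ∀ m, c * lf (A i) l m ∈ F) :
    ∀ l ∈ B.Λ, ∀ m, c * lf B l m ∈ F := by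
  intro l h m
  rcases m with m | m <;> obtain ⟨⟨i, k⟩, rfl⟩ := e.surjective m
  · exact hF i _ ((hl l).1 h i) (.inl k)
  · have := hF i _ ((hl l).1 h i) (.inr k)
    simpa [lf, hH] using this

end FinAux

open FinAux

theorem finS (h1 : ProdS) (h2 : TwoS) : FinS := by
  intro K _ g M A ν _ y c F t hA hy hi h0 hd hst hc hF ht
  obtain ⟨d, M', B, e, -, -, hl, hH⟩ := h1 K g M A (fun i => (hA i).1) fun i => (hA i).2
  have hd' : ∑ i, g i = d := by simpa using Fintype.card_congr e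
  have hT : ∀ x, tr e x ∈ B.Λ ↔ ∀ i, x i ∈ (A i).Λ := fun x => by simp only [hl, tr_apply]
  rw [hd'] at h0 hd hst ⊢
  rw [← span_tr (tr e) y]
  refine h2 d M' B ν (fun j => tr e (y j)) c F t
    (pw h1 A (fun i => (hA i).1) (fun i => (hA i).2) B e hl hH) (fun j => (hT _).2 (hy j))
    (hi.map' ((tr e).restrictScalars ℝ).toLinearMap (LinearEquiv.ker _)) h0 hd
    (semi B _ hd fun U hU hb htop => ?_) hc (mem_field A B e hl hH hF) ht
  rw [dimIn_tr, ← finrank_tr (tr e) U]
  refine hst _ ?_ (fun h => hb ?_) fun h => htop ?_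
  · apply Submodule.map_injective_of_injective ((tr e).restrictScalars ℝ).injective
    rw [Submodule.map_span]
    have e1 : ((((tr e).restrictScalars ℝ : _ ≃ₗ[ℝ] _) : _ →ₗ[ℝ] _) ''
        {x | x ∈ U.comap (tr e).toLinearMap ∧ ∀ i, x i ∈ (A i).Λ}) =
          (U : Set (E d)) ∩ (B.Λ : Set (E d)) := by
      ext w
      constructor
      · rintro ⟨v, ⟨hv, hv'⟩, rfl⟩
        exact ⟨hv, (hT v).2 hv'⟩
      · rintro ⟨hw, hw'⟩
        exact ⟨(tr e).symm w, ⟨by simpa using hw, (hT _).1 (by simpa using hw')⟩, by simp⟩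
    rw [e1, hU]
    ext w
    constructor
    · intro hw
      exact ⟨(tr e).symm w, by simpa using hw, by simp⟩
    · rintro ⟨v, hv, rfl⟩
      exact hv
  · rw [← Submodule.map_comap_eq_of_surjective (f := (tr e).toLinearMap) (tr e).surjective U, h,
      Submodule.map_bot]
  · rw [← Submodule.map_comap_eq_of_surjective (f := (tr e).toLinearMap) (tr e).surjective U, h,
      Submodule.map_top, LinearEquiv.range]

end Pool.Agent.Lib.MP_caab05_ag.NC
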