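import Mathlib
import Pool.Agent.Lib.MP_caab05_ag.NC.Fin

/-! The theorem for a product of simple abelian varieties, semistable form. -/

namespace Pool.Agent.Lib.MP_caab05_ag.NC

open Complex Module
open Pool.Agent.Lib.MP_caab05_ag.LT (E sl)
open Pool.Agent.Lib.MP_caab05_ag.ZE (VX)
open Pool.Agent.Lib.MP_caab05_ag.WZ (EE Arith)

/-- the theorem for a product of simple abelian varieties, semistable form -/
def Fin2S : Prop :=
  ∀ (K : Type) [Fintype K] (g M : K → ℕ) (A : ∀ i, VX (g i) (M i)) (ν : Type) [Fintype ν]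
    (y : ν → ∀ i, E (g i)) (c : ℂ) (F : IntermediateField ℚ ℂ) (t : ℕ),
    (∀ i, (A i).Simple ∧ Arith (A i)) → (∀ j i, y j i ∈ (A i).Λ) → LinearIndependent ℝ y →
    0 < ∑ i, g i → ∑ i, g i ≤ Fintype.card ν →
    (∀ U : Submodule ℂ (∀ i, E (g i)),
      Submodule.span ℝ {x | x ∈ U ∧ ∀ i, x i ∈ (A i).Λ} = U.restrictScalars ℝ → U ≠ ⊥ → U ≠ ⊤ →
      (∑ i, g i) * dimIn y U ≤ Fintype.card ν * finrank ℂ U ∧ (Fintype.card ν = ∑ i, g i →
        (∑ i, g i) * dimIn y U < Fintype.card ν * finrank ℂ U)) →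
    c ≠ 0 → (∀ i, ∀ l ∈ (A i).Λ, ∀ m, c * lf (A i) l m ∈ F) → Algebra.trdeg ℚ F ≤ t →
    Fintype.card ν * (2 * (∑ i, g i) - Fintype.card ν) ≤
      t * (∑ i, g i) * (2 * finrank ℂ (Submodule.span ℂ (Set.range y)) - Fintype.card ν)

namespace Fin2Aux

open FinAux

theorem semi2 {d M' : ℕ} {ν : Type} [Fintype ν] (B : VX d M') (y : ν → E d)
    (hd : d ≤ Fintype.card ν) (h : ∀ U, ZE.Rat B U → U ≠ ⊥ → U ≠ ⊤ →
      d * dimIn y U ≤ Fintype.card ν * finrank ℂ U ∧
        (Fintype.card ν = d → d * dimIn y U < Fintype.card ν * finrank ℂ U)) : Semi B y := by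
  rcases hd.eq_or_lt with h0 | h0
  · exact semi B y hd fun U hU h1 h2 => (h U hU h1 h2).2 h0.symm
  constructor
  · intro U hU
    by_cases h0 : U = ⊥
    · simp [h0, dimIn_bot]
    by_cases h1 : U = ⊤
    · rw [h1, finrank_top, finrank_fin_fun, mul_comm]
      exact Nat.mul_le_mul_right _ (dimIn_le y ⊤)
    exact (h U hU h0 h1).1
  · intro U hU h1 h2
    have h3 := (h U hU h1 h2).1
    have h4 : finrank ℂ U < d := by simpa using Submodule.finrank_lt h2
    by_contra h5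
    obtain ⟨a, ha⟩ := Nat.exists_eq_add_of_lt h0
    obtain ⟨b, hb⟩ := Nat.exists_eq_add_of_lt h4
    rw [ha] at h3 h5
    generalize finrank ℂ U = u at *
    generalize dimIn y U = x at *
    subst hb
    have h6 : a + 1 + u ≤ x := by omega
    nlinarith [Nat.mul_le_mul_left (u + b + 1) h6, Nat.zero_le (a * b)]

end Fin2Aux

open FinAux Fin2Aux

theorem fin2S (h1 : ProdS) (h2 : TwoS) : Fin2S := by
  intro K _ g M A ν _ y c F t hA hy hi h0 hd hst hc hF ht
  obtain ⟨d, M', B, e, -, -, hl, hH⟩ := h1 K g M A (fun i => (hA i).1) fun i => (hA i).2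
  have hd' : ∑ i, g i = d := by simpa using Fintype.card_congr e
  have hT : ∀ x, tr e x ∈ B.Λ ↔ ∀ i, x i ∈ (A i).Λ := fun x => by simp only [hl, tr_apply]
  rw [hd'] at h0 hd hst ⊢
  rw [← span_tr (tr e) y]
  refine h2 d M' B ν (fun j => tr e (y j)) c F t
    (pw h1 A (fun i => (hA i).1) (fun i => (hA i).2) B e hl hH) (fun j => (hT _).2 (hy j))
    (hi.map' ((tr e).restrictScalars ℝ).toLinearMap (LinearEquiv.ker _)) h0 hd
    (semi2 B _ hd fun U hU hb htop => ?_) hc (mem_field A B e hl hH hF) ht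
  rw [dimIn_tr, ← finrank_tr (tr e) U]
  refine hst _ ?_ (fun h => hb ?_) fun h => htop ?_
  · apply Submodule.map_injective_of_injective ((tr e).restrictScalars ℝ).injective
    rw [Submodule.map_span]
    have e1 : ((((tr e).restrictScalars ℝ : _ ≃ₗ[ℝ] _) : _ →ₗ[ℝ] _) ''
        {x | x ∈ U.comap (tr e).toLinearMap ∧ ∀ i, x i ∈ (A i).Λ}) =
          (U : Set (E d)) ∩ (B.Λ : Set (E d)) := by
      ext w
      constructor
      · rintro ⟨v, ⟨hv, hv'⟩, rfl⟩
        exact ⟨hv, (hT v).2 hv'⟩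
      · rintro ⟨hw, hw'⟩
        exact ⟨(tr e).symm w, ⟨by simpa using hw, (hT _).1 (by simpa using hw')⟩, by simp⟩
    rw [e1, hU]
    ext w
    constructor
    · intro hw
      exact ⟨(tr e).symm w, by simpa using hw, by simp⟩
    · rintro ⟨v, hv, rfl⟩
      exact hv
  · rw [← Submodule.map_comap_eq_of_surjective (f := (tr e).toLinearMap) (tr e).surjective U, h,
      Submodule.map_bot]
  · rw [← Submodule.map_comap_eq_of_surjective (f := (tr e).toLinearMap) (tr e).surjective U, h,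
      Submodule.map_top, LinearEquiv.range]

end Pool.Agent.Lib.MP_caab05_ag.NC
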