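import Mathlib
import Pool.Agent.Lib.MP_caab05_ag.NC.Stmt

/-! The Riemann relations and dimension counts for symmetric matrices. -/

namespace Pool.Agent.Lib.MP_caab05_ag.NC

open Complex Module Matrix
open Pool.Agent.Lib.MP_caab05_ag.LT (E)
open Pool.Agent.Lib.MP_caab05_ag.ZE (VX)
open Pool.Agent.Lib.MP_caab05_ag.WZ (EE)

namespace GenRAux

section Sym

variable (k : Type) [Field k] (n : Type)

/-- symmetric matrices from functions on unordered pairs -/
def sy : (Sym2 n → k) →ₗ[k] Matrix n n k where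
  toFun c := Matrix.of fun i j => c s(i, j)
  map_add' _ _ := rfl
  map_smul' _ _ := rfl

variable {k n}

theorem mem_sy {T : Matrix n n k} : T ∈ LinearMap.range (sy k n) ↔ ∀ i j, T i j = T j i := by
  constructor
  · rintro ⟨c, rfl⟩ i j
    show c s(i, j) = c s(j, i)
    rw [Sym2.eq_swap]
  · intro h
    exact ⟨Sym2.lift ⟨fun i j => T i j, h⟩, rfl⟩

theorem two_card [Fintype n] [DecidableEq n] :
    2 * Fintype.card (Sym2 n) = Fintype.card n * (Fintype.card n + 1) := by
  rw [Sym2.card]
  generalize Fintype.card n = m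
  induction m with
  | zero => rfl
  | succ m ih =>
    rw [Nat.choose_succ_succ' (m + 1) 1, Nat.choose_one_right, mul_add, ih]
    ring

theorem rank_sy [Fintype n] [DecidableEq n] :
    2 * finrank k (LinearMap.range (sy k n)) ≤ Fintype.card n * (Fintype.card n + 1) := by
  rw [← two_card]
  simpa using (sy k n).finrank_range_le

end Sym

theorem comap_le {k X Y : Type} [Field k] [AddCommGroup X] [Module k X] [AddCommGroup Y]
    [Module k Y] [FiniteDimensional k X] [FiniteDimensional k Y] (f : X →ₗ[k] Y)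
    (hf : Function.Surjective f) (W : Submodule k Y) :
    finrank k (W.comap f) + finrank k Y ≤ finrank k W + finrank k X := by
  have h1 := f.finrank_range_add_finrank_ker
  rw [LinearMap.range_eq_top.2 hf, finrank_top] at h1
  have h2 := (f.domRestrict (W.comap f)).finrank_range_add_finrank_ker
  have h3 : finrank k (LinearMap.range (f.domRestrict (W.comap f))) ≤ finrank k W := by
    refine Submodule.finrank_mono ?_
    rintro _ ⟨x, rfl⟩
    exact x.2
  have h4 : finrank k (LinearMap.ker (f.domRestrict (W.comap f))) ≤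
      finrank k (LinearMap.ker f) := by
    rw [← Submodule.finrank_map_subtype_eq]
    refine Submodule.finrank_mono ?_
    rintro _ ⟨x, hx, rfl⟩
    exact hx
  omega

variable {g M : ℕ}

theorem int_form (A : VX g M) {l l' : E g} (h : l ∈ A.Λ) (h' : l' ∈ A.Λ) :
    ∃ n : ℤ, l ⬝ᵥ A.H l' - A.H l ⬝ᵥ l' = n * (2 * Real.pi * I) := by
  have h1 : A.θ (0 + l + l') = A.θ (0 + l' + l) := by rw [add_right_comm]
  rw [A.law _ h, A.law _ h', A.law _ h', A.law _ h, smul_smul, smul_smul] at h1
  have h2 := smul_left_injective ℂ (A.ne_zero 0) h1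
  simp only [← Complex.exp_add, zero_add, dotProduct_zero] at h2
  obtain ⟨n, hn⟩ := Complex.exp_eq_exp_iff_exists_int.1 h2
  exact ⟨n, by rw [dotProduct_comm l]; linear_combination hn⟩

theorem basis (A : VX g M) : ∃ b : Basis (Fin g ⊕ Fin g) ℝ (E g),
    Submodule.span ℤ (Set.range b) = A.Λ := by
  obtain ⟨ι, _, b, hb⟩ := LT.exists_basis A.toAbVar
  have hc : Fintype.card ι = Fintype.card (Fin g ⊕ Fin g) := by
    rw [← finrank_eq_card_basis b, ← finrank_mul_finrank ℝ ℂ (E g)]
    simp [two_mul]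
  exact ⟨b.reindex (Fintype.equivOfCardEq hc), by rw [Basis.range_reindex, hb]⟩

/-- the first Riemann relation -/
theorem riem (h : NondS) (A : VX g M) (b : Basis (Fin g ⊕ Fin g) ℝ (E g))
    (hb : Submodule.span ℤ (Set.range b) = A.Λ) :
    ∃ P : Matrix (Fin g ⊕ Fin g) (Fin g ⊕ Fin g) ℤ, P.det ≠ 0 ∧ (∀ i j, P j i = -P i j) ∧
      ∀ k m, ∑ j, ∑ i, (P i j : ℂ) * (b i k * b j m) = 0 := by
  have hm : ∀ j, b j ∈ A.Λ := fun j => hb ▸ Submodule.subset_span ⟨j, rfl⟩
  choose ψ hψ using fun i j => int_form A (hm i) (hm j)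
  have hπ : (2 * Real.pi * I : ℂ) ≠ 0 := by simp [Real.pi_ne_zero]
  let Ψ : Matrix (Fin g ⊕ Fin g) (Fin g ⊕ Fin g) ℤ := Matrix.of ψ
  let Pe : Matrix (Fin g ⊕ Fin g) (Fin g ⊕ Fin g) ℂ := Matrix.of fun a i => lf A (b i) a
  let J : Matrix (Fin g ⊕ Fin g) (Fin g ⊕ Fin g) ℂ := fromBlocks 0 1 (-1) 0
  have hJ : J * (-J) = 1 := by
    simp [J, fromBlocks_multiply, fromBlocks_neg, fromBlocks_one]
  have e1 : Peᵀ * J * Pe = (2 * Real.pi * I : ℂ) • Ψ.map (Int.castRingHom ℂ) := by
    ext i j
    rw [Matrix.smul_apply, map_apply, smul_eq_mul, mul_comm]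
    refine Eq.trans ?_ (hψ i j)
    simp [Pe, J, mul_apply, Fintype.sum_sum_type, lf, one_apply, dotProduct, sub_eq_add_neg,
      add_comm]
  have hlf : ∀ l ∈ Submodule.span ℤ (Set.range b), lf A l ∈ LinearMap.range Pe.mulVecLin := by
    intro l hl
    induction hl using Submodule.span_induction with
    | mem x hx =>
      obtain ⟨j, rfl⟩ := hx
      exact ⟨Pi.single j 1, by ext a; simp [Pe]⟩
    | zero => exact ⟨0, by ext a; rcases a with a | a <;> simp [lf]⟩
    | add x y _ _ hx hy =>
      have : lf A (x + y) = lf A x + lf A y := by ext a; rcases a with a | a <;> simp [lf]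
      exact this ▸ add_mem hx hy
    | smul a x _ hx =>
      have : lf A (a • x) = (a : ℂ) • lf A x := by
        ext c
        rcases c with c | c
        · simp [lf]
        · show A.H (a • x) c = (a : ℂ) * A.H x c
          rw [map_zsmul, Pi.smul_apply, zsmul_eq_mul]
      exact this ▸ Submodule.smul_mem _ _ hx
  have hs : Function.Surjective Pe.mulVec := by
    have : LinearMap.range Pe.mulVecLin = ⊤ := by
      rw [eq_top_iff, ← h g M A, Submodule.span_le]
      rintro _ ⟨l, hl, rfl⟩
      exact hlf l (hb ▸ hl)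
    exact LinearMap.range_eq_top.1 this
  have hu : IsUnit Pe := mulVec_surjective_iff_isUnit.1 hs
  have hd : Pe.det ≠ 0 := ((isUnit_iff_isUnit_det _).1 hu).ne_zero
  have hJd : J.det ≠ 0 := fun h0 => by
    have := congrArg det hJ
    rw [det_mul, h0, zero_mul, det_one] at this
    exact zero_ne_one this
  have hΨ : Ψ.det ≠ 0 := fun h0 => by
    have := congrArg det e1
    rw [det_mul, det_mul, det_transpose, det_smul, ← RingHom.mapMatrix_apply, ← RingHom.map_det,
      h0, map_zero, mul_zero] at this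
    exact mul_ne_zero (mul_ne_zero hd hJd) hd this
  have ha : Ψᵀ = -Ψ := by
    ext i j
    have h1 := hψ i j
    have h2 := hψ j i
    rw [dotProduct_comm (b j), dotProduct_comm (A.H (b j))] at h2
    have h3 : ((ψ j i : ℂ) + ψ i j) * (2 * Real.pi * I) = 0 := by
      linear_combination -h1 - h2
    have h4 : ψ j i + ψ i j = 0 := by exact_mod_cast (mul_eq_zero.1 h3).resolve_right hπ
    show ψ j i = -ψ i j
    omega
  refine ⟨Ψ.adjugate, ?_, fun i j => ?_, fun k m => ?_⟩
  · intro h0
    have := congrArg det (mul_adjugate Ψ)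
    rw [det_mul, h0, mul_zero, det_smul, det_one, mul_one] at this
    exact pow_ne_zero _ hΨ this.symm
  · have h1 := congrArg transpose (adjugate_mul Ψ)
    rw [transpose_mul, ha, transpose_smul, transpose_one] at h1
    have h2 := congrArg (Ψ.adjugate * ·) h1
    simp only [Matrix.neg_mul, Matrix.mul_neg, ← Matrix.mul_assoc, adjugate_mul, Matrix.smul_mul,
      Matrix.mul_smul, Matrix.one_mul, Matrix.mul_one] at h2
    have h3 := congrFun (congrFun h2 i) j
    simp only [Matrix.neg_apply, Matrix.smul_apply, transpose_apply, smul_eq_mul] at h3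
    exact mul_left_cancel₀ hΨ (by linear_combination -h3)
  · let Q := Ψ.adjugate.map (Int.castRingHom ℂ)
    have e2 : Ψ.map (Int.castRingHom ℂ) * Q = (Ψ.det : ℂ) • 1 := by
      rw [← Matrix.map_mul, mul_adjugate]
      ext i j
      rw [map_apply, Matrix.smul_apply, Matrix.smul_apply, one_apply, one_apply]
      split_ifs <;> simp
    have e3 : Peᵀ * (J * (Pe * Q * Peᵀ)) = Peᵀ * (((2 * Real.pi * I : ℂ) * Ψ.det) • 1) := by
      rw [← Matrix.mul_assoc, ← Matrix.mul_assoc, ← Matrix.mul_assoc, e1, Matrix.smul_mul, e2]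
      simp [smul_smul]
    have hu' : IsUnit Peᵀ := by rwa [isUnit_iff_isUnit_det, det_transpose, isUnit_iff_ne_zero]
    have e4 := congrFun (congrFun (hu'.mul_left_cancel e3) (.inr k)) (.inl m)
    have e5 : (Pe * Q * Peᵀ) (.inl k) (.inl m) = 0 := by
      generalize Pe * Q * Peᵀ = X at e4
      simpa [J, mul_apply, Fintype.sum_sum_type, one_apply] using e4
    rw [← e5]
    simp only [mul_apply, Finset.sum_mul]
    refine Finset.sum_congr rfl fun j _ => Finset.sum_congr rfl fun i _ => ?_
    simp [Pe, Q, lf]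
    ring

/-- contraction with the period matrix -/
noncomputable def ct {ι : Type} [Fintype ι] (b : ι → E g) :
    (ι → E g) →ₗ[ℂ] Matrix (Fin g) (Fin g) ℂ where
  toFun x := Matrix.of fun k m => ∑ j, x j k * b j m
  map_add' x y := by ext k m; simp [add_mul, Finset.sum_add_distrib]
  map_smul' c x := by ext k m; simp [Finset.mul_sum, mul_assoc]

theorem span_le {ν : Type} (b : Basis (Fin g ⊕ Fin g) ℝ (E g)) (y : ν → Fin g ⊕ Fin g → E g)
    (h : ∀ s k m, ∑ j, y s j k * b j m = ∑ j, y s j m * b j k) :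
    2 * finrank ℂ (Submodule.span ℂ (Set.range y)) ≤ 3 * g ^ 2 + g := by
  have hs : Function.Surjective (ct b) := fun v =>
    ⟨fun j k => (b.repr (v k) j : ℝ), by
      ext k m
      have := congrFun (b.sum_repr (v k)) m
      simpa [ct] using this⟩
  have h1 := comap_le (ct b) hs (LinearMap.range (sy ℂ (Fin g)))
  have h2 := rank_sy (k := ℂ) (n := Fin g)
  have h3 : finrank ℂ (Submodule.span ℂ (Set.range y)) ≤
      finrank ℂ ((LinearMap.range (sy ℂ (Fin g))).comap (ct b)) := by
    refine Submodule.finrank_mono (Submodule.span_le.2 ?_)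
    rintro _ ⟨s, rfl⟩
    exact mem_sy.2 (h s)
  have h4 : finrank ℂ (Fin g ⊕ Fin g → E g) = 2 * g ^ 2 := by
    simp [finrank_pi_fintype]
    ring
  rw [h4, finrank_matrix] at h1
  simp only [Fintype.card_fin, finrank_self, mul_one] at h1 h2
  nlinarith

end GenRAux

end Pool.Agent.Lib.MP_caab05_ag.NC
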