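import Mathlib
import Pool.Agent.Lib.MP_caab05_ag.NC.Fin
import Pool.Agent.Lib.MP_caab05_ag.NC.GenR

/-! Abelian varieties without endomorphisms. -/

namespace Pool.Agent.Lib.MP_caab05_ag.NC

open Complex Module Matrix
open Pool.Agent.Lib.MP_caab05_ag.LT (E)
open Pool.Agent.Lib.MP_caab05_ag.ZE (VX)
open Pool.Agent.Lib.MP_caab05_ag.WZ (EE Arith)

set_option linter.unusedSectionVars false

namespace GenAux

open GenRAux

section Lin

variable {ι : Type} [Fintype ι] [DecidableEq ι]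

/-- matrices whose rows lie in `R` -/
def rows (R : Submodule ℝ (ι → ℝ)) : Submodule ℝ (Matrix ι ι ℝ) where
  carrier := {T | ∀ i, T i ∈ R}
  zero_mem' := fun _ => R.zero_mem
  add_mem' := fun ha hb i => R.add_mem (ha i) (hb i)
  smul_mem' := fun c _ h i => R.smul_mem c (h i)

theorem rows_rank (R : Submodule ℝ (ι → ℝ)) :
    Fintype.card ι * finrank ℝ R ≤ finrank ℝ (rows R) := by
  let f : (ι → R) →ₗ[ℝ] rows R :=
    { toFun := fun a => ⟨Matrix.of fun i => (a i : ι → ℝ), fun i => (a i).2⟩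
      map_add' := fun _ _ => rfl
      map_smul' := fun _ _ => rfl }
  have hf : Function.Injective f := fun a a' h =>
    funext fun i => Subtype.ext (congrFun (congrArg Subtype.val h) i)
  simpa [finrank_pi_fintype] using LinearMap.finrank_le_finrank_of_injective hf

theorem sym_rank (R : Submodule ℝ (ι → ℝ)) :
    2 * finrank ℝ ↥(rows R ⊓ LinearMap.range (sy ℝ ι)) ≤ finrank ℝ R * (finrank ℝ R + 1) := by
  obtain ⟨π, hπ⟩ := R.subtype.exists_leftInverse_of_injective R.ker_subtype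
  let β := Module.finBasis ℝ R
  let Q := LinearMap.toMatrix' (β.equivFun.toLinearMap ∘ₗ π)
  let V := LinearMap.toMatrix' (R.subtype ∘ₗ β.equivFun.symm.toLinearMap)
  have h1 : ∀ w ∈ R, (V * Q) *ᵥ w = w := fun w hw => by
    have : π w = ⟨w, hw⟩ := LinearMap.congr_fun hπ ⟨w, hw⟩
    rw [← LinearMap.toMatrix'_comp, LinearMap.toMatrix'_mulVec]
    simp only [LinearMap.comp_apply, LinearEquiv.coe_coe, LinearEquiv.symm_apply_apply, this]
    rfl
  have h2 : ∀ T ∈ rows R, (V * Q) * Tᵀ = Tᵀ := fun T hT => by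
    ext i j
    exact congrFun (h1 _ (hT j)) i
  have h3 : ∀ T ∈ LinearMap.range (sy ℝ ι), Tᵀ = T := fun T hT => by
    ext i j
    exact mem_sy.1 hT j i
  let f : ↥(rows R ⊓ LinearMap.range (sy ℝ ι)) →ₗ[ℝ]
      LinearMap.range (sy ℝ (Fin (finrank ℝ R))) :=
    { toFun := fun T => ⟨Q * T.1 * Qᵀ, mem_sy.2 fun i j => by
        have : (Q * T.1 * Qᵀ)ᵀ = Q * T.1 * Qᵀ := by
          rw [transpose_mul, transpose_mul, transpose_transpose, h3 _ T.2.2, Matrix.mul_assoc]
        exact (congrFun (congrFun this i) j).symm⟩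
      map_add' := fun _ _ => Subtype.ext (by simp [Matrix.mul_add, Matrix.add_mul])
      map_smul' := fun _ _ => Subtype.ext (by simp) }
  have hf : Function.Injective f := by
    rw [injective_iff_map_eq_zero]
    intro T hT
    have e0 : Q * T.1 * Qᵀ = 0 := congrArg Subtype.val hT
    have e1 := h2 _ T.2.1
    rw [h3 _ T.2.2] at e1
    have e2 := congrArg transpose e1
    rw [transpose_mul, h3 _ T.2.2, transpose_mul] at e2
    apply Subtype.ext
    calc T.1 = V * (Q * T.1 * Qᵀ) * Vᵀ := by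
          rw [Matrix.mul_assoc V, Matrix.mul_assoc (Q * T.1), Matrix.mul_assoc Q, e2,
            ← Matrix.mul_assoc, e1]
      _ = 0 := by rw [e0, Matrix.mul_zero, Matrix.zero_mul]
  have h4 := LinearMap.finrank_le_finrank_of_injective hf
  have h5 := rank_sy (k := ℝ) (n := Fin (finrank ℝ R))
  rw [Fintype.card_fin] at h5
  omega

theorem inf_sup_le {X : Type} [AddCommGroup X] [Module ℝ X] [FiniteDimensional ℝ X]
    (W S : Submodule ℝ X) (p : X) :
    finrank ℝ ↥(W ⊓ (S ⊔ Submodule.span ℝ {p})) ≤ finrank ℝ ↥(W ⊓ S) + 1 := by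
  have h1 := Submodule.finrank_sup_add_finrank_inf_eq (W ⊓ (S ⊔ Submodule.span ℝ {p})) S
  have h2 : finrank ℝ ↥(W ⊓ (S ⊔ Submodule.span ℝ {p}) ⊔ S) ≤
      finrank ℝ ↥(S ⊔ Submodule.span ℝ {p}) :=
    Submodule.finrank_mono (sup_le inf_le_right le_sup_left)
  have h3 := Submodule.finrank_add_le_finrank_add_finrank S (Submodule.span ℝ {p})
  have h4 : finrank ℝ (Submodule.span ℝ {p}) ≤ 1 := by
    simpa using finrank_span_le_card (R := ℝ) ({p} : Set X)
  have h5 : finrank ℝ ↥(W ⊓ (S ⊔ Submodule.span ℝ {p}) ⊓ S) ≤ finrank ℝ ↥(W ⊓ S) :=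
    Submodule.finrank_mono (inf_le_inf_right _ inf_le_left)
  omega

/-- the family of integer matrices -/
def fam (P : Matrix ι ι ℤ) : Option (Sym2 ι) → Matrix ι ι ℤ
  | none => P
  | some s => Matrix.of fun i j => if s(i, j) = s then 1 else 0

/-- the same family over the reals -/
noncomputable def famR (P : Matrix ι ι ℤ) (s : Option (Sym2 ι)) : Matrix ι ι ℝ :=
  Matrix.of fun i j => (fam P s i j : ℝ)

theorem fam_ind {P : Matrix ι ι ℤ} (h0 : P ≠ 0) (h : ∀ i j, P j i = -P i j) :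
    LinearIndependent ℝ (famR P) := by
  rw [Fintype.linearIndependent_iff]
  intro c hc
  have e : ∀ i j, c none * P i j + c (some s(i, j)) = 0 := fun i j => by
    have := congrFun (congrFun hc i) j
    simpa [Matrix.sum_apply, Fintype.sum_option, famR, fam] using this
  have e0 : c none = 0 := by
    by_contra hn
    refine h0 (Matrix.ext fun i j => ?_)
    have h1 := e i j
    have h2 := e j i
    rw [h i j, Sym2.eq_swap, Int.cast_neg] at h2
    have h3 : c none * P i j = 0 := by linarith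
    exact_mod_cast (mul_eq_zero.1 h3).resolve_left hn
  rintro (_ | s)
  · exact e0
  · induction s using Sym2.ind with
    | h i j => simpa [e0] using e i j

theorem fam_span (P : Matrix ι ι ℤ) : Submodule.span ℝ (Set.range (famR P)) ≤
    LinearMap.range (sy ℝ ι) ⊔ Submodule.span ℝ {famR P none} := by
  rw [Submodule.span_le]
  rintro _ ⟨_ | s, rfl⟩
  · exact Submodule.mem_sup_right (Submodule.subset_span rfl)
  · refine Submodule.mem_sup_left (mem_sy.2 fun i j => ?_)
    simp only [famR, fam, of_apply, Sym2.eq_swap (a := j)]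

variable {g : ℕ}

/-- real matrices and tuples of vectors -/
noncomputable def Ph (b : Basis ι ℝ (E g)) : Matrix ι ι ℝ ≃ₗ[ℝ] (ι → E g) :=
  (transposeLinearEquiv ι ι ℝ ℝ).trans
    ((Matrix.ofLinearEquiv ℝ).symm.trans (LinearEquiv.piCongrRight fun _ => b.equivFun.symm))

theorem Ph_apply (b : Basis ι ℝ (E g)) (T : Matrix ι ι ℝ) (j : ι) :
    Ph b T j = ∑ i, T i j • b i := by
  simp [Ph]

theorem map_rows (b : Basis ι ℝ (E g)) (n : Matrix ι ι ℤ) (N : ℕ) (U : Submodule ℂ (ι → E g))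
    (hU : ∀ x, x ∈ U ↔ ∀ i, ∑ j, (n i j : ℂ) • x j = (N : ℂ) • x i) :
    ∃ R : Submodule ℝ (ι → ℝ), (rows R).map (Ph b).toLinearMap = U.restrictScalars ℝ := by
  refine ⟨LinearMap.ker ((n.map (Int.cast : ℤ → ℝ)).mulVecLin - (N : ℝ) • LinearMap.id), ?_⟩
  have key : ∀ T, T ∈ rows (LinearMap.ker ((n.map (Int.cast : ℤ → ℝ)).mulVecLin -
      (N : ℝ) • LinearMap.id)) ↔ Ph b T ∈ U := fun T => by
    have e : ∀ i, ∑ j, (n i j : ℂ) • Ph b T j - (N : ℂ) • Ph b T i =
        ∑ k, (∑ j, (n i j : ℝ) * T k j - N * T k i) • b k := fun i => by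
      simp only [Ph_apply, sub_smul, Finset.sum_sub_distrib, Finset.smul_sum, Finset.sum_smul]
      rw [Finset.sum_comm]
      congr 1
      · refine Finset.sum_congr rfl fun _ _ => Finset.sum_congr rfl fun _ _ => ?_
        rw [mul_smul, Int.cast_smul_eq_zsmul, Int.cast_smul_eq_zsmul]
      · refine Finset.sum_congr rfl fun _ _ => ?_
        rw [mul_smul, Nat.cast_smul_eq_nsmul, Nat.cast_smul_eq_nsmul]
    rw [hU]
    constructor
    · intro h i
      rw [← sub_eq_zero, e]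
      refine Finset.sum_eq_zero fun k _ => ?_
      have := congrFun (LinearMap.mem_ker.1 (h k)) i
      simp only [LinearMap.sub_apply, mulVecLin_apply, LinearMap.smul_apply, LinearMap.id_apply,
        Pi.sub_apply, Pi.smul_apply, smul_eq_mul, mulVec, dotProduct, map_apply,
        Pi.zero_apply] at this
      rw [this, zero_smul]
    · intro h k
      refine LinearMap.mem_ker.2 (funext fun i => ?_)
      have := Fintype.linearIndependent_iff.1 b.linearIndependent _
        ((e i).symm.trans (sub_eq_zero.2 (h i))) k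
      simpa [mulVec, dotProduct] using this
  ext x
  constructor
  · rintro ⟨T, hT, rfl⟩
    exact (key T).1 hT
  · intro hx
    exact ⟨(Ph b).symm x, (key _).2 (by simpa using hx), by simp⟩

/-- the count for a subspace cut out by an integer matrix -/
theorem count (b : Basis ι ℝ (E g)) (P : Matrix ι ι ℤ) (U : Submodule ℂ (ι → E g))
    (R : Submodule ℝ (ι → ℝ)) (hR : (rows R).map (Ph b).toLinearMap = U.restrictScalars ℝ) :
    Fintype.card ι * finrank ℝ R ≤ 2 * finrank ℂ U ∧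
      2 * dimIn (fun s => Ph b (famR P s)) U ≤ finrank ℝ R * (finrank ℝ R + 1) + 2 := by
  constructor
  · have h1 : finrank ℝ (U.restrictScalars ℝ) = 2 * finrank ℂ U := by
      rw [← Complex.finrank_real_complex]
      exact (finrank_mul_finrank ℝ ℂ U).symm
    rw [← h1, ← hR, LinearEquiv.finrank_map_eq]
    exact rows_rank R
  · have h1 : Submodule.span ℝ (Set.range fun s => Ph b (famR P s)) =
        (Submodule.span ℝ (Set.range (famR P))).map (Ph b).toLinearMap := by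
      rw [Submodule.map_span, ← Set.range_comp]
      rfl
    unfold dimIn
    rw [← hR, h1, ← Submodule.map_inf _ (Ph b).injective, LinearEquiv.finrank_map_eq]
    have h2 := Submodule.finrank_mono (inf_le_inf_left (rows R) (fam_span P))
    have h3 := inf_sup_le (rows R) (LinearMap.range (sy ℝ ι)) (famR P none)
    have h4 := sym_rank R
    omega

end Lin

variable {g M : ℕ}

theorem simple (h1 : PoinS) (A : VX g M)
    (hE : ∀ φ : E g →ₗ[ℂ] E g, (∀ l ∈ A.Λ, φ l ∈ A.Λ) → ∃ n : ℤ, ∀ z, φ z = (n : ℂ) • z) :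
    A.Simple := by
  intro U hU
  obtain ⟨N, φ, hN, h2, h3, h4⟩ := h1 g M A U hU
  obtain ⟨n, hn⟩ := hE φ h2
  by_cases h0 : (n : ℂ) = 0
  · left
    rw [eq_bot_iff]
    intro u hu
    have := h3 u hu
    rw [hn, h0, zero_smul] at this
    exact (smul_eq_zero.1 this.symm).resolve_left (Nat.cast_ne_zero.2 hN.ne')
  · right
    rw [eq_top_iff]
    intro z _
    exact (U.smul_mem_iff h0).1 (hn z ▸ h4 z)

/-- the abelian subvarieties of a power -/
theorem rat (h1 : PoinS) (h3 : ProdS) (A : VX g M) (ha : Arith A)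
    (hE : ∀ φ : E g →ₗ[ℂ] E g, (∀ l ∈ A.Λ, φ l ∈ A.Λ) → ∃ n : ℤ, ∀ z, φ z = (n : ℂ) • z)
    {ι : Type} [Fintype ι] [DecidableEq ι] (U : Submodule ℂ (ι → E g))
    (hU : Submodule.span ℝ {x | x ∈ U ∧ ∀ i, x i ∈ A.Λ} = U.restrictScalars ℝ) :
    ∃ (n : Matrix ι ι ℤ) (N : ℕ),
      ∀ x, x ∈ U ↔ ∀ i, ∑ j, (n i j : ℂ) • x j = (N : ℂ) • x i := by
  obtain ⟨d, M', B, e, -, -, hl, -⟩ := h3 ι (fun _ => g) (fun _ => M) (fun _ => A)
    (fun _ => simple h1 A hE) fun _ => ha
  let T : (ι → E g) ≃ₗ[ℂ] E d := FinAux.tr e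
  have hT : ∀ x, T x ∈ B.Λ ↔ ∀ i, x i ∈ A.Λ := fun x => by
    simp only [hl, T, FinAux.tr_apply]
  have hR : ZE.Rat B (U.map T.toLinearMap) := by
    have e1 : ((U.map T.toLinearMap : Submodule ℂ (E d)) : Set (E d)) ∩ (B.Λ : Set (E d)) =
        ((T.restrictScalars ℝ : _ ≃ₗ[ℝ] _) : _ →ₗ[ℝ] _) '' {x | x ∈ U ∧ ∀ i, x i ∈ A.Λ} := by
      ext w
      constructor
      · rintro ⟨⟨v, hv, rfl⟩, hw⟩
        exact ⟨v, ⟨hv, (hT v).1 hw⟩, rfl⟩
      · rintro ⟨v, ⟨hv, hv'⟩, rfl⟩
        exact ⟨⟨v, hv, rfl⟩, (hT v).2 hv'⟩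
    unfold ZE.Rat
    rw [e1, ← Submodule.map_span, hU]
    rfl
  obtain ⟨N, φ, hN, h4, h5, h6⟩ := h1 d M' B _ hR
  let ψ : (ι → E g) →ₗ[ℂ] ι → E g := T.symm.toLinearMap ∘ₗ φ ∘ₗ T.toLinearMap
  have hψ : ∀ x, T (ψ x) = φ (T x) := fun x => by simp [ψ]
  have hψ' : ∀ x, (∀ i, x i ∈ A.Λ) → ∀ i, ψ x i ∈ A.Λ := fun x hx =>
    (hT _).1 (by rw [hψ]; exact h4 _ ((hT _).2 hx))
  choose n hn using fun i j => hE (LinearMap.proj i ∘ₗ ψ ∘ₗ LinearMap.single ℂ (fun _ => E g) j)
    fun l hl' => hψ' (Pi.single j l) (fun k => by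
      by_cases hk : k = j
      · subst hk
        simpa using hl'
      · simp [hk]) i
  have e2 : ∀ x i, ψ x i = ∑ j, (n i j : ℂ) • x j := fun x i => by
    conv_lhs => rw [← Finset.univ_sum_single x, map_sum, Finset.sum_apply]
    exact Finset.sum_congr rfl fun j _ => hn i j (x j)
  refine ⟨Matrix.of n, N, fun x => ⟨fun hx i => ?_, fun hx => ?_⟩⟩
  · have : ψ x = (N : ℂ) • x := T.injective (by rw [hψ, h5 (T x) ⟨x, hx, rfl⟩, map_smul])
    exact (e2 x i).symm.trans (congrFun this i)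
  · have h7 : ψ x = (N : ℂ) • x := funext fun i => (e2 x i).trans (hx i)
    obtain ⟨v, hv, h8⟩ := h6 (T x)
    have h9 : v = ψ x := T.injective (h8.trans (hψ x).symm)
    exact (U.smul_mem_iff (Nat.cast_ne_zero.2 hN.ne')).1 (h7 ▸ h9 ▸ hv)

theorem ineq {g r u x : ℕ} (hg : 2 ≤ g) (hu : 0 < u) (hr : r < 2 * g) (h1 : 2 * g * r ≤ 2 * u)
    (h2 : 2 * x ≤ r * (r + 1) + 2) : 2 * g * g * x < (g * (2 * g + 1) + 1) * u := by
  rcases Nat.eq_zero_or_pos r with rfl | h0
  · have : x ≤ 1 := by omega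
    nlinarith [Nat.mul_le_mul_left (2 * g * g) this,
      Nat.mul_le_mul_left (g * (2 * g + 1) + 1) (show 1 ≤ u from hu)]
  have h3 : g * r ≤ u := by nlinarith
  have h4 : g * (r * (r + 1) + 2) < (g * (2 * g + 1) + 1) * r := by
    have h5 : g * r * (r + 1) ≤ g * r * (2 * g) := Nat.mul_le_mul_left _ hr
    rcases Nat.lt_or_ge r 2 with h6 | h6
    · obtain rfl : r = 1 := by omega
      nlinarith
    · nlinarith [Nat.mul_le_mul_left g h6]
  calc 2 * g * g * x = g * g * (2 * x) := by ring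
    _ ≤ g * (g * (r * (r + 1) + 2)) := by rw [mul_assoc]; gcongr
    _ < g * ((g * (2 * g + 1) + 1) * r) := by gcongr
    _ = (g * (2 * g + 1) + 1) * (g * r) := by ring
    _ ≤ _ := by gcongr

end GenAux

open GenAux GenRAux

theorem genS (h1 : PoinS) (h2 : NondS) (h3 : ProdS) (h4 : TwoS) : GenS := by
  intro g M A c F ha hg hE hc hF
  by_contra ht
  have ht' : Algebra.trdeg ℚ F ≤ (2 : ℕ) := by
    rw [not_le, show (3 : Cardinal) = Order.succ ((2 : ℕ) : Cardinal) by
      rw [Cardinal.succ_natCast]; norm_num] at ht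
    exact Order.lt_succ_iff.1 ht
  obtain ⟨b, hb⟩ := basis A
  obtain ⟨P, hP, hP1, hP2⟩ := riem h2 A b hb
  have hne : Nonempty (Fin g ⊕ Fin g) := ⟨.inl ⟨0, by omega⟩⟩
  have hP0 : P ≠ 0 := fun h => hP (h ▸ det_zero)
  have hs : ∑ _i : Fin g ⊕ Fin g, g = 2 * g * g := by simp [two_mul]
  have hν : Fintype.card (Option (Sym2 (Fin g ⊕ Fin g))) = g * (2 * g + 1) + 1 := by
    have := two_card (n := Fin g ⊕ Fin g)
    rw [Fintype.card_sum, Fintype.card_fin] at this
    rw [Fintype.card_option]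
    nlinarith
  have hm : ∀ j, b j ∈ A.Λ := fun j => hb ▸ Submodule.subset_span ⟨j, rfl⟩
  have key := finS h3 h4 (Fin g ⊕ Fin g) (fun _ => g) (fun _ => M) (fun _ => A) _
    (fun s => Ph b (famR P s)) c F 2 (fun _ => ⟨simple h1 A hE, ha⟩) (fun s i => by
      rw [Ph_apply]
      refine Submodule.sum_mem _ fun k _ => ?_
      rw [famR, of_apply, Int.cast_smul_eq_zsmul]
      exact Submodule.smul_mem _ _ (hm k))
    ((fam_ind hP0 hP1).map' (Ph b).toLinearMap (LinearEquiv.ker _))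
    (by rw [hs]; positivity) (by rw [hs, hν]; nlinarith) (fun U hU hb' ht' => by
      obtain ⟨n, N, hn⟩ := rat h1 h3 A ha hE U hU
      obtain ⟨R, hR⟩ := map_rows b n N U hn
      obtain ⟨c1, c2⟩ := count b P U R hR
      rw [Fintype.card_sum, Fintype.card_fin, ← two_mul] at c1
      rw [hs, hν]
      refine ineq hg (Nat.pos_of_ne_zero fun h => hb' (Submodule.finrank_eq_zero.1 h)) ?_ c1 c2
      have h5 := Submodule.finrank_lt ht'
      have h6 : finrank ℂ (Fin g ⊕ Fin g → E g) = 2 * g * g := by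
        simp [finrank_pi_fintype, two_mul]
      by_contra h7
      nlinarith [Nat.mul_le_mul_left (2 * g) (not_lt.1 h7)]) hc (fun _ => hF) ht'
  have h5 := span_le b (fun s => Ph b (famR P s)) fun s k m => by
    have e : ∀ k m, ∑ j, Ph b (famR P s) j k * b j m =
        ∑ j, ∑ i, (fam P s i j : ℂ) * (b i k * b j m) := fun k m => by
      refine Finset.sum_congr rfl fun j _ => ?_
      rw [Ph_apply, Finset.sum_apply, Finset.sum_mul]
      exact Finset.sum_congr rfl fun i _ => by simp [famR, mul_assoc]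
    rw [e, e]
    rcases s with _ | s
    · exact (hP2 k m).trans (hP2 m k).symm
    · rw [Finset.sum_comm]
      refine Finset.sum_congr rfl fun j _ => Finset.sum_congr rfl fun i _ => ?_
      simp only [fam, of_apply, Sym2.eq_swap (a := j), mul_comm]
  rw [hs, hν] at key
  generalize finrank ℂ (Submodule.span ℂ (Set.range fun s => Ph b (famR P s))) = n at key h5
  obtain ⟨k, rfl⟩ := Nat.exists_eq_add_of_le hg
  have e1 : 2 * (2 * (2 + k) * (2 + k)) - ((2 + k) * (2 * (2 + k) + 1) + 1) =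
      2 * k ^ 2 + 7 * k + 5 := Nat.sub_eq_of_eq_add (by ring)
  have e2 : 2 * n - ((2 + k) * (2 * (2 + k) + 1) + 1) ≤ k ^ 2 + 4 * k + 3 :=
    Nat.sub_le_of_le_add (by nlinarith)
  rw [e1] at key
  have e3 := key.trans (Nat.mul_le_mul_left _ e2)
  nlinarith [Nat.zero_le (k ^ 2), Nat.zero_le k]

end Pool.Agent.Lib.MP_caab05_ag.NC
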