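import Mathlib
import Pool.Agent.Lib.MP_caab05_ag.NC.Gen

/-! Elliptic curves without complex multiplication. -/

namespace Pool.Agent.Lib.MP_caab05_ag.NC

open Complex Module Matrix
open Pool.Agent.Lib.MP_caab05_ag.LT (E)
open Pool.Agent.Lib.MP_caab05_ag.ZE (VX)
open Pool.Agent.Lib.MP_caab05_ag.WZ (EE Arith)

/-- elliptic curves without complex multiplication -/
def Gen1S : Prop :=
  ∀ (M : ℕ) (A : VX 1 M) (c : ℂ) (F : IntermediateField ℚ ℂ), Arith A →
    (∀ φ : E 1 →ₗ[ℂ] E 1, (∀ l ∈ A.Λ, φ l ∈ A.Λ) → ∃ n : ℤ, ∀ z, φ z = (n : ℂ) • z) →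
    c ≠ 0 → (∀ l ∈ A.Λ, ∀ m, c * lf A l m ∈ F) → 2 ≤ Algebra.trdeg ℚ F

open GenAux GenRAux

theorem Gen1Aux.count {ι : Type} [Fintype ι] [DecidableEq ι] {g : ℕ} (b : Basis ι ℝ (E g))
    (P : Matrix ι ι ℤ) (U : Submodule ℂ (ι → E g)) (R : Submodule ℝ (ι → ℝ))
    (hR : (rows R).map (Ph b).toLinearMap = U.restrictScalars ℝ) :
    2 * dimIn (fun s => Ph b (famR P (some s))) U ≤ finrank ℝ R * (finrank ℝ R + 1) := by
  have h1 : Submodule.span ℝ (Set.range fun s => Ph b (famR P (some s))) =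
      (Submodule.span ℝ (Set.range fun s => famR P (some s))).map (Ph b).toLinearMap := by
    rw [Submodule.map_span, ← Set.range_comp]
    rfl
  have h0 : Submodule.span ℝ (Set.range fun s => famR P (some s)) ≤ LinearMap.range (sy ℝ ι) := by
    rw [Submodule.span_le]
    rintro _ ⟨s, rfl⟩
    refine mem_sy.2 fun i j => ?_
    simp only [famR, fam, of_apply, Sym2.eq_swap (a := j)]
  unfold dimIn
  rw [← hR, h1, ← Submodule.map_inf _ (Ph b).injective, LinearEquiv.finrank_map_eq]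
  have h2 := Submodule.finrank_mono (inf_le_inf_left (rows R) h0)
  have h4 := sym_rank R
  omega

theorem gen1S (h1 : PoinS) (h2 : NondS) (h3 : ProdS) (h4 : TwoS) : Gen1S := by
  intro M A c F ha hE hc hF
  by_contra ht
  have ht' : Algebra.trdeg ℚ F ≤ (1 : ℕ) := by
    rw [not_le, show (2 : Cardinal) = Order.succ ((1 : ℕ) : Cardinal) by
      rw [Cardinal.succ_natCast]; norm_num] at ht
    exact Order.lt_succ_iff.1 ht
  obtain ⟨b, hb⟩ := basis A
  obtain ⟨P, hP, hP1, -⟩ := riem h2 A b hb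
  have hP0 : P ≠ 0 := fun h => hP (h ▸ det_zero)
  have hs : ∑ _i : Fin 1 ⊕ Fin 1, 1 = 2 := by simp
  have hν : Fintype.card (Sym2 (Fin 1 ⊕ Fin 1)) = 3 := by
    have := two_card (n := Fin 1 ⊕ Fin 1)
    rw [Fintype.card_sum, Fintype.card_fin] at this
    omega
  have hm : ∀ j, b j ∈ A.Λ := fun j => hb ▸ Submodule.subset_span ⟨j, rfl⟩
  have key := finS h3 h4 (Fin 1 ⊕ Fin 1) (fun _ => 1) (fun _ => M) (fun _ => A) _
    (fun s => Ph b (famR P (some s))) c F 1 (fun _ => ⟨simple h1 A hE, ha⟩) (fun s i => by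
      rw [Ph_apply]
      refine Submodule.sum_mem _ fun k _ => ?_
      rw [famR, of_apply, Int.cast_smul_eq_zsmul]
      exact Submodule.smul_mem _ _ (hm k))
    (((fam_ind hP0 hP1).comp some (Option.some_injective _)).map' (Ph b).toLinearMap
      (LinearEquiv.ker _))
    (by rw [hs]; positivity) (by rw [hs, hν]; norm_num) (fun U hU hb' ht' => by
      obtain ⟨n, N, hn⟩ := rat h1 h3 A ha hE U hU
      obtain ⟨R, hR⟩ := map_rows b n N U hn
      have c1 := (count b P U R hR).1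
      have c2 := Gen1Aux.count b P U R hR
      rw [Fintype.card_sum, Fintype.card_fin] at c1
      rw [hs, hν]
      have h0 := Nat.pos_of_ne_zero fun h => hb' (Submodule.finrank_eq_zero.1 h)
      have h5 := Submodule.finrank_lt ht'
      have h6 : finrank ℂ (Fin 1 ⊕ Fin 1 → E 1) = 2 := by simp [finrank_pi_fintype]
      have h7 : finrank ℝ R ≤ 1 := by omega
      have h8 : finrank ℝ R * (finrank ℝ R + 1) ≤ 1 * (1 + 1) := by gcongr
      omega) hc (fun _ => hF) ht'
  have h5 := span_le b (fun s => Ph b (famR P (some s))) fun s k m => by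
    rw [Subsingleton.elim k m]
  rw [hs, hν] at key
  omega

end Pool.Agent.Lib.MP_caab05_ag.NC
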