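import Mathlib
import Pool.Agent.Lib.MP_caab05_ag.NC.Stmt
import Pool.Agent.Lib.MP_caab05_ag.WZ.Ind

/-! Linear independence of the auxiliary functions. -/

namespace Pool.Agent.Lib.MP_caab05_ag.NC

open MvPolynomial Filter Topology Complex
open Pool.Agent.Lib.MP_caab05_ag.LT (E)
open Pool.Agent.Lib.MP_caab05_ag.WZ (EE zz uu col psi)
open Pool.Agent.Lib.MP_caab05_ag.WZ.IndAux (cG dk dk_diff line_diff cG_succ psi_diff twist)

namespace IndAux

variable {κ : Type} [Fintype κ] [DecidableEq κ] {A : Type} [Fintype A]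

/-- the linear relation on the fibre over `z` -/
def Hyp (θ : (κ → ℂ) → ℂ) (z : κ → ℂ) (s : A → κ → ℂ) (D : ℕ) (p : A → ℂ) : Prop :=
  ∀ x, zz x = z → ∑ a, p a * col θ D (s a) x = 0

variable {θ : (κ → ℂ) → ℂ} {z : κ → ℂ}

lemma hyp_mul (hθ : Differentiable ℂ θ) {s : A → κ → ℂ} {D : ℕ} {p : A → ℂ}
    (h : Hyp θ z s (D + 1) p) (k : κ) : Hyp θ z s D fun a => p a * s a k := by
  intro x hx
  have e1 : ∀ t : ℂ, zz (x - t • Pi.single (.inr k) 1) = zz x := fun t => by
    funext j
    simp [zz]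
  have h1 : ∀ (t : ℂ) (a : A), col θ (D + 1) (s a) (x - t • Pi.single (.inr k) 1) =
      iteratedDeriv (D + 1)
        (fun τ => cexp (s a k * t * τ) * (cexp τ * psi θ x (τ • s a))) 0 := by
    intro t a
    unfold col
    congr 1
    funext τ
    have e2 : uu (x - t • Pi.single (.inr k) 1) = uu x - t • Pi.single k 1 := by
      funext j
      simp [uu, Pi.single_apply]
    unfold psi
    rw [e1, e2, sub_dotProduct, smul_dotProduct, single_dotProduct, neg_sub, sub_eq_add_neg,
      Complex.exp_add]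
    simp only [Pi.smul_apply, smul_eq_mul, one_mul]
    rw [show t * (τ * s a k) = s a k * t * τ by ring]
    ring
  have h2 := HasDerivAt.fun_sum (u := Finset.univ) fun a _ =>
    (twist (line_diff (psi_diff hθ x) (s a)) D (s a k)).const_mul (p a)
  simp only [← h1, h _ ((e1 _).trans hx)] at h2
  have h3 := (hasDerivAt_const (0 : ℂ) (0 : ℂ)).unique h2
  have h4 : ((D : ℂ) + 1) ≠ 0 := by exact_mod_cast Nat.succ_ne_zero D
  refine mul_left_cancel₀ h4 ?_
  rw [mul_zero, h3, Finset.mul_sum]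
  refine Finset.sum_congr rfl fun a _ => ?_
  unfold col
  ring

lemma kill (hθ : Differentiable ℂ θ) (hz : θ z ≠ 0) (s : A → κ → ℂ)
    (D : ℕ) : ∀ p : A → ℂ, Hyp θ z s D p → ∑ a, p a = 0 ∧
      ∀ i ≤ D, ∀ G : (κ → ℂ) → ℂ, Differentiable ℂ G → ∑ a, p a * cG G i (s a) = 0 := by
  have key : ∀ (D : ℕ) (p : A → ℂ), Hyp θ z s D p →
      (∀ i < D, ∀ G : (κ → ℂ) → ℂ, Differentiable ℂ G → ∀ k,
        ∑ a, p a * s a k * cG G i (s a) = 0) → ∑ a, p a = 0 ∧
      ∀ i ≤ D, ∀ G : (κ → ℂ) → ℂ, Differentiable ℂ G → ∑ a, p a * cG G i (s a) = 0 := by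
    intro D p h ih
    have h1 : ∀ i ≤ D, ∀ G : (κ → ℂ) → ℂ, Differentiable ℂ G →
        ∑ a, p a * cG G i (s a) = G 0 * ∑ a, p a := by
      intro i hi G hG
      induction i with
      | zero =>
        rw [Finset.mul_sum]
        refine Finset.sum_congr rfl fun a _ => ?_
        simp [cG, mul_comm]
      | succ i ihi =>
        rw [← ihi (by omega)]
        simp only [cG_succ hG, mul_add, Finset.sum_add_distrib, Finset.mul_sum, ← mul_assoc]
        rw [Finset.sum_comm, Finset.sum_eq_zero fun k _ => ih i (by omega) _ (dk_diff hG k) k,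
          add_zero]
    have h2 := h1 D le_rfl _ (psi_diff hθ (Sum.elim z 0))
    have h3 : psi θ (Sum.elim z 0) 0 = θ z := by
      have e : zz (Sum.elim z 0 : EE κ) = z := rfl
      simp [psi, e]
    have h4 : ∑ a, p a = 0 := by
      rw [h3] at h2
      exact (mul_eq_zero.1 (h2.symm.trans (h _ rfl))).resolve_left hz
    exact ⟨h4, fun i hi G hG => by rw [h1 i hi G hG, h4, mul_zero]⟩
  induction D with
  | zero => exact fun p h => key 0 p h fun i hi => absurd hi (Nat.not_lt_zero i)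
  | succ D ih =>
    exact fun p h => key _ p h fun i hi G hG k =>
      (ih _ (hyp_mul hθ h k)).2 i (by omega) G hG

lemma all (hθ : Differentiable ℂ θ) (hz : θ z ≠ 0) {s : A → κ → ℂ} {D : ℕ} {p : A → ℂ}
    (h : Hyp θ z s D p) (x : EE κ) : ∑ a, p a * col θ D (s a) x = 0 :=
  (kill hθ hz s D p h).2 D le_rfl _ (psi_diff hθ x)

end IndAux

open IndAux LT.AuxPAux in
theorem indS : IndS := by
  intro d M A
  obtain ⟨s, hs⟩ := LT.alg_indep A.toAbVar
  refine ⟨s, fun k m D p hD h => ?_⟩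
  have hθ : Differentiable ℂ fun z => A.θ z 0 := differentiable_pi.1 A.holo 0
  have h0 : ∀ᶠ z in 𝓝 (0 : E d), A.θ z 0 ≠ 0 := hθ.continuous.continuousAt.eventually_ne A.origin
  have h1 : ∀ z, A.θ z 0 ≠ 0 → ∀ b, ∑ al, p (al, b) * aeval (A.θ z) (mono s k al) = 0 := by
    intro z hz b
    refine congrFun (WZ.indS (Fin d) (fun z => A.θ z 0) hθ ⟨z, hz⟩ m D
      (fun b => ∑ al, p (al, b) * aeval (A.θ z) (mono s k al)) (by simpa using hD)
      (all hθ hz fun x hx => ?_)) b
    rw [← h x, Fintype.sum_prod_type_right]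
    simp only [Finset.sum_mul, cw, hx, mul_assoc]
  let e : (Fin d → Fin (k + 1)) → Fin d →₀ ℕ := fun al =>
    Finsupp.equivFunOnFinite.symm fun k => (al k : ℕ)
  have he : Function.Injective e := fun al al' h1 => funext fun k =>
    Fin.ext (congrFun (Finsupp.equivFunOnFinite.symm.injective h1) k)
  funext ⟨al, b⟩
  have h2 := hs (∑ al, monomial (e al) (p (al, b))) (by
    filter_upwards [h0] with z hz
    refine (mul_eq_zero.1 ?_).resolve_left (pow_ne_zero (d * k) hz)
    rw [← h1 z hz b, map_sum, Finset.mul_sum]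
    refine Finset.sum_congr rfl fun al _ => ?_
    rw [eval_monomial, Finsupp.prod_fintype _ _ (by simp), mono_div s k _ _ hz]
    simp only [e, Finsupp.equivFunOnFinite_symm_apply_apply]
    ring)
  simpa only [coeff_sum, coeff_monomial, he.eq_iff, Finset.sum_ite_eq', Finset.mem_univ, if_true,
    coeff_zero, Pi.zero_apply] using congrArg (coeff (e al)) h2

end Pool.Agent.Lib.MP_caab05_ag.NC
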