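import Mathlib
import Pool.Agent.Lib.MP_caab05_ag.NC.Stmt
import Pool.Agent.Lib.MP_caab05_ag.WZ.Ode
import Pool.Agent.Lib.MP_caab05_ag.WZ.OdeV
import Pool.Agent.Lib.MP_caab05_ag.WZ.Jet2
import Pool.Agent.Lib.MP_caab05_ag.WZ.Jet
import Pool.Agent.Lib.MP_caab05_ag.WZ.Lan

/-! The jets of the auxiliary function are forms. -/

namespace Pool.Agent.Lib.MP_caab05_ag.NC

open MvPolynomial Filter Topology Complex
open Pool.Agent.Lib.MP_caab05_ag.LT (AlgCoeff E val)
open Pool.Agent.Lib.MP_caab05_ag.LT.JetAAux (K AP prim homog lift)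
open Pool.Agent.Lib.MP_caab05_ag.LT.JetBAux (finite_roots)
open Pool.Agent.Lib.MP_caab05_ag.ZE (VX)
open Pool.Agent.Lib.MP_caab05_ag.WZ (EE zz col ker psi Form Arith Ode evc)

namespace JetAux

variable {d M : ℕ}

open WZ.OdeVAux in
theorem ode_th (A : VX d M) (hA : Arith A) (b : Fin (M + 1)) : Ode fun z => A.θ z b := by
  choose P hP using system A hA
  have a0 : ∀ a, IsAlgebraic ℚ (A.θ 0 a) := fun a => by simpa using hA.2 0 0 a
  have ac : ∀ Q : MvPolynomial (Option (Fin (M + 1) ⊕ Fin d)) K,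
      AlgCoeff (map (algebraMap K ℂ) Q) := fun Q m => by
    rw [coeff_map]
    exact mem_algebraicClosure_iff.1 (Subtype.property _)
  refine ⟨Option (Fin (M + 1) ⊕ Fin d), inferInstance, Ph A,
    fun s k => map (algebraMap K ℂ) (P s k),
    map (algebraMap K ℂ) (X none * X (some (.inl b))), ?_, fun s k => ac _, ac _, ?_⟩
  · rintro (_ | a | k)
    · exact a0 0
    · exact A.origin_alg a
    · have h1 := hA.2 (Pi.single k 1) 1 0
      have h2 := (line (th A 0) 0 (Pi.single k 1) 0).deriv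
      simp only [zero_add, zero_smul] at h2
      rw [cast_single, iteratedDeriv_one, h2] at h1
      change IsAlgebraic ℚ (_ / _)
      rw [div_eq_mul_inv]
      exact h1.mul (a0 0).inv
  filter_upwards [(th A 0).continuous.continuousAt.eventually_ne A.origin] with z hz
  have hd : DifferentiableAt ℂ (Ph A) z := by
    refine differentiableAt_pi.2 ?_
    rintro (_ | a | k)
    · exact th A 0 z
    · simp only [Ph, div_eq_mul_inv]
      exact (th A a z).fun_mul ((th A 0 z).fun_inv hz)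
    · simp only [Ph, div_eq_mul_inv]
      exact (diff_dd (th A 0) _ z).fun_mul ((th A 0 z).fun_inv hz)
  refine ⟨hd, fun w s => ?_, by simp [Ph, mul_div_cancel₀ _ hz]⟩
  have hw : w = ∑ j, w j • (Pi.single j 1 : E d) := by
    ext k
    simp [Finset.sum_apply, Pi.single_apply]
  conv_lhs => rw [hw]
  simp only [map_sum, map_smul, Finset.sum_apply, Pi.smul_apply, smul_eq_mul]
  refine Finset.sum_congr rfl fun k _ => ?_
  rw [eval_map, ← aeval_def,
    (hasDerivAt_pi.1 (LT.JetAAux.line hd (Pi.single k 1)) s).unique (hP s k z hz)]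

open WZ.OdeAux in
theorem ode_pull {κ : Type} [Fintype κ] {f : (κ → ℂ) → ℂ} (h : Ode f) :
    Ode fun y : (κ ⊕ κ) ⊕ Option κ → ℂ => f fun k => y (.inl (.inl k)) := by
  obtain ⟨σ, _, Φ, P, P₀, h2, h4, h5, h3⟩ := h
  let L : ((κ ⊕ κ) ⊕ Option κ → ℂ) →L[ℂ] (κ → ℂ) := ContinuousLinearMap.pi fun k =>
    ContinuousLinearMap.proj (.inl (.inl k))
  have a0 : AP (fun y => Φ (L y)) fun _ => 0 := AP.const _ isAlgebraic_zero
  have a1 : ∀ {Q : MvPolynomial σ ℂ}, AlgCoeff Q →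
      AP (fun y => Φ (L y)) fun y => eval (Φ (L y)) Q := fun hQ =>
    AP_eval (fun t => AP.coord (fun y => Φ (L y)) t) hQ
  refine mk (fun y => Φ (L y)) (fun s => Sum.elim (Sum.elim (fun k y => eval (Φ (L y)) (P s k))
    fun _ _ => 0) fun _ _ => 0) (fun y => eval (Φ (L y)) P₀) (fun s => ?_) (fun s => ?_) (a1 h5) ?_
  · rw [map_zero]
    exact h2 s
  · rintro ((k | k) | k)
    exacts [a1 (h4 s k), a0, a0]
  · filter_upwards [pull (q := fun z w s => ∑ k, w k * eval (Φ z) (P s k))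
      (r := fun z => f z = eval (Φ z) P₀) h3 L] with y ⟨b1, b2, b3⟩
    refine ⟨b1, fun w s => (b2 w s).congr_deriv ?_, b3⟩
    simp only [Fintype.sum_sum_type, Sum.elim_inl, Sum.elim_inr, mul_zero, Finset.sum_const_zero,
      add_zero]
    rfl

/-- a common system with coefficients in `ℤ[c]` -/
theorem common {ι J : Type} [Fintype ι] [Fintype J] (f : J → (ι → ℂ) → ℂ) (hf : ∀ j, Ode (f j))
    (S : Finset ℂ) (hS : ∀ α ∈ S, IsAlgebraic ℚ α) :
    ∃ (σ : Type) (_ : Fintype σ) (c : ℂ) (a a' : ℕ) (φ : (ι → ℂ) → σ → ℂ) (e : σ → Polynomial ℤ)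
      (G : σ → ι → MvPolynomial σ (Polynomial ℤ)) (P₀ : J → MvPolynomial σ (Polynomial ℤ)),
      IsIntegral ℤ c ∧ 0 < a ∧ 0 < a' ∧
      (∃ a : ℕ, 0 < a ∧ ∀ α ∈ S, ∃ q : Polynomial ℤ, (a : ℂ) * α = Polynomial.aeval c q) ∧
      (∀ s, φ 0 s = Polynomial.aeval c (e s)) ∧
      ∀ᶠ z in 𝓝 (0 : ι → ℂ), (DifferentiableAt ℂ φ z ∧
        ∀ w s, (a' : ℂ) * fderiv ℂ φ z w s = ∑ k, w k * evc c (φ z) (G s k)) ∧
        ∀ j, (a : ℂ) * f j z = evc c (φ z) (P₀ j) := by
  classical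
  choose σ i Φ P' P₀' h2 h4 h5 h3 using hf
  choose P hP using fun j s k => lift (h4 j s k)
  choose P₀ hP₀ using fun j => lift (h5 j)
  let Ψ : (ι → ℂ) → (Σ j, σ j) → ℂ := fun z s => Φ s.1 z s.2
  let R : J ⊕ (Σ j, σ j) × ι → MvPolynomial (Σ j, σ j) K := Sum.elim
    (fun j => rename (Sigma.mk j) (P₀ j)) fun p => rename (Sigma.mk p.1.1) (P p.1.1 p.1.2 p.2)
  set s : Finset ℂ := S ∪ (Finset.univ.image (Ψ 0) ∪ Finset.univ.biUnion
    fun o => (R o).support.image fun m => ((coeff m (R o) : K) : ℂ)) with hs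
  obtain ⟨c, a, hc, ha, hp⟩ := prim s (by
    intro x hx
    simp only [hs, Finset.mem_union, Finset.mem_image, Finset.mem_univ, true_and,
      Finset.mem_biUnion] at hx
    rcases hx with hx | ⟨i, rfl⟩ | ⟨p, m, -, rfl⟩
    · exact hS x hx
    · exact h2 _ _
    · exact mem_algebraicClosure_iff.1 (Subtype.property _))
  set κ : ℕ := Finset.univ.sup fun o => (R o).totalDegree with hκ
  choose G hG using fun o => homog c a κ (R o)
    (Finset.le_sup (f := fun o => (R o).totalDegree) (Finset.mem_univ o))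
    (fun m hm => hp _ (Finset.mem_union_right _ (Finset.mem_union_right _ (Finset.mem_biUnion.2
      ⟨o, Finset.mem_univ _, Finset.mem_image_of_mem _ hm⟩))))
  choose e he using fun i => hp (Ψ 0 i) (Finset.mem_union_right _
    (Finset.mem_union_left _ (Finset.mem_image_of_mem _ (Finset.mem_univ i))))
  refine ⟨Σ j, σ j, inferInstance, c, a ^ κ * a, a ^ κ, fun z i => a * Ψ z i, e,
    fun s k => G (.inr (s, k)), fun j => G (.inl j), hc, by positivity, pow_pos ha _,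
    ⟨a, ha, fun α h => (hp α (Finset.mem_union_left _ h)).imp fun q h => h.symm⟩,
    fun i => (he i).symm, ?_⟩
  filter_upwards [eventually_all.2 h3] with z hz
  have hd : DifferentiableAt ℂ Ψ z :=
    differentiableAt_pi.2 fun s => differentiableAt_pi.1 (hz s.1).1 s.2
  have hd' : HasFDerivAt (fun z i => (a : ℂ) * Ψ z i) ((a : ℂ) • fderiv ℂ Ψ z) z :=
    hd.hasFDerivAt.const_smul (a : ℂ)
  have r : ∀ j, Ψ z ∘ Sigma.mk j = Φ j z := fun _ => rfl
  refine ⟨⟨hd'.differentiableAt, fun w i => ?_⟩, fun j => ?_⟩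
  · have q : fderiv ℂ Ψ z w i = fderiv ℂ (Φ i.1) z w i.2 :=
      (hasDerivAt_pi.1 (WZ.OdeAux.line hd w) i).unique
        (hasDerivAt_pi.1 (WZ.OdeAux.line (hz i.1).1 w) i.2)
    rw [hd'.fderiv]
    simp only [ContinuousLinearMap.smul_apply, Pi.smul_apply, smul_eq_mul, q, (hz i.1).2.1, evc, hG,
      hP, Finset.mul_sum, Nat.cast_pow, R, Sum.elim_inr, aeval_rename, r]
    exact Finset.sum_congr rfl fun j _ => by ring
  · simp only [evc, hG, (hz j).2.2, hP₀, R, Sum.elim_inl, aeval_rename, r]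
    push_cast
    ring

open WZ.Jet2Aux in
/-- the jets in two directions, for all functions that are polynomials in the solution -/
theorem two {ι σ : Type} [Fintype ι] [Fintype σ] {c : ℂ} (a' : ℕ) (φ : (ι → ℂ) → σ → ℂ)
    (e : σ → Polynomial ℤ) (G : σ → ι → MvPolynomial σ (Polynomial ℤ)) (hc : IsIntegral ℤ c)
    (h0 : ∀ s, φ 0 s = Polynomial.aeval c (e s))
    (hφ : ∀ᶠ z in 𝓝 (0 : ι → ℂ), DifferentiableAt ℂ φ z ∧
      ∀ w s, (a' : ℂ) * fderiv ℂ φ z w s = ∑ k, w k * evc c (φ z) (G s k)) :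
    ∃ r C : ℝ, 1 ≤ C ∧ ∀ (f : (ι → ℂ) → ℂ) (a : ℂ) (P₀ : MvPolynomial σ (Polynomial ℤ)) (β : ℝ),
      (∀ᶠ z in 𝓝 (0 : ι → ℂ), a * f z = evc c (φ z) P₀) →
      (∀ c' : ℂ, Polynomial.aeval c' (minpoly ℤ c) = 0 → ∀ x, ‖x‖ ≤ r → ‖evc c' x P₀‖ ≤ β) →
      ∀ (D n m : ℕ) (v : ι → ℕ), (∀ k, v k ≤ m) → ∃ Q : Polynomial (MvPolynomial ι ℤ),
        (∀ w, val Q c w = a * (a' : ℂ) ^ (D + n) * iteratedDeriv n (fun σ : ℂ =>
          iteratedDeriv D (fun τ : ℂ => f (σ • w + τ • fun k => (v k : ℂ))) 0) 0) ∧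
        (∀ c' : ℂ, Polynomial.aeval c' (minpoly ℤ c) = 0 → ∀ w : ι → ℂ,
          ‖val Q c' w‖ ≤ β * (C * m * (D + 1)) ^ D * (C * (n + 1)) ^ n * ‖w‖ ^ n) ∧
        ∀ (c' l : ℂ) (w : ι → ℂ), val Q c' (l • w) = l ^ n * val Q c' w := by
  have hS := finite_roots (minpoly.ne_zero hc)
  obtain ⟨ρ, hρ⟩ := (hS.image fun c' : ℂ =>
    ‖(fun i => Polynomial.aeval c' (e i) : σ → ℂ)‖).bddAbove
  choose Γ hΓ0 hΓ using fun c' : ℂ => exists_vf_bound G c' (ρ + 1 + 1)
  obtain ⟨Γ₁, hΓ₁⟩ := (hS.image Γ).bddAbove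
  obtain ⟨C, hC1, hC2⟩ : ∃ C : ℝ, 1 ≤ C ∧ Γ₁ ≤ C := ⟨max 1 Γ₁, le_max_left _ _, le_max_right _ _⟩
  refine ⟨ρ + 1 + 1, C, hC1, fun f a P₀ β hf hβ D n m v hv => ?_⟩
  refine ⟨eval (fun i => inc ι (e i))
    ((der (VG G))^[n] (map (inc ι) ((der (VZ G v))^[D] P₀))), fun w => ?_, fun c' hc' w => ?_,
    fun c' l w => ?_⟩
  · have h1 : ∀ᶠ z in 𝓝 (0 : ι → ℂ), a * (a' : ℂ) ^ D *
        iteratedDeriv D (fun τ : ℂ => f (z + τ • fun k => (v k : ℂ))) 0 =
          eval₂ (ps0 c) (φ z) ((der (VZ G v))^[D] P₀) := by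
      filter_upwards [hφ.eventually_nhds, hf.eventually_nhds] with z hz hz'
      have ht : Tendsto (fun τ : ℂ => z + τ • fun k => (v k : ℂ)) (𝓝 0) (𝓝 z) := by
        have : Continuous fun τ : ℂ => z + τ • fun k => (v k : ℂ) := by fun_prop
        simpa using this.tendsto 0
      have h2 := (jet (ps0 c) (VZ G v) a' (fun τ : ℂ => φ (z + τ • fun k => (v k : ℂ))) _
        ((line G c a' φ z (fun k => (v k : ℂ)) hz).mono
          fun τ h => ⟨h.1, fun i => by rw [h.2 i, eval_VZ]⟩) P₀ D).self_of_nhds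
      have h3 : (fun τ : ℂ => a * f (z + τ • fun k => (v k : ℂ))) =ᶠ[𝓝 0]
          fun τ : ℂ => eval₂ (ps0 c) (φ (z + τ • fun k => (v k : ℂ))) P₀ := ht.eventually hz'
      rw [← h3.iteratedDeriv_eq D, iteratedDeriv_const_mul_field, zero_smul, add_zero] at h2
      rw [← h2]
      ring
    have ht : Tendsto (fun s : ℂ => 0 + s • w) (𝓝 0) (𝓝 0) := by
      have : Continuous fun s : ℂ => 0 + s • w := by fun_prop
      simpa using this.tendsto 0
    have h2 := (jet (ps c w) (VG G) a' (fun s : ℂ => φ (0 + s • w)) _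
      ((line G c a' φ 0 w hφ).mono fun τ h => ⟨h.1, fun i => by rw [h.2 i, eval_VG]⟩)
      (map (inc ι) ((der (VZ G v))^[D] P₀)) n).self_of_nhds
    have h3 : (fun s : ℂ => a * (a' : ℂ) ^ D *
        iteratedDeriv D (fun τ : ℂ => f (s • w + τ • fun k => (v k : ℂ))) 0) =ᶠ[𝓝 0]
        fun s : ℂ => eval₂ (ps c w) (φ (0 + s • w)) (map (inc ι) ((der (VZ G v))^[D] P₀)) := by
      filter_upwards [ht.eventually h1] with s h
      rw [eval_base, ← h, zero_add]
    rw [← h3.iteratedDeriv_eq n, iteratedDeriv_const_mul_field, zero_smul, add_zero] at h2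
    have h4 : (fun i => Polynomial.aeval c (e i)) = φ 0 := funext fun i => (h0 i).symm
    rw [val_eq, h4, ← h2]
    ring
  · rw [val_eq]
    have hC0 : 0 ≤ C := by linarith
    have h1 : ‖(fun i => Polynomial.aeval c' (e i) : σ → ℂ)‖ ≤ ρ := hρ ⟨c', hc', rfl⟩
    have h2 : Γ c' ≤ C := (hΓ₁ ⟨c', hc', rfl⟩).trans hC2
    have h4 : ‖(fun k => (v k : ℂ) : ι → ℂ)‖ ≤ m := by
      rw [pi_norm_le_iff_of_nonneg (by positivity)]
      intro k
      rw [Complex.norm_natCast]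
      exact_mod_cast hv k
    have h5 : ∀ x : σ → ℂ, ‖x‖ ≤ ρ + 1 →
        ‖eval₂ (ps c' w) x (map (inc ι) ((der (VZ G v))^[D] P₀))‖ ≤ β * (C * m * (D + 1)) ^ D := by
      intro x hx
      rw [eval_base]
      refine bound' (ps0 c') (VZ G v) (r := ρ + 1) (fun y hy => ?_) P₀ (hβ c' hc') D x hx
      simp only [eval_VZ]
      exact (hΓ c' _ y hy).trans (mul_le_mul h2 h4 (norm_nonneg _) hC0)
    have h6 := bound' (ps c' w) (VG G) (r := ρ) (L := C * ‖w‖) (fun y hy => by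
      simp only [eval_VG]
      exact (hΓ c' w y (by linarith)).trans (mul_le_mul_of_nonneg_right h2 (norm_nonneg _)))
      _ h5 n _ h1
    refine h6.trans (le_of_eq ?_)
    rw [mul_assoc (β * _), ← mul_pow]
    ring
  · rw [val_eq, val_eq, scale]

theorem evc_aeval {σ τ : Type} (c : ℂ) (x : σ → ℂ) (g : τ → MvPolynomial σ (Polynomial ℤ))
    (P : MvPolynomial τ ℤ) : evc c x (aeval g P) = aeval (fun b => evc c x (g b)) P := by
  induction P using MvPolynomial.induction_on with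
  | C a =>
    rw [aeval_C, aeval_C, eq_intCast, eq_intCast]
    exact map_intCast (eval₂Hom (WZ.Jet2Aux.ps0 c) x) a
  | add p q hp hq => rw [map_add, map_add, ← hp, ← hq]; exact eval₂_add _ _
  | mul_X p i hp => rw [map_mul, map_mul, aeval_X, aeval_X, ← hp]; exact eval₂_mul _ _

theorem diff_aeval (A : VX d M) (P : MvPolynomial (Fin (M + 1)) ℤ) :
    Differentiable ℂ fun x : EE (Fin d) => aeval (A.θ (zz x)) P := by
  have h : Differentiable ℂ fun x : EE (Fin d) => zz x :=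
    differentiable_pi.2 fun k => differentiable_apply _
  induction P using MvPolynomial.induction_on with
  | C a => simp
  | add p q hp hq => simp only [map_add]; exact hp.add hq
  | mul_X p i hp => simp only [map_mul, aeval_X]; exact hp.mul ((WZ.OdeVAux.th A i).comp h)

end JetAux

open JetAux WZ.JetAux in
theorem jetS : JetS := by
  intro d M A hA S hS
  have hθ := WZ.OdeVAux.th A 0
  obtain ⟨σ, _, c, a, a', φ, e, G, P₀, hc, ha, ha', hq, h0, hφ⟩ := common
    (fun o : Option (Fin (M + 1)) => o.elim (ker fun z => A.θ z 0)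
      fun b y => A.θ (fun k => y (.inl (.inl k))) b)
    (fun o => by
      rcases o with _ | b
      exacts [WZ.odeK _ _ (ode_th A hA 0), ode_pull (ode_th A hA b)]) S hS
  obtain ⟨r, C₀, hC, H⟩ := two a' φ e G hc h0 (hφ.mono fun _ h => h.1)
  choose β hβ using fun c' : ℂ => (isCompact_closedBall (0 : σ → ℂ) r).exists_bound_of_continuousOn
    (continuous_pi fun o => WZ.Jet2Aux.continuous_evc c' (P₀ o)).continuousOn
  obtain ⟨β₁, hβ₁⟩ := ((finite_roots (minpoly.ne_zero hc)).image β).bddAbove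
  obtain ⟨C₁, g0, g1, g2, g3⟩ : ∃ C₁ : ℝ, C₀ ≤ C₁ ∧ (a : ℝ) ≤ C₁ ∧ (a' : ℝ) ≤ C₁ ∧ β₁ ≤ C₁ :=
    ⟨max (max C₀ β₁) (max a a'), by simp, by simp, by simp, by simp⟩
  refine ⟨c, C₁, hc, hC.trans g0, hq, ?_⟩
  intro ι _ P s p k D n m B hm hs hP hB
  have hC0 : (0 : ℝ) ≤ C₀ := zero_le_one.trans hC
  have hC1 := hC0.trans g0
  choose Q hQ1 hQ2 hQ3 using fun i => H (fun y => aeval (A.θ fun k => y (.inl (.inl k))) (P i) *
    ker (fun z => A.θ z 0) y) (a ^ (k + 1)) (aeval (fun b => P₀ (some b)) (P i) * P₀ none)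
    (C₁ ^ (k + 1)) (hφ.mono fun z hz => by
      have e1 : (fun b => evc c (φ z) (P₀ (some b))) = (a : ℂ) • A.θ fun k => z (.inl (.inl k)) :=
        funext fun b => (hz.2 (some b)).symm
      rw [evc, eval₂_mul, ← evc, ← evc, evc_aeval, e1, LT.aeval_smul_of_hom (hP i).1, ← hz.2 none,
        Option.elim]
      ring) (fun c' hc' x hx => by
      have b : ∀ o, ‖evc c' x (P₀ o)‖ ≤ C₁ := fun o => (norm_le_pi_norm _ o).trans
        ((hβ c' x (mem_closedBall_zero_iff.2 hx)).trans ((hβ₁ ⟨c', hc', rfl⟩).trans g3))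
      rw [evc, eval₂_mul, ← evc, ← evc, evc_aeval, norm_mul, pow_succ]
      exact mul_le_mul (((hP i).2 _).trans (pow_le_pow_left₀ (norm_nonneg _)
        ((pi_norm_le_iff_of_nonneg hC1).2 fun o => b _) _)) (b _) (norm_nonneg _) (by positivity))
    D n m (vv (s i)) (vv_le hm (hs i))
  refine ⟨comb p Q, (a : ℂ) ^ (k + 1) * (a' : ℂ) ^ (D + n), ?_, ?_, ?_, ?_, ?_⟩
  · exact mul_ne_zero (pow_ne_zero _ (Nat.cast_ne_zero.2 ha.ne'))
      (pow_ne_zero _ (Nat.cast_ne_zero.2 ha'.ne'))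
  · rw [norm_mul, norm_pow, norm_pow, Complex.norm_natCast, Complex.norm_natCast,
      show k + D + n + 1 = k + 1 + (D + n) by ring, pow_add C₁]
    gcongr
  · intro w
    beta_reduce
    rw [val_comb, jet_sum (fun i => (p i : ℂ)) (fun i => cw A (P i) D fun k => (s i k : ℂ))
      (fun i => (diff_aeval A (P i)).mul (WZ.lanS.diff _ _ hθ D _ (WZ.lanS.mem _ _ hθ D _))),
      Finset.mul_sum]
    refine Finset.sum_congr rfl fun i _ => ?_
    have z : ∀ t τ : ℂ, (fun k => (t • ex w + τ • fun k => (vv (s i) k : ℂ)) (.inl (.inl k))) =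
        zz (t • w) := fun t τ => funext fun k => by simp [ex, vv, zz]
    rw [hQ1 i]
    simp only [ker_eq, z, iteratedDeriv_const_mul_field]
    unfold cw col
    ring
  · intro c' hc' w
    have hB0 : 0 ≤ B := (Finset.sum_nonneg fun i _ => abs_nonneg _).trans hB
    have hb : ∀ i, ‖val (Q i) c' (ex w)‖ ≤
        C₁ ^ (k + 1) * (C₁ * m * (D + 1)) ^ D * (C₁ * (n + 1)) ^ n * ‖w‖ ^ n := fun i => by
      refine (hQ2 i c' hc' (ex w)).trans ?_
      have := norm_ex w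
      gcongr
    rw [val_comb]
    calc ‖∑ i, (p i : ℂ) * val (Q i) c' (ex w)‖
        ≤ ∑ i, |(p i : ℝ)| *
            (C₁ ^ (k + 1) * (C₁ * m * (D + 1)) ^ D * (C₁ * (n + 1)) ^ n * ‖w‖ ^ n) := by
          refine (norm_sum_le _ _).trans (Finset.sum_le_sum fun i _ => ?_)
          rw [norm_mul, Complex.norm_intCast]
          exact mul_le_mul_of_nonneg_left (hb i) (abs_nonneg _)
      _ ≤ B * (C₁ ^ (k + 1) * (C₁ * m * (D + 1)) ^ D * (C₁ * (n + 1)) ^ n * ‖w‖ ^ n) := by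
          rw [← Finset.sum_mul]
          exact mul_le_mul_of_nonneg_right hB (by positivity)
      _ = _ := by ring
  · intro c' l w
    rw [val_comb, val_comb, Finset.mul_sum]
    refine Finset.sum_congr rfl fun i _ => ?_
    rw [ex_smul, hQ3 i]
    ring

end Pool.Agent.Lib.MP_caab05_ag.NC
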