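import Mathlib
import Pool.Agent.Lib.MP_caab05_ag.NC.Stmt
import Pool.Agent.Lib.MP_caab05_ag.WZ.MainA

/-! The abstract form of the transcendence theorem. -/

namespace Pool.Agent.Lib.MP_caab05_ag.NC

open MvPolynomial Filter Topology Asymptotics Complex Module
open Pool.Agent.Lib.MP_caab05_ag.LT (E AlgCoeff val sl)
open Pool.Agent.Lib.MP_caab05_ag.ZE (Ord VX)
open Pool.Agent.Lib.MP_caab05_ag.WZ (EE zz uu col Form Arith)
open Pool.Agent.Lib.MP_caab05_ag.WZ.MainAAux (form_mono ord_mono pow_le_exp)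

namespace MainGAux

/-- a linear form with coefficients in `ℤ[c]` -/
noncomputable def lin {σ : Type} [Fintype σ] (q : σ → Polynomial ℤ) :
    Polynomial (MvPolynomial σ ℤ) :=
  ∑ s, (q s).map C * Polynomial.C (X s)

lemma val_lin {σ : Type} [Fintype σ] (q : σ → Polynomial ℤ) (c : ℂ) (x : σ → ℂ) :
    val (lin q) c x = ∑ s, Polynomial.aeval c (q s) * x s := by
  unfold val lin
  rw [Polynomial.eval₂_finsetSum]
  refine Finset.sum_congr rfl fun s _ => ?_
  rw [Polynomial.eval₂_mul, Polynomial.eval₂_C, Polynomial.eval₂_map, eval₂Hom_X',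
    Polynomial.aeval_def]
  congr 2
  exact RingHom.ext_int _ _

lemma two_rank {d : ℕ} {ν : Type} [Fintype ν] {y : ν → E d} (hy : LinearIndependent ℝ y) :
    Fintype.card ν ≤ 2 * finrank ℂ (Submodule.span ℂ (Set.range y)) := by
  have h1 : LinearIndependent ℝ fun i =>
      (⟨y i, Submodule.subset_span ⟨i, rfl⟩⟩ : Submodule.span ℂ (Set.range y)) :=
    LinearIndependent.of_comp ((Submodule.span ℂ (Set.range y)).subtype.restrictScalars ℝ) hy
  have h2 := h1.fintype_card_le_finrank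
  rwa [← Module.finrank_mul_finrank ℝ ℂ, Complex.finrank_real_complex] at h2

/-- auxiliary function, jets, multiplicity estimate and elimination put together -/
lemma step (h1 : AuxVS) (h2 : IndS) (h3 : JetS) (h4 : BrS) (h5 : CoreS) {d M : ℕ} {A : VX d M}
    {ν σ κ : Type} [Fintype ν] [Fintype σ] [Fintype κ] {y : ν → E d}
    {cf : Fin d ⊕ Fin d → ν → σ → ℤ} {η : σ → ℂ} {G : MvPolynomial σ ℤ} {e : ℕ}
    {eq : κ → σ → ℂ} {c : ℂ} {F : IntermediateField ℚ ℂ} {t a : ℕ} (hA : Arith A)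
    (hZ : ZF.ZEst A) (hy : ∀ i, y i ∈ A.Λ) (hi : LinearIndependent ℝ y) (hd : 0 < d) (ha : a ≤ d)
    (hF : Algebra.trdeg ℚ F ≤ t) (hη : ∀ s, η s ∈ F) (hG : G.IsHomogeneous e)
    (hG0 : aeval η G ≠ 0) (he : ∀ r s, IsAlgebraic ℚ (eq r s)) (he0 : ∀ r, ∑ s, eq r s * η s = 0)
    (hc : ‖c‖ ≤ 1) (hj : ∀ u, jl cf η u = Jy A y (c • u))
    (hadm : ∀ x : σ → ℂ, aeval x G ≠ 0 → (∀ r, ∑ s, eq r s * x s = 0) → AdmE A a (Wl cf x)) :
    ∃ (C : ℝ) (Cz : ℕ), 1 ≤ C ∧ ∀ (k T N : ℕ) (V L : ℝ), 1 ≤ k → k ≤ T → C ≤ T → k ^ d ≤ T ^ a →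
      d * T ≤ N → Cz * (d * T + 1) ≤ N → 2 ≤ L → C * T * (N + 1) ≤ Real.exp L →
      (d * T : ℕ) * L ≤ V → C * (d * k + 1) ≤ V →
      C * ((d : ℝ) * k + 1) ^ Fintype.card ν *
        ((d : ℝ) * T) ^ (2 * (Fintype.card ν - finrank ℂ (Submodule.span ℂ (Set.range y)))) *
        V ^ (2 * finrank ℂ (Submodule.span ℂ (Set.range y)) - Fintype.card ν + 2) ≤
          ((k : ℝ) ^ d * (T : ℝ) ^ d * T) ^ 2 →
      V ≤ C * (9 * (N * L)) * (N : ℝ) ^ t := by
  classical
  obtain ⟨Ca, hCa, hAux⟩ := h1 d M A ν y hy hi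
  obtain ⟨s₀, hInd⟩ := h2 d M A
  obtain ⟨c₀, Cj, hc₀, hCj, ⟨a₀, ha₀, hq⟩, hJet⟩ := h3 d M A hA
    (Finset.univ.image fun p : κ × σ => eq p.1 p.2) (by
      intro α hα
      obtain ⟨p, -, rfl⟩ := Finset.mem_image.1 hα
      exact he _ _)
  choose q hq using fun r s => hq (eq r s) (Finset.mem_image.2 ⟨(r, s), Finset.mem_univ _, rfl⟩)
  have hlin : ∀ r x, val (lin (q r)) c₀ x = a₀ * ∑ s, eq r s * x s := fun r x => by
    rw [val_lin, Finset.mul_sum]
    exact Finset.sum_congr rfl fun s _ => by rw [← hq, mul_assoc]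
  have ha₀' : (a₀ : ℂ) ≠ 0 := Nat.cast_ne_zero.2 ha₀.ne'
  obtain ⟨Cz, hBr⟩ := h4 d M A hZ a ((d + 1) ^ d) ha hd
  obtain ⟨Cc, hCc, hcore⟩ := h5 _ ν σ κ cf η G e (fun r => lin (q r)) (fun _ => 1) F t c₀ hF hη hG
    hG0 (fun r c' l x => by
      rw [val_lin, val_lin, pow_one, Finset.mul_sum]
      exact Finset.sum_congr rfl fun s _ => by rw [Pi.smul_apply, smul_eq_mul]; ring)
    (fun r => by rw [hlin, he0, mul_zero]) hc₀
  refine ⟨Ca + Cj + Cc, Cz, by linarith,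
    fun k T N V L hk hkT hCT hka hDN hzN hL hexp hV hVk hcount => ?_⟩
  set D := d * T with hD
  have hT : 1 ≤ T := hk.trans hkT
  have hTD : T ≤ D := Nat.le_mul_of_pos_left _ hd
  have hnD : d * k ≤ D := Nat.mul_le_mul_left _ hkT
  have hT' : (1 : ℝ) ≤ T := by exact_mod_cast hT
  have hk' : (1 : ℝ) ≤ k := by exact_mod_cast hk
  have hTD' : (T : ℝ) ≤ D := by exact_mod_cast hTD
  have hDN' : (D : ℝ) ≤ N := by exact_mod_cast hDN
  have hnD' : ((d * k : ℕ) : ℝ) ≤ D := by exact_mod_cast hnD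
  have hDV : 2 * (D : ℝ) ≤ V := le_trans (by nlinarith) hV
  have hN0 : (0 : ℝ) ≤ N := by linarith
  have hcard : (Fintype.card ((Fin d → Fin (k + 1)) × (Fin d → Fin (T + 1))) : ℝ) =
      ((k : ℝ) + 1) ^ d * ((T : ℝ) + 1) ^ d := by
    simp
  have hexp1 : ∀ u : ℕ, ((u : ℝ) + 1) ^ d ≤ Real.exp ((d * u : ℕ) : ℝ) := fun u => by
    rw [Nat.cast_mul, Real.exp_nat_mul]
    gcongr
    linarith [Real.add_one_le_exp (u : ℝ)]
  have hcardle : (Fintype.card ((Fin d → Fin (k + 1)) × (Fin d → Fin (T + 1))) : ℝ) ≤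
      Real.exp (2 * D) := by
    rw [hcard, two_mul, Real.exp_add]
    exact mul_le_mul ((hexp1 k).trans (Real.exp_le_exp.2 hnD')) (hexp1 T) (by positivity)
      (Real.exp_pos _).le
  have hbig : ∀ {a b : ℝ}, 0 ≤ a → a ≤ Ca + Cj + Cc → 0 ≤ b → b ≤ T * (N + 1) →
      a * b ≤ Real.exp L := fun {a b} _ ha1 hb0 hb1 => by
    refine le_trans ?_ hexp
    rw [mul_assoc]
    exact mul_le_mul ha1 hb1 hb0 (by linarith)
  have hTN : (N : ℝ) + 1 ≤ T * (N + 1) := le_mul_of_one_le_left (by linarith) hT'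
  have hP : ∀ al : (Fin d → Fin (k + 1)) × (Fin d → Fin (T + 1)),
      (LT.AuxPAux.mono s₀ k al.1).IsHomogeneous (d * k) ∧
        ∀ x : Fin (M + 1) → ℂ, ‖aeval x (LT.AuxPAux.mono s₀ k al.1)‖ ≤ ‖x‖ ^ (d * k) :=
    fun al => ⟨LT.AuxPAux.mono_hom _ _ _, LT.AuxPAux.mono_norm _ _ _⟩
  have hV0 : 0 ≤ V := by linarith
  have a1 : ∀ al : (Fin d → Fin (k + 1)) × (Fin d → Fin (T + 1)),
      ‖(fun j => ((al.2 j : ℕ) : ℂ) : E d)‖ ≤ (T : ℝ) := fun al =>
    (pi_norm_le_iff_of_nonneg (by linarith)).2 fun j => by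
      rw [Complex.norm_natCast]
      exact_mod_cast Nat.lt_succ_iff.1 (al.2 j).2
  have a2 : Ca * (((d * k : ℕ) : ℝ) + 1) ≤ V := by
    refine le_trans ?_ hVk
    rw [Nat.cast_mul]
    exact mul_le_mul_of_nonneg_right (by linarith) (by positivity)
  have a3 : ((D : ℝ) * T) ^ D ≤ Real.exp V := by
    have h := hbig (a := 1) (b := D * T) zero_le_one (by linarith) (by positivity) (by
      rw [mul_comm]
      exact mul_le_mul_of_nonneg_left (by linarith) (by linarith))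
    rw [one_mul] at h
    exact (pow_le_exp (by positivity) h (by linarith) le_rfl).trans (Real.exp_le_exp.2 hV)
  have a4 : Ca * (((d * k : ℕ) : ℝ) + 1) ^ Fintype.card ν *
      (D : ℝ) ^ (2 * (Fintype.card ν - finrank ℂ (Submodule.span ℂ (Set.range y)))) *
      V ^ (2 * finrank ℂ (Submodule.span ℂ (Set.range y)) - Fintype.card ν + 2) ≤
        ((Fintype.card ((Fin d → Fin (k + 1)) × (Fin d → Fin (T + 1))) : ℝ) * T) ^ 2 := by
    refine le_trans ?_ (hcount.trans ?_)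
    · rw [hD, Nat.cast_mul, Nat.cast_mul]
      refine mul_le_mul_of_nonneg_right (mul_le_mul_of_nonneg_right
        (mul_le_mul_of_nonneg_right (by linarith) ?_) ?_) ?_ <;> positivity
    · rw [hcard]
      refine pow_le_pow_left₀ (by positivity) (mul_le_mul_of_nonneg_right (mul_le_mul
        (pow_le_pow_left₀ (by linarith) (by linarith) _)
        (pow_le_pow_left₀ (by linarith) (by linarith) _) (by positivity) (by positivity))
        (by linarith)) _
  obtain ⟨p, hp0, hp1, hp2⟩ := hAux ((Fin d → Fin (k + 1)) × (Fin d → Fin (T + 1)))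
    (fun al => LT.AuxPAux.mono s₀ k al.1) (fun al j => ((al.2 j : ℕ) : ℂ)) (d * k) D T V T
    (hT.trans hTD) hT' hP a1 a2 (by linarith) hT' (by linarith)
    (hcardle.trans (Real.exp_le_exp.2 hDV)) a3 a4
  have hw : (d * k + 1) ^ d ≤ (d + 1) ^ d * (D + 1) ^ a := by
    calc (d * k + 1) ^ d ≤ ((d + 1) * k) ^ d := Nat.pow_le_pow_left (by nlinarith) _
      _ = (d + 1) ^ d * k ^ d := mul_pow _ _ _
      _ ≤ (d + 1) ^ d * (D + 1) ^ a :=
        Nat.mul_le_mul_left _ (hka.trans (Nat.pow_le_pow_left (by omega) _))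
  have hbr := fun W hW => hBr W _ (fun al => LT.AuxPAux.mono s₀ k al.1)
    (fun al j => ((al.2 j : ℕ) : ℂ)) (fun al => (p al : ℂ)) (d * k) D hW (fun al => (hP al).1) hw
  have hNL : 0 ≤ (N : ℝ) * L := by positivity
  have hNL1 : (N : ℝ) ≤ N * L := le_mul_of_one_le_right hN0 (by linarith)
  have hL1 : L ≤ N * L := le_mul_of_one_le_left (by linarith) (by linarith)
  have key := hcore N _ (7 * (N * L)) V L (by linarith) (hbr _ (hadm η hG0 he0)).1
    (by positivity) (hbig (by linarith) (by linarith) (by linarith) hTN) (fun n hn => ?_)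
    (fun u hu => ?_) fun x hx hx' hO => hp0 ?_
  · refine key.trans ?_
    gcongr
    · linarith
    · linarith
  · have hn' : (n : ℝ) ≤ N := by exact_mod_cast hn
    have hCjL : Cj ≤ Real.exp L := by
      have := hbig (a := Cj) (b := 1) (by linarith) (by linarith) zero_le_one (by linarith)
      rwa [mul_one] at this
    refine form_mono (hJet _ (fun al => LT.AuxPAux.mono s₀ k al.1) (fun al j => al.2 j) p (d * k)
      D n T (Real.exp (3 * (N * L))) hT (fun al j => Nat.lt_succ_iff.1 (al.2 j).2) hP ?_) ?_ ?_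
    · refine (Finset.sum_le_card_nsmul _ _ _ fun a _ => hp1 a).trans ?_
      rw [Finset.card_univ, nsmul_eq_mul]
      refine (mul_le_mul_of_nonneg_right hcardle (Real.exp_pos _).le).trans ?_
      rw [← Real.exp_add, Real.exp_le_exp]
      linarith
    · refine (pow_le_exp (by linarith) hCjL (by linarith) le_rfl).trans (Real.exp_le_exp.2 ?_)
      rw [Nat.cast_add, Nat.cast_add, Nat.cast_add, Nat.cast_one]
      nlinarith
    · have e1 : Cj ^ (d * k + 1) ≤ Real.exp (2 * (N * L)) := by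
        refine (pow_le_exp (by linarith) hCjL (by linarith) le_rfl).trans (Real.exp_le_exp.2 ?_)
        rw [Nat.cast_add, Nat.cast_one]
        nlinarith
      have e2 : (Cj * T * (D + 1)) ^ D ≤ Real.exp (N * L) :=
        pow_le_exp (by positivity) (by
          rw [mul_assoc]
          exact hbig (by linarith) (by linarith) (by positivity) (by gcongr)) (by linarith) hDN
      have e3 : (Cj * (n + 1)) ^ n ≤ Real.exp (N * L) :=
        pow_le_exp (by positivity) (hbig (by linarith) (by linarith) (by positivity)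
          (by linarith)) (by linarith) hn
      calc _ ≤ Real.exp (3 * (N * L)) * Real.exp (2 * (N * L)) * Real.exp (N * L) *
            Real.exp (N * L) := by gcongr
        _ = _ := by
            simp only [← Real.exp_add]
            congr 1
            ring
  · rw [hj]
    refine hp2 _ ?_
    rw [norm_smul]
    exact mul_le_one₀ hc (norm_nonneg _) hu
  · have h6 := (hbr _ (hadm x hx fun r => (mul_eq_zero.1 ((hlin r x).symm.trans
      (hx' r))).resolve_left ha₀')).2 (ord_mono hO (by omega))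
    have h7 := hInd k T D (fun al => (p al : ℂ)) le_rfl h6
    funext al
    exact Int.cast_eq_zero.1 (congrFun h7 al)

end MainGAux

open MainGAux in
theorem mainG (h1 : AuxVS) (h2 : IndS) (h3 : JetS) (h4 : BrS) (h5 : CoreS) : MainGS := by
  intro d M A ν σ κ _ _ _ y cf η G e eq c F t hA hZ hy hi hd hdl hF hη hG hG0 he he0 hc hj hadm
  have r1 := two_rank hi
  have r2 : finrank ℂ (Submodule.span ℂ (Set.range y)) ≤ Fintype.card ν := finrank_range_le_card y
  have r3 : finrank ℂ (Submodule.span ℂ (Set.range y)) ≤ d := by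
    simpa using Submodule.finrank_le (Submodule.span ℂ (Set.range y))
  obtain ⟨C, Cz, hC, hstep⟩ := step h1 h2 h3 h4 h5 hA hZ hy hi hd (by omega) hF hη hG hG0 he he0
    hc hj hadm
  generalize finrank ℂ (Submodule.span ℂ (Set.range y)) = n at *
  generalize Fintype.card ν = l at *
  obtain ⟨a, ha⟩ : ∃ a, l = d + a := Nat.exists_eq_add_of_le hdl
  obtain ⟨b, hb⟩ : ∃ b, d = a + b := Nat.exists_eq_add_of_le (by omega)
  obtain ⟨z, hz⟩ : ∃ z, l = n + z := Nat.exists_eq_add_of_le r2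
  obtain ⟨w, hw⟩ : ∃ w, 2 * z + w = l + 2 ∧ 2 ≤ w := ⟨2 * n - l + 2, by omega, by omega⟩
  rw [show l - d = a by omega, show l - n = z by omega, show 2 * n - l + 2 = w by omega] at hstep
  rw [show 2 * d - l = b by omega, show 2 * n - l + 2 = w by omega]
  by_contra hlt
  rw [not_le] at hlt
  obtain ⟨c₁, hc₁⟩ : ∃ c₁, c₁ = (Cz + 1) * (d + 1) := ⟨_, rfl⟩
  obtain ⟨u, hu⟩ : ∃ u, u = 4 * d * w := ⟨_, rfl⟩
  have hd' : (1 : ℝ) ≤ d := by exact_mod_cast hd
  obtain ⟨X, hX⟩ : ∃ X : ℕ, C * 9 * (2 * u + 1) * (c₁ : ℝ) ^ (t + 1) + C * (c₁ + 1) +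
    d * (2 * u + 1) + C * (d + 1) + C * ((d : ℝ) + 1) ^ l * (d : ℝ) ^ (2 * z) + 2 < X :=
    exists_nat_gt _
  have p1 : 0 ≤ C * 9 * (2 * u + 1) * (c₁ : ℝ) ^ (t + 1) := by positivity
  have p2 : C ≤ C * (c₁ + 1) := le_mul_of_one_le_right (by linarith) (by
    have : (0 : ℝ) ≤ c₁ := Nat.cast_nonneg _
    linarith)
  have p3 : (0 : ℝ) ≤ d * (2 * u + 1) := by positivity
  have p4 : 0 ≤ C * ((d : ℝ) + 1) ^ l * (d : ℝ) ^ (2 * z) := by positivity
  have p5 : 0 ≤ C * ((d : ℝ) + 1) := by positivity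
  have hX1 : (1 : ℝ) ≤ X := by linarith
  have hX1' : 1 ≤ X := by exact_mod_cast hX1
  have hu1 : 1 ≤ u := by rw [hu]; exact Nat.mul_pos (by omega) (by omega)
  obtain ⟨T, hT⟩ : ∃ T, T = X ^ u := ⟨_, rfl⟩
  obtain ⟨k, hk⟩ : ∃ k, k = X ^ (4 * a * w) := ⟨_, rfl⟩
  have hT1 : 1 ≤ T := hT ▸ Nat.one_le_pow _ _ hX1'
  have hk1 : 1 ≤ k := hk ▸ Nat.one_le_pow _ _ hX1'
  have hkT : k ≤ T := by
    rw [hk, hT, hu]
    exact Nat.pow_le_pow_right hX1' (Nat.mul_le_mul_right _ (by omega))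
  have hT' : (T : ℝ) = (X : ℝ) ^ u := by rw [hT, Nat.cast_pow]
  have hk' : (k : ℝ) = (X : ℝ) ^ (4 * a * w) := by rw [hk, Nat.cast_pow]
  have hT1' : (1 : ℝ) ≤ T := by exact_mod_cast hT1
  have hk1' : (1 : ℝ) ≤ k := by exact_mod_cast hk1
  have hkT' : (k : ℝ) ≤ T := by exact_mod_cast hkT
  have hXT : (X : ℝ) ≤ T := by rw [hT']; exact le_self_pow₀ hX1 (by omega)
  have hN : (Cz + 1) * (d * T + 1) ≤ c₁ * T := by
    rw [hc₁, mul_assoc]
    gcongr
    nlinarith
  have hN' : (((Cz + 1) * (d * T + 1) : ℕ) : ℝ) ≤ c₁ * T := by exact_mod_cast hN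
  have hXX : (X : ℝ) * X ≤ (X : ℝ) ^ (u * t + 3) := by
    rw [← pow_two]
    exact pow_le_pow_right₀ hX1 (by omega)
  have hu0 : (0 : ℝ) ≤ u := Nat.cast_nonneg _
  have hu1' : (1 : ℝ) ≤ u := by exact_mod_cast hu1
  have key := hstep k T ((Cz + 1) * (d * T + 1)) (T * (X : ℝ) ^ (u * t + 3)) ((2 * u + 1) * X)
    hk1 hkT (by linarith) (by
      rw [hk, hT, ← pow_mul, ← pow_mul, hu]
      exact le_of_eq (by congr 1; ring))
    ((Nat.le_succ _).trans (Nat.le_mul_of_pos_left _ (Nat.succ_pos _)))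
    (Nat.mul_le_mul_right _ (Nat.le_succ _)) (by nlinarith only [hu0, hX, p1, p2, p3, p4, p5, hC, hX1, hu1']) ?_ ?_ ?_ ?_
  · have h6 : (T : ℝ) * (X : ℝ) ^ (u * t + 3) ≤
        C * 9 * (2 * u + 1) * (c₁ : ℝ) ^ (t + 1) * (T * (X : ℝ) ^ (u * t + 1)) := by
      refine key.trans ?_
      calc _ ≤ C * (9 * (c₁ * T * ((2 * u + 1) * X))) * ((c₁ : ℝ) * T) ^ t := by gcongr
        _ = _ := by rw [mul_pow, pow_succ (X : ℝ), pow_mul, ← hT']; ring
    have h7 : (0 : ℝ) < T * (X : ℝ) ^ (u * t + 1) := by positivity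
    have h8 : (T : ℝ) * (X : ℝ) ^ (u * t + 3) = X * X * (T * (X : ℝ) ^ (u * t + 1)) := by ring
    rw [h8] at h6
    have h9 := le_of_mul_le_mul_right h6 h7
    nlinarith
  · have q : (2 * u + 1 : ℝ) * X = ((2 * u + 1 : ℕ) : ℝ) * X := by push_cast; ring
    rw [q, Real.exp_nat_mul]
    calc _ ≤ C * T * ((c₁ + 1) * T) := by gcongr; linarith
      _ = C * (c₁ + 1) * (T * T) := by ring
      _ ≤ X * (T * T) := by gcongr; linarith
      _ = (X : ℝ) ^ (2 * u + 1) := by rw [hT']; ring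
      _ ≤ _ := by gcongr; linarith [Real.add_one_le_exp (X : ℝ)]
  · push_cast
    calc _ = (T : ℝ) * (d * (2 * u + 1) * X) := by ring
      _ ≤ (T : ℝ) * (X * X) := by gcongr; linarith
      _ ≤ _ := by gcongr
  · calc _ ≤ C * ((d + 1) * T) := by gcongr; nlinarith
      _ = (T : ℝ) * (C * (d + 1) * 1) := by ring
      _ ≤ (T : ℝ) * (X * X) := by gcongr; linarith
      _ ≤ _ := by gcongr
  · have e1 : 1 + (4 * a * w * l + u * (2 * z) + (u + (u * t + 3)) * w) ≤
        (4 * a * w * d + u * d + u) * 2 := by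
      have e2 : 4 * a * w * l + u * (2 * z) + u * w + 4 * (l * b) * w =
          (4 * a * w * d + u * d + u) * 2 := by
        have e3 : u * (2 * z) + u * w = u * (l + 2) := by rw [← hw.1]; ring
        rw [add_assoc (4 * a * w * l), e3, hu, ha, hb]
        ring
      have e4 : (u * t + 4) * w ≤ 4 * (l * b) * w := by
        refine Nat.mul_le_mul_right _ ?_
        have : u * t = 4 * (t * d * w) := by rw [hu]; ring
        omega
      have := hw.2
      nlinarith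
    calc _ ≤ C * (((d : ℝ) + 1) * k) ^ l * ((d : ℝ) * T) ^ (2 * z) *
          (T * (X : ℝ) ^ (u * t + 3)) ^ w := by gcongr; nlinarith
      _ = C * ((d : ℝ) + 1) ^ l * (d : ℝ) ^ (2 * z) *
          (X : ℝ) ^ (4 * a * w * l + u * (2 * z) + (u + (u * t + 3)) * w) := by
            rw [mul_pow, mul_pow, hT', hk', ← pow_add, ← pow_mul, ← pow_mul, ← pow_mul, pow_add,
              pow_add]
            ring
      _ ≤ X * (X : ℝ) ^ (4 * a * w * l + u * (2 * z) + (u + (u * t + 3)) * w) := by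
            gcongr; linarith
      _ = (X : ℝ) ^ (1 + (4 * a * w * l + u * (2 * z) + (u + (u * t + 3)) * w)) := by
            rw [pow_add _ 1, pow_one]
      _ ≤ (X : ℝ) ^ ((4 * a * w * d + u * d + u) * 2) := pow_le_pow_right₀ hX1 e1
      _ = _ := by rw [hT', hk', ← pow_mul, ← pow_mul, ← pow_add, ← pow_add, ← pow_mul]

end Pool.Agent.Lib.MP_caab05_ag.NC
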