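import Mathlib
import Pool.Agent.Lib.MP_caab05_ag.NC.Stmt

/-! Kernels of homomorphisms and complete reducibility. -/

namespace Pool.Agent.Lib.MP_caab05_ag.NC

open Complex Module
open Pool.Agent.Lib.MP_caab05_ag.LT (E)
open Pool.Agent.Lib.MP_caab05_ag.ZE (VX)

namespace PoinAux

variable {d M : ℕ}

theorem rat_mem {ι V : Type} [Fintype ι] [AddCommGroup V] [Module ℝ V] (b : ι → V) (r : ι → ℚ) :
    ∃ n : ℕ, n ≠ 0 ∧ (n : ℝ) • ∑ j, (r j : ℝ) • b j ∈ Submodule.span ℤ (Set.range b) := by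
  classical
  refine ⟨∏ j, (r j).den, Finset.prod_ne_zero_iff.2 fun j _ => (r j).den_nz, ?_⟩
  rw [Finset.smul_sum]
  refine Submodule.sum_mem _ fun j _ => ?_
  obtain ⟨c, hc⟩ : (r j).den ∣ ∏ j, (r j).den := Finset.dvd_prod_of_mem _ (Finset.mem_univ j)
  have e : ((∏ j, (r j).den : ℕ) : ℝ) * (r j : ℝ) = ((c * (r j).num : ℤ) : ℝ) := by
    have h : ((r j).den : ℝ) * (r j : ℝ) = (r j).num := by exact_mod_cast Rat.den_mul_eq_num (r j)
    rw [hc]
    push_cast
    rw [← h]
    ring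
  rw [smul_smul, e, Int.cast_smul_eq_zsmul]
  exact Submodule.smul_mem _ _ (Submodule.subset_span ⟨j, rfl⟩)

/-- the real part of the pairing -/
noncomputable def bb (A : VX d M) : E d →ₗ[ℝ] E d →ₗ[ℝ] ℝ :=
  LinearMap.mk₂ ℝ (fun x y => (A.H x ⬝ᵥ y).re) (fun _ _ _ => by simp [add_dotProduct])
    (fun c x y => by simp [smul_dotProduct]) (fun _ _ _ => by simp [dotProduct_add])
    (fun c x y => by simp [dotProduct_smul])

theorem bb_apply (A : VX d M) (x y : E d) : bb A x y = (A.H x ⬝ᵥ y).re := rfl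

theorem per (A : VX d M) {l l' : E d} (h : l ∈ A.Λ) (h' : l' ∈ A.Λ) :
    ∃ n : ℤ, A.H l ⬝ᵥ l' = A.H l' ⬝ᵥ l + n * (2 * Real.pi * I) := by
  have h1 : A.θ (0 + l' + l) = A.θ (0 + l + l') := by rw [add_right_comm]
  rw [A.law l h, A.law l' h', A.law l' h', A.law l h, smul_smul, smul_smul] at h1
  have h2 := smul_left_injective ℂ (A.ne_zero 0) h1
  simp only [← Complex.exp_add, zero_add, dotProduct_zero] at h2
  obtain ⟨n, hn⟩ := Complex.exp_eq_exp_iff_exists_int.1 h2
  exact ⟨n, by linear_combination hn⟩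

theorem symm (A : VX d M) (x y : E d) : bb A x y = bb A y x := by
  obtain ⟨ι, _, b, hb⟩ := LT.exists_basis A.toAbVar
  have hm : ∀ j, b j ∈ A.Λ := fun j => hb ▸ Submodule.subset_span ⟨j, rfl⟩
  have s0 : bb A = (bb A).flip := LinearMap.ext_basis b b fun j k => by
    obtain ⟨n, hn⟩ := per A (hm j) (hm k)
    rw [LinearMap.flip_apply, bb_apply, bb_apply, hn]
    simp
  exact congrArg (fun B => B x y) s0

/-- multiplication by `I` -/
noncomputable def J (d : ℕ) : E d →ₗ[ℝ] E d := (I • LinearMap.id : E d →ₗ[ℂ] E d).restrictScalars ℝ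

/-- the Riemann form -/
noncomputable def ps (A : VX d M) : E d →ₗ[ℝ] E d →ₗ[ℝ] ℝ :=
  (2 * Real.pi)⁻¹ • ((bb A).comp (J d) - (bb A).compl₂ (J d))

theorem ps_apply (A : VX d M) (x y : E d) :
    ps A x y = (2 * Real.pi)⁻¹ * (bb A (I • x) y - bb A x (I • y)) := rfl

theorem II (x : E d) : I • I • x = -x := by rw [smul_smul, I_mul_I, neg_smul, one_smul]

theorem ps_I (A : VX d M) (x y : E d) : ps A x (I • y) = -ps A (I • x) y := by
  rw [ps_apply, ps_apply, II, II]
  simp only [map_neg, LinearMap.neg_apply]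
  ring

theorem ps_int (A : VX d M) {l l' : E d} (h : l ∈ A.Λ) (h' : l' ∈ A.Λ) :
    ∃ n : ℤ, ps A l l' = n := by
  obtain ⟨n, hn⟩ := per A h h'
  refine ⟨n, ?_⟩
  rw [ps_apply, symm A (I • l), bb_apply, bb_apply, dotProduct_smul, dotProduct_smul, hn]
  have := Real.pi_ne_zero
  simp
  field_simp

theorem uniq (h : PosS) (A : VX d M) (U : Submodule ℂ (E d)) {v : E d} (hv : v ∈ U)
    (h0 : ∀ u ∈ U, ps A u v = 0) : v = 0 := by
  have h1 := h0 _ (U.smul_mem I hv)
  rw [ps_apply, II, map_neg, LinearMap.neg_apply] at h1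
  have h2 := (mul_eq_zero.1 h1).resolve_left (by positivity)
  refine h d M A v ?_
  rw [add_re, ← bb_apply, ← bb_apply]
  linarith

end PoinAux

open PoinAux

theorem kerS : KerS := by
  intro d M d' M' A B φ hφ
  obtain ⟨ι, _, b, hb⟩ := LT.exists_basis A.toAbVar
  obtain ⟨κ, _, b', hb'⟩ := LT.exists_basis B.toAbVar
  have hm : ∀ j, b j ∈ A.Λ := fun j => hb ▸ Submodule.subset_span ⟨j, rfl⟩
  refine le_antisymm (Submodule.span_le.2 fun x hx => hx.1) fun x hx => ?_
  have hx0 : φ x = 0 := hx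
  have hM : ∀ j k, ∃ n : ℤ, (n : ℝ) = b'.repr (φ (b j)) k := fun j k =>
    (b'.mem_span_iff_repr_mem ℤ _).1 (hb' ▸ hφ _ (hm j)) k
  choose m hm' using hM
  have lin : ∀ (c : ι → ℝ) k, b'.repr (φ (∑ j, c j • b j)) k = ∑ j, (m j k : ℝ) * c j := by
    intro c k
    have e : ∀ j, φ (c j • b j) = c j • φ (b j) := fun j => (φ.restrictScalars ℝ).map_smul _ _
    simp only [map_sum, e, map_smul, Finsupp.coe_finsetSum, Finset.sum_apply, Finsupp.coe_smul,
      Pi.smul_apply, smul_eq_mul, hm', mul_comm]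
  let W : Submodule ℚ ℝ := Submodule.span ℚ (Set.range fun j => b.repr x j)
  have : Module.Finite ℚ W := Module.Finite.span_of_finite ℚ (Set.finite_range _)
  let e := Module.finBasis ℚ W
  let w : ι → W := fun j => ⟨b.repr x j, Submodule.subset_span ⟨j, rfl⟩⟩
  have hw : ∀ k, ∑ j, (m j k : ℚ) • w j = 0 := fun k => by
    have h1 := lin (fun j => b.repr x j) k
    rw [b.sum_repr, hx0, map_zero] at h1
    refine Subtype.ext ?_
    simp only [Submodule.coe_sum, Submodule.coe_smul, w, Rat.smul_def, Rat.cast_intCast]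
    exact h1.symm
  have hk : ∀ s, φ (∑ j, (e.repr (w j) s : ℝ) • b j) = 0 := fun s => by
    refine b'.repr.injective (Finsupp.ext fun k => ?_)
    have h1 := congrArg (fun t => ((e.repr t s : ℚ) : ℝ)) (hw k)
    simp only [map_sum, map_smul, Finsupp.coe_finsetSum, Finset.sum_apply, Finsupp.coe_smul,
      Pi.smul_apply, smul_eq_mul, map_zero, Finsupp.coe_zero, Pi.zero_apply] at h1
    push_cast at h1
    rw [lin, map_zero]
    exact h1
  have ex : x = ∑ s, (e s : ℝ) • ∑ j, (e.repr (w j) s : ℝ) • b j := by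
    simp only [Finset.smul_sum, smul_smul]
    rw [Finset.sum_comm]
    conv_lhs => rw [← b.sum_repr x]
    refine Finset.sum_congr rfl fun j _ => ?_
    rw [← Finset.sum_smul]
    congr 1
    have h1 := congrArg (fun t : W => (t : ℝ)) (e.sum_repr (w j))
    simp only [Submodule.coe_sum, Submodule.coe_smul, Rat.smul_def] at h1
    refine h1.symm.trans (Finset.sum_congr rfl fun s _ => mul_comm _ _)
  rw [ex]
  refine Submodule.sum_mem _ fun s _ => Submodule.smul_mem _ _ ?_
  obtain ⟨n, n0, hn⟩ := rat_mem b fun j => e.repr (w j) s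
  have n1 : (n : ℝ) ≠ 0 := Nat.cast_ne_zero.2 n0
  rw [← Submodule.smul_mem_iff _ n1]
  refine Submodule.subset_span ⟨?_, hb ▸ hn⟩
  have h2 := (φ.restrictScalars ℝ).map_smul (n : ℝ) (∑ j, (e.repr (w j) s : ℝ) • b j)
  exact h2.trans (by rw [LinearMap.restrictScalars_apply, hk, smul_zero])

theorem poinS (h : PosS) : PoinS := by
  classical
  intro d M A U hU
  obtain ⟨s, hs, hsp, hli⟩ := exists_linearIndependent ℝ ((U : Set (E d)) ∩ (A.Λ : Set (E d)))
  have : Fintype s := hli.setFinite.fintype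
  have sp : Submodule.span ℝ s = U.restrictScalars ℝ := hsp.trans hU
  choose G hG using fun j k : s => ps_int A (hs j.2).2 (hs k.2).2
  let Gz : Matrix s s ℤ := Matrix.of G
  let Gr : Matrix s s ℝ := (Int.castRingHom ℝ).mapMatrix Gz
  have mem : ∀ c : s → ℝ, ∑ k, c k • (k : E d) ∈ U := fun c =>
    U.sum_mem fun k _ => (U.restrictScalars ℝ).smul_mem _ (hs k.2).1
  have gr : ∀ (c : s → ℝ) (j : s), ps A j (∑ k, c k • (k : E d)) = Gr.mulVec c j := by
    intro c j
    simp only [map_sum, map_smul, smul_eq_mul, hG, Matrix.mulVec, dotProduct]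
    exact Finset.sum_congr rfl fun k _ => mul_comm _ _
  have ext : ∀ v : E d, (∀ j : s, ps A j v = 0) → ∀ u ∈ U, ps A u v = 0 := by
    intro v hv u hu
    have h1 : Submodule.span ℝ s ≤ LinearMap.ker ((ps A).flip v) :=
      Submodule.span_le.2 fun j hj => hv ⟨j, hj⟩
    exact h1 (sp ▸ hu)
  have dr : Gr.det = (Gz.det : ℝ) := ((Int.castRingHom ℝ).map_det Gz).symm
  have d0 : Gz.det ≠ 0 := by
    intro h0
    obtain ⟨c, c0, hc⟩ := Matrix.exists_mulVec_eq_zero_iff.2 (dr.trans (by simp [h0]))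
    have h1 := uniq h A U (mem c) (ext _ fun j => by rw [gr, hc]; rfl)
    exact c0 (funext (Fintype.linearIndependent_iff.1 hli c h1))
  let co : E d → s → ℝ := fun z => Gr.det • Gr.adjugate.mulVec fun j => ps A j z
  let f : E d → E d := fun z => ∑ k, co z k • (k : E d)
  have N0 : (((Gz.det.natAbs ^ 2 : ℕ) : ℝ)) = Gr.det * Gr.det := by
    rw [dr, Nat.cast_pow, Nat.cast_natAbs, Int.cast_abs, sq_abs, sq]
  have ch : ∀ z, ∀ u ∈ U, ps A u (f z) = (Gr.det * Gr.det) * ps A u z := by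
    intro z u hu
    have h1 := ext (f z - (Gr.det * Gr.det) • z) (fun j => by
      rw [map_sub, map_smul, gr, Matrix.mulVec_smul, Matrix.mulVec_mulVec, Matrix.mul_adjugate,
        Matrix.smul_mulVec, Matrix.one_mulVec]
      simp only [Pi.smul_apply, smul_eq_mul]
      ring) u hu
    rw [map_sub, map_smul, smul_eq_mul] at h1
    linarith
  have un : ∀ z, ∀ v ∈ U, (∀ u ∈ U, ps A u v = (Gr.det * Gr.det) * ps A u z) → f z = v := by
    intro z v hv hz
    refine sub_eq_zero.1 (uniq h A U (U.sub_mem (mem _) hv) fun u hu => ?_)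
    rw [map_sub, ch z u hu, hz u hu, sub_self]
  have dec : ∀ (c : ℂ) (z : E d), c • z = c.re • z + c.im • (I • z) := fun c z => by
    ext i
    simp only [Pi.smul_apply, Pi.add_apply, smul_eq_mul, Complex.real_smul]
    conv_lhs => rw [← Complex.re_add_im c]
    ring
  let φ : E d →ₗ[ℂ] E d :=
    { toFun := f
      map_add' := fun x y => un _ _ (U.add_mem (mem _) (mem _)) fun u hu => by
        rw [map_add, map_add, ch x u hu, ch y u hu, mul_add]
      map_smul' := fun c x => un _ _ (U.smul_mem _ (mem _)) fun u hu => by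
        rw [RingHom.id_apply, dec c x, dec c (f x)]
        simp only [map_add, map_smul, smul_eq_mul, ps_I, ch x u hu, ch x _ (U.smul_mem I hu)]
        ring }
  refine ⟨Gz.det.natAbs ^ 2, φ, pow_pos (Int.natAbs_pos.2 d0) _, fun l hl => ?_, fun v hv => ?_,
    fun z => mem _⟩
  · choose n hn using fun j : s => ps_int A (hs j.2).2 hl
    refine A.Λ.sum_mem fun k _ => ?_
    have e : co l k = ((Gz.det * Gz.adjugate.mulVec n k : ℤ) : ℝ) := by
      simp only [co, Pi.smul_apply, smul_eq_mul, dr, hn, Gr, ← RingHom.map_adjugate, Matrix.mulVec,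
        dotProduct]
      push_cast
      rfl
    rw [e, Int.cast_smul_eq_zsmul]
    exact A.Λ.smul_mem _ (hs k.2).2
  · refine un _ _ (U.smul_mem _ hv) fun u _ => ?_
    rw [Nat.cast_smul_eq_nsmul, ← Nat.cast_smul_eq_nsmul ℝ, map_smul, N0, smul_eq_mul]

end Pool.Agent.Lib.MP_caab05_ag.NC
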