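import Mathlib
import Pool.Agent.Lib.MP_caab05_ag.NC.Stmt
import Pool.Agent.Lib.MP_caab05_ag.ZF.Prod

/-! Products of simple abelian varieties. -/

namespace Pool.Agent.Lib.MP_caab05_ag.NC

theorem prodS : ProdS := fun K _ g M A hs ha =>
  have ⟨M', B, h⟩ := ZF.prodS K g M A hs ha (Fintype.equivFin _)
  ⟨_, M', B, _, h⟩

end Pool.Agent.Lib.MP_caab05_ag.NC
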