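import Mathlib
import Pool.Agent.Lib.MP_caab05_ag.NC.Stmt

/-! Linear algebra on a power, and the dimension count. -/

namespace Pool.Agent.Lib.MP_caab05_ag.NC

open Module
open Pool.Agent.Lib.MP_caab05_ag.LT (E sl)
open Pool.Agent.Lib.MP_caab05_ag.ZE (VX)
open Pool.Agent.Lib.MP_caab05_ag.WZ (EE)

namespace YpAux

theorem rank_null {K V W : Type} [Field K] [AddCommGroup V] [Module K V] [AddCommGroup W]
    [Module K W] [FiniteDimensional K V] (f : V →ₗ[K] W) (S : Submodule K V) :
    finrank K (S.map f) + finrank K ↥(S ⊓ LinearMap.ker f) = finrank K S := by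
  have h := LinearMap.finrank_range_add_finrank_ker (f.domRestrict S)
  rw [LinearMap.range_domRestrict, LinearMap.ker_domRestrict,
    ← Submodule.finrank_map_subtype_eq, Submodule.map_comap_subtype] at h
  exact h

variable {d M d' M' p : ℕ}

theorem rat_map {A : VX d M} {B : VX d' M'} (φ : E d →ₗ[ℂ] E d') (hφ : ∀ l ∈ A.Λ, φ l ∈ B.Λ)
    {U : Submodule ℂ (E d)} (hU : ZE.Rat A U) : ZE.Rat B (U.map φ) := by
  refine le_antisymm (Submodule.span_le.2 fun x hx => hx.1) ?_
  rintro _ ⟨x, hx, rfl⟩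
  have hx' : x ∈ Submodule.span ℝ ((U : Set (E d)) ∩ (A.Λ : Set (E d))) := by
    rw [hU]; exact hx
  have h1 := Submodule.mem_map_of_mem (f := φ.restrictScalars ℝ) hx'
  rw [Submodule.map_span] at h1
  refine Submodule.span_mono ?_ h1
  rintro _ ⟨z, hz, rfl⟩
  exact ⟨⟨z, hz.1, rfl⟩, hφ z hz.2⟩

theorem rat_inf (h : KerS) (h2 : PoinS) {A : VX d M} {B : VX d' M'} (π : E d' →ₗ[ℂ] E d)
    (hπ : ∀ l ∈ B.Λ, π l ∈ A.Λ) {U : Submodule ℂ (E d')} (hU : ZE.Rat B U) :
    ZE.Rat B (U ⊓ LinearMap.ker π) := by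
  obtain ⟨N, φ, hN, h3, h4, h5⟩ := h2 _ _ B U hU
  have hN' : (N : ℂ) ≠ 0 := by exact_mod_cast hN.ne'
  have h6 := rat_map φ h3 (h _ _ _ _ B A (π ∘ₗ φ) fun l hl => hπ _ (h3 l hl))
  have h7 : (LinearMap.ker (π ∘ₗ φ)).map φ = U ⊓ LinearMap.ker π := by
    apply le_antisymm
    · rintro _ ⟨x, hx, rfl⟩
      exact ⟨h5 x, hx⟩
    · rintro u ⟨hu, hu2⟩
      have e : φ ((N : ℂ)⁻¹ • u) = u := by
        rw [map_smul, h4 u hu, smul_smul, inv_mul_cancel₀ hN', one_smul]
      refine ⟨(N : ℂ)⁻¹ • u, ?_, e⟩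
      change π (φ _) = 0
      rw [e]; exact hu2
  rwa [h7] at h6

/-- the projection to a block -/
def slL (δ : Fin p × Fin d ≃ Fin d') (j : Fin p) : E d' →ₗ[ℂ] E d where
  toFun z := sl δ z j
  map_add' _ _ := rfl
  map_smul' _ _ := rfl

/-- the inclusion of a block -/
def emb (δ : Fin p × Fin d ≃ Fin d') (j : Fin p) : E d →ₗ[ℂ] E d' where
  toFun z := fun k => if (δ.symm k).1 = j then z (δ.symm k).2 else 0
  map_add' x y := by
    ext k
    simp only [Pi.add_apply]
    split_ifs <;> simp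
  map_smul' c x := by
    ext k
    simp only [Pi.smul_apply, RingHom.id_apply]
    split_ifs <;> simp

variable (δ : Fin p × Fin d ≃ Fin d')

theorem sl_emb (i j : Fin p) (z : E d) : slL δ i (emb δ j z) = if i = j then z else 0 := by
  ext k
  by_cases h : i = j <;> simp [slL, emb, sl, h]

theorem sum_emb (z : E d') : ∑ j, emb δ j (slL δ j z) = z := by
  ext k
  simp [Finset.sum_apply, slL, emb, sl]

theorem ypow_eq {ν : Type} (y : ν → E d) (i : Fin p × ν) : ypow δ y i = emb δ i.1 (y i.2) := rfl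

theorem sl_mem (K : Type) [Field K] [Algebra K ℂ] {ν : Type} (y : ν → E d) {z : E d'}
    (hz : z ∈ Submodule.span K (Set.range (ypow δ y))) (j : Fin p) :
    slL δ j z ∈ Submodule.span K (Set.range y) := by
  have h1 := Submodule.mem_map_of_mem (f := (slL δ j).restrictScalars K) hz
  rw [Submodule.map_span] at h1
  refine Submodule.span_le.2 ?_ h1
  rintro _ ⟨_, ⟨i, rfl⟩, rfl⟩
  change slL δ j (ypow δ y i) ∈ _
  rw [ypow_eq, sl_emb]
  split_ifs
  · exact Submodule.subset_span ⟨_, rfl⟩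
  · exact Submodule.zero_mem _

theorem rank_pow {ν : Type} (y : ν → E d) :
    finrank ℂ (Submodule.span ℂ (Set.range (ypow δ y))) =
      p * finrank ℂ (Submodule.span ℂ (Set.range y)) := by
  let f : Submodule.span ℂ (Set.range (ypow δ y)) →ₗ[ℂ]
      (Fin p → Submodule.span ℂ (Set.range y)) :=
    LinearMap.pi fun j => ((slL δ j).domRestrict _).codRestrict _ fun z => sl_mem δ ℂ y z.2 j
  have hf : Function.Bijective f := by
    constructor
    · intro z w h
      apply Subtype.ext
      rw [← sum_emb δ z.1, ← sum_emb δ w.1]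
      refine Finset.sum_congr rfl fun j _ => ?_
      exact congrArg (emb δ j) (congrArg Subtype.val (congrFun h j))
    · intro v
      refine ⟨⟨∑ j, emb δ j (v j), Submodule.sum_mem _ fun j _ => ?_⟩, ?_⟩
      · have h1 := Submodule.mem_map_of_mem (f := emb δ j) (v j).2
        rw [Submodule.map_span] at h1
        refine Submodule.span_mono ?_ h1
        rintro _ ⟨_, ⟨i, rfl⟩, rfl⟩
        exact ⟨(j, i), rfl⟩
      · funext i
        apply Subtype.ext
        change slL δ i (∑ j, emb δ j (v j)) = v i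
        simp [map_sum, sl_emb]
  rw [(LinearEquiv.ofBijective f hf).finrank_eq, Module.finrank_pi_fintype]
  simp

theorem span_le_rank {V W : Type} [AddCommGroup V] [Module ℝ V] [FiniteDimensional ℝ V]
    [AddCommGroup W] [Module ℂ W] (ξ : V →ₗ[ℝ] W) (S : Submodule ℝ V) :
    finrank ℂ (Submodule.span ℂ (ξ '' (S : Set V))) ≤ finrank ℝ S := by
  let b := Module.finBasis ℝ S
  have h1 : Submodule.span ℂ (ξ '' (S : Set V)) = Submodule.span ℂ (Set.range fun i => ξ (b i)) := by
    apply le_antisymm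
    · refine Submodule.span_le.2 ?_
      rintro _ ⟨x, hx, rfl⟩
      have h2 := congrArg (fun s : S => ξ s) (b.sum_repr ⟨x, hx⟩)
      simp only [Submodule.coe_sum, Submodule.coe_smul, map_sum, map_smul] at h2
      rw [← h2]
      exact Submodule.sum_mem _ fun i _ =>
        Submodule.smul_of_tower_mem _ _ (Submodule.subset_span ⟨i, rfl⟩)
    · refine Submodule.span_mono ?_
      rintro _ ⟨i, rfl⟩
      exact ⟨b i, (b i).2, rfl⟩
  rw [h1]
  exact (finrank_range_le_card (R := ℂ) fun i => ξ (b i)).trans (by simp)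

theorem rank_le_span (ξ : E d →ₗ[ℝ] EE (Fin d)) (hξ : Submodule.span ℂ (Set.range ξ) = ⊤)
    (S : Submodule ℝ (E d)) : finrank ℝ S ≤ finrank ℂ (Submodule.span ℂ (ξ '' (S : Set (E d)))) := by
  obtain ⟨T, hT⟩ := S.exists_isCompl
  have h1 := Submodule.finrank_add_eq_of_isCompl hT
  have h2 : finrank ℝ (E d) = 2 * d := by
    rw [finrank_real_of_complex]; simp
  have h3 : Submodule.span ℂ (ξ '' (S : Set (E d))) ⊔ Submodule.span ℂ (ξ '' (T : Set (E d))) =
      ⊤ := by
    rw [eq_top_iff, ← hξ]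
    refine Submodule.span_le.2 ?_
    rintro _ ⟨x, rfl⟩
    obtain ⟨s, hs, t, ht, rfl⟩ := Submodule.mem_sup.1
      (show x ∈ S ⊔ T by rw [hT.sup_eq_top]; trivial)
    rw [map_add]
    exact Submodule.add_mem_sup (Submodule.subset_span ⟨s, hs, rfl⟩)
      (Submodule.subset_span ⟨t, ht, rfl⟩)
  have h4 := Submodule.finrank_add_le_finrank_add_finrank
    (Submodule.span ℂ (ξ '' (S : Set (E d)))) (Submodule.span ℂ (ξ '' (T : Set (E d))))
  rw [h3, finrank_top] at h4
  have h5 : finrank ℂ (EE (Fin d)) = 2 * d := by simp [two_mul]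
  have h6 := span_le_rank ξ T
  omega

end YpAux

open YpAux

theorem ypS (h : KerS) (h2 : PoinS) : YpS := by
  intro d M d' M' p A B δ ν _ y hP hy hli hs
  have hemb : ∀ j, ∀ l ∈ A.Λ, emb δ j l ∈ B.Λ := by
    intro j l hl
    refine (hP.lat _).2 fun i => ?_
    change slL δ i (emb δ j l) ∈ _
    rw [sl_emb]
    split_ifs
    · exact hl
    · exact A.Λ.zero_mem
  have hsl : ∀ j, ∀ l ∈ B.Λ, slL δ j l ∈ A.Λ := fun j l hl => (hP.lat l).1 hl j
  refine ⟨fun i => hemb _ _ (hy _), ?_, rank_pow δ y, ?_, ?_⟩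
  · rw [Fintype.linearIndependent_iff] at hli ⊢
    rintro g hg ⟨j, i⟩
    have h1 := congrArg ((slL δ j).restrictScalars ℝ) hg
    rw [map_sum, map_zero, Fintype.sum_prod_type] at h1
    simp only [map_smul, LinearMap.restrictScalars_apply, ypow_eq, sl_emb, smul_ite, smul_zero,
      Finset.sum_ite_irrel, Finset.sum_const_zero, Finset.sum_ite_eq, Finset.mem_univ,
      if_true] at h1
    exact hli (fun i => g (j, i)) h1 i
  · have key : ∀ s : Finset (Fin p), ∀ U, ZE.Rat B U → (∀ z ∈ U, ∀ j ∉ s, slL δ j z = 0) →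
        d * dimIn (ypow δ y) U ≤ Fintype.card ν * finrank ℂ U := by
      intro s
      induction s using Finset.induction_on with
      | empty =>
        intro U _ hU
        have h0 : U.restrictScalars ℝ ⊓ Submodule.span ℝ (Set.range (ypow δ y)) = ⊥ := by
          rw [eq_bot_iff]
          intro z hz
          rw [Submodule.mem_bot, ← sum_emb δ z]
          exact Finset.sum_eq_zero fun j _ => by rw [hU z hz.1 j (by simp), map_zero]
        rw [dimIn, h0, finrank_bot]
        simp
      | insert j s _ ih =>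
        intro U hU hz
        have h3 := ih _ (rat_inf h h2 (slL δ j) (hsl j) hU) fun z hz' i hi => by
          by_cases hij : i = j
          · rw [hij]; exact hz'.2
          · exact hz z hz'.1 i (by simp [hij, hi])
        have h4 := hs _ (rat_map (slL δ j) (hsl j) hU)
        have h5 := rank_null (slL δ j) U
        have h6 := rank_null ((slL δ j).restrictScalars ℝ)
          (U.restrictScalars ℝ ⊓ Submodule.span ℝ (Set.range (ypow δ y)))
        have h7 : finrank ℝ ((U.restrictScalars ℝ ⊓ Submodule.span ℝ (Set.range (ypow δ y))).map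
            ((slL δ j).restrictScalars ℝ)) ≤ dimIn y (U.map (slL δ j)) := by
          refine Submodule.finrank_mono ?_
          rintro _ ⟨z, hz', rfl⟩
          exact ⟨⟨z, hz'.1, rfl⟩, sl_mem δ ℝ y hz'.2 j⟩
        have h8 : finrank ℝ ↥((U.restrictScalars ℝ ⊓ Submodule.span ℝ (Set.range (ypow δ y))) ⊓
            LinearMap.ker ((slL δ j).restrictScalars ℝ)) ≤
            dimIn (ypow δ y) (U ⊓ LinearMap.ker (slL δ j)) :=
          Submodule.finrank_mono fun z hz' => ⟨⟨hz'.1.1, hz'.2⟩, hz'.1.2⟩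
        have h9 : dimIn (ypow δ y) U ≤
            dimIn y (U.map (slL δ j)) + dimIn (ypow δ y) (U ⊓ LinearMap.ker (slL δ j)) := by
          rw [dimIn, ← h6]; omega
        rw [← h5, mul_add]
        exact (Nat.mul_le_mul_left d h9).trans (by rw [mul_add]; omega)
    exact fun U hU => key Finset.univ U hU fun z _ j hj => absurd (Finset.mem_univ j) hj
  · intro U hU hne
    obtain ⟨N, φ, hN, h3, h4, h5⟩ := h2 _ _ B U hU
    have hN' : (N : ℂ) ≠ 0 := by exact_mod_cast hN.ne'
    have h6 : ∃ j, U.comap (emb δ j) ≠ ⊤ := by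
      by_contra hc
      push Not at hc
      refine hne (eq_top_iff.2 fun z _ => ?_)
      rw [← sum_emb δ z]
      refine U.sum_mem fun j _ => ?_
      exact (show slL δ j z ∈ U.comap (emb δ j) by rw [hc j]; trivial)
    obtain ⟨j, hj⟩ := h6
    refine ⟨j, U.comap (emb δ j), ?_, hj, fun z => Iff.rfl⟩
    have h7 : U.comap (emb δ j) = LinearMap.ker ((φ - (N : ℂ) • LinearMap.id) ∘ₗ emb δ j) := by
      ext z
      simp only [Submodule.mem_comap, LinearMap.mem_ker, LinearMap.comp_apply, LinearMap.sub_apply,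
        LinearMap.smul_apply, LinearMap.id_apply, sub_eq_zero]
      refine ⟨h4 _, fun e => (U.smul_mem_iff hN').1 (e ▸ h5 _)⟩
    rw [h7]
    refine h _ _ _ _ A B _ fun l hl => ?_
    simp only [LinearMap.comp_apply, LinearMap.sub_apply, LinearMap.smul_apply, LinearMap.id_apply]
    rw [Nat.cast_smul_eq_nsmul]
    exact B.Λ.sub_mem (h3 _ (hemb j l hl)) (nsmul_mem (hemb j l hl) N)

theorem YpAux.dim : DimS := by
  intro d M A ν _ y ξ _ hli hξ U
  have h1 := rank_le_span ξ hξ (U.restrictScalars ℝ ⊔ Submodule.span ℝ (Set.range y))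
  have h2 := Submodule.finrank_sup_add_finrank_inf_eq (U.restrictScalars ℝ)
    (Submodule.span ℝ (Set.range y))
  have h3 : finrank ℝ (Submodule.span ℝ (Set.range y)) = Fintype.card ν :=
    finrank_span_eq_card hli
  have h4 : finrank ℝ (U.restrictScalars ℝ) = 2 * finrank ℂ U := finrank_real_of_complex U
  have h5 : finrank ℂ (Submodule.span ℂ (ξ '' ((U.restrictScalars ℝ ⊔
      Submodule.span ℝ (Set.range y) : Submodule ℝ (E d)) : Set (E d)))) ≤
      finrank ℂ ↥(Submodule.span ℂ (Set.range fun i => ξ (y i)) ⊔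
        Submodule.span ℂ (ξ '' (U : Set (E d)))) := by
    refine Submodule.finrank_mono (Submodule.span_le.2 ?_)
    rintro _ ⟨x, hx, rfl⟩
    obtain ⟨u, hu, t, ht, rfl⟩ := Submodule.mem_sup.1 hx
    rw [map_add]
    refine Submodule.add_mem _ (Submodule.mem_sup_right (Submodule.subset_span ⟨u, hu, rfl⟩))
      (Submodule.mem_sup_left ?_)
    obtain ⟨c, rfl⟩ := (Submodule.mem_span_range_iff_exists_fun ℝ).1 ht
    rw [map_sum]
    refine Submodule.sum_mem _ fun i _ => ?_
    rw [map_smul]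
    exact Submodule.smul_of_tower_mem _ _ (Submodule.subset_span ⟨i, rfl⟩)
  rw [dimIn]
  omega

end Pool.Agent.Lib.MP_caab05_ag.NC
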