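import Mathlib
import Pool.Agent.Lib.MP_caab05_ag.NC.MainG
import Pool.Agent.Lib.MP_caab05_ag.NC.AuxV
import Pool.Agent.Lib.MP_caab05_ag.NC.Ind
import Pool.Agent.Lib.MP_caab05_ag.NC.Jet
import Pool.Agent.Lib.MP_caab05_ag.NC.Br
import Pool.Agent.Lib.MP_caab05_ag.NC.Pos
import Pool.Agent.Lib.MP_caab05_ag.NC.Poin
import Pool.Agent.Lib.MP_caab05_ag.NC.End
import Pool.Agent.Lib.MP_caab05_ag.NC.Alg
import Pool.Agent.Lib.MP_caab05_ag.NC.Yp
import Pool.Agent.Lib.MP_caab05_ag.NC.Two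
import Pool.Agent.Lib.MP_caab05_ag.NC.Prod
import Pool.Agent.Lib.MP_caab05_ag.NC.Fin
import Pool.Agent.Lib.MP_caab05_ag.NC.Gen
import Pool.Agent.Lib.MP_caab05_ag.NC.Fin2
import Pool.Agent.Lib.MP_caab05_ag.NC.Gen1
import Pool.Agent.Lib.MP_caab05_ag.LT.ElimAff
import Pool.Agent.Lib.MP_caab05_ag.LT.DetA
import Pool.Agent.Lib.MP_caab05_ag.LT.FacBd
import Pool.Agent.Lib.MP_caab05_ag.LT.Norm
import Pool.Agent.Lib.MP_caab05_ag.LT.Per

/-! All steps put together. -/

namespace Pool.Agent.Lib.MP_caab05_ag.NC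

theorem poin : PoinS := poinS posS

theorem nond : NondS := nondS posS

theorem main : MainGS := mainG auxV indS jetS brS
  (coreS (LT.elimA (LT.detA LT.per LT.facBd (LT.normS LT.per))))

theorem two : TwoS := twoS main nond (algS nond poin endS) (ypS kerS poin) YpAux.dim

theorem fin : FinS := finS prodS two

theorem gen : GenS := genS poin nond prodS two

theorem fin2 : Fin2S := fin2S prodS two

theorem gen1 : Gen1S := gen1S poin nond prodS two

theorem alg : AlgS := algS nond poin endS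

end Pool.Agent.Lib.MP_caab05_ag.NC
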