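import Mathlib
import Pool.Agent.Lib.MP_caab05_ag.LT.Defs

/-! Abelian varieties with normalised theta functions: periods and quasi-periods. -/

namespace Pool.Agent.Lib.MP_caab05_ag.NC

/-- An abelian variety over the algebraic numbers whose theta functions are normalised so that all
derivatives of `θ₀` at the origin are algebraic numbers.  The functions `∂ₖ log θ₀` have
differentials of the second kind defined over the algebraic numbers and change by the
quasi-periods `η l k` under translation by the period `l`. -/
structure NV (d M : ℕ) extends LT.AbVar d M where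
  /-- the quasi-periods, extended to a real linear map -/
  η : (Fin d → ℂ) →ₗ[ℝ] (Fin d → ℂ)
  law : ∀ l ∈ Λ, ∃ b : ℂ, ∀ z, θ (z + l) = Complex.exp (η l ⬝ᵥ z + b) • θ z
  jets : ∀ (j : ℕ) (k : Fin j → Fin d),
    IsAlgebraic ℚ (iteratedFDeriv ℂ j (fun z => θ z 0) 0 fun i => Pi.single (k i) 1)

/-- the field `F` contains the periods and the quasi-periods multiplied by `c` -/
def NV.Per {d M : ℕ} (A : NV d M) (c : ℂ) (F : IntermediateField ℚ ℂ) : Prop :=
  ∀ l ∈ A.Λ, ∀ k, c * l k ∈ F ∧ c * A.η l k ∈ F

end Pool.Agent.Lib.MP_caab05_ag.NC
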