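import Mathlib
import Pool.Agent.Lib.MP_caab05_ag.NC.NV
import Pool.Agent.Lib.MP_caab05_ag.NC.Stmt
import Pool.Agent.Lib.MP_caab05_ag.GB.Defs

/-! Statements of the steps for the passage to a model with an addition formula. -/

namespace Pool.Agent.Lib.MP_caab05_ag.NC

open Complex
open Pool.Agent.Lib.MP_caab05_ag.ZE (VX)
open Pool.Agent.Lib.MP_caab05_ag.WZ (Arith)
open Pool.Agent.Lib.MP_caab05_ag.GB (V Mat Zg Sg per cst JJ)

/-- a sublattice of finite index with a principal polarisation -/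
def SiegS : Prop :=
  ∀ (d M : ℕ) (A : NV d M), ∃ (g : ℕ) (τ : Mat g) (b : V d →L[ℂ] V g) (N : ℕ), 0 < N ∧ Sg τ ∧
    Function.Bijective b ∧ (∀ (l : V d) (p : Zg g), b l = per τ (cst p) → l ∈ A.Λ) ∧
    (∀ l ∈ A.Λ, ∃ p : Zg g, b ((N : ℂ) • l) = per τ (cst p)) ∧
    ∀ (l l' : V d) (p p' : Zg g), b l = per τ (cst p) → b l' = per τ (cst p') →
      A.η l ⬝ᵥ l' - A.η l' ⬝ᵥ l = -(2 * Real.pi * I) * N * JJ (cst p) (cst p')

/-- a model with an addition formula -/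
def ModelS : Prop :=
  ∀ (d M : ℕ) (A : NV d M), ∃ (M' : ℕ) (B : VX d M') (N : ℕ), 0 < N ∧ Arith B ∧
    (∀ l ∈ B.Λ, l ∈ A.Λ) ∧ (∀ l ∈ A.Λ, (N : ℂ) • l ∈ B.Λ) ∧
    ∀ x, B.H x = (4 / N : ℂ) • A.η x

end Pool.Agent.Lib.MP_caab05_ag.NC
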