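import Mathlib
import Pool.Agent.Lib.MP_caab05_ag.NC.Stmt2

/-! Statements of the steps for an arbitrary abelian variety. -/

namespace Pool.Agent.Lib.MP_caab05_ag.NC

open Complex Module
open Pool.Agent.Lib.MP_caab05_ag.LT (E)
open Pool.Agent.Lib.MP_caab05_ag.ZE (VX)
open Pool.Agent.Lib.MP_caab05_ag.WZ (Arith)

/-- abelian subvarieties -/
def SubS : Prop :=
  ∀ (d M : ℕ) (A : VX d M), Arith A → ∀ (u : ℕ) (ι : E u →ₗ[ℂ] E d), Function.Injective ι →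
    (∀ j k, IsAlgebraic ℚ (ι (Pi.single j 1) k)) → ZE.Rat A (LinearMap.range ι) →
    ∃ B : VX u M, Arith B ∧ (∀ x, x ∈ B.Λ ↔ ι x ∈ A.Λ) ∧
      ∀ x k, B.H x k = A.H (ι x) ⬝ᵥ ι (Pi.single k 1)

/-- decomposition into simple abelian subvarieties, with algebraic coordinates -/
def DecS : Prop :=
  ∀ (d M : ℕ) (A : VX d M), Arith A → ∃ (k : ℕ) (g : Fin k → ℕ) (T : (∀ i, E (g i)) ≃ₗ[ℂ] E d)
    (N : ℕ), 0 < N ∧ (∀ i j m, IsAlgebraic ℚ (T (Pi.single i (Pi.single j 1)) m)) ∧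
    (∀ m i j, IsAlgebraic ℚ (T.symm (Pi.single m 1) i j)) ∧
    (∀ l ∈ A.Λ, ∀ i, T (Pi.single i (T.symm ((N : ℂ) • l) i)) ∈ A.Λ) ∧
    ∀ i, ZE.Rat A (LinearMap.range (T.toLinearMap ∘ₗ LinearMap.single ℂ (fun i => E (g i)) i)) ∧
      ∀ V, ZE.Rat A V →
        V ≤ LinearMap.range (T.toLinearMap ∘ₗ LinearMap.single ℂ (fun i => E (g i)) i) →
        V = ⊥ ∨ V = LinearMap.range (T.toLinearMap ∘ₗ LinearMap.single ℂ (fun i => E (g i)) i)

/-- the theorem for an abelian variety with an addition formula -/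
def OneS : Prop :=
  ∀ (d M : ℕ) (A : VX d M) (ν : Type) [Fintype ν] (y : ν → E d) (c : ℂ)
    (F : IntermediateField ℚ ℂ) (t : ℕ), Arith A → (∀ j, y j ∈ A.Λ) → LinearIndependent ℝ y →
    d ≤ Fintype.card ν → (∀ U, ZE.Rat A U → U ≠ ⊥ → U ≠ ⊤ →
      d * dimIn y U ≤ Fintype.card ν * finrank ℂ U ∧
        (Fintype.card ν = d → d * dimIn y U < Fintype.card ν * finrank ℂ U)) →
    c ≠ 0 → (∀ l ∈ A.Λ, ∀ m, c * lf A l m ∈ F) → Algebra.trdeg ℚ F ≤ t →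
    Fintype.card ν * (2 * d - Fintype.card ν) ≤
      t * d * (2 * finrank ℂ (Submodule.span ℂ (Set.range y)) - Fintype.card ν)

end Pool.Agent.Lib.MP_caab05_ag.NC
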