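import Mathlib
import Pool.Agent.Lib.MP_caab05_ag.NC.Stmt3
import Pool.Agent.Lib.MP_caab05_ag.NC.Pos
import Pool.Agent.Lib.MP_caab05_ag.NC.Poin
import Pool.Agent.Lib.MP_caab05_ag.NC.End

/-! Decomposition into simple abelian subvarieties. -/

namespace Pool.Agent.Lib.MP_caab05_ag.NC

open Complex Module Matrix
open Pool.Agent.Lib.MP_caab05_ag.LT (E)
open Pool.Agent.Lib.MP_caab05_ag.ZE (VX)
open Pool.Agent.Lib.MP_caab05_ag.WZ (Arith EE zz)

namespace DecAux

variable {d M : ℕ}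

/-- images of endomorphisms are abelian subvarieties -/
theorem rat_range (A : VX d M) (ψ : E d →ₗ[ℂ] E d) (h : ∀ l ∈ A.Λ, ψ l ∈ A.Λ) :
    ZE.Rat A (LinearMap.range ψ) := by
  refine le_antisymm (Submodule.span_le.2 fun x hx => hx.1) ?_
  rintro _ ⟨z, rfl⟩
  have h1 : Submodule.span ℝ (A.Λ : Set (E d)) ≤ (Submodule.span ℝ
      ((LinearMap.range ψ : Set (E d)) ∩ (A.Λ : Set (E d)))).comap (ψ.restrictScalars ℝ) :=
    Submodule.span_le.2 fun l hl => Submodule.subset_span ⟨⟨l, rfl⟩, h l hl⟩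
  exact h1 (A.span_top ▸ Submodule.mem_top)

/-- endomorphisms have algebraic matrices -/
theorem alg_end (A : VX d M) (hA : Arith A) (φ : E d →ₗ[ℂ] E d) (h : ∀ l ∈ A.Λ, φ l ∈ A.Λ)
    (j m : Fin d) : IsAlgebraic ℚ (φ (Pi.single j 1) m) := by
  obtain ⟨a, ha, hl⟩ := endS d M A hA (nondS posS d M A) φ h
  have h1 : (LinearMap.proj m ∘ₗ φ ∘ₗ LinearMap.funLeft ℂ ℂ Sum.inl : EE (Fin d) →ₗ[ℂ] ℂ) =
      LinearMap.proj (Sum.inl m) ∘ₗ a.mulVecLin :=
    LinearMap.ext_on (nondS posS d M A) (by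
      rintro _ ⟨l, hl', rfl⟩
      exact congrFun (hl l hl') (.inl m))
  have h2 : φ (LinearMap.funLeft ℂ ℂ Sum.inl (Pi.single (Sum.inl j) 1 : EE (Fin d))) m =
      (a *ᵥ Pi.single (Sum.inl j) 1) (.inl m) := LinearMap.congr_fun h1 _
  have h3 : LinearMap.funLeft ℂ ℂ Sum.inl (Pi.single (Sum.inl j) 1 : EE (Fin d)) =
      Pi.single j 1 := by
    funext k
    simp [LinearMap.funLeft_apply, Pi.single_apply]
  rw [h3, mulVec_single_one] at h2
  rw [h2]
  exact ha _ _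

/-- the inverse of an algebraic matrix is algebraic -/
theorem alg_inv {κ : Type} [Fintype κ] (v : κ → E d) (hv : ∀ s m, IsAlgebraic ℚ (v s m))
    (hi : LinearIndependent ℂ v) (x : κ → ℂ) (hx : ∀ m, IsAlgebraic ℚ ((∑ s, x s • v s) m))
    (s : κ) : IsAlgebraic ℚ (x s) := by
  let K := algebraicClosure ℚ ℂ
  obtain ⟨ρ, hρ⟩ := (Algebra.linearMap K ℂ).exists_leftInverse_of_injective
    (LinearMap.ker_eq_bot.2 (algebraMap K ℂ).injective)
  have h1 : ∀ y : ℂ, IsAlgebraic ℚ y → (ρ y : ℂ) = y := fun y hy =>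
    congrArg Subtype.val (LinearMap.congr_fun hρ ⟨y, mem_algebraicClosure_iff.2 hy⟩)
  have h2 : ∀ y z : ℂ, IsAlgebraic ℚ y → (ρ (z * y) : ℂ) = ρ z * y := fun y z hy => by
    have := ρ.map_smul (⟨y, mem_algebraicClosure_iff.2 hy⟩ : K) z
    rw [mul_comm z, mul_comm (ρ z : ℂ)]
    exact congrArg Subtype.val this
  have h3 : ∑ s, ((ρ (x s) : ℂ) - x s) • v s = 0 := by
    funext m
    have := h1 _ (hx m)
    simp only [Finset.sum_apply, Pi.smul_apply, smul_eq_mul, map_sum] at this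
    push_cast at this
    simp only [h2 _ _ (hv _ m)] at this
    simp only [Finset.sum_apply, Pi.smul_apply, smul_eq_mul, sub_mul, Finset.sum_sub_distrib, this,
      sub_self, Pi.zero_apply]
  rw [← sub_eq_zero.1 (Fintype.linearIndependent_iff.1 hi _ h3 s)]
  exact mem_algebraicClosure_iff.1 (ρ (x s)).2

/-- a system of projections onto simple pieces of `U` -/
structure Sys (A : VX d M) (U : Submodule ℂ (E d)) {k : ℕ} (W : Fin k → Submodule ℂ (E d))
    (φ : Fin k → E d →ₗ[ℂ] E d) (N : ℕ) : Prop where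
  pos : 0 < N
  lat : ∀ i, ∀ l ∈ A.Λ, φ i l ∈ A.Λ
  rat : ∀ i, ZE.Rat A (W i)
  min : ∀ i V, ZE.Rat A V → V ≤ W i → V = ⊥ ∨ V = W i
  le : ∀ i, W i ≤ U
  mem : ∀ i z, φ i z ∈ W i
  self : ∀ i, ∀ u ∈ W i, φ i u = (N : ℂ) • u
  orth : ∀ i j, i ≠ j → ∀ u ∈ W j, φ i u = 0
  sum : ∀ u ∈ U, ∑ i, φ i u = (N : ℂ) • u

theorem sys (A : VX d M) (U : Submodule ℂ (E d)) (hU : ZE.Rat A U) :
    ∃ (k : ℕ) (W : Fin k → Submodule ℂ (E d)) (φ : Fin k → E d →ₗ[ℂ] E d) (N : ℕ),
      Sys A U W φ N := by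
  induction U using WellFoundedLT.induction with
  | _ U ih =>
    by_cases hb : U = ⊥
    · refine ⟨0, Fin.elim0, Fin.elim0, 1, one_pos, fun i => i.elim0, fun i => i.elim0,
        fun i => i.elim0, fun i => i.elim0, fun i => i.elim0, fun i => i.elim0, fun i => i.elim0,
        fun u hu => ?_⟩
      rw [hb, Submodule.mem_bot] at hu
      simp [hu]
    obtain ⟨V, ⟨v1, v2, v3⟩, v4⟩ := wellFounded_lt.has_min
      {V : Submodule ℂ (E d) | ZE.Rat A V ∧ V ≤ U ∧ V ≠ ⊥} ⟨U, hU, le_rfl, hb⟩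
    obtain ⟨N₀, φ₀, n0, a1, a2, a3⟩ := poinS posS d M A U hU
    obtain ⟨N₁, φ, n1, b1, b2, b3⟩ := poinS posS d M A V v1
    have m0 : (N₀ : ℂ) ≠ 0 := Nat.cast_ne_zero.2 n0.ne'
    have m1 : (N₁ : ℂ) ≠ 0 := Nat.cast_ne_zero.2 n1.ne'
    let χ : E d →ₗ[ℂ] E d := (N₁ : ℂ) • LinearMap.id - φ
    have hχ : ∀ z, χ z = (N₁ : ℂ) • z - φ z := fun _ => rfl
    have c1 : ∀ l ∈ A.Λ, χ l ∈ A.Λ := fun l hl => by
      rw [hχ, Nat.cast_smul_eq_nsmul]
      exact A.Λ.sub_mem (nsmul_mem hl _) (b1 l hl)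
    have c2 : ∀ u ∈ LinearMap.range (χ ∘ₗ φ₀), φ u = 0 := by
      rintro _ ⟨z, rfl⟩
      rw [LinearMap.comp_apply, hχ, map_sub, map_smul, b2 _ (b3 _), sub_self]
    have c3 : LinearMap.range (χ ∘ₗ φ₀) ≤ U := by
      rintro _ ⟨z, rfl⟩
      exact U.sub_mem (U.smul_mem _ (a3 z)) (v2 (b3 _))
    have c4 : ∀ u ∈ U, χ u ∈ LinearMap.range (χ ∘ₗ φ₀) := fun u hu =>
      ⟨(N₀ : ℂ)⁻¹ • u, by
        rw [LinearMap.comp_apply, a2 _ (U.smul_mem _ hu), smul_inv_smul₀ m0]⟩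
    obtain ⟨k, W, ψ, N₂, s⟩ := ih (LinearMap.range (χ ∘ₗ φ₀))
      (lt_of_le_of_ne c3 fun h => v3 (eq_bot_iff.2 fun v hv => by
        have h1 := c2 v (h ▸ v2 hv)
        rw [b2 v hv] at h1
        exact (smul_eq_zero.1 h1).resolve_left m1))
      (rat_range A _ fun l hl => c1 _ (a1 l hl))
    have c5 : ∀ i, ∀ u ∈ W i, χ u = (N₁ : ℂ) • u := fun i u hu => by
      rw [hχ, c2 u (s.le i hu), sub_zero]
    refine ⟨k + 1, Fin.cons V W, Fin.cons ((N₂ : ℂ) • φ) fun i => ψ i ∘ₗ χ, N₂ * N₁,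
      Nat.mul_pos s.pos n1, fun i => ?_, fun i => ?_, fun i => ?_, fun i => ?_, fun i => ?_,
      fun i => ?_, fun i j => ?_, fun u hu => ?_⟩
    · refine Fin.cases (fun l hl => ?_) (fun i l hl => s.lat i _ (c1 l hl)) i
      rw [Fin.cons_zero, LinearMap.smul_apply, Nat.cast_smul_eq_nsmul]
      exact nsmul_mem (b1 l hl) _
    · exact Fin.cases v1 s.rat i
    · refine Fin.cases (fun V' h1 h2 => ?_) s.min i
      by_contra h
      push Not at h
      exact v4 V' ⟨h1, h2.trans v2, h.1⟩ (lt_of_le_of_ne h2 h.2)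
    · exact Fin.cases v2 (fun i => (s.le i).trans c3) i
    · exact Fin.cases (fun z => V.smul_mem _ (b3 z)) (fun i z => s.mem i _) i
    · refine Fin.cases (fun u hu => ?_) (fun i u hu => ?_) i
      · rw [Fin.cons_zero, LinearMap.smul_apply, b2 u hu, smul_smul, Nat.cast_mul]
      · rw [Fin.cons_succ, LinearMap.comp_apply, c5 i u hu, map_smul, s.self i u hu, smul_smul,
          Nat.cast_mul, mul_comm]
    · refine Fin.cases ?_ (fun i => ?_) i <;> refine Fin.cases ?_ (fun j => ?_) j <;>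
        simp only [Fin.cons_zero, Fin.cons_succ] <;> intro h u hu
      · exact absurd rfl h
      · rw [LinearMap.smul_apply, c2 u (s.le j hu), smul_zero]
      · rw [LinearMap.comp_apply, hχ, b2 u hu, sub_self, map_zero]
      · rw [LinearMap.comp_apply, c5 j u hu, map_smul,
          s.orth i j (fun e => h (congrArg _ e)) u hu, smul_zero]
    · simp only [Fin.sum_univ_succ, Fin.cons_zero, Fin.cons_succ, LinearMap.comp_apply]
      rw [s.sum _ (c4 u hu), hχ, LinearMap.smul_apply, ← smul_add, add_sub_cancel, smul_smul,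
        Nat.cast_mul]

/-- an algebraic basis of the image of an endomorphism -/
theorem basis (φ : E d →ₗ[ℂ] E d) (h : ∀ j m, IsAlgebraic ℚ (φ (Pi.single j 1) m)) :
    ∃ (g : ℕ) (v : Fin g → E d), LinearIndependent ℂ v ∧ (∀ j m, IsAlgebraic ℚ (v j m)) ∧
      LinearMap.range (Fintype.linearCombination ℂ v) = LinearMap.range φ := by
  obtain ⟨κ, a, ha, h1, h2⟩ := exists_linearIndependent' ℂ fun j => φ (Pi.single j 1)
  have := Finite.of_injective a ha
  let e := (Finite.equivFin κ).symm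
  refine ⟨_, fun j => φ (Pi.single (a (e j)) 1), h2.comp e e.injective, fun j m => h _ m, ?_⟩
  rw [Fintype.range_linearCombination, LinearMap.range_eq_map, ← (Pi.basisFun ℂ (Fin d)).span_eq,
    Submodule.map_span, ← Set.range_comp]
  refine (congrArg _ (e.surjective.range_comp ((fun j => φ (Pi.single j 1)) ∘ a))).trans
    (h1.trans (congrArg _ (congrArg _ (funext fun j => ?_))))
  simp

end DecAux

open DecAux in
theorem decS : DecS := by
  intro d M A hA
  obtain ⟨k, W, φ, N, s⟩ := sys A ⊤ (by simpa [ZE.Rat] using A.span_top)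
  have n0 : (N : ℂ) ≠ 0 := Nat.cast_ne_zero.2 s.pos.ne'
  choose g v v1 v2 v3 using fun i => basis (φ i) (alg_end A hA _ (s.lat i))
  let L : ∀ i, E (g i) →ₗ[ℂ] E d := fun i => Fintype.linearCombination ℂ (v i)
  have hW : ∀ i, LinearMap.range (L i) = W i := fun i => (v3 i).trans (le_antisymm
    (by rintro _ ⟨z, rfl⟩; exact s.mem i z) fun u hu =>
      ⟨(N : ℂ)⁻¹ • u, by rw [map_smul, s.self i u hu, inv_smul_smul₀ n0]⟩)
  have hm : ∀ i x, L i x ∈ W i := fun i x => hW i ▸ LinearMap.mem_range_self _ x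
  let T₀ : (∀ i, E (g i)) →ₗ[ℂ] E d := ∑ i, L i ∘ₗ LinearMap.proj i
  have hT : ∀ x, T₀ x = ∑ i, L i (x i) := fun x => by simp [T₀]
  have h1 : ∀ i x, T₀ (Pi.single i x) = L i x := fun i x => by
    rw [hT, Finset.sum_eq_single i (fun j _ hj => by simp [hj]) (by simp), Pi.single_eq_same]
  have h2 : ∀ i x, φ i (T₀ x) = (N : ℂ) • L i (x i) := fun i x => by
    rw [hT, map_sum, Finset.sum_eq_single i (fun j _ hj => s.orth i j hj.symm _ (hm j _))
      (by simp), s.self i _ (hm i _)]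
  have inj : Function.Injective T₀ := (injective_iff_map_eq_zero _).2 fun x hx => by
    funext i
    have := h2 i x
    rw [hx, map_zero] at this
    exact funext (Fintype.linearIndependent_iff.1 (v1 i) _
      ((smul_eq_zero.1 this.symm).resolve_left n0))
  have sur : Function.Surjective T₀ := fun z => by
    choose x hx using fun i => (hW i).ge (s.mem i ((N : ℂ)⁻¹ • z))
    exact ⟨x, by rw [hT]; simp only [hx]; rw [s.sum _ trivial, smul_inv_smul₀ n0]⟩
  let T := LinearEquiv.ofBijective T₀ ⟨inj, sur⟩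
  have h3 : ∀ i z, L i (T.symm ((N : ℂ) • z) i) = φ i z := fun i z => by
    have := h2 i (T.symm ((N : ℂ) • z))
    rw [show T₀ (T.symm ((N : ℂ) • z)) = (N : ℂ) • z from T.apply_symm_apply _, map_smul] at this
    exact (smul_right_injective _ n0 this).symm
  have h4 : ∀ i, LinearMap.range (T.toLinearMap ∘ₗ LinearMap.single ℂ (fun i => E (g i)) i) =
      W i := fun i => (congrArg _ (LinearMap.ext (h1 i))).trans (hW i)
  refine ⟨k, g, T, N, s.pos, fun i j m => ?_, fun m i j => ?_, fun l hl i => ?_, fun i => ?_⟩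
  · rw [show T (Pi.single i (Pi.single j 1)) = v i j from (h1 i _).trans (by simp [L])]
    exact v2 i j m
  · refine alg_inv (v i) (v2 i) (v1 i) _ (fun m' => ?_) j
    have := h3 i ((N : ℂ)⁻¹ • Pi.single m 1)
    rw [smul_inv_smul₀ n0, map_smul] at this
    rw [show ∑ s, T.symm (Pi.single m 1) i s • v i s = _ from this]
    exact (isAlgebraic_natCast N).inv.mul (alg_end A hA _ (s.lat i) m m')
  · rw [show T (Pi.single i (T.symm ((N : ℂ) • l) i)) = φ i l from (h1 i _).trans (h3 i l)]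
    exact s.lat i l hl
  · rw [h4]
    exact ⟨s.rat i, s.min i⟩

end Pool.Agent.Lib.MP_caab05_ag.NC
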