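import Mathlib
import Pool.Agent.Lib.MP_caab05_ag.NC.Stmt2
import Pool.Agent.Lib.MP_caab05_ag.NC.Yp

/-! Two abelian varieties whose complex structures differ in small rank. -/

namespace Pool.Agent.Lib.MP_caab05_ag.NC

open Complex Module
open Pool.Agent.Lib.MP_caab05_ag.LT (E)

/-- tangent spaces of abelian subvarieties -/
def NV.Rat {d M : ℕ} (A : NV d M) (U : Submodule ℂ (E d)) : Prop :=
  Submodule.span ℝ ((U : Set (E d)) ∩ (A.Λ : Set (E d))) = U.restrictScalars ℝ

/-- the theorem for an arbitrary abelian variety -/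
def OneG : Prop :=
  ∀ (d M : ℕ) (A : NV d M) (ν : Type) [Fintype ν] (y : ν → E d) (c : ℂ)
    (F : IntermediateField ℚ ℂ) (t : ℕ), (∀ j, y j ∈ A.Λ) → LinearIndependent ℝ y →
    d ≤ Fintype.card ν → (∀ U, A.Rat U → U ≠ ⊥ → U ≠ ⊤ →
      d * dimIn y U ≤ Fintype.card ν * finrank ℂ U ∧
        (Fintype.card ν = d → d * dimIn y U < Fintype.card ν * finrank ℂ U)) →
    c ≠ 0 → A.Per c F → Algebra.trdeg ℚ F ≤ t →
    Fintype.card ν * (2 * d - Fintype.card ν) ≤
      t * d * (2 * finrank ℂ (Submodule.span ℂ (Set.range y)) - Fintype.card ν)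

/-- `B` is isogenous to a product `A × A'` with tangent spaces `U`, `U'` of the same dimension,
`A` is simple, there is no homomorphism between `A` and `A'`, and `φ` is a real linear
isomorphism from `U` to `U'` which respects the periods and whose antilinear part has rank at
most `k`.  Then `dim A ≤ k t`. -/
def GraphN : Prop :=
  ∀ (d M : ℕ) (B : NV d M) (U U' : Submodule ℂ (E d)) (φ : E d →ₗ[ℝ] E d) (c : ℂ)
    (F : IntermediateField ℚ ℂ) (k t : ℕ), IsCompl U U' → finrank ℂ U' = finrank ℂ U →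
    B.Rat U → (∀ V, B.Rat V → V ≤ U → V = ⊥ ∨ V = U) →
    (∀ ψ : E d →ₗ[ℂ] E d, (∀ l ∈ B.Λ, ψ l ∈ B.Λ) → U.map ψ ≤ U ∧ U'.map ψ ≤ U') →
    (∀ x ∈ U, φ x ∈ U') → (∀ x ∈ U, φ x = 0 → x = 0) → (∀ x ∈ U, x ∈ B.Λ → φ x ∈ B.Λ) →
    finrank ℂ (Submodule.span ℂ ((fun x => φ (I • x) - I • φ x) '' (U : Set (E d)))) ≤ k →
    c ≠ 0 → B.Per c F → Algebra.trdeg ℚ F ≤ t → finrank ℂ U ≤ k * t

namespace GraphAux

variable {d M : ℕ}

theorem rat_map {A : NV d M} (φ : E d →ₗ[ℂ] E d) (hφ : ∀ l ∈ A.Λ, φ l ∈ A.Λ)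
    {U : Submodule ℂ (E d)} (hU : A.Rat U) : A.Rat (U.map φ) := by
  refine le_antisymm (Submodule.span_le.2 fun x hx => hx.1) ?_
  rintro _ ⟨x, hx, rfl⟩
  have hx' : x ∈ Submodule.span ℝ ((U : Set (E d)) ∩ (A.Λ : Set (E d))) := by
    rw [hU]; exact hx
  have h1 := Submodule.mem_map_of_mem (f := φ.restrictScalars ℝ) hx'
  rw [Submodule.map_span] at h1
  refine Submodule.span_mono ?_ h1
  rintro _ ⟨z, hz, rfl⟩
  exact ⟨⟨z, hz.1, rfl⟩, hφ z hz.2⟩

/-- complete reducibility -/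
theorem poinN (h0 : ModelS) (h1 : PoinS) (A : NV d M) {U : Submodule ℂ (E d)} (hU : A.Rat U) :
    ∃ (a : ℂ) (φ : E d →ₗ[ℂ] E d), a ≠ 0 ∧ (∀ l ∈ A.Λ, φ l ∈ A.Λ) ∧
      (∀ u ∈ U, φ u = a • u) ∧ ∀ z, φ z ∈ U := by
  obtain ⟨M', B, N, N0, -, hl, hl', -⟩ := h0 d M A
  have N1 : (N : ℝ) ≠ 0 := Nat.cast_ne_zero.2 N0.ne'
  have hB : ZE.Rat B U := by
    refine le_antisymm (Submodule.span_le.2 fun x hx => hx.1) ?_
    rw [← hU]
    refine Submodule.span_le.2 fun x hx => (Submodule.smul_mem_iff _ N1).1 ?_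
    refine Submodule.subset_span ?_
    rw [← Complex.coe_smul, Complex.ofReal_natCast]
    exact ⟨U.smul_mem _ hx.1, hl' x hx.2⟩
  obtain ⟨n, P, n0, h2, h3, h4⟩ := h1 d M' B U hB
  refine ⟨N * n, (N : ℂ) • P, mul_ne_zero (Nat.cast_ne_zero.2 N0.ne') (Nat.cast_ne_zero.2 n0.ne'),
    fun l h => ?_, fun u hu => ?_, fun z => U.smul_mem _ (h4 z)⟩
  · rw [LinearMap.smul_apply, ← map_smul]
    exact hl _ (h2 _ (hl' l h))
  · rw [LinearMap.smul_apply, h3 u hu, smul_smul]

theorem rank_real (U : Submodule ℂ (E d)) :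
    finrank ℝ (U.restrictScalars ℝ) = 2 * finrank ℂ U := by
  have := Module.finrank_mul_finrank ℝ ℂ U
  rw [Complex.finrank_real_complex] at this
  exact this.symm

/-- a real basis which consists of periods -/
theorem basis (A : NV d M) {U : Submodule ℂ (E d)} (hU : A.Rat U) :
    ∃ b : Fin (2 * finrank ℂ U) → E d, (∀ j, b j ∈ U ∧ b j ∈ A.Λ) ∧ LinearIndependent ℝ b ∧
      Submodule.span ℝ (Set.range b) = U.restrictScalars ℝ := by
  obtain ⟨b, h1, h2, h3⟩ := Submodule.exists_fun_fin_finrank_span_eq ℝ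
    ((U : Set (E d)) ∩ (A.Λ : Set (E d)))
  have e : 2 * finrank ℂ U =
      finrank ℝ (Submodule.span ℝ ((U : Set (E d)) ∩ (A.Λ : Set (E d)))) := by
    rw [hU, rank_real]
  refine ⟨b ∘ finCongr e, fun j => h1 _, h3.comp _ (finCongr e).injective, ?_⟩
  rw [(finCongr e).surjective.range_comp, h2, hU]

end GraphAux

open GraphAux

theorem graphN (h0 : ModelS) (h1 : PoinS) (h : OneG) : GraphN := by
  intro d M B U U' φ c F k t hc hu hR hS hE h2 h3 h4 hk c0 hF ht
  have hd : d = 2 * finrank ℂ U := by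
    have := Submodule.finrank_add_eq_of_isCompl hc
    rw [finrank_fin_fun] at this
    omega
  obtain ⟨b, hb, hi, hs⟩ := basis B hR
  obtain ⟨Γ, hΓ⟩ : ∃ Γ : E d →ₗ[ℝ] E d, ∀ x, Γ x = x + φ x := ⟨LinearMap.id + φ, fun _ => rfl⟩
  have uniq : ∀ x ∈ U, ∀ x' ∈ U', x + x' = 0 → x = 0 := fun x hx x' hx' e =>
    (Submodule.disjoint_def.1 hc.disjoint) x hx (by
      rw [eq_neg_of_add_eq_zero_left e]; exact U'.neg_mem hx')
  have hker : Disjoint (U.restrictScalars ℝ) (LinearMap.ker Γ) :=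
    Submodule.disjoint_def.2 fun x hx e => uniq x hx _ (h2 x hx) (by rw [← hΓ]; exact e)
  have hsp : Submodule.span ℝ (Set.range fun j => Γ (b j)) = (U.restrictScalars ℝ).map Γ := by
    rw [← hs, Submodule.map_span, ← Set.range_comp]
    rfl
  have hn : finrank ℂ (Submodule.span ℂ (Set.range fun j => Γ (b j))) ≤ finrank ℂ U + k := by
    obtain ⟨S, hS⟩ : ∃ S, S = Submodule.span ℂ
      ((fun x => φ (I • x) - I • φ x) '' (U : Set (E d))) := ⟨_, rfl⟩
    rw [← hS] at hk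
    have hI : ∀ x ∈ U, S.mkQ (Γ (I • x)) = I • S.mkQ (Γ x) := fun x hx => by
      rw [← map_smul, ← sub_eq_zero, ← map_sub, Submodule.mkQ_apply,
        Submodule.Quotient.mk_eq_zero, hΓ, hΓ, smul_add, add_sub_add_left_eq_sub, hS]
      exact Submodule.subset_span ⟨x, hx, rfl⟩
    have hr : ∀ (r : ℝ) (x : E d), S.mkQ (Γ ((r : ℂ) • x)) = (r : ℂ) • S.mkQ (Γ x) :=
      fun r x => by rw [← map_smul, Complex.coe_smul, map_smul, Complex.coe_smul]
    let L : U →ₗ[ℂ] E d ⧸ S :=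
      { toFun := fun x => S.mkQ (Γ x)
        map_add' := fun x y => by rw [Submodule.coe_add, map_add, map_add]
        map_smul' := fun a x => by
          rw [RingHom.id_apply, Submodule.coe_smul, ← Complex.re_add_im a, add_smul, add_smul,
            map_add, map_add, mul_smul, mul_smul, hr, hr, hI _ x.2] }
    have e1 := YpAux.rank_null S.mkQ (Submodule.span ℂ (Set.range fun j => Γ (b j)))
    have e2 : (Submodule.span ℂ (Set.range fun j => Γ (b j))).map S.mkQ ≤ LinearMap.range L := by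
      rw [Submodule.map_span, Submodule.span_le]
      rintro _ ⟨_, ⟨j, rfl⟩, rfl⟩
      exact ⟨⟨b j, (hb j).1⟩, rfl⟩
    have e3 := (Submodule.finrank_mono e2).trans (LinearMap.finrank_range_le L)
    have e4 := Submodule.finrank_mono (inf_le_right :
      Submodule.span ℂ (Set.range fun j => Γ (b j)) ⊓ LinearMap.ker S.mkQ ≤ _)
    rw [S.ker_mkQ] at e1 e4
    omega
  have key := h d M B (Fin (2 * finrank ℂ U)) (fun j => Γ (b j)) c F t
    (fun j => by rw [hΓ]; exact B.Λ.add_mem (hb j).2 (h4 _ (hb j).1 (hb j).2))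
    (hi.map (by rw [hs]; exact hker)) (by simp [← hd]) (fun V hV v0 v1 => ?_) c0 hF ht
  · rw [Fintype.card_fin] at key
    generalize finrank ℂ (Submodule.span ℂ (Set.range fun j => Γ (b j))) = n at *
    generalize finrank ℂ U = g at *
    subst hd
    rcases Nat.eq_zero_or_pos g with rfl | g0
    · exact Nat.zero_le _
    have e5 : 2 * g * (2 * g) ≤ t * (2 * g) * (2 * k) := by
      rw [show 2 * (2 * g) - 2 * g = 2 * g by omega] at key
      exact key.trans (Nat.mul_le_mul_left _ (by omega))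
    have e6 : 4 * g * g ≤ 4 * g * (k * t) := by nlinarith
    exact Nat.le_of_mul_le_mul_left e6 (by omega)
  · obtain ⟨a, P, a0, p1, p2, p3⟩ := poinN h0 h1 B hV
    obtain ⟨q1, q2⟩ := hE P p1
    have split : ∀ x ∈ U, ∀ x' ∈ U', x + x' ∈ V → x ∈ V ∧ x' ∈ V := fun x hx x' hx' e => by
      have e1 : P x - a • x = 0 := uniq _ (U.sub_mem (q1 ⟨x, hx, rfl⟩) (U.smul_mem _ hx))
        (P x' - a • x') (U'.sub_mem (q2 ⟨x', hx', rfl⟩) (U'.smul_mem _ hx')) (by
          rw [sub_add_sub_comm, ← map_add, ← smul_add, p2 _ e, sub_self])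
      have e2 : x ∈ V := (V.smul_mem_iff a0).1 (sub_eq_zero.1 e1 ▸ p3 x)
      exact ⟨e2, (V.add_mem_iff_right e2).1 e⟩
    have lt : dimIn (fun j => Γ (b j)) V < finrank ℂ V := by
      unfold dimIn
      rw [hsp]
      rcases hS _ (rat_map P p1 hR) q1 with e | e
      · have e1 : V.restrictScalars ℝ ⊓ (U.restrictScalars ℝ).map Γ = ⊥ := by
          rw [eq_bot_iff]
          rintro _ ⟨hv, x, hx, rfl⟩
          have e2 : x ∈ V := (split x hx _ (h2 x hx) (by rw [← hΓ]; exact hv)).1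
          have e3 : P x ∈ (⊥ : Submodule ℂ (E d)) := e ▸ ⟨x, hx, rfl⟩
          rw [p2 x e2, Submodule.mem_bot] at e3
          rw [(smul_eq_zero.1 e3).resolve_left a0, map_zero]
          exact Submodule.zero_mem _
        rw [e1, finrank_bot]
        exact Nat.pos_of_ne_zero fun e2 => v0 (Submodule.finrank_eq_zero.1 e2)
      · have hUV : U ≤ V := by
          rw [← e]
          rintro _ ⟨x, -, rfl⟩
          exact p3 x
        have e1 : U ⊔ (V ⊓ U') = V := by
          rw [inf_comm, ← sup_inf_assoc_of_le _ hUV, hc.sup_eq_top, top_inf_eq]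
        have e2 := Submodule.finrank_sup_add_finrank_inf_eq U (V ⊓ U')
        rw [e1, (hc.disjoint.mono_right inf_le_right).eq_bot, finrank_bot] at e2
        have e3 := Submodule.finrank_lt v1
        rw [finrank_fin_fun] at e3
        obtain ⟨π, hπ⟩ : ∃ π : E d →ₗ[ℂ] E d, ∀ x ∈ U, ∀ x' ∈ U', π (x + x') = x' :=
          ⟨U'.subtype ∘ₗ U'.projectionOnto U hc.symm, fun x hx x' hx' => by
            rw [map_add, LinearMap.comp_apply, LinearMap.comp_apply,
              (Submodule.projectionOnto_apply_eq_zero_iff hc.symm).2 hx, map_zero, zero_add]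
            exact congrArg _ (Submodule.projectionOnto_apply_left hc.symm ⟨x', hx'⟩)⟩
        have e4 := YpAux.rank_null (π.restrictScalars ℝ)
          (V.restrictScalars ℝ ⊓ (U.restrictScalars ℝ).map Γ)
        have e5 : V.restrictScalars ℝ ⊓ (U.restrictScalars ℝ).map Γ ⊓
            LinearMap.ker (π.restrictScalars ℝ) = ⊥ := by
          rw [eq_bot_iff]
          rintro _ ⟨⟨-, x, hx, rfl⟩, e6⟩
          have e7 : π (Γ x) = 0 := e6
          rw [hΓ, hπ x hx _ (h2 x hx)] at e7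
          rw [h3 x hx e7, map_zero]
          exact Submodule.zero_mem _
        have e6 : (V.restrictScalars ℝ ⊓ (U.restrictScalars ℝ).map Γ).map (π.restrictScalars ℝ) ≤
            (V ⊓ U').restrictScalars ℝ := by
          rintro _ ⟨_, ⟨hv, x, hx, rfl⟩, rfl⟩
          show π (Γ x) ∈ V ⊓ U'
          rw [hΓ, hπ x hx _ (h2 x hx)]
          exact ⟨(split x hx _ (h2 x hx) (by rw [← hΓ]; exact hv)).2, h2 x hx⟩
        have e7 := Submodule.finrank_mono e6
        rw [rank_real] at e7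
        rw [e5, finrank_bot] at e4
        omega
    have d0 : 0 < d := by
      have e3 := Submodule.finrank_lt v1
      rw [finrank_fin_fun] at e3
      omega
    generalize dimIn (fun j => Γ (b j)) V = x at lt ⊢
    rw [Fintype.card_fin, ← hd]
    exact ⟨Nat.mul_le_mul_left _ lt.le, fun _ => Nat.mul_lt_mul_of_pos_left lt d0⟩

end Pool.Agent.Lib.MP_caab05_ag.NC
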