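import Mathlib
import Pool.Agent.Lib.MP_caab05_ag.NC.Stmt2
import Pool.Agent.Lib.MP_caab05_ag.NC.Fin2
import Pool.Agent.Lib.MP_caab05_ag.NC.Gen1

/-! Transfer of the theorems to abelian varieties with normalised theta functions. -/

namespace Pool.Agent.Lib.MP_caab05_ag.NC

open Complex Module
open Pool.Agent.Lib.MP_caab05_ag.LT (E)
open Pool.Agent.Lib.MP_caab05_ag.ZE (VX)
open Pool.Agent.Lib.MP_caab05_ag.WZ (Arith)

/-- the theorem for a product of simple abelian varieties -/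
def FinN : Prop :=
  ∀ (K : Type) [Fintype K] (g M : K → ℕ) (A : ∀ i, NV (g i) (M i)) (ν : Type) [Fintype ν]
    (y : ν → ∀ i, E (g i)) (c : ℂ) (F : IntermediateField ℚ ℂ) (t : ℕ),
    (∀ i, (A i).Simple) → (∀ j i, y j i ∈ (A i).Λ) → LinearIndependent ℝ y →
    0 < ∑ i, g i → ∑ i, g i ≤ Fintype.card ν →
    (∀ U : Submodule ℂ (∀ i, E (g i)),
      Submodule.span ℝ {x | x ∈ U ∧ ∀ i, x i ∈ (A i).Λ} = U.restrictScalars ℝ → U ≠ ⊥ → U ≠ ⊤ →
      (∑ i, g i) * dimIn y U ≤ Fintype.card ν * finrank ℂ U ∧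
        (Fintype.card ν = ∑ i, g i → (∑ i, g i) * dimIn y U < Fintype.card ν * finrank ℂ U)) →
    c ≠ 0 → (∀ i, (A i).Per c F) → Algebra.trdeg ℚ F ≤ t →
    Fintype.card ν * (2 * (∑ i, g i) - Fintype.card ν) ≤
      t * (∑ i, g i) * (2 * finrank ℂ (Submodule.span ℂ (Set.range y)) - Fintype.card ν)

/-- abelian varieties without endomorphisms -/
def GenN : Prop :=
  ∀ (g M : ℕ) (A : NV g M) (c : ℂ) (F : IntermediateField ℚ ℂ), 0 < g →
    (∀ φ : E g →ₗ[ℂ] E g, (∀ l ∈ A.Λ, φ l ∈ A.Λ) → ∃ n : ℤ, ∀ z, φ z = (n : ℂ) • z) →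
    c ≠ 0 → A.Per c F → ((min (g + 1) 3 : ℕ) : Cardinal) ≤ Algebra.trdeg ℚ F

namespace TransAux

theorem span_smul {R V ν : Type} [Field R] [CharZero R] [AddCommGroup V] [Module R V] {n : ℕ}
    (hn : 0 < n) (y : ν → V) :
    Submodule.span R (Set.range fun j => n • y j) = Submodule.span R (Set.range y) := by
  have n1 : (n : R) ≠ 0 := Nat.cast_ne_zero.2 hn.ne'
  refine le_antisymm (Submodule.span_le.2 ?_) (Submodule.span_le.2 ?_)
  · rintro _ ⟨j, rfl⟩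
    exact nsmul_mem (Submodule.subset_span (Set.mem_range_self j)) n
  · rintro _ ⟨j, rfl⟩
    refine (Submodule.smul_mem_iff _ n1).1 ?_
    rw [Nat.cast_smul_eq_nsmul]
    exact Submodule.subset_span ⟨j, rfl⟩

theorem rat_up {V : Type} [AddCommGroup V] [Module ℝ V] {U : Submodule ℝ V} {s s' : Set V}
    (h : Submodule.span ℝ s = U) (h1 : s ⊆ s') (h2 : s' ⊆ U) : Submodule.span ℝ s' = U :=
  le_antisymm (Submodule.span_le.2 h2) (h ▸ Submodule.span_mono h1)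

variable {d M M' N : ℕ} {A : NV d M} {B : VX d M'}

theorem simple (h : ∀ l ∈ B.Λ, l ∈ A.Λ) (hA : A.Simple) : B.Simple := fun U hU =>
  hA U (rat_up hU (fun _ hx => ⟨hx.1, h _ hx.2⟩) fun _ hx => hx.1)

theorem field (h : ∀ l ∈ B.Λ, l ∈ A.Λ) (hH : ∀ x, B.H x = (4 / N : ℂ) • A.η x) {c : ℂ}
    {F : IntermediateField ℚ ℂ} (hF : A.Per c F) : ∀ l ∈ B.Λ, ∀ m, c * lf B l m ∈ F := by
  rintro l hl (k | k)
  · exact (hF l (h l hl) k).1
  · show c * B.H l k ∈ F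
    rw [hH, Pi.smul_apply, smul_eq_mul, mul_left_comm]
    exact F.mul_mem (F.div_mem (by exact_mod_cast F.natCast_mem 4) (F.natCast_mem N))
      (hF l (h l hl) k).2

theorem endo (hd : 0 < d) (N0 : 0 < N) (h : ∀ l ∈ B.Λ, l ∈ A.Λ)
    (h' : ∀ l ∈ A.Λ, (N : ℂ) • l ∈ B.Λ)
    (hE : ∀ φ : E d →ₗ[ℂ] E d, (∀ l ∈ A.Λ, φ l ∈ A.Λ) → ∃ n : ℤ, ∀ z, φ z = (n : ℂ) • z)
    (φ : E d →ₗ[ℂ] E d) (hφ : ∀ l ∈ B.Λ, φ l ∈ B.Λ) : ∃ n : ℤ, ∀ z, φ z = (n : ℂ) • z := by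
  have N1 : (N : ℂ) ≠ 0 := Nat.cast_ne_zero.2 N0.ne'
  obtain ⟨n, hn⟩ := hE ((N : ℂ) • φ) fun l hl => by
    rw [LinearMap.smul_apply, ← map_smul]
    exact h _ (hφ _ (h' l hl))
  have e : ∀ z, φ z = (n / N : ℝ) • z := fun z => by
    have h1 : (N : ℂ) • φ z = (n : ℂ) • z := hn z
    rw [← Complex.coe_smul, ← inv_smul_smul₀ N1 (φ z), h1, smul_smul]
    push_cast
    rw [div_eq_inv_mul]
  obtain ⟨ι, _, b, hb⟩ := LT.exists_basis B.toAbVar
  have : Nonempty (Fin d) := ⟨⟨0, hd⟩⟩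
  obtain ⟨j⟩ := b.index_nonempty
  obtain ⟨m, hm⟩ := (b.mem_span_iff_repr_mem ℤ _).1
    (hb ▸ hφ (b j) (hb ▸ Submodule.subset_span ⟨j, rfl⟩)) j
  rw [e, map_smul] at hm
  have h2 : (m : ℝ) = n / N := by simpa using hm
  exact ⟨m, fun z => by rw [e, ← h2, Int.cast_smul_eq_zsmul, Int.cast_smul_eq_zsmul]⟩

end TransAux

open TransAux

theorem finN (h1 : ModelS) (h2 : Fin2S) : FinN := by
  intro K _ g M A ν _ y c F t hA hy hi h0 hd hst hc hF ht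
  choose M' B N N0 ha hl hl' hH using fun i => h1 (g i) (M i) (A i)
  have n0 : 0 < ∏ i, N i := Finset.prod_pos fun i _ => N0 i
  have n1 : ((∏ i, N i : ℕ) : ℝ) ≠ 0 := Nat.cast_ne_zero.2 n0.ne'
  have h3 := h2 K g M' B ν (fun j => (∏ i, N i) • y j) c F t
    (fun i => ⟨simple (hl i) (hA i), ha i⟩) (fun j i => ?_) ?_ h0 hd (fun U hU u1 u2 => ?_) hc
    (fun i => field (hl i) (hH i) (hF i)) ht
  · rwa [span_smul n0] at h3
  · classical
    obtain ⟨k, hk⟩ : N i ∣ ∏ i, N i := Finset.dvd_prod_of_mem _ (Finset.mem_univ i)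
    rw [hk, mul_comm, Pi.smul_apply, mul_smul]
    exact nsmul_mem (by simpa only [Nat.cast_smul_eq_nsmul] using hl' i _ (hy j i)) k
  · have e : (fun j => (∏ i, N i) • y j) = (fun _ : ν => Units.mk0 _ n1) • y :=
      funext fun j => (Nat.cast_smul_eq_nsmul ℝ _ _).symm
    rw [e]
    exact hi.units_smul _
  · have e : dimIn (fun j => (∏ i, N i) • y j) U = dimIn y U := by
      unfold dimIn
      rw [span_smul n0]
    rw [e]
    exact hst U (rat_up hU (fun _ hx => ⟨hx.1, fun i => hl i _ (hx.2 i)⟩) fun _ hx => hx.1) u1 u2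

theorem genN (h1 : ModelS) (h2 : GenS) (h3 : Gen1S) : GenN := by
  intro g M A c F hg hE hc hF
  obtain ⟨M', B, N, N0, ha, hl, hl', hH⟩ := h1 g M A
  rcases Nat.lt_or_ge g 2 with h | h
  · obtain rfl : g = 1 := by omega
    exact_mod_cast h3 M' B c F ha (endo hg N0 hl hl' hE) hc (field hl hH hF)
  · rw [min_eq_right (by omega)]
    exact_mod_cast h2 g M' B c F ha h (endo hg N0 hl hl' hE) hc (field hl hH hF)

end Pool.Agent.Lib.MP_caab05_ag.NC
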