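import Mathlib
import Pool.Agent.Lib.MP_caab05_ag.NC.Stmt3
import Pool.Agent.Lib.MP_caab05_ag.NC.Trans
import Pool.Agent.Lib.MP_caab05_ag.WZ.CM
import Pool.Agent.Lib.MP_caab05_ag.GB.Hom

/-! The theorem for an arbitrary abelian variety. -/

namespace Pool.Agent.Lib.MP_caab05_ag.NC

open Complex Module
open Pool.Agent.Lib.MP_caab05_ag.LT (E)
open Pool.Agent.Lib.MP_caab05_ag.ZE (VX)
open Pool.Agent.Lib.MP_caab05_ag.WZ (Arith)
open Pool.Agent.Lib.MP_caab05_ag.GB.HomAux (lin_apply)
open FinAux TransAux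

/-- the theorem for an abelian variety with normalised theta functions -/
def OneN : Prop :=
  ∀ (d M : ℕ) (A : NV d M) (ν : Type) [Fintype ν] (y : ν → E d) (c : ℂ)
    (F : IntermediateField ℚ ℂ) (t : ℕ), (∀ j, y j ∈ A.Λ) → LinearIndependent ℝ y →
    d ≤ Fintype.card ν → (∀ U : Submodule ℂ (E d),
      Submodule.span ℝ ((U : Set (E d)) ∩ A.Λ) = U.restrictScalars ℝ → U ≠ ⊥ → U ≠ ⊤ →
      d * dimIn y U ≤ Fintype.card ν * finrank ℂ U ∧
        (Fintype.card ν = d → d * dimIn y U < Fintype.card ν * finrank ℂ U)) →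
    c ≠ 0 → A.Per c F → Algebra.trdeg ℚ F ≤ t →
    Fintype.card ν * (2 * d - Fintype.card ν) ≤
      t * d * (2 * finrank ℂ (Submodule.span ℂ (Set.range y)) - Fintype.card ν)

namespace OneAux

theorem span_map {V W : Type} [AddCommGroup V] [Module ℝ V] [Module ℂ V] [IsScalarTower ℝ ℂ V]
    [AddCommGroup W] [Module ℝ W] [Module ℂ W] [IsScalarTower ℝ ℂ W] (f : V →ₗ[ℂ] W)
    {U : Submodule ℂ V} {s : Set V} {s' : Set W} (h : Submodule.span ℝ s = U.restrictScalars ℝ)
    (h1 : ∀ x ∈ s, f x ∈ s') :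
    Submodule.span ℝ ((U.map f : Set W) ∩ s') = (U.map f).restrictScalars ℝ := by
  refine rat_up (s := f '' s) ?_ ?_ fun _ hx => hx.1
  · rw [← f.coe_restrictScalars ℝ, ← Submodule.map_span, h]
    rfl
  · rintro _ ⟨x, hx, rfl⟩
    exact ⟨⟨x, (h.le (Submodule.subset_span hx) :), rfl⟩, h1 x hx⟩

theorem dimIn_smul {V ν : Type} [AddCommGroup V] [Module ℝ V] [Module ℂ V] [IsScalarTower ℝ ℂ V]
    {n : ℕ} (hn : 0 < n) (y : ν → V) (U : Submodule ℂ V) :
    dimIn (fun j => n • y j) U = dimIn y U := by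
  unfold dimIn
  rw [span_smul hn]

theorem indep_smul {V ν : Type} [AddCommGroup V] [Module ℝ V] {n : ℕ} (hn : 0 < n) {y : ν → V}
    (hi : LinearIndependent ℝ y) : LinearIndependent ℝ fun j => n • y j := by
  have n1 : (n : ℝ) ≠ 0 := Nat.cast_ne_zero.2 hn.ne'
  have e : (fun j => n • y j) = (fun _ : ν => Units.mk0 _ n1) • y :=
    funext fun j => (Nat.cast_smul_eq_nsmul ℝ _ _).symm
  rw [e]
  exact hi.units_smul _

end OneAux

open OneAux

theorem oneS (h1 : SubS) (h2 : DecS) (h3 : Fin2S) : OneS := by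
  intro d M A ν _ y c F t hA hy hi hd hst hc hF ht
  rcases Nat.eq_zero_or_pos d with rfl | h0
  · simp
  obtain ⟨k, g, T, N, N0, a1, a2, hN, hs⟩ := h2 d M A hA
  simp only [Nat.cast_smul_eq_nsmul] at hN
  let ι : ∀ i, E (g i) →ₗ[ℂ] E d := fun i =>
    T.toLinearMap ∘ₗ LinearMap.single ℂ (fun i => E (g i)) i
  have hι : ∀ i, Function.Injective (ι i) := fun i =>
    T.injective.comp (Pi.single_injective (M := fun i => E (g i)) i)
  choose B hB hl hH using fun i => h1 d M A hA (g i) (ι i) (hι i) (a1 i) (hs i).1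
  have hg : ∑ i, g i = d := by simpa [finrank_pi_fintype] using T.finrank_eq
  obtain ⟨F', f1, f2⟩ := WZ.CMAux.exists_field F
  have f3 : ∀ (a v : E d), (∀ m, IsAlgebraic ℚ (a m)) → (∀ m, c * v m ∈ F) →
      c * ∑ m, v m * a m ∈ F' := fun a v ha hv => by
    rw [Finset.mul_sum]
    refine sum_mem fun m _ => ?_
    rw [← mul_assoc]
    exact mul_mem (f1 _ (isAlgebraic_algebraMap (⟨_, hv m⟩ : F))) (f1 _ ((ha m).tower_top F))
  have h4 := h3 (Fin k) g (fun _ => M) B ν (fun j => T.symm (N • y j)) c F' t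
    (fun i => ⟨fun U hU => ?_, hB i⟩) (fun j i => (hl i _).2 (hN _ (hy j) i))
    ((indep_smul N0 hi).map' (T.symm.toLinearMap.restrictScalars ℝ)
      (LinearMap.ker_eq_bot.2 T.symm.injective)) (hg ▸ h0) (hg ▸ hd) (fun U hU u1 u2 => ?_) hc
    (fun i l h m => ?_) (f2 ▸ ht)
  · rwa [hg, span_tr T.symm fun j => N • y j, span_smul N0] at h4
  · refine ((hs i).2 (U.map (ι i)) (span_map _ hU fun x hx => (hl i x).1 hx.2)
      LinearMap.map_le_range).imp (fun h => ?_) fun h => ?_
    · exact Submodule.map_injective_of_injective (hι i) (h.trans (Submodule.map_bot _).symm)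
    · exact Submodule.map_injective_of_injective (hι i) (h.trans (Submodule.map_top _).symm)
  · have e : U.comap T.symm.toLinearMap = U.map T.toLinearMap :=
      (Submodule.map_equiv_eq_comap_symm T U).symm
    rw [hg, dimIn_tr T.symm fun j => N • y j, dimIn_smul N0, ← finrank_tr T.symm U, e]
    refine hst _ (span_map _ hU fun x hx => ?_) (fun h => u1 ?_) fun h => u2 ?_
    · rw [← Finset.univ_sum_single x, map_sum]
      exact sum_mem fun i _ => (hl i _).1 (hx.2 i)
    · exact Submodule.map_injective_of_injective T.injective (h.trans (Submodule.map_bot _).symm)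
    · refine Submodule.map_injective_of_injective T.injective (h.trans ?_)
      rw [Submodule.map_top, T.range]
  · rcases m with m | m
    · have e : l m = ∑ n, ι i l n * T.symm (Pi.single n 1) i m := by
        have e1 := congrFun (congrFun (lin_apply T.symm.toLinearMap (ι i l)) i) m
        simpa [ι, Finset.sum_apply] using e1
      show c * l m ∈ F'
      rw [e]
      exact f3 _ _ (fun n => a2 n i m) fun n => hF _ ((hl i l).1 h) (.inl n)
    · show c * (B i).H l m ∈ F'
      rw [hH]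
      exact f3 _ _ (a1 i m) fun n => hF _ ((hl i l).1 h) (.inr n)

theorem oneN (h1 : ModelS) (h2 : OneS) : OneN := by
  intro d M A ν _ y c F t hy hi hd hst hc hF ht
  obtain ⟨M', B, N, N0, ha, hl, hl', hH⟩ := h1 d M A
  have h3 := h2 d M' B ν (fun j => N • y j) c F t ha
    (fun j => by simpa only [Nat.cast_smul_eq_nsmul] using hl' _ (hy j)) (indep_smul N0 hi) hd
    (fun U hU u1 u2 => ?_) hc (field hl hH hF) ht
  · rwa [span_smul N0] at h3
  · rw [dimIn_smul N0]
    exact hst U (rat_up hU (fun _ hx => ⟨hx.1, hl _ hx.2⟩) fun _ hx => hx.1) u1 u2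

end Pool.Agent.Lib.MP_caab05_ag.NC
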