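import Mathlib
import Pool.Agent.Lib.MP_caab05_ag.LT.Quad
import Pool.Agent.Lib.MP_caab05_ag.GB.Sym
import Pool.Agent.Lib.MP_caab05_ag.NC.Stmt2
import Pool.Agent.Lib.MP_caab05_ag.NC.Poin

/-! A point of the Siegel upper half space attached to an abelian variety. -/

namespace Pool.Agent.Lib.MP_caab05_ag.NC

open Complex Matrix Module
open Pool.Agent.Lib.MP_caab05_ag.LT (E AbVar)
open Pool.Agent.Lib.MP_caab05_ag.GB (Mat Zg Sg per cst lft rgt app JJ)

namespace SiegAux

variable {d M : ℕ}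

/-- the factor of automorphy is given by `H` -/
def Law (A : AbVar d M) (H : E d →ₗ[ℝ] E d) : Prop :=
  ∀ l ∈ A.Λ, ∃ β : ℂ, ∀ z, A.θ (z + l) = cexp (H l ⬝ᵥ z + β) • A.θ z

/-- the real part of the pairing -/
noncomputable def bb (H : E d →ₗ[ℝ] E d) : E d →ₗ[ℝ] E d →ₗ[ℝ] ℝ :=
  LinearMap.mk₂ ℝ (fun x y => (H x ⬝ᵥ y).re) (fun _ _ _ => by simp [add_dotProduct])
    (fun c x y => by simp [smul_dotProduct]) (fun _ _ _ => by simp [dotProduct_add])
    (fun c x y => by simp [dotProduct_smul])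

theorem bb_apply (H : E d →ₗ[ℝ] E d) (x y : E d) : bb H x y = (H x ⬝ᵥ y).re := rfl

variable {A : AbVar d M} {H : E d →ₗ[ℝ] E d}

theorem perA (h : Law A H) {l l' : E d} (hl : l ∈ A.Λ) (hl' : l' ∈ A.Λ) :
    ∃ n : ℤ, H l ⬝ᵥ l' = H l' ⬝ᵥ l + n * (2 * Real.pi * I) := by
  obtain ⟨β, e⟩ := h l hl
  obtain ⟨β', e'⟩ := h l' hl'
  have h1 : A.θ (0 + l' + l) = A.θ (0 + l + l') := by rw [add_right_comm]
  rw [e, e', e', e, smul_smul, smul_smul] at h1
  have h2 := smul_left_injective ℂ (A.ne_zero 0) h1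
  simp only [← Complex.exp_add, zero_add, dotProduct_zero] at h2
  obtain ⟨n, hn⟩ := Complex.exp_eq_exp_iff_exists_int.1 h2
  exact ⟨n, by linear_combination hn⟩

theorem symm (h : Law A H) (x y : E d) : bb H x y = bb H y x := by
  obtain ⟨ι, _, b, hb⟩ := LT.exists_basis A
  have hm : ∀ j, b j ∈ A.Λ := fun j => hb ▸ Submodule.subset_span ⟨j, rfl⟩
  have s0 : bb H = (bb H).flip := LinearMap.ext_basis b b fun j k => by
    obtain ⟨n, hn⟩ := perA h (hm j) (hm k)
    rw [LinearMap.flip_apply, bb_apply, bb_apply, hn]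
    simp
  exact congrArg (fun B => B x y) s0

theorem growth (h : Law A H) : ∃ (L : E d →ₗ[ℝ] ℝ) (c : ℝ), ∀ z,
    ‖A.θ z‖ ≤ c * Real.exp (bb H z z / 2 + L z) := by
  obtain ⟨ι, _, b, hb⟩ := LT.exists_basis A
  have hm : ∀ j, b j ∈ A.Λ := fun j => hb ▸ Submodule.subset_span ⟨j, rfl⟩
  choose β hβ using fun j => h _ (hm j)
  let L : E d →ₗ[ℝ] ℝ := b.constr ℝ fun j => (β j).re - bb H (b j) (b j) / 2
  have eL : ∀ j, L (b j) = (β j).re - bb H (b j) (b j) / 2 := fun j => b.constr_basis ℝ _ j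
  let q : E d → ℝ := fun z => bb H z z / 2 + L z
  have hq : Continuous q := by
    have h1 := H.continuous_of_finiteDimensional
    refine Continuous.add ?_ L.continuous_of_finiteDimensional
    simp only [bb_apply, dotProduct]
    fun_prop
  have hP : ∀ l ∈ A.Λ, LT.QuadAux.Pr A q l := fun l hl => by
    refine LT.QuadAux.Pr.span (s := Set.range b) ?_ (hb ▸ hl)
    rintro _ ⟨j, rfl⟩ z
    refine ⟨_, hβ j z, ?_⟩
    rw [Complex.norm_exp, Complex.add_re, ← bb_apply]
    congr 1
    simp only [q, map_add, LinearMap.add_apply, eL, symm h z (b j)]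
    ring
  obtain ⟨R, hR⟩ := LT.exists_fund A
  have hF : Continuous fun z => ‖A.θ z‖ * Real.exp (-q z) :=
    A.holo.continuous.norm.mul (Real.continuous_exp.comp hq.neg)
  obtain ⟨C, hC⟩ := (isCompact_closedBall (0 : E d) R).bddAbove_image hF.continuousOn
  refine ⟨L, C, fun z => ?_⟩
  obtain ⟨l, hl, hz⟩ := hR z
  obtain ⟨κ, h1, h2⟩ := hP l hl (z - l)
  rw [sub_add_cancel] at h1 h2
  have h3 : ‖A.θ (z - l)‖ * Real.exp (-q (z - l)) ≤ C :=
    hC ⟨z - l, mem_closedBall_zero_iff.2 hz, rfl⟩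
  calc ‖A.θ z‖ = ‖A.θ (z - l)‖ * Real.exp (-q (z - l)) * Real.exp (q z) := by
        rw [h1, norm_smul, h2, mul_assoc, ← Real.exp_add, mul_comm]
        congr 2
        ring
    _ ≤ _ := mul_le_mul_of_nonneg_right h3 (Real.exp_pos _).le

theorem dec (c : ℂ) (z : E d) : c • z = c.re • z + c.im • (I • z) := by
  ext i
  simp only [Pi.smul_apply, Pi.add_apply, smul_eq_mul, Complex.real_smul]
  conv_lhs => rw [← Complex.re_add_im c]
  ring

/-- the hermitian form is positive -/
theorem pos (hA : Law A H) (γ : E d) (h : bb H γ γ + bb H (I • γ) (I • γ) ≤ 0) : γ = 0 := by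
  obtain ⟨L, c, hc⟩ := growth hA
  have c0 : 0 ≤ c := by
    have := (norm_nonneg _).trans (hc 0)
    simpa using this
  let α : ℂ := ⟨bb H γ γ / 2, -(bb H γ (I • γ) / 2)⟩
  let ρ : ℂ := ⟨L γ, -L (I • γ)⟩
  have hq : ∀ τ : ℂ, bb H (τ • γ) (τ • γ) / 2 + L (τ • γ) ≤ (α * τ ^ 2 + ρ * τ).re := fun τ => by
    rw [dec τ γ]
    simp only [map_add, map_smul, LinearMap.add_apply, LinearMap.smul_apply, smul_eq_mul, sq,
      Complex.add_re, Complex.mul_re, Complex.mul_im, symm hA (I • γ) γ, α, ρ]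
    nlinarith [mul_nonneg (sq_nonneg τ.im) (neg_nonneg.2 h)]
  let g : ℂ → Fin (M + 1) → ℂ := fun τ => cexp (-(α * τ ^ 2 + ρ * τ)) • A.θ (τ • γ)
  have hg : Differentiable ℂ g :=
    Differentiable.smul (c := fun τ : ℂ => cexp (-(α * τ ^ 2 + ρ * τ))) (by fun_prop)
      (A.holo.comp (differentiable_id.smul_const γ))
  have hb : Bornology.IsBounded (Set.range g) := by
    refine isBounded_iff_forall_norm_le.2 ⟨c, ?_⟩
    rintro _ ⟨τ, rfl⟩
    have h1 := (hc (τ • γ)).trans (mul_le_mul_of_nonneg_left (Real.exp_le_exp.2 (hq τ)) c0)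
    rw [norm_smul, Complex.norm_exp, Complex.neg_re, Real.exp_neg,
      inv_mul_le_iff₀ (Real.exp_pos _), mul_comm]
    exact h1
  have hm : ∀ τ : ℂ, τ • γ ∈ A.Λ := fun τ => by
    have h1 := hg.apply_eq_apply_of_bounded hb 0 τ
    have h2 := A.inj 0 (τ • γ) (cexp (-(α * τ ^ 2 + ρ * τ))) (by simpa [g] using h1)
    simpa using h2
  have := A.discrete
  have h3 := PreconnectedSpace.constant (α := ℂ) inferInstance
    (f := fun τ : ℂ => (⟨τ • γ, hm τ⟩ : A.Λ)) (Continuous.subtype_mk (by fun_prop) _)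
    (x := 1) (y := 0)
  simpa using congrArg Subtype.val h3

/-- the Riemann form -/
noncomputable def ps (H : E d →ₗ[ℝ] E d) : E d →ₗ[ℝ] E d →ₗ[ℝ] ℝ :=
  (2 * Real.pi)⁻¹ • ((bb H).comp (PoinAux.J d) - (bb H).compl₂ (PoinAux.J d))

theorem ps_apply (x y : E d) :
    ps H x y = (2 * Real.pi)⁻¹ * (bb H (I • x) y - bb H x (I • y)) := rfl

theorem ps_I (x y : E d) : ps H (I • x) y = -ps H x (I • y) := by
  rw [ps_apply, ps_apply, PoinAux.II, PoinAux.II]
  simp only [map_neg, LinearMap.neg_apply]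
  ring

theorem ps_skew (h : Law A H) (x y : E d) : ps H x y = -ps H y x := by
  rw [ps_apply, ps_apply, symm h (I • x), symm h x]
  ring

theorem ps_eq (h : Law A H) (x y : E d) :
    H x ⬝ᵥ y = H y ⬝ᵥ x + ps H x y * (2 * Real.pi * I) := by
  have h1 := symm h x y
  have := Real.pi_ne_zero
  rw [bb_apply, bb_apply] at h1
  rw [ps_apply, symm h (I • x), bb_apply, bb_apply, dotProduct_smul, dotProduct_smul]
  generalize H x ⬝ᵥ y = u at *
  generalize H y ⬝ᵥ x = v at *
  refine Complex.ext ?_ ?_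
  · simp [h1]
  · simp
    field_simp
    ring

theorem ps_int (h : Law A H) {l l' : E d} (hl : l ∈ A.Λ) (hl' : l' ∈ A.Λ) :
    ∃ n : ℤ, ps H l l' = n := by
  obtain ⟨n, hn⟩ := perA h hl hl'
  refine ⟨n, ?_⟩
  rw [ps_eq h] at hn
  have h1 := mul_right_cancel₀ Complex.two_pi_I_ne_zero (add_left_cancel hn)
  exact_mod_cast h1

theorem ps_pos (h : Law A H) {x : E d} (hx : x ≠ 0) : 0 < ps H x (I • x) := by
  rw [ps_apply, PoinAux.II, map_neg]
  have := lt_of_not_ge fun h0 => hx (pos h x h0)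
  have := Real.pi_pos
  exact mul_pos (by positivity) (by linarith)

/-- a symplectic basis of a sublattice -/
theorem sympl (h : Law A H) : ∃ (n : ℕ) (e f : Fin d → E d), 0 < n ∧ (∀ i, e i ∈ A.Λ) ∧
    (∀ i, f i ∈ A.Λ) ∧ (∀ i j, ps H (e i) (e j) = 0) ∧ (∀ i j, ps H (f i) (f j) = 0) ∧
    (∀ i j, ps H (e i) (f j) = if i = j then (n : ℝ) else 0) ∧
    ∀ z, (n : ℝ) • z = ∑ i, ps H z (f i) • e i - ∑ i, ps H z (e i) • f i := by
  classical
  obtain ⟨ι, _, b, hb⟩ := LT.exists_basis A
  have hm : ∀ j, b j ∈ A.Λ := fun j => hb ▸ Submodule.subset_span ⟨j, rfl⟩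
  choose G hG using fun j k => ps_int h (hm j) (hm k)
  let c : (ι → ℚ) → E d := fun x => ∑ j, (x j : ℝ) • b j
  let B : (ι → ℚ) →ₗ[ℚ] (ι → ℚ) →ₗ[ℚ] ℚ :=
    Matrix.toLinearMap₂' ℚ (Matrix.of fun j k => (G j k : ℚ))
  have hB : ∀ x y, (B x y : ℝ) = ps H (c x) (c y) := fun x y => by
    simp only [B, c, Matrix.toLinearMap₂'_apply, map_sum, map_smul, LinearMap.sum_apply,
      LinearMap.smul_apply, hG, smul_eq_mul, Matrix.of_apply, Finset.mul_sum]
    push_cast
    rw [Finset.sum_comm]
    exact Finset.sum_congr rfl fun _ _ => Finset.sum_congr rfl fun _ _ => by ring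
  have cb : ∀ k, c (Pi.single k 1) = b k := fun k => by
    simp only [c]
    rw [Finset.sum_eq_single k (fun j _ hj => by simp [hj]) (by simp)]
    simp
  have h1 : ∀ x y, B x y = -B y x := fun x y => by
    have := ps_skew h (c x) (c y)
    rw [← hB, ← hB] at this
    exact_mod_cast this
  obtain ⟨g, e, f, -, -, a3, a4, a5, a6⟩ := GB.SymAux.exists_basis B
    (fun x => by linear_combination (1 / 2 : ℚ) * h1 x x) h1 ⊤ fun x _ hx => by
      have h2 : ps H (c x) = 0 := b.ext fun k => by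
        rw [← cb, ← hB, hx _ trivial]
        simp
      have h3 : c x = 0 := by
        by_contra h0
        have := ps_pos h h0
        rw [h2] at this
        exact lt_irrefl _ this
      funext j
      exact_mod_cast Fintype.linearIndependent_iff.1 b.linearIndependent _ h3 j
  have cs : ∀ (r : Fin g → ℚ) (v : Fin g → ι → ℚ),
      c (∑ i, r i • v i) = ∑ i, (r i : ℝ) • c (v i) := fun r v => by
    simp only [c, Finset.sum_apply, Pi.smul_apply, smul_eq_mul, Finset.smul_sum, smul_smul]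
    push_cast
    simp only [Finset.sum_smul]
    exact Finset.sum_comm
  have csub : ∀ x y, c (x - y) = c x - c y := fun x y => by
    simp only [c, Pi.sub_apply, ← Finset.sum_sub_distrib, ← sub_smul]
    push_cast
    rfl
  have hz : ∀ z, z = ∑ i, ps H z (c (f i)) • c (e i) - ∑ i, ps H z (c (e i)) • c (f i) := by
    have : LinearMap.id = (∑ i, ((ps H).flip (c (f i))).smulRight (c (e i)) -
        ∑ i, ((ps H).flip (c (e i))).smulRight (c (f i)) : E d →ₗ[ℝ] E d) := b.ext fun k => by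
      have h2 := congrArg c (a6 (Pi.single k 1) trivial)
      rw [csub, cs, cs] at h2
      simpa only [hB, cb, LinearMap.id_apply, LinearMap.sub_apply, LinearMap.sum_apply,
        LinearMap.smulRight_apply, LinearMap.flip_apply] using h2
    intro z
    simpa only [LinearMap.id_apply, LinearMap.sub_apply, LinearMap.sum_apply,
      LinearMap.smulRight_apply, LinearMap.flip_apply] using LinearMap.congr_fun this z
  have p3 : ∀ i j, ps H (c (e i)) (c (e j)) = 0 := fun i j => by rw [← hB, a3, Rat.cast_zero]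
  have p4 : ∀ i j, ps H (c (f i)) (c (f j)) = 0 := fun i j => by rw [← hB, a4, Rat.cast_zero]
  have p5 : ∀ i j, ps H (c (e i)) (c (f j)) = if i = j then 1 else 0 := fun i j => by
    rw [← hB, a5]
    split_ifs <;> simp
  have hg : g = d := by
    let v : Fin g ⊕ Fin g → E d := Sum.elim (fun i => c (e i)) fun i => c (f i)
    have li : LinearIndependent ℝ v := by
      refine Fintype.linearIndependent_iff.2 fun r hr => ?_
      rw [Fintype.sum_sum_type] at hr
      rintro (j | j)
      · have := congrArg (fun z => ps H z (c (f j))) hr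
        simpa [v, p4, p5] using this
      · have := congrArg (fun z => ps H (c (e j)) z) hr
        simpa [v, p3, p5] using this
    have sp : ⊤ ≤ Submodule.span ℝ (Set.range v) := fun z _ => by
      rw [hz z]
      exact Submodule.sub_mem _
        (Submodule.sum_mem _ fun i _ => Submodule.smul_mem _ _
          (Submodule.subset_span ⟨.inl i, rfl⟩))
        (Submodule.sum_mem _ fun i _ => Submodule.smul_mem _ _
          (Submodule.subset_span ⟨.inr i, rfl⟩))
    have h2 := finrank_eq_card_basis (Basis.mk li sp)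
    rw [finrank_real_of_complex] at h2
    simp at h2
    omega
  subst hg
  choose n n0 hn using fun s : Fin g ⊕ Fin g => PoinAux.rat_mem b (Sum.elim e f s)
  have mem : ∀ s, ((∏ s, n s : ℕ) : ℝ) • c (Sum.elim e f s) ∈ A.Λ := fun s => by
    obtain ⟨k, hk⟩ : n s ∣ ∏ s, n s := Finset.dvd_prod_of_mem _ (Finset.mem_univ s)
    rw [hk, mul_comm, Nat.cast_mul, mul_smul, Nat.cast_smul_eq_nsmul]
    exact nsmul_mem (hb ▸ hn s) _
  have m0 : 0 < ∏ s, n s := Finset.prod_pos fun s _ => Nat.pos_of_ne_zero (n0 s)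
  generalize ∏ s, n s = m at mem m0
  refine ⟨m ^ 2, fun i => (m : ℝ) • c (e i), fun i => (m : ℝ) • c (f i), by positivity,
    fun i => mem (.inl i), fun i => mem (.inr i), fun i j => ?_, fun i j => ?_, fun i j => ?_,
    fun z => ?_⟩
  · simp [p3]
  · simp [p4]
  · simp only [map_smul, LinearMap.smul_apply, p5, smul_eq_mul]
    split_ifs <;> simp [sq]
  · conv_lhs => rw [hz z]
    simp only [map_smul, smul_eq_mul, smul_sub, Finset.smul_sum, smul_smul]
    push_cast
    congr 1 <;> exact Finset.sum_congr rfl fun i _ => by congr 1; ring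

theorem comb (t : Fin d → ℂ) (e : Fin d → E d) :
    ∑ i, t i • e i = ∑ i, (t i).re • e i + I • ∑ i, (t i).im • e i := by
  rw [Finset.smul_sum, ← Finset.sum_add_distrib]
  exact Finset.sum_congr rfl fun i _ => by rw [dec (t i), smul_comm I]

theorem sig_symm (h : Law A H) (x y : E d) : ps H x (I • y) = ps H y (I • x) := by
  rw [ps_skew h, ps_I, neg_neg]

theorem ps_II (x y : E d) : ps H (I • x) (I • y) = ps H x y := by
  rw [ps_I, PoinAux.II, map_neg, neg_neg]

end SiegAux

open SiegAux in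
theorem siegS : SiegS := by
  intro d M A
  have h : Law A.toAbVar A.η := A.law
  obtain ⟨n, e, f, n0, he, hf, p3, p4, p5, hz⟩ := sympl h
  have n1 : (0 : ℝ) < n := Nat.cast_pos.2 n0
  have ee : ∀ x y : Fin d → ℝ, ps A.η (∑ i, x i • e i) (∑ i, y i • e i) = 0 := fun x y => by
    simp [p3]
  have ef : ∀ (x : Fin d → ℝ) j, ps A.η (∑ i, x i • e i) (f j) = x j * n := fun x j => by
    simp [p5]
  let T : E d →ₗ[ℂ] E d := Fintype.linearCombination ℂ e
  have hT : ∀ t, T t = ∑ i, t i • e i := fun t => Fintype.linearCombination_apply _ _ _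
  have inj : Function.Injective T := (injective_iff_map_eq_zero _).2 fun t ht => by
    rw [hT, comb] at ht
    have h1 : ∑ i, (t i).im • e i = 0 := by
      by_contra h0
      have := ps_pos h h0
      rw [eq_neg_of_add_eq_zero_right ht, map_neg, ee, neg_zero] at this
      exact lt_irrefl _ this
    rw [h1, smul_zero, add_zero] at ht
    funext j
    have h2 := ef (fun i => (t i).re) j
    have h3 := ef (fun i => (t i).im) j
    rw [ht, map_zero] at h2
    rw [h1, map_zero] at h3
    exact Complex.ext ((mul_eq_zero.1 h2.symm).resolve_right n1.ne')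
      ((mul_eq_zero.1 h3.symm).resolve_right n1.ne')
  let T' : E d ≃ₗ[ℂ] E d := LinearEquiv.ofInjectiveEndo T inj
  let τ : Mat d := fun i j => T'.symm (f j) i
  let P : Fin d → E d := fun j => ∑ i, (τ i j).re • e i
  let Q : Fin d → E d := fun j => ∑ i, (τ i j).im • e i
  have hfe : ∀ j, f j = ∑ i, τ i j • e i := fun j =>
    (T'.apply_symm_apply (f j)).symm.trans (hT _)
  have hPQ : ∀ j, f j = P j + I • Q j := fun j => (hfe j).trans (comb _ _)
  have q1 : ∀ (x : Fin d → ℝ) j, ps A.η (∑ i, x i • e i) (I • Q j) = x j * n := fun x j => by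
    rw [← ef x j, hPQ, map_add, ee, zero_add]
  have hper : ∀ p : Zg d, T (per τ (cst p)) =
      ∑ j, (p (.inl j) : ℝ) • f j + ∑ i, (p (.inr i) : ℝ) • e i := fun p => by
    rw [per, map_add, hT, hT]
    refine congrArg₂ (· + ·) ?_ (Finset.sum_congr rfl fun i _ => ?_)
    · simp only [hfe, app, Matrix.mulVec, dotProduct, Finset.sum_smul, Finset.smul_sum, lft, cst,
        Matrix.of_apply]
      rw [Finset.sum_comm]
      refine Finset.sum_congr rfl fun j _ => Finset.sum_congr rfl fun i _ => ?_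
      rw [mul_comm, mul_smul, Int.cast_smul_eq_zsmul, Int.cast_smul_eq_zsmul]
    · simp only [rgt, cst, Int.cast_smul_eq_zsmul]
  have hb : ∀ (l : E d) (p : Zg d), T'.symm l = per τ (cst p) →
      l = ∑ j, (p (.inl j) : ℝ) • f j + ∑ i, (p (.inr i) : ℝ) • e i := fun l p hp =>
    ((LinearEquiv.symm_apply_eq _).1 hp).trans (hper p)
  refine ⟨d, τ, LinearMap.toContinuousLinearMap T'.symm.toLinearMap, n, n0,
    ⟨fun j k => Complex.ext ?_ ?_, fun x hx => ?_⟩, T'.symm.bijective, fun l p hp => ?_,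
    fun l hl => ?_, fun l l' p p' hp hp' => ?_⟩
  · have h1 := p4 j k
    rw [hPQ j, hPQ k] at h1
    simp only [map_add, LinearMap.add_apply] at h1
    rw [ps_II, ps_I, sig_symm h (Q j), ee, ee, q1, q1] at h1
    exact mul_right_cancel₀ n1.ne' (by linarith)
  · have h1 := sig_symm h (Q j) (Q k)
    rw [q1, q1] at h1
    exact mul_right_cancel₀ n1.ne' h1.symm
  · have h0 : ∑ j, x j • Q j ≠ 0 := fun h0 => hx (funext fun k => by
      have h1 := congrArg (fun z => ps A.η (e k) (I • z)) h0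
      have h2 : ∀ j, ps A.η (e k) (I • Q j) = if k = j then (n : ℝ) else 0 := fun j => by
        rw [← p5 k j, hPQ, map_add]
        simp [P, p3]
      simp only [Finset.smul_sum, smul_comm I, map_sum, map_smul, h2, smul_zero, map_zero] at h1
      simpa [n0.ne'] using h1)
    have h1 := ps_pos h h0
    have h2 : ∀ i j, ps A.η (Q i) (I • Q j) = (τ j i).im * n := fun i j => q1 _ j
    simp only [Finset.smul_sum, smul_comm I, map_sum, map_smul, LinearMap.sum_apply,
      LinearMap.smul_apply, h2, smul_eq_mul] at h1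
    refine (mul_pos_iff_of_pos_right n1).1 (h1.trans_eq ?_)
    simp only [Finset.sum_mul, Finset.mul_sum]
    exact Finset.sum_congr rfl fun _ _ => Finset.sum_congr rfl fun _ _ => by ring
  · rw [hb l p hp]
    simp only [Int.cast_smul_eq_zsmul]
    exact A.Λ.add_mem (A.Λ.sum_mem fun j _ => A.Λ.smul_mem _ (hf j))
      (A.Λ.sum_mem fun j _ => A.Λ.smul_mem _ (he j))
  · choose u hu using fun i => ps_int h hl (he i)
    choose v hv using fun i => ps_int h hl (hf i)
    refine ⟨Sum.elim (fun i => -u i) v, (LinearEquiv.symm_apply_eq _).2 ((Eq.trans ?_ (hz l)).trans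
      (Eq.trans ?_ (hper _).symm))⟩
    · rw [Nat.cast_smul_eq_nsmul, Nat.cast_smul_eq_nsmul]
    · simp only [hu, hv, Sum.elim_inl, Sum.elim_inr, Int.cast_neg, neg_smul,
        Finset.sum_neg_distrib]
      abel
  · have h1 : ps A.η l l' = -n * ((JJ p p' : ℤ) : ℝ) := by
      have h2 : ∀ i j, ps A.η (f i) (e j) = if i = j then -(n : ℝ) else 0 := fun i j => by
        rw [ps_skew h, p5]
        split_ifs with h3 h4 h4
        · rfl
        · exact absurd h3.symm h4
        · exact absurd h4.symm h3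
        · exact neg_zero
      rw [hb l p hp, hb l' p' hp']
      simp only [map_add, map_sum, map_smul, LinearMap.add_apply, LinearMap.sum_apply,
        LinearMap.smul_apply, p3, p4, p5, h2, smul_eq_mul, JJ, lft, rgt, dotProduct]
      simp only [mul_zero, Finset.sum_const_zero, zero_add, add_zero, mul_ite, Finset.sum_ite_eq,
        Finset.sum_ite_eq', Finset.mem_univ, if_true]
      push_cast
      simp only [mul_sub, Finset.mul_sum, ← Finset.sum_add_distrib, ← Finset.sum_sub_distrib]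
      exact Finset.sum_congr rfl fun _ _ => by ring
    rw [ps_eq h l l', h1]
    simp only [JJ, lft, rgt, cst, dotProduct]
    push_cast
    ring

end Pool.Agent.Lib.MP_caab05_ag.NC
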