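import Mathlib
import Pool.Agent.Lib.MP_caab05_ag.NC.One
import Pool.Agent.Lib.MP_caab05_ag.NC.Sieg
import Pool.Agent.Lib.MP_caab05_ag.NC.Graph

/-! Duality for the Riemann form: any number of periods. -/

namespace Pool.Agent.Lib.MP_caab05_ag.NC

open Complex Module
open Pool.Agent.Lib.MP_caab05_ag.LT (E)

/-- the theorem for any number of periods -/
def OneF : Prop :=
  ∀ (d M : ℕ) (A : NV d M) (ν : Type) [Fintype ν] (y : ν → E d) (c : ℂ)
    (F : IntermediateField ℚ ℂ) (t : ℕ), (∀ j, y j ∈ A.Λ) → LinearIndependent ℝ y →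
    (∀ U : Submodule ℂ (E d),
      Submodule.span ℝ ((U : Set (E d)) ∩ A.Λ) = U.restrictScalars ℝ → U ≠ ⊥ → U ≠ ⊤ →
      d * dimIn y U ≤ Fintype.card ν * finrank ℂ U ∧
        (Fintype.card ν = d → d * dimIn y U < Fintype.card ν * finrank ℂ U)) →
    c ≠ 0 → A.Per c F → Algebra.trdeg ℚ F ≤ t →
    Fintype.card ν * (2 * d - Fintype.card ν) ≤
      t * d * (2 * finrank ℂ (Submodule.span ℂ (Set.range y)) - Fintype.card ν)

namespace DualAux

open SiegAux

variable {d M : ℕ}

/-- integral linear equations define a subspace spanned by periods -/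
theorem ker_rat (A : NV d M) {κ : Type} (φ : κ → E d →ₗ[ℝ] ℝ)
    (hφ : ∀ l ∈ A.Λ, ∀ k, ∃ n : ℤ, φ k l = n) {x : E d} (hx : ∀ k, φ k x = 0) :
    x ∈ Submodule.span ℝ {l | (∀ k, φ k l = 0) ∧ l ∈ A.Λ} := by
  obtain ⟨ι, _, b, hb⟩ := LT.exists_basis A.toAbVar
  have hm : ∀ j, b j ∈ A.Λ := fun j => hb ▸ Submodule.subset_span ⟨j, rfl⟩
  choose m hm' using fun j k => hφ _ (hm j) k
  have lin : ∀ (c : ι → ℝ) k, φ k (∑ j, c j • b j) = ∑ j, (m j k : ℝ) * c j := by
    intro c k
    simp only [map_sum, map_smul, smul_eq_mul, hm', mul_comm]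
  let W : Submodule ℚ ℝ := Submodule.span ℚ (Set.range fun j => b.repr x j)
  have : Module.Finite ℚ W := Module.Finite.span_of_finite ℚ (Set.finite_range _)
  let e := Module.finBasis ℚ W
  let w : ι → W := fun j => ⟨b.repr x j, Submodule.subset_span ⟨j, rfl⟩⟩
  have hw : ∀ k, ∑ j, (m j k : ℚ) • w j = 0 := fun k => by
    have h1 := lin (fun j => b.repr x j) k
    rw [b.sum_repr, hx] at h1
    refine Subtype.ext ?_
    simp only [Submodule.coe_sum, Submodule.coe_smul, w, Rat.smul_def, Rat.cast_intCast]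
    exact h1.symm
  have hk : ∀ s k, φ k (∑ j, (e.repr (w j) s : ℝ) • b j) = 0 := fun s k => by
    have h1 := congrArg (fun t => ((e.repr t s : ℚ) : ℝ)) (hw k)
    simp only [map_sum, map_smul, Finsupp.coe_finsetSum, Finset.sum_apply, Finsupp.coe_smul,
      Pi.smul_apply, smul_eq_mul, map_zero, Finsupp.coe_zero, Pi.zero_apply] at h1
    push_cast at h1
    rw [lin]
    exact h1
  have ex : x = ∑ s, (e s : ℝ) • ∑ j, (e.repr (w j) s : ℝ) • b j := by
    simp only [Finset.smul_sum, smul_smul]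
    rw [Finset.sum_comm]
    conv_lhs => rw [← b.sum_repr x]
    refine Finset.sum_congr rfl fun j _ => ?_
    rw [← Finset.sum_smul]
    congr 1
    have h1 := congrArg (fun t : W => (t : ℝ)) (e.sum_repr (w j))
    simp only [Submodule.coe_sum, Submodule.coe_smul, Rat.smul_def] at h1
    refine h1.symm.trans (Finset.sum_congr rfl fun s _ => mul_comm _ _)
  rw [ex]
  refine Submodule.sum_mem _ fun s _ => Submodule.smul_mem _ _ ?_
  obtain ⟨n, n0, hn⟩ := PoinAux.rat_mem b fun j => e.repr (w j) s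
  have n1 : (n : ℝ) ≠ 0 := Nat.cast_ne_zero.2 n0
  rw [← Submodule.smul_mem_iff _ n1]
  exact Submodule.subset_span ⟨fun k => by rw [map_smul, hk, smul_zero], hb ▸ hn⟩

/-- the orthogonal of a real subspace -/
noncomputable def orth (A : NV d M) (Y : Submodule ℝ (E d)) : Submodule ℝ (E d) :=
  LinearMap.BilinForm.orthogonal (ps A.η) Y

theorem mem_orth {A : NV d M} {Y : Submodule ℝ (E d)} {x : E d} :
    x ∈ orth A Y ↔ ∀ v ∈ Y, ps A.η v x = 0 := Iff.rfl

theorem refl (A : NV d M) : LinearMap.IsRefl (ps A.η) := fun x y h => by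
  rw [ps_skew A.law, h, neg_zero]

theorem nd (A : NV d M) : LinearMap.BilinForm.Nondegenerate (ps A.η) :=
  (refl A).nondegenerate_iff_separatingLeft.2 fun x h => by
    by_contra h0
    exact (ps_pos A.law h0).ne' (h _)

theorem rank_orth (A : NV d M) (Y : Submodule ℝ (E d)) :
    finrank ℝ (orth A Y) + finrank ℝ Y = 2 * d := by
  have h1 := LinearMap.BilinForm.finrank_orthogonal (nd A) Y
  have h2 := Y.finrank_le
  have h3 := Module.finrank_mul_finrank ℝ ℂ (E d)
  rw [Complex.finrank_real_complex, finrank_fin_fun] at h3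
  unfold orth
  omega

theorem orth_orth (A : NV d M) (Y : Submodule ℝ (E d)) : orth A (orth A Y) = Y :=
  LinearMap.BilinForm.orthogonal_orthogonal (nd A) (refl A) Y

theorem orth_sup (A : NV d M) (Y Z : Submodule ℝ (E d)) :
    orth A (Y ⊔ Z) = orth A Y ⊓ orth A Z := by
  ext x
  simp only [Submodule.mem_inf, mem_orth, Submodule.mem_sup]
  refine ⟨fun h => ⟨fun v hv => h v ⟨v, hv, 0, Z.zero_mem, add_zero v⟩,
    fun v hv => h v ⟨0, Y.zero_mem, v, hv, zero_add v⟩⟩, ?_⟩
  rintro ⟨h1, h2⟩ _ ⟨a, ha, b, hb, rfl⟩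
  rw [map_add, LinearMap.add_apply, h1 a ha, h2 b hb, add_zero]

theorem orth_rat (A : NV d M) {s : Set (E d)} (hs : ∀ v ∈ s, v ∈ A.Λ) :
    Submodule.span ℝ ((orth A (Submodule.span ℝ s) : Set (E d)) ∩ A.Λ) =
      orth A (Submodule.span ℝ s) := by
  refine le_antisymm (Submodule.span_le.2 fun x hx => hx.1) fun x hx => ?_
  refine Submodule.span_mono (fun l hl => ?_)
    (ker_rat A (fun v : s => ps A.η v) (fun l hl v => ps_int A.law (hs v v.2) hl)
      fun v => hx v (Submodule.subset_span v.2))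
  refine ⟨fun v hv => ?_, hl.2⟩
  have : Submodule.span ℝ s ≤ LinearMap.ker ((ps A.η).flip l) :=
    Submodule.span_le.2 fun v hv => hl.1 ⟨v, hv⟩
  exact this hv

/-- a real subspace which is stable under `I` is a complex subspace -/
def cx (Y : Submodule ℝ (E d)) (h : ∀ x ∈ Y, I • x ∈ Y) : Submodule ℂ (E d) where
  carrier := Y
  zero_mem' := Y.zero_mem
  add_mem' := Y.add_mem
  smul_mem' := fun c x hx => by
    rw [dec]
    exact Y.add_mem (Y.smul_mem _ hx) (Y.smul_mem _ (h x hx))

/-- the orthogonal of a complex subspace -/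
noncomputable def perp (A : NV d M) (U : Submodule ℂ (E d)) : Submodule ℂ (E d) :=
  cx (orth A (U.restrictScalars ℝ)) fun x hx v hv => by
    have h1 := hx (I • v) (U.smul_mem _ hv)
    rw [ps_I, neg_eq_zero] at h1
    exact h1

theorem perp_res (A : NV d M) (U : Submodule ℂ (E d)) :
    (perp A U).restrictScalars ℝ = orth A (U.restrictScalars ℝ) := rfl

theorem rank_perp (A : NV d M) (U : Submodule ℂ (E d)) :
    finrank ℂ (perp A U) + finrank ℂ U = d := by
  have h := rank_orth A (U.restrictScalars ℝ)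
  rw [← perp_res, GraphAux.rank_real, GraphAux.rank_real] at h
  omega

end DualAux

open DualAux SiegAux

theorem oneF (h : OneN) : OneF := by
  intro d M A ν _ y c F t hy hi hst hc hF ht
  rcases le_or_gt d (Fintype.card ν) with hd | hd
  · exact h d M A ν y c F t hy hi hd hst hc hF ht
  obtain ⟨Y, hY⟩ : ∃ Y, Y = Submodule.span ℝ (Set.range y) := ⟨_, rfl⟩
  have rY : finrank ℝ Y = Fintype.card ν := hY ▸ finrank_span_eq_card hi
  have r1 := rank_orth A Y
  have r2 : Submodule.span ℝ ((orth A Y : Set (E d)) ∩ A.Λ) = orth A Y :=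
    hY ▸ orth_rat A (by rintro _ ⟨j, rfl⟩; exact hy j)
  obtain ⟨b, b1, b2, b3⟩ := Submodule.exists_fun_fin_finrank_span_eq ℝ
    ((orth A Y : Set (E d)) ∩ A.Λ)
  have r3 : Fintype.card (Fin (finrank ℝ (Submodule.span ℝ ((orth A Y : Set (E d)) ∩ A.Λ)))) +
      Fintype.card ν = 2 * d := by rw [Fintype.card_fin, r2, ← rY, r1]
  have b2' := b2.trans r2
  have key := h d M A _ b c F t (fun j => (b1 j).2) b3 (by omega) (fun U hU u0 u1 => ?_) hc hF ht
  · obtain ⟨J, hJ⟩ : ∃ J : E d ≃ₗ[ℝ] E d, ∀ x, J x = I • x :=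
      ⟨(LinearEquiv.smulOfNeZero ℂ (E d) I I_ne_zero).restrictScalars ℝ, fun _ => rfl⟩
    let C := cx (Y ⊓ Y.comap J.toLinearMap) fun x hx => ⟨hJ x ▸ hx.2, by
      show J (I • x) ∈ Y
      rw [hJ, PoinAux.II]
      exact Y.neg_mem hx.1⟩
    have c1 := Submodule.finrank_sup_add_finrank_inf_eq Y (Y.comap J.toLinearMap)
    have c2 : finrank ℝ (Y.comap J.toLinearMap) = finrank ℝ Y := by
      rw [← LinearEquiv.finrank_map_eq J, Submodule.map_comap_eq_of_surjective J.surjective]
    have c3 : finrank ℝ ↥(Y ⊓ Y.comap J.toLinearMap) = 2 * finrank ℂ C := GraphAux.rank_real C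
    have c4 : Y ≤ (Submodule.span ℂ (Set.range y)).restrictScalars ℝ :=
      hY ▸ Submodule.span_le.2 Submodule.subset_span
    have c5 := Submodule.finrank_mono (sup_le c4 (fun x hx => by
      have h1 : I • x ∈ Submodule.span ℂ (Set.range y) := hJ x ▸ c4 hx
      exact ((Submodule.span ℂ (Set.range y)).smul_mem_iff I_ne_zero).1 h1) :
        Y ⊔ Y.comap J.toLinearMap ≤ (Submodule.span ℂ (Set.range y)).restrictScalars ℝ)
    rw [GraphAux.rank_real] at c5
    have c6 := Submodule.finrank_mono (Submodule.span_le.2 (by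
      rintro _ ⟨j, rfl⟩ v hv
      exact (b1 j).1 v hv.1) : Submodule.span ℂ (Set.range b) ≤ perp A C)
    have c7 := rank_perp A C
    generalize Fintype.card (Fin (finrank ℝ
      (Submodule.span ℝ ((orth A Y : Set (E d)) ∩ A.Λ)))) = l at key r3
    rw [show 2 * d - l = Fintype.card ν by omega, mul_comm l,
      show l = 2 * d - Fintype.card ν by omega] at key
    exact key.trans (Nat.mul_le_mul_left _ (by omega))
  · have p1 := rank_perp A U
    have p2 : 0 < finrank ℂ U := Nat.pos_of_ne_zero fun e => u0 (Submodule.finrank_eq_zero.1 e)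
    have p3 := Submodule.finrank_lt u1
    rw [finrank_fin_fun] at p3
    have p4 := (hst (perp A U) (by
      have := orth_rat A (s := (U : Set (E d)) ∩ A.Λ) fun v hv => hv.2
      rwa [hU] at this) (fun e => by rw [e, finrank_bot] at p1; omega)
      (fun e => by rw [e, finrank_top, finrank_fin_fun] at p1; omega)).1
    have p5 := rank_orth A ((perp A U).restrictScalars ℝ ⊔ Y)
    rw [orth_sup, perp_res, orth_orth, ← perp_res] at p5
    have p6 := Submodule.finrank_sup_add_finrank_inf_eq ((perp A U).restrictScalars ℝ) Y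
    rw [GraphAux.rank_real] at p6
    have p7 : dimIn b U = finrank ℝ ↥(U.restrictScalars ℝ ⊓ orth A Y) := by
      unfold dimIn
      rw [b2']
    have p8 : dimIn y (perp A U) = finrank ℝ ↥((perp A U).restrictScalars ℝ ⊓ Y) := by
      unfold dimIn
      rw [hY]
    generalize Fintype.card (Fin (finrank ℝ
      (Submodule.span ℝ ((orth A Y : Set (E d)) ∩ A.Λ)))) = l at r3 ⊢
    refine ⟨?_, fun e => by omega⟩
    have p9 : dimIn b U + Fintype.card ν = 2 * finrank ℂ U + dimIn y (perp A U) := by omega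
    generalize dimIn b U = x at p9 ⊢
    generalize dimIn y (perp A U) = x' at p4 p9
    generalize finrank ℂ (perp A U) = u' at p1 p4
    generalize finrank ℂ U = u at p1 p9 ⊢
    have q1 : d * (x + Fintype.card ν) = d * (2 * u + x') := by rw [p9]
    have q2 : (l + Fintype.card ν) * u = 2 * d * u := by rw [r3]
    have q3 : Fintype.card ν * (u' + u) = Fintype.card ν * d := by rw [p1]
    nlinarith

end Pool.Agent.Lib.MP_caab05_ag.NC
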