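import Mathlib
import Pool.Agent.Lib.MP_caab05_ag.NC.Stmt2
import Pool.Agent.Lib.MP_caab05_ag.CM.Jet
import Pool.Agent.Lib.MP_caab05_ag.CM.Hom
import Pool.Agent.Lib.MP_caab05_ag.GB.Var
import Pool.Agent.Lib.MP_caab05_ag.LT.Pow

/-! Twists of normalised theta functions and of functions algebraic over them. -/

namespace Pool.Agent.Lib.MP_caab05_ag.NC

open MvPolynomial Filter Topology Asymptotics Complex Matrix
open Pool.Agent.Lib.MP_caab05_ag.LT (E)
open Pool.Agent.Lib.MP_caab05_ag.GB
open Pool.Agent.Lib.MP_caab05_ag.GB.HomAux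

namespace ModAux

variable {d M g : ℕ}

lemma anal {f : V d → ℂ} (hf : Differentiable ℂ f) (z : V d) : AnalyticAt ℂ f z :=
  osg _ _ f Set.univ isOpen_univ hf.differentiableOn z trivial

/-- a function whose derivatives at the origin are algebraic is rigid -/
lemma tw_of_jets {f : V d → ℂ} (hf : Differentiable ℂ f) (h : ∀ (j : ℕ) (k : Fin j → Fin d),
    IsAlgebraic ℚ (iteratedFDeriv ℂ j f 0 fun i => Pi.single (k i) 1)) (D : Der) :
    Tw D f fun _ => 0 := by
  intro j
  obtain ⟨p, r, hp⟩ := anal hf 0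
  refine ⟨∑ n ∈ Finset.range j, ∑ k : Fin n → Fin d, (∏ i, X (k i)) *
    C (iteratedFDeriv ℂ n f 0 (fun i => Pi.single (k i) 1) / n.factorial),
    (hp.hasFPowerSeriesAt.isBigO_sub_partialSum_pow j).congr_left fun u => ?_, ?_⟩
  · rw [zero_add, map_sum, FormalMultilinearSeries.partialSum]
    congr 1
    refine Finset.sum_congr rfl fun n _ => ?_
    have h1 := hp.factorial_smul u n
    have h2 : (n.factorial : ℂ) ≠ 0 := Nat.cast_ne_zero.2 n.factorial_ne_zero
    rw [nsmul_eq_mul] at h1
    rw [eq_div_of_mul_eq h2 ((mul_comm _ _).trans h1)]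
    conv_lhs => rw [pi_eq_sum_univ' u]
    rw [ContinuousMultilinearMap.map_sum, map_sum, Finset.sum_div]
    refine Finset.sum_congr rfl fun k _ => ?_
    rw [ContinuousMultilinearMap.map_smul_univ]
    simp [mul_div_assoc]
  · have h0 : ∀ P : MvPolynomial (Fin d) ℂ, LT.AlgCoeff P → cD D P = 0 := fun P hP => by
      ext m
      rw [pol.coeff_cD, coeff_zero]
      exact pol.D_alg D _ (hP m)
    rw [h0]
    · simpa using isBigO_zero _ _
    · intro m
      simp only [coeff_sum, mul_comm _ (C _), coeff_C_mul]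
      refine LT.PowAux.alg_num_sum _ fun n => LT.PowAux.alg_num_sum _ fun k => ?_
      rw [div_eq_mul_inv]
      exact ((h n k).mul (isAlgebraic_natCast _).inv).mul
        (LT.PowAux.alg_prod (fun i => LT.PowAux.alg_X (k i)) m)

lemma th' (A : LT.AbVar d M) (a : Fin (M + 1)) : Differentiable ℂ fun z => A.θ z a :=
  differentiable_pi.1 A.holo a

lemma tw_th (A : NV d M) (D : Der) (a : Fin (M + 1)) : Tw D (fun z => A.θ z a) fun _ => 0 := by
  have h1 := twc'.mul _ D _ _ _ _ (CM.jetS d M A.toAbVar D a)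
    (tw_of_jets (th' A.toAbVar 0) A.jets D)
  refine twc'.congr _ D _ _ _ _ h1 ?_ (Eventually.of_forall fun z => by simp)
  filter_upwards [(th' A.toAbVar 0).continuous.continuousAt.eventually_ne A.origin] with z hz
  exact div_mul_cancel₀ _ hz

/-- the twist of a quotient of two functions with the same factor is periodic -/
theorem wron (A : NV d M) (D : Der) {β : Type} [Fintype β] {Y : V d → β → ℂ}
    (hY : Differentiable ℂ Y) (hne : ∀ z, Y z ≠ 0) {N : ℕ}
    (he : ∀ l ∈ A.Λ, ∀ z, ∃ e : ℂ, Y (z + (N : ℂ) • l) = e • Y z) (hN : 0 < N)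
    (t : Fin 2 → β) (h0 : Y 0 (t 0) ≠ 0) {G G' : V d → Fin 2 → ℂ} (hG : Differentiable ℂ G)
    (hG' : Differentiable ℂ G') (hTw : ∀ b, Tw D (fun z => Y z (t b)) fun z => G z b) {l : V d}
    (hl : l ∈ A.Λ) (h : ∀ z, ∃ e s : ℂ, e ≠ 0 ∧ Y (z + l) = e • Y z ∧
      G (z + l) = e • (G z + s • (fun b => Y z (t b)) + G' z)) (z : V d) :
    Y z (t 0) * G' z 1 - Y z (t 1) * G' z 0 = 0 := by
  obtain ⟨R, hR⟩ := LT.exists_fund A.toAbVar
  have hθ := A.holo
  have hN' : (N : ℂ) ≠ 0 := Nat.cast_ne_zero.2 hN.ne'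
  have hc : Charts (ι := Unit) (fun _ => (Set.univ : Set (Fin d → ℂ)))
      (fun _ => Metric.closedBall 0 (N * R)) (fun _ => A.θ) (fun _ => Y) :=
    { op := fun _ => isOpen_univ
      cpt := fun _ => isCompact_closedBall _ _
      sub := fun _ => Set.subset_univ _
      holX := fun _ => hθ.differentiableOn
      holY := fun _ => hY.differentiableOn
      neX := fun _ p _ => A.ne_zero p
      neY := fun _ p _ => hne p
      mtch := fun _ u _ => by
        obtain ⟨l, h1, h2⟩ := hR ((N : ℂ)⁻¹ • u)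
        obtain ⟨e, h3⟩ := he l h1 (u - (N : ℂ) • l)
        obtain ⟨b, h4⟩ := A.law ((N : ℂ) • l)
          (by rw [Nat.cast_smul_eq_nsmul]; exact nsmul_mem h1 N)
        refine subset_closure ⟨Set.mem_univ _, (), u - (N : ℂ) • l,
          mem_closedBall_zero_iff.2 ?_, _, e, by rw [← h4, sub_add_cancel],
          by rw [← h3, sub_add_cancel]⟩
        rw [← smul_inv_smul₀ hN' u, ← smul_sub, norm_smul, Complex.norm_natCast]
        exact mul_le_mul_of_nonneg_left h2 N.cast_nonneg }
  obtain ⟨Q, k, k', hQ, hz, u0, -, hu0⟩ := rel' _ _ _ _ _ _ _ _ hc () t isPreconnected_univ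
    ⟨0, Set.mem_univ _, A.ne_zero 0, CM.HomAux.imm A.toAbVar⟩ ⟨0, Set.mem_univ _, h0⟩
  let y : V d → Fin 2 → ℂ := fun z b => Y z (t b)
  have hy : Differentiable ℂ y := differentiable_pi.2 fun b => differentiable_pi.1 hY _
  let F : V d → Fin (M + 1) ⊕ Fin 2 → ℂ := fun z => Sum.elim (A.θ z) (y z)
  have hF : Differentiable ℂ F := diff_elim hθ hy
  have hz' : ∀ z, eval (F z) Q = 0 := fun z => hz z (Set.mem_univ _)
  have hE : Differentiable ℂ fun z => eval (F z) (cD D Q) + dP Q (F z) (Sum.elim 0 (G z)) :=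
    (diff_ev pol _ hF).add (diff_dP pol Q hF (diff_elim (differentiable_const _) hG))
  have hA := osg _ _ _ Set.univ isOpen_univ hE.differentiableOn
  have hp := twc'.poly _ _ D F (fun z => Sum.elim 0 (G z)) Q (by
    rintro (i | b)
    · exact tw_th A D i
    · exact hTw b)
  have hu := twc'.uniq _ D _ _ _ (twc'.congr _ D _ _ _ _ hp (Eventually.of_forall hz')
    (Eventually.of_forall fun z => rfl)) (twc'.const _ D 0) (hA 0 (Set.mem_univ _)) analyticAt_const
  rw [map_zero] at hu
  have hE0 : ∀ z, eval (F z) (cD D Q) + dP Q (F z) (Sum.elim 0 (G z)) = 0 := fun z =>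
    hA.eqOn_zero_of_preconnected_of_eventuallyEq_zero isPreconnected_univ (Set.mem_univ 0) hu
      (Set.mem_univ z)
  have key : ∀ z, dP Q (F z) (Sum.elim 0 (G' z)) = 0 := by
    intro z
    obtain ⟨b, hb⟩ := A.law l hl
    obtain ⟨e, s, e0, e1, e2⟩ := h z
    obtain ⟨ε, hε⟩ : ∃ ε, ε = cexp (A.η l ⬝ᵥ z + b) := ⟨_, rfl⟩
    have hε0 : ε ≠ 0 := hε ▸ Complex.exp_ne_zero _
    have eF : F (z + l) = Sum.elim (ε • A.θ z) (e • y z) := by
      simp only [F, y, hb z, e1, hε]
      rfl
    have eG : (Sum.elim 0 (G (z + l)) : Fin (M + 1) ⊕ Fin 2 → ℂ) =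
        Sum.elim (ε • (0 : Fin (M + 1) → ℂ)) (e • (G z + s • y z + G' z)) := by
      rw [e2, smul_zero]
    have h1 := hE0 (z + l)
    rw [eF, eG, pol.bih_dP _ _ Q k k' hQ, pol.bih_eval _ _ _ k k' (pol.bih_cD _ _ D Q k k' hQ),
      ← mul_add] at h1
    have h2 := (mul_eq_zero.1 h1).resolve_left
      (mul_ne_zero (pow_ne_zero _ hε0) (pow_ne_zero _ e0))
    have e3 : (Sum.elim 0 (G z + s • y z + G' z) : Fin (M + 1) ⊕ Fin 2 → ℂ) =
        Sum.elim (0 : Fin (M + 1) → ℂ) (G z) + Sum.elim ((0 : ℂ) • A.θ z) (s • y z) +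
          Sum.elim (0 : Fin (M + 1) → ℂ) (G' z) := by
      funext j
      rcases j with i | b <;> simp
    rw [e3, pol.dP_add, pol.dP_add, pol.euler _ _ Q k k' hQ, hz', mul_zero, add_zero] at h2
    linear_combination h2 - hE0 z
  exact zero_of_mul osg (f := fun u => eval (F u) (pderiv (Sum.inr 1) Q))
    (k := fun u => y u 0 * G' u 1 - y u 1 * G' u 0) (diff_ev pol _ hF)
    (((differentiable_pi.1 hy 0).mul (differentiable_pi.1 hG' 1)).sub
      ((differentiable_pi.1 hy 1).mul (differentiable_pi.1 hG' 0)))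
    (fun u => pol.wronski _ Q k k' hQ _ _ _ (hz' u) (key u)) hu0 z

/-- the theta model of an isogenous torus does not move -/
theorem still (A : NV d M) {τ : Mat g} (hτ : Sg τ) (b : V d →L[ℂ] V g) {N : ℕ} (hN : 0 < N)
    (hb : Function.Bijective b) (h1 : ∀ (l : V d) (p : Zg g), b l = per τ (cst p) → l ∈ A.Λ)
    (h2 : ∀ l ∈ A.Λ, ∃ p : Zg g, b ((N : ℂ) • l) = per τ (cst p)) (D : Der) :
    ∃ M' N' c, IsTw D τ M' 0 N' c ∧
      ∀ k, (fun i => D (b (Pi.single k 1) i)) = -app M' (b (Pi.single k 1)) := by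
  obtain ⟨M', K, N', c, hT⟩ := twM' g D τ hτ
  let S := CM.HomAux.SL D M' b.toLinearMap
  have hS : Differentiable ℂ S := (LinearMap.toContinuousLinearMap S).differentiable
  have hθ := (law'.holu g τ hτ).1
  have hdu : ∀ {v : V d → V g}, Differentiable ℂ v → Differentiable ℂ fun z => du τ (b z) (v z) :=
    fun hv => (law'.holu g τ hτ).2.comp (b.differentiable.prodMk hv)
  have key : ∀ (l : V d) (p : Zg g), b l = per τ (cst p) → S l = app K (lft (cst p)) := by
    intro l p hp
    obtain ⟨t0, ht0⟩ := Function.ne_iff.1 (geo'.nz g τ hτ 0)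
    refine sub_eq_zero.1 (xhol'.neom' g τ _ t0 hτ ht0 fun t1 => ?_)
    have h3 := wron A D (Y := fun z => th τ (b z)) (hθ.comp b.differentiable)
      (fun z => geo'.nz g τ hτ _) (fun l hl z => by
        obtain ⟨p, hp⟩ := h2 l hl
        exact ⟨_, by rw [map_add, hp, shift0 law' hτ]⟩) hN ![t0, t1] (by simpa using ht0)
      (G := fun z i => (du τ (b z) (S z) + dK τ K (b z) +
        (b z ⬝ᵥ app N' (b z) + c) • th τ (b z)) (![t0, t1] i))
      (G' := fun z i => du τ (b z) (S l - app K (lft (cst p))) (![t0, t1] i))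
      (differentiable_pi.2 fun i => differentiable_pi.1 (((hdu hS).add
        ((law'.holK g τ K hτ).comp b.differentiable)).add (Differentiable.smul (by
          have := (app_diff N').comp b.differentiable
          exact (Differentiable.fun_sum (u := Finset.univ) fun i _ => (differentiable_pi.1 b.differentiable i).mul
            (differentiable_pi.1 this i)).add_const c) (hθ.comp b.differentiable))) _)
      (differentiable_pi.2 fun i => differentiable_pi.1 (hdu (differentiable_const _)) _)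
      (fun i => by
        refine twc'.congr _ D _ _ _ _ (twc'.comp _ _ D _ _ b.toLinearMap (aD D b.toLinearMap)
          (hT.2 (![t0, t1] i)) (anal (differentiable_pi.1 hθ _) 0) (map_zero _)
          (tw_lin twc' D b.toLinearMap)) (Eventually.of_forall fun u => rfl)
          (Eventually.of_forall fun u => ?_)
        simp only [fderiv_comp_apply law' hτ, S, CM.HomAux.SL_apply, du_add, Pi.add_apply,
          Pi.smul_apply, smul_eq_mul, ContinuousLinearMap.coe_coe]
        ring) (h1 l p hp)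
      (fun z => by
        obtain ⟨s, hs⟩ := shift1 law' hτ hT.1 p (b z) (S (z + l))
        refine ⟨ee τ ((4 : ℤ) • p) (b z), s + b (z + l) ⬝ᵥ app N' (b (z + l)) -
          b z ⬝ᵥ app N' (b z), Complex.exp_ne_zero _, by rw [map_add, hp, shift0 law' hτ], ?_⟩
        funext i
        have h4 : b (z + l) = b z + per τ (cst p) := by rw [map_add, hp]
        rw [h4, hs, shift0 law' hτ, map_add, add_sub_assoc, du_add]
        simp only [Pi.add_apply, Pi.smul_apply, smul_eq_mul]
        ring) 0
    simpa [om] using h3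
  have hS0 : S = 0 := by
    have h3 : ∀ j, S ((Equiv.ofBijective b hb).symm (Pi.single j 1)) = 0 := fun j => by
      rw [key _ (Sum.elim 0 (Pi.single j 1))]
      · have : lft (cst (Sum.elim (0 : Fin g → ℤ) (Pi.single j 1))) = 0 := funext fun i => by
          simp [lft, cst]
        rw [this]
        exact Matrix.mulVec_zero _
      · rw [show b ((Equiv.ofBijective b hb).symm (Pi.single j 1)) = Pi.single j 1 from
          (Equiv.ofBijective b hb).apply_symm_apply _, ← VarAux.per_surj τ (Pi.single j 1)]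
        congr 1
        funext i
        rcases i with i | i <;> simp [cst, Pi.single_apply]
    refine LinearMap.ext fun z => ?_
    have h4 : z = ∑ j, b z j • (Equiv.ofBijective b hb).symm (Pi.single j 1) := hb.1 (by
      rw [map_sum]
      conv_lhs => rw [pi_eq_sum_univ' (b z)]
      exact Finset.sum_congr rfl fun j _ => by
        rw [map_smul, show b ((Equiv.ofBijective b hb).symm (Pi.single j 1)) = Pi.single j 1 from
          (Equiv.ofBijective b hb).apply_symm_apply _])
    rw [h4, map_sum]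
    simp [h3]
  have hK : K = 0 := by
    funext i j
    obtain ⟨l, hl⟩ := hb.2 (per τ (cst (Sum.elim (Pi.single j 1) 0)))
    have h3 := congrFun (key l _ hl) i
    rw [hS0, app_apply, Finset.sum_eq_single j (fun k _ hk => by simp [lft, cst, hk])
      (by simp)] at h3
    simpa [lft, cst] using h3.symm
  subst hK
  refine ⟨M', N', c, hT, fun k => funext fun i => ?_⟩
  have h3 := congrFun (LinearMap.congr_fun hS0 (Pi.single k 1)) i
  rw [CM.HomAux.SL_apply, Pi.add_apply, aD_apply,
    Finset.sum_eq_single k (fun j _ hj => by simp [hj]) (by simp)] at h3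
  exact eq_neg_of_add_eq_zero_right (by simpa using h3)

end ModAux

end Pool.Agent.Lib.MP_caab05_ag.NC
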