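import Mathlib
import Pool.Agent.Lib.MP_caab05_ag.NC.Wron
import Pool.Agent.Lib.MP_caab05_ag.WZ.VarA
import Pool.Agent.Lib.MP_caab05_ag.WZ.VarB
import Pool.Agent.Lib.MP_caab05_ag.WZ.Var3
import Pool.Agent.Lib.MP_caab05_ag.WZ.QTw

/-! A model with an addition formula for an isogenous abelian variety. -/

namespace Pool.Agent.Lib.MP_caab05_ag.NC

open MvPolynomial Filter Topology Asymptotics Complex Matrix
open Pool.Agent.Lib.MP_caab05_ag.LT (E AlgCoeff)
open Pool.Agent.Lib.MP_caab05_ag.ZE (VX)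
open Pool.Agent.Lib.MP_caab05_ag.WZ (Arith qd)
open Pool.Agent.Lib.MP_caab05_ag.GB
open Pool.Agent.Lib.MP_caab05_ag.GB.HomAux

namespace ModAux

variable {d M g : ℕ}

open WZ.VarBAux VarAux in
/-- the theta functions of level four multiplied by the exponential of a quadratic form -/
theorem var {τ : Mat g} (b : V d →L[ℂ] V g) (a₀ : Ix g) (Q : Fin d → Fin d → ℂ)
    (H : V d →ₗ[ℝ] V d) (β : V d → ℂ) (S : Set (MvPolynomial (Ix g) ℂ)) (hτ : Sg τ)
    (hb : Function.Bijective b) (h0 : th τ 0 a₀ ≠ 0)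
    (halg : ∀ a, IsAlgebraic ℚ (th τ 0 a / th τ 0 a₀))
    (htan : ∀ a j, IsAlgebraic ℚ (om τ (b (Pi.single j 1)) (a, a₀) / th τ 0 a₀ ^ 2))
    (hS : ∀ P ∈ S, (∃ k, P.IsHomogeneous k) ∧ AlgCoeff P)
    (hz : {x | ∀ P ∈ S, eval x P = 0} = {x | ∃ (c : ℂ) (z : V g), x = c • th τ z})
    (hlaw : ∀ (p : Zg g) (l z : V d), b l = per τ (cst p) →
      ee τ ((4 : ℤ) • p) (b z) * cexp (qd Q (z + l) - qd Q z) = cexp (H l ⬝ᵥ z + β l)) :
    ∃ (M : ℕ) (σ : Fin (M + 1) ≃ Ix g) (A : VX d M), σ 0 = a₀ ∧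
      (∀ y, y ∈ A.Λ ↔ ∃ p : Zg g, b y = per τ (cst p)) ∧
      (∀ z i, A.θ z i = cexp (qd Q z) / th τ 0 a₀ * th τ (b z) (σ i)) ∧
      (∀ x, A.H x = H x) ∧ ∀ a a', AlgCoeff (A.B a a') := by
  obtain ⟨M, σ, hσ⟩ := exists_equiv a₀
  obtain ⟨B, hB⟩ := add' g τ hτ
  have hd := (law'.holu g τ hτ).1
  have hR : Function.Bijective (perR τ) := law'.per_real g τ hτ
  have hnz := geo'.nz g τ hτ
  subst hσ
  have hL : ∀ l ∈ lat τ b, ∀ z, tt τ b σ Q (th τ 0 (σ 0)) (z + l) =
      cexp (H l ⬝ᵥ z + β l) • tt τ b σ Q (th τ 0 (σ 0)) z := by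
    rintro l ⟨p, hp⟩ z
    rw [tt_law hτ b σ Q _ p l z hp, hlaw p l z hp]
  have hq : ∀ i, (fun z => tt τ b σ Q (th τ 0 (σ 0)) z i / tt τ b σ Q (th τ 0 (σ 0)) z 0) =
      fun z => th τ (b z) (σ i) / th τ (b z) (σ 0) :=
    fun i => funext fun z => tt_div τ b σ Q h0 z i 0
  have hq' : (fun z i => tt τ b σ Q (th τ 0 (σ 0)) z i / tt τ b σ Q (th τ 0 (σ 0)) z 0) =
      fun z i => th τ (b z) (σ i) / th τ (b z) (σ 0) :=
    funext fun z => funext fun i => tt_div τ b σ Q h0 z i 0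
  refine ⟨M, σ,
    { Λ := lat τ b
      discrete := lat_discrete τ b hb.1 hR
      span_top := lat_span τ b hb hR
      θ := tt τ b σ Q (th τ 0 (σ 0))
      holo := tt_diff hd b σ Q _
      ne_zero := tt_ne hnz b σ Q h0
      theta := fun l hl => ⟨dotL (H l), β l, hL l hl⟩
      inj := tt_inj hτ b σ Q h0
      image := ?_
      add := tt_add hnz hB b σ Q h0 halg
      origin := ?_
      origin_alg := ?_
      tangent_alg := ?_
      immersion := ?_
      H := H
      β := β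
      law := hL
      B := bb σ (th τ 0 (σ 0)) B
      scal := bb_scal hB σ _
      add2 := tt_add2 hB b σ Q h0 },
    rfl, fun _ => Iff.rfl, fun _ _ => rfl, fun _ => rfl, bb_alg hB σ h0 halg⟩
  · rw [← tt_cone τ b σ Q h0]
    exact image_law b hb.2 σ hS hz
  · refine mul_ne_zero (sf_ne Q h0 0) ?_
    show th τ (b 0) (σ 0) ≠ 0
    rw [map_zero]
    exact h0
  · intro i
    rw [tt_div τ b σ Q h0, map_zero]
    exact halg _
  · intro i j
    rw [hq, (quot_deriv hd b (σ i) (σ 0) h0).2 (Pi.single j 1)]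
    exact htan (σ i) j
  · rw [hq']
    refine (injective_iff_map_eq_zero _).2 fun w hw => ?_
    rw [fderiv_pi fun i => (quot_deriv hd b (σ i) (σ 0) h0).1] at hw
    refine hb.1 ((xhol'.neom' g τ (b w) (σ 0) hτ h0 fun a => ?_).trans b.map_zero.symm)
    have h1 : fderiv ℂ (fun z => th τ (b z) (σ (σ.symm a)) / th τ (b z) (σ 0)) 0 w = 0 :=
      congrFun hw (σ.symm a)
    rw [σ.apply_symm_apply, (quot_deriv hd b a (σ 0) h0).2 w] at h1
    exact (div_eq_zero_iff.1 h1).resolve_right (pow_ne_zero 2 h0)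

/-- a real bilinear form which vanishes on a lattice vanishes -/
lemma bil {L : Set (V d)} (hL : Submodule.span ℝ L = ⊤) (T : V d →ₗ[ℝ] V d) (ε : ℂ)
    (h : ∀ x ∈ L, ∀ y ∈ L, T x ⬝ᵥ y = ε * (T y ⬝ᵥ x)) (x y : V d) :
    T x ⬝ᵥ y = ε * (T y ⬝ᵥ x) := by
  have hx : x ∈ Submodule.span ℝ L := hL ▸ Submodule.mem_top
  have hy : y ∈ Submodule.span ℝ L := hL ▸ Submodule.mem_top
  induction hx, hy using Submodule.span_induction₂ with
  | mem_mem x y hx hy => exact h x hx y hy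
  | zero_left => simp
  | zero_right => simp
  | add_left x y z _ _ _ h1 h2 => rw [map_add, add_dotProduct, dotProduct_add, h1, h2, mul_add]
  | add_right x y z _ _ _ h1 h2 => rw [map_add, add_dotProduct, dotProduct_add, h1, h2, mul_add]
  | smul_left r x y _ _ h1 => rw [map_smul, smul_dotProduct, dotProduct_smul, h1, mul_smul_comm]
  | smul_right r x y _ _ h1 => rw [map_smul, smul_dotProduct, dotProduct_smul, h1, mul_smul_comm]

lemma qd_sym (T : V d →ₗ[ℝ] V d) (h : ∀ x y, T x ⬝ᵥ y = T y ⬝ᵥ x) (z : V d) :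
    qd (fun k l => T (Pi.single k 1) l / 2) z = T z ⬝ᵥ z / 2 := by
  rw [qd, dotProduct, Finset.sum_div]
  refine Finset.sum_congr rfl fun k _ => ?_
  have h1 := h z (Pi.single k 1)
  rw [dotProduct_single, mul_one] at h1
  rw [h1, dotProduct, Finset.sum_mul, Finset.sum_div]
  exact Finset.sum_congr rfl fun l _ => by ring

/-- the quadratic form which gives the prescribed factor of automorphy -/
theorem exists_Q {τ : Mat g} (hτ : Sg τ) (b : V d →L[ℂ] V g) (hb : Function.Bijective b)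
    (H : V d →ₗ[ℝ] V d) (hH : ∀ (l l' : V d) (p p' : Zg g), b l = per τ (cst p) →
      b l' = per τ (cst p') → H l ⬝ᵥ l' - H l' ⬝ᵥ l = -(8 * Real.pi * I) * JJ (cst p) (cst p')) :
    ∃ Q, ∀ (p : Zg g) (l z : V d), b l = per τ (cst p) →
      ee τ ((4 : ℤ) • p) (b z) * cexp (qd Q (z + l) - qd Q z) = cexp (H l ⬝ᵥ z + H l ⬝ᵥ l / 2) := by
  have hR : Function.Bijective (VarAux.perR τ) := law'.per_real g τ hτ
  let R := (LinearEquiv.ofBijective _ hR).symm
  let T : V d →ₗ[ℝ] V d :=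
    { toFun := fun x k => H x k + 8 * Real.pi * I * ∑ i, b (Pi.single k 1) i * R (b x) (.inl i)
      map_add' := fun x y => funext fun k => by
        simp only [map_add, Pi.add_apply, ofReal_add, mul_add, Finset.sum_add_distrib]
        ring
      map_smul' := fun r x => funext fun k => by
        simp only [map_smul, b.map_smul_of_tower, Pi.smul_apply, smul_eq_mul, ofReal_mul,
          RingHom.id_apply, real_smul, mul_add, Finset.mul_sum]
        congr 1
        exact Finset.sum_congr rfl fun i _ => by ring }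
  have hT : ∀ (l z : V d) (p : Zg g), b l = per τ (cst p) →
      T l ⬝ᵥ z = H l ⬝ᵥ z + 8 * Real.pi * I * (b z ⬝ᵥ lft (cst p)) := by
    intro l z p hp
    have h1 : R (b l) = fun i => (p i : ℝ) := by
      rw [hp, ← VarAux.perR_int]
      exact (LinearEquiv.ofBijective _ hR).symm_apply_apply _
    have h2 : ∀ i, b z i = ∑ j, b (Pi.single j 1) i * z j := a_apply b.toLinearMap z
    simp only [T, LinearMap.coe_mk, AddHom.coe_mk, h1, dotProduct, add_mul, h2,
      Finset.sum_add_distrib, Finset.mul_sum, Finset.sum_mul, lft, cst, ofReal_intCast]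
    rw [Finset.sum_comm (f := fun i j => _ * (b (Pi.single j 1) i * z j * _))]
    congr 1
    exact Finset.sum_congr rfl fun k _ => Finset.sum_congr rfl fun i _ => by ring
  have hs : ∀ x y, T x ⬝ᵥ y = T y ⬝ᵥ x := fun x y => by
    rw [bil (VarAux.lat_span τ b hb hR) T 1 _ x y, one_mul]
    rintro l ⟨p, hp⟩ l' ⟨p', hp'⟩
    rw [hT l l' p hp, hT l' l p' hp', hp, hp', WZ.VarAAux.per_dot hτ.1 (cst p) (cst p')]
    linear_combination hH l l' p p' hp hp'
  refine ⟨fun k l => T (Pi.single k 1) l / 2, fun p l z hp => ?_⟩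
  rw [qd_sym T hs, qd_sym T hs, WZ.VarAAux.ee_four, ← Complex.exp_add, map_add, add_dotProduct,
    dotProduct_add, dotProduct_add, hs z l, hT l z p hp, hT l l p hp, hp]
  congr 1
  ring

/-- the law of the symmetrised products -/
lemma sym_law {ι : Type} {θ : V d → ι → ℂ} {h l : V d} {c : ℂ}
    (hl : ∀ z, θ (z + l) = cexp (h ⬝ᵥ z + c) • θ z) (z : V d) (a a' : ι) :
    θ (z + l) a * θ (-(z + l)) a' = cexp (2 * (h ⬝ᵥ z) + h ⬝ᵥ l) * (θ z a * θ (-z) a') := by
  have h1 := congrFun (hl (-(z + l))) a'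
  rw [neg_add, neg_add_cancel_right, ← neg_add] at h1
  rw [hl z, h1, Pi.smul_apply, Pi.smul_apply, smul_eq_mul, smul_eq_mul, dotProduct_neg,
    dotProduct_add, mul_left_comm (θ z a), ← mul_assoc (cexp _) (cexp _), ← Complex.exp_add,
    mul_assoc]
  congr 2
  ring

lemma tw_sym {D : Der} {f f' s : V d → ℂ} (hf' : Differentiable ℂ f')
    (h : Tw D f fun z => s z * f z) (h' : Tw D f' fun z => s z * f' z) (hs : ∀ z, s (-z) = s z)
    (n : ℕ) : Tw D (fun z => (f z * f' (-z)) ^ n) fun z => n * (2 * s z) * (f z * f' (-z)) ^ n := by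
  have h1 := twc'.comp _ _ D _ _ (fun z : V d => -z) (fun _ => 0) h' (anal hf' 0) neg_zero fun i =>
    twc'.congr _ D _ _ _ _ (twc'.mul _ D _ _ _ _ (twc'.const _ D (-1)) (twc'.coord _ D i))
      (Eventually.of_forall fun z => by simp) (Eventually.of_forall fun z => by simp)
  refine WZ.QTwAux.tw_pow (twc'.congr _ D _ _ _ _ (twc'.mul _ D _ _ _ _ h h1)
    (Eventually.of_forall fun z => rfl) (Eventually.of_forall fun z => ?_)) n
  simp only [hs, map_zero]
  ring

/-- comparison of the two normalisations -/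
theorem nu_zero (A : NV d M) {M' : ℕ} (B : VX d M') {N : ℕ} (hN : 0 < N)
    (h1 : ∀ l ∈ B.Λ, l ∈ A.Λ) (h2 : ∀ l ∈ A.Λ, (N : ℂ) • l ∈ B.Λ)
    (hH : ∀ x, B.H x = (4 / N : ℂ) • A.η x) (D : Der) (ν : Fin d → Fin d → ℂ)
    (hT : ∀ a, Tw D (fun z => B.θ z a) fun z => qd ν z * B.θ z a) (z : V d) : qd ν z = 0 := by
  have hN' : (N : ℂ) ≠ 0 := Nat.cast_ne_zero.2 hN.ne'
  let Y : V d → Option (Fin (M' + 1) × Fin (M' + 1)) → ℂ := fun z o =>
    o.elim ((A.θ z 0 * A.θ (-z) 0) ^ 4) fun p => (B.θ z p.1 * B.θ (-z) p.2) ^ N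
  have hY : Differentiable ℂ Y := differentiable_pi.2 fun o => by
    rcases o with _ | p
    · exact ((th' _ 0).mul ((th' A.toAbVar 0).comp differentiable_id.neg)).pow 4
    · exact ((th' _ _).mul ((th' B.toAbVar _).comp differentiable_id.neg)).pow N
  have hl : ∀ l ∈ B.Λ, ∀ z, Y (z + l) = cexp (2 * (A.η l ⬝ᵥ z) + A.η l ⬝ᵥ l) ^ 4 • Y z := by
    intro l hl z
    obtain ⟨c, hc⟩ := A.law l (h1 l hl)
    funext o
    rcases o with _ | p
    · exact (congrArg (· ^ 4) (sym_law hc z 0 0)).trans (mul_pow _ _ _)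
    · refine (congrArg (· ^ N) (sym_law (B.law l hl) z p.1 p.2)).trans ((mul_pow _ _ _).trans ?_)
      rw [← Complex.exp_nat_mul, ← Complex.exp_nat_mul, hH, smul_dotProduct, smul_dotProduct]
      refine congrArg (fun x => cexp x * _) ?_
      simp only [smul_eq_mul]
      field_simp
      push_cast
      ring
  have hq := WZ.QTwAux.diff_qd ν
  have h0 : Y 0 (some (0, 0)) ≠ 0 := by simpa [Y, hN.ne'] using B.origin
  have key : ∀ l ∈ B.Λ, qd ν l = 0 := by
    intro l hl'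
    have h3 := wron A D hY (fun z h => by
        obtain ⟨a, ha⟩ := Function.ne_iff.1 (B.ne_zero z)
        obtain ⟨a', ha'⟩ := Function.ne_iff.1 (B.ne_zero (-z))
        exact pow_ne_zero N (mul_ne_zero ha ha') (congrFun h (some (a, a'))))
      (fun l h z => ⟨_, hl _ (h2 l h) z⟩) hN ![some (0, 0), none] h0
      (G := fun z => ![N * (2 * qd ν z) * Y z (some (0, 0)), 0])
      (G' := fun z => ![N * (2 * (qd ν (z + l) - qd ν z)) * Y z (some (0, 0)), 0])
      (differentiable_pi.2 fun i => by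
        fin_cases i
        · exact ((hq.const_mul 2).const_mul _).mul (differentiable_pi.1 hY _)
        · exact differentiable_const _)
      (differentiable_pi.2 fun i => by
        fin_cases i
        · exact ((((hq.comp (differentiable_id.add_const l)).sub hq).const_mul 2).const_mul _).mul
            (differentiable_pi.1 hY _)
        · exact differentiable_const _)
      (fun i => by
        fin_cases i
        · exact tw_sym (th' B.toAbVar 0) (hT 0) (hT 0) (fun z => by simp [qd]) N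
        · have h4 : Tw D (fun z => A.θ z 0) fun z => (fun _ => (0 : ℂ)) z * A.θ z 0 := by
            simpa using tw_th A D 0
          simpa [Y] using tw_sym (th' A.toAbVar 0) h4 h4 (fun _ => rfl) 4) (h1 l hl')
      (fun z => ⟨_, 0, pow_ne_zero 4 (Complex.exp_ne_zero _), hl l hl' z, by
        funext i
        fin_cases i
        · simp only [hl l hl' z]
          simp
          ring
        · simp⟩) 0
    have h5 : Y 0 none ≠ 0 := by simpa [Y] using A.origin
    simpa [h0, h5, hN.ne', WZ.VarAAux.qd_zero] using h3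
  let T : V d →ₗ[ℝ] V d := (Matrix.mulVecLin (Matrix.of ν)).restrictScalars ℝ
  have e : ∀ x, qd ν x = T x ⬝ᵥ x := fun x => by
    simp only [qd, T, LinearMap.restrictScalars_apply, mulVecLin_apply, mulVec, dotProduct,
      of_apply, Finset.sum_mul]
    exact Finset.sum_congr rfl fun k _ => Finset.sum_congr rfl fun l _ => by ring
  have h6 := bil B.span_top T (-1) (fun x hx y hy => by
    have h7 := key _ (add_mem hx hy)
    rw [e, map_add, add_dotProduct, dotProduct_add, dotProduct_add, ← e, ← e, key x hx,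
      key y hy] at h7
    linear_combination h7) z z
  rw [e]
  linear_combination h6 / 2

end ModAux

open ModAux in
theorem modelS (h : SiegS) : ModelS := by
  intro d M A
  obtain ⟨g, τ, b, N, hN, hτ, hb, h1, h2, h3⟩ := h d M A
  have hN' : (N : ℂ) ≠ 0 := Nat.cast_ne_zero.2 hN.ne'
  have hst := still A hτ b hN hb h1 h2
  obtain ⟨a₀, h0⟩ := Function.ne_iff.1 (geo'.nz g τ hτ 0)
  replace h0 : th τ 0 a₀ ≠ 0 := h0
  obtain ⟨S, hS, hz⟩ := ideal' g τ hτ fun D => by
    obtain ⟨M', N', c, hT, -⟩ := hst D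
    exact ⟨M', N', c, hT⟩
  let H : V d →ₗ[ℝ] V d := (4 / N : ℂ) • A.η
  obtain ⟨Q, hQ⟩ := exists_Q hτ b hb H fun l l' p p' hp hp' => by
    simp only [H, LinearMap.smul_apply, smul_dotProduct, smul_eq_mul]
    rw [← mul_sub, h3 l l' p p' hp hp']
    field_simp
    ring
  obtain ⟨M', σ, B, hσ, hΛ, hθ, hH, hB⟩ := var b a₀ Q H (fun l => H l ⬝ᵥ l / 2) S hτ hb h0
    (fun a => WZ.Var3Aux.alg_of_der fun D => by
      obtain ⟨M', N', c, hT, -⟩ := hst D
      rw [VarAux.der_div D h0 (xd'.nul g D τ M' N' c hτ hT a) (xd'.nul g D τ M' N' c hτ hT a₀),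
        sub_self, zero_mul])
    (fun a j => WZ.Var3Aux.alg_of_der fun D => by
      obtain ⟨M', N', c, hT, hp⟩ := hst D
      have e := xd'.dom g D τ M' N' c hτ hT (b (Pi.single j 1)) (a, a₀)
      rw [hp, add_neg_cancel, ← zero_smul ℂ (0 : V g), xhol'.om_smul, zero_smul, Pi.zero_apply,
        zero_add] at e
      rw [VarAux.der_div D (pow_ne_zero 2 h0) e
        (VarAux.der_sq D (xd'.nul g D τ M' N' c hτ hT a₀)), sub_self, zero_mul]) hS hz hQ
  have g1 : ∀ l ∈ B.Λ, l ∈ A.Λ := fun l hl => by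
    obtain ⟨p, hp⟩ := (hΛ l).1 hl
    exact h1 l p hp
  have g2 : ∀ l ∈ A.Λ, (N : ℂ) • l ∈ B.Λ := fun l hl => (hΛ _).2 (h2 l hl)
  refine ⟨M', B, N, hN, ⟨hB, fun w j a => WZ.Var3Aux.alg_of_der fun D => ?_⟩, g1, g2, hH⟩
  obtain ⟨M'', N', c, hT, hp⟩ := hst D
  obtain ⟨ν, c', hν⟩ := WZ.VarAAux.tw_all hτ hT (fun k => b (Pi.single k 1)) hp h0 Q
  have e : ∀ z, ∑ k, z k • b (Pi.single k 1) = b z := fun z => (lin_apply b.toLinearMap z).symm
  have hν' : ∀ a, Tw D (fun z => B.θ z a) fun z => (qd ν z + c') * B.θ z a := fun a => by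
    simpa only [hθ, e] using hν (σ a)
  have hc : c' = 0 := by
    have e1 : B.θ 0 0 = 1 := by
      rw [hθ, hσ, map_zero, WZ.VarAAux.qd_zero, Complex.exp_zero, one_div, inv_mul_cancel₀ h0]
    simpa [e1, WZ.VarAAux.qd_zero] using twc'.val _ D _ _ (hν' 0)
  simp only [hc, add_zero] at hν'
  refine WZ.Var3Aux.jets D (fun z => B.θ z a) (th' B.toAbVar a) ?_ w j
  simpa [nu_zero A B hN g1 g2 hH D ν hν'] using hν' a

end Pool.Agent.Lib.MP_caab05_ag.NC
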