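import Mathlib
import Pool.Agent.Lib.MP_caab05_ag.NC.Stmt3
import Pool.Agent.Lib.MP_caab05_ag.NC.End
import Pool.Agent.Lib.MP_caab05_ag.NC.Wron
import Pool.Agent.Lib.MP_caab05_ag.WZ.VarB
import Pool.Agent.Lib.MP_caab05_ag.WZ.Var3
import Pool.Agent.Lib.MP_caab05_ag.WZ.QTw

/-! Abelian subvarieties. -/

namespace Pool.Agent.Lib.MP_caab05_ag.NC

open MvPolynomial Filter Topology Complex Matrix
open Pool.Agent.Lib.MP_caab05_ag.LT (E AlgCoeff)
open Pool.Agent.Lib.MP_caab05_ag.ZE (VX)
open Pool.Agent.Lib.MP_caab05_ag.WZ (Arith)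
open Pool.Agent.Lib.MP_caab05_ag.GB
open Pool.Agent.Lib.MP_caab05_ag.GB.HomAux

namespace SubAux

variable {d M u : ℕ}

/-- the theta functions give an immersion everywhere -/
theorem imm (A : VX d M) (x w : E d) (c : ℂ) (h : fderiv ℂ A.θ x w = c • A.θ x) : w = 0 := by
  obtain ⟨b, hb⟩ := Function.ne_iff.1 (A.ne_zero (x - -x))
  replace hb : A.θ (x - -x) b ≠ 0 := hb
  have line : ∀ z, HasDerivAt (fun t : ℂ => A.θ (z + t • w)) (fderiv ℂ A.θ z w) 0 := fun z => by
    have h1 : HasDerivAt (fun t : ℂ => z + t • w) w 0 := by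
      simpa using ((hasDerivAt_id (0 : ℂ)).smul_const w).const_add z
    exact (A.holo z).hasFDerivAt.comp_hasDerivAt_of_eq 0 h1 (by simp)
  refine WZ.QTwAux.imm A w (2 * c - fderiv ℂ A.θ (x - -x) w b / A.θ (x - -x) b)
    (funext fun a => ?_)
  let f : (Fin (M + 1) → ℂ) → ℂ := fun y => eval (Sum.elim y (A.θ (-x))) (A.B a b)
  have hf : Differentiable ℂ f := (pol.diff_eval _ (A.B a b)).comp
    (f := fun y : Fin (M + 1) → ℂ => Sum.elim y (A.θ (-x))) (differentiable_pi.2 fun i => by
      rcases i with i | i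
      · exact differentiable_apply i
      · exact differentiable_const _)
  have e1 : HasDerivAt (fun t : ℂ => f (A.θ (x + t • w))) (fderiv ℂ f (A.θ x) (c • A.θ x)) 0 :=
    (hf _).hasFDerivAt.comp_hasDerivAt_of_eq 0 (h ▸ line x) (by simp)
  have e2 : HasDerivAt (fun t : ℂ => f ((1 + t * c) • A.θ x))
      (fderiv ℂ f (A.θ x) (c • A.θ x)) 0 := by
    have h1 : HasDerivAt (fun t : ℂ => (1 + t * c) • A.θ x) (c • A.θ x) 0 := by
      simpa using (((hasDerivAt_id (0 : ℂ)).mul_const c).const_add 1).smul_const (A.θ x)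
    exact (hf _).hasFDerivAt.comp_hasDerivAt_of_eq 0 h1 (by simp)
  have e3 : HasDerivAt (fun t : ℂ => f ((1 + t * c) • A.θ x)) (2 * c * f (A.θ x)) 0 := by
    have h1 : (fun t : ℂ => f ((1 + t * c) • A.θ x)) = fun t => (1 + t * c) ^ 2 * f (A.θ x) :=
      funext fun t => by simpa using A.scal a b (1 + t * c) 1 (A.θ x) (A.θ (-x))
    rw [h1]
    simpa using ((((hasDerivAt_id (0 : ℂ)).mul_const c).const_add 1).pow 2).mul_const (f (A.θ x))
  have e4 := (hasDerivAt_pi.1 (line 0) a).fun_mul (hasDerivAt_pi.1 (line (x - -x)) b)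
  have e5 : (fun t : ℂ => A.θ (0 + t • w) a * A.θ (x - -x + t • w) b) =
      fun t => f (A.θ (x + t • w)) := funext fun t => by
    simp only [f]
    rw [← A.add2, add_right_comm, add_neg_cancel, sub_add_eq_add_sub]
  have e6 : f (A.θ x) = A.θ 0 a * A.θ (x - -x) b := by
    simp only [f]
    rw [← A.add2, add_neg_cancel]
  rw [e5] at e4
  have e7 := (e4.unique e1).trans (e2.unique e3)
  simp only [zero_smul, add_zero, e6] at e7
  simp only [Pi.smul_apply, smul_eq_mul]
  field_simp
  linear_combination e7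

/-- the image of a rigid theta embedding is defined over the algebraic numbers -/
theorem image {ι : Type} [Fintype ι] {θ : V d → ι → ℂ} (L : Submodule ℤ (V d))
    [DiscreteTopology L] (hL : Submodule.span ℝ (L : Set (V d)) = ⊤) (h0 : Differentiable ℂ θ)
    (h1 : ∀ z, θ z ≠ 0) (h2 : ∀ l ∈ L, ∀ z, ∃ c : ℂ, θ (z + l) = c • θ z)
    (h3 : ∀ (z w : V d) (c : ℂ), θ z = c • θ w → z - w ∈ L)
    (h4 : ∀ (z w : V d) (c : ℂ), fderiv ℂ θ z w = c • θ z → w = 0)
    (h5 : ∀ D a, Tw D (fun z => θ z a) fun _ => 0) :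
    ∃ S : Set (MvPolynomial ι ℂ), (∀ P ∈ S, (∃ k, P.IsHomogeneous k) ∧ AlgCoeff P) ∧
      {x | ∀ P ∈ S, eval x P = 0} = {x | ∃ (c : ℂ) (z : V d), x = c • θ z} := by
  refine ⟨{P | ((∃ k, P.IsHomogeneous k) ∧ AlgCoeff P) ∧ ∀ z, eval (θ z) P = 0},
    fun P hP => hP.1, Set.ext fun x => ⟨fun hx => ?_, ?_⟩⟩
  · have : IsZLattice ℝ L := ⟨hL⟩
    have := ZLattice.module_finite ℝ L
    have := ZLattice.module_free ℝ L
    let b := (Module.Free.chooseBasis ℤ L).ofZLatticeBasis ℝ L
    have hb : Submodule.span ℤ (Set.range b) = L := Module.Basis.ofZLatticeBasis_span ℝ L _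
    refine img' d ι θ L (∑ i, ‖b i‖) h0 h1 (fun z => ⟨ZSpan.floor b z,
      hb.le (ZSpan.floor b z).2, ZSpan.norm_fract_le b z⟩) h2 h3 h4 x fun P k hk hz => ?_
    let J : Submodule ℂ (MvPolynomial ι ℂ) :=
      { carrier := {P | P.IsHomogeneous k ∧ ∀ z, eval (θ z) P = 0}
        add_mem' := fun {P Q} hP hQ => ⟨hP.1.add hQ.1, fun z => by
          rw [map_add, hP.2 z, hQ.2 z, add_zero]⟩
        zero_mem' := ⟨isHomogeneous_zero _ _ _, fun z => map_zero _⟩
        smul_mem' := fun c P hP => ⟨(homogeneousSubmodule ι ℂ k).smul_mem c hP.1, fun z => by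
          rw [smul_eval, hP.2 z, mul_zero]⟩ }
    refine IdealAux.descent pol der J (fun D Q hQ => ⟨fun m hm => hQ.1 fun h => hm ?_, ?_⟩) x
      (fun Q hQ hA => hx Q ⟨⟨⟨k, hQ.1⟩, hA⟩, hQ.2⟩) P ⟨hk, hz⟩
    · rw [pol.coeff_cD, h, map_zero]
    · have t1 := twc'.poly (Fin d) ι D θ (fun _ _ => 0) Q (h5 D)
      simp only [dP, mul_zero, Finset.sum_const_zero, add_zero, hQ.2] at t1
      have t2 := twc'.const (Fin d) D 0
      rw [map_zero] at t2
      have an : AnalyticOnNhd ℂ (fun z : V d => eval (θ z) (cD D Q)) Set.univ :=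
        fun z _ => ModAux.anal ((pol.diff_eval _ (cD D Q)).comp h0) z
      exact fun z => an.eqOn_zero_of_preconnected_of_eventuallyEq_zero isPreconnected_univ
        (Set.mem_univ 0) (twc'.uniq (Fin d) D _ _ _ t1 t2 (an 0 trivial) analyticAt_const)
        (Set.mem_univ z)
  · rintro ⟨c, z, rfl⟩ P ⟨⟨⟨k, hk⟩, -⟩, hz⟩
    rw [IdealAux.eval_smul_hom P k hk, hz z, mul_zero]

end SubAux

open SubAux in
theorem subS : SubS := by
  intro d M A hA u ι hι ha hR
  let L : Submodule ℤ (E u) := A.Λ.comap (ι.restrictScalars ℤ)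
  let j := LinearMap.toContinuousLinearMap ι
  have hd : Differentiable ℂ fun z => A.θ (ι z) := A.holo.comp j.differentiable
  have hfd : ∀ {κ : Type} [Fintype κ] {F : E d → κ → ℂ} (z w : E u), DifferentiableAt ℂ F (ι z) →
      fderiv ℂ (fun z => F (ι z)) z w = fderiv ℂ F (ι z) (ι w) := fun z w hF =>
    congrArg (fun T => T w) (hF.hasFDerivAt.comp z j.hasFDerivAt).fderiv
  have := A.discrete
  have hdis : DiscreteTopology L :=
    DiscreteTopology.of_continuous_injective (f := fun x : L => (⟨ι x, x.2⟩ : A.Λ))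
      ((j.continuous.comp continuous_subtype_val).subtype_mk _)
      fun x y h => Subtype.ext (hι (congrArg Subtype.val h))
  have hsp : Submodule.span ℝ (L : Set (E u)) = ⊤ := by
    refine eq_top_iff.2 fun x _ => ?_
    have h1 : ι x ∈ (Submodule.span ℝ (L : Set (E u))).map (ι.restrictScalars ℝ) := by
      rw [Submodule.map_span]
      have h2 : ι x ∈ (LinearMap.range ι).restrictScalars ℝ := ⟨x, rfl⟩
      rw [← hR] at h2
      refine Submodule.span_mono ?_ h2
      rintro _ ⟨⟨y, rfl⟩, hy⟩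
      exact ⟨y, hy, rfl⟩
    obtain ⟨y, hy, e⟩ := h1
    exact hι e ▸ hy
  let H : E u →ₗ[ℝ] E u :=
    { toFun := fun x k => A.H (ι x) ⬝ᵥ ι (Pi.single k 1)
      map_add' := fun x y => funext fun k => by simp only [map_add, add_dotProduct, Pi.add_apply]
      map_smul' := fun r x => funext fun k => by
        simp only [ι.map_smul_of_tower, map_smul, smul_dotProduct, RingHom.id_apply,
          Pi.smul_apply] }
  have hL : ∀ l ∈ L, ∀ z, A.θ (ι (z + l)) = cexp (H l ⬝ᵥ z + A.β (ι l)) • A.θ (ι z) := by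
    intro l hl z
    rw [map_add, A.law (ι l) hl, lin_apply ι z, dotProduct_sum]
    congr 3
    exact Finset.sum_congr rfl fun k _ => by rw [dotProduct_smul, smul_eq_mul, mul_comm]; rfl
  have hT : ∀ D a, Tw D (fun z => A.θ (ι z) a) fun _ => 0 := fun D a =>
    twc'.congr _ D _ _ _ _ (twc'.comp _ _ D _ _ ι (aD D ι) (EndAux.tw_th A hA D a)
      (ModAux.anal (ModAux.th' A.toAbVar a) 0) (map_zero ι) (tw_lin twc' D ι))
      (Eventually.of_forall fun _ => rfl) (Eventually.of_forall fun z => by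
        have h1 : aD D ι z = 0 := funext fun k => by
          simp [aD_apply, pol.D_alg D _ (ha _ _)]
        simp [h1])
  have hinj : ∀ (z w : E u) (c : ℂ), A.θ (ι z) = c • A.θ (ι w) → z - w ∈ L := fun z w c h => by
    show ι (z - w) ∈ A.Λ
    rw [map_sub]
    exact A.inj _ _ c h
  have ho : A.θ (ι 0) 0 ≠ 0 := by rw [map_zero]; exact A.origin
  have hq : DifferentiableAt ℂ (fun z i => A.θ z i / A.θ z 0) (ι 0) :=
    differentiableAt_pi.2 fun i => by
      simp only [div_eq_mul_inv]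
      exact (ModAux.th' A.toAbVar i _).mul ((ModAux.th' A.toAbVar 0 _).inv ho)
  refine ⟨{ Λ := L
            discrete := hdis
            span_top := hsp
            θ := fun z => A.θ (ι z)
            holo := hd
            ne_zero := fun z => A.ne_zero _
            theta := fun l hl => ⟨WZ.VarBAux.dotL (H l), _, hL l hl⟩
            inj := hinj
            image := image L hsp hd (fun z => A.ne_zero _) (fun l hl z => ⟨_, hL l hl z⟩) hinj
              (fun z w c h => hι ((imm A (ι z) (ι w) c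
                ((hfd z w (A.holo _)).symm.trans h)).trans (map_zero ι).symm)) hT
            add := fun z w => ?_
            origin := ho
            origin_alg := by rw [map_zero]; exact A.origin_alg
            tangent_alg := fun i k => ?_
            immersion := ?_
            H := H
            β := fun l => A.β (ι l)
            law := hL
            B := A.B
            scal := A.scal
            add2 := fun z w a b => by rw [map_add, map_sub]; exact A.add2 _ _ a b },
    ⟨hA.1, fun w k a => WZ.Var3Aux.alg_of_der fun D =>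
      WZ.Var3Aux.jets D _ (differentiable_pi.1 hd a) (hT D a) w k⟩, fun _ => Iff.rfl,
    fun _ _ => rfl⟩
  · obtain ⟨k, B, h1, h2, h3⟩ := A.add (ι z) (ι w)
    exact ⟨k, B, h1, h2, fun z w => by rw [map_add]; exact h3 _ _⟩
  · have h1 := differentiableAt_pi.1 hq i
    have h2 : fderiv ℂ (fun z => A.θ (ι z) i / A.θ (ι z) 0) 0 (Pi.single k 1) =
        fderiv ℂ (fun z => A.θ z i / A.θ z 0) (ι 0) (ι (Pi.single k 1)) :=
      congrArg (fun T => T (Pi.single k 1)) (h1.hasFDerivAt.comp 0 j.hasFDerivAt).fderiv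
    rw [h2, map_zero, ← ContinuousLinearMap.coe_coe, lin_apply]
    exact mem_algebraicClosure_iff.1 (sum_mem fun m _ => mul_mem
      (mem_algebraicClosure_iff.2 (ha k m)) (mem_algebraicClosure_iff.2 (A.tangent_alg i m)))
  · intro v w h
    rw [hfd 0 v hq, hfd 0 w hq, map_zero] at h
    exact hι (A.immersion h)

end Pool.Agent.Lib.MP_caab05_ag.NC
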