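import Mathlib
import Pool.Agent.Lib.MP_caab05_ag.NC.All
import Pool.Agent.Lib.MP_caab05_ag.NC.Mod
import Pool.Agent.Lib.MP_caab05_ag.NC.Sub
import Pool.Agent.Lib.MP_caab05_ag.NC.Dec
import Pool.Agent.Lib.MP_caab05_ag.NC.Dual

/-! The theorems without hypotheses. -/

namespace Pool.Agent.Lib.MP_caab05_ag.NC

theorem fullN : OneN := oneN (modelS siegS) (oneS subS decS fin2)

theorem full : OneF := oneF fullN

theorem fullGraph : GraphN := graphN (modelS siegS) poin fullN

theorem fullGen : GenN := genN (modelS siegS) gen gen1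

end Pool.Agent.Lib.MP_caab05_ag.NC
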