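import Mathlib
import Pool.Agent.Lib.MP_caab05_ag.NC.Full

/-! Arbitrary rational subspaces. -/

namespace Pool.Agent.Lib.MP_caab05_ag.NC

open Complex Module Filter Topology Asymptotics
open Pool.Agent.Lib.MP_caab05_ag.LT (E)
open Pool.Agent.Lib.MP_caab05_ag.ZE (VX)
open Pool.Agent.Lib.MP_caab05_ag.WZ (Arith)
open Pool.Agent.Lib.MP_caab05_ag.GB (Der Tw pol twc' dP)
open TransAux OneAux YpAux

namespace MuAux

variable {d M : ℕ}

lemma fd_ord {H : E d → ℂ} (hH : Differentiable ℂ H) {P : MvPolynomial (Fin d) ℂ} {j : ℕ}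
    (a : (fun u => H u - MvPolynomial.eval u P) =O[𝓝 0] fun u => ‖u‖ ^ (j + 1)) (k : Fin d) :
    (fun u => fderiv ℂ H u (Pi.single k 1) - MvPolynomial.eval u (MvPolynomial.pderiv k P))
      =O[𝓝 0] fun u => ‖u‖ ^ j := by
  have h2 := GB.TwcAux.fderiv_ord (Eventually.of_forall (hH.fun_sub (pol.diff_eval _ P))) a
  refine IsBigO.trans (IsBigO.of_bound' (Eventually.of_forall fun u => ?_)) h2
  have := (fderiv ℂ (fun y => H y - MvPolynomial.eval y P) u).le_opNorm (Pi.single k 1)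
  rw [Pi.norm_single, norm_one, mul_one] at this
  refine le_of_eq_of_le (congrArg _ ?_) this
  rw [fderiv_fun_sub (hH u) (pol.diff_eval _ P u), _root_.sub_apply, pol.fderiv_eval]
  simp [dP, Pi.single_apply]

/-- the derivatives at the origin of a rigid function -/
lemma jets (D : Der) (j : ℕ) {f : E d → ℂ} (hf : Differentiable ℂ f) (h : Tw D f fun _ => 0)
    (k : Fin j → Fin d) : D (iteratedFDeriv ℂ j f 0 fun i => Pi.single (k i) 1) = 0 := by
  induction j generalizing f with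
  | zero => exact (twc'.val _ D _ _ h).symm
  | succ j ih =>
    rw [iteratedFDeriv_succ_apply_right, ← iteratedFDeriv_clm_apply_const_apply (n := j)
      (contDiff_iff_contDiffAt.2 fun z => (ModAux.anal hf z).fderiv.contDiffAt) le_rfl]
    refine ih (EndAux.diff_fd hf differentiable_id (differentiable_const _)) (fun n => ?_)
      fun i => k i.castSucc
    obtain ⟨P, a, b⟩ := h (n + 1)
    refine ⟨_, fd_ord hf a _, ?_⟩
    rw [GB.TwcAux.cD_pderiv pol]
    simpa using fd_ord (differentiable_const 0) b (k (Fin.last j))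

/-- a model with an addition formula is normalised -/
noncomputable def toNV (A : VX d M) (hA : Arith A) : NV d M where
  toAbVar := A.toAbVar
  η := A.H
  law := fun l hl => ⟨_, A.law l hl⟩
  jets := fun j k => WZ.Var3Aux.alg_of_der fun D =>
    jets D j (ModAux.th' A.toAbVar 0) (EndAux.tw_th A hA D 0) k

/-- a basis of a rational subspace -/
theorem basis {V : Type} [AddCommGroup V] [Module ℝ V] [Module.Finite ℝ V] {Y : Submodule ℝ V}
    {L : Set V} (h : Submodule.span ℝ ((Y : Set V) ∩ L) = Y) {l : ℕ} (hl : finrank ℝ Y = l) :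
    ∃ y : Fin l → V, (∀ j, y j ∈ L) ∧ LinearIndependent ℝ y ∧
      Submodule.span ℝ (Set.range y) = Y := by
  obtain ⟨s, hs, hsp, hli⟩ := exists_linearIndependent ℝ ((Y : Set V) ∩ L)
  have : Fintype s := hli.setFinite.fintype
  have h1 : Submodule.span ℝ (Set.range ((↑) : s → V)) = Y := by rw [Subtype.range_coe, hsp, h]
  have h2 := finrank_span_eq_card hli
  rw [h1, hl] at h2
  let e := (Fintype.equivFinOfCardEq h2.symm).symm
  exact ⟨fun j => e j, fun j => (hs (e j).2).2, hli.comp e e.injective,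
    (congrArg _ (e.surjective.range_comp _)).trans h1⟩

/-- the kernel of an integral map is rational -/
theorem ker_rat (A : VX d M) {ι : Type} [Fintype ι] (b : ι → E d) (φ : E d →ₗ[ℝ] E d)
    (hm : ∀ j, φ (b j) ∈ A.Λ) (x : ι → ℝ) (hx : φ (∑ j, x j • b j) = 0) :
    ∑ j, x j • b j ∈ Submodule.span ℝ {z | φ z = 0 ∧ z ∈ Submodule.span ℤ (Set.range b)} := by
  obtain ⟨κ, _, b', hb'⟩ := LT.exists_basis A.toAbVar
  have hM : ∀ j k, ∃ n : ℤ, (n : ℝ) = b'.repr (φ (b j)) k := fun j k =>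
    (b'.mem_span_iff_repr_mem ℤ _).1 (hb' ▸ hm j) k
  choose m hm' using hM
  have lin : ∀ (c : ι → ℝ) k, b'.repr (φ (∑ j, c j • b j)) k = ∑ j, (m j k : ℝ) * c j := by
    intro c k
    simp only [map_sum, map_smul, Finsupp.coe_finsetSum, Finset.sum_apply, Finsupp.coe_smul,
      Pi.smul_apply, smul_eq_mul, hm', mul_comm]
  let W : Submodule ℚ ℝ := Submodule.span ℚ (Set.range x)
  have : Module.Finite ℚ W := Module.Finite.span_of_finite ℚ (Set.finite_range _)
  let e := Module.finBasis ℚ W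
  let w : ι → W := fun j => ⟨x j, Submodule.subset_span ⟨j, rfl⟩⟩
  have hw : ∀ k, ∑ j, (m j k : ℚ) • w j = 0 := fun k => by
    have h1 := lin x k
    rw [hx, map_zero] at h1
    refine Subtype.ext ?_
    simp only [Submodule.coe_sum, Submodule.coe_smul, w, Rat.smul_def, Rat.cast_intCast]
    exact h1.symm
  have hk : ∀ s, φ (∑ j, (e.repr (w j) s : ℝ) • b j) = 0 := fun s => by
    refine b'.repr.injective (Finsupp.ext fun k => ?_)
    have h1 := congrArg (fun t => ((e.repr t s : ℚ) : ℝ)) (hw k)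
    simp only [map_sum, map_smul, Finsupp.coe_finsetSum, Finset.sum_apply, Finsupp.coe_smul,
      Pi.smul_apply, smul_eq_mul, map_zero, Finsupp.coe_zero, Pi.zero_apply] at h1
    push_cast at h1
    rw [lin, map_zero]
    exact h1
  have ex : ∑ j, x j • b j = ∑ s, (e s : ℝ) • ∑ j, (e.repr (w j) s : ℝ) • b j := by
    simp only [Finset.smul_sum, smul_smul]
    rw [Finset.sum_comm]
    refine Finset.sum_congr rfl fun j _ => ?_
    rw [← Finset.sum_smul]
    congr 1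
    have h1 := congrArg (fun t : W => (t : ℝ)) (e.sum_repr (w j))
    simp only [Submodule.coe_sum, Submodule.coe_smul, Rat.smul_def] at h1
    refine h1.symm.trans (Finset.sum_congr rfl fun s _ => mul_comm _ _)
  rw [ex]
  refine Submodule.sum_mem _ fun s _ => Submodule.smul_mem _ _ ?_
  obtain ⟨n, n0, hn⟩ := PoinAux.rat_mem b fun j => e.repr (w j) s
  have n1 : (n : ℝ) ≠ 0 := Nat.cast_ne_zero.2 n0
  rw [← Submodule.smul_mem_iff _ n1]
  exact Submodule.subset_span ⟨by rw [map_smul, hk, smul_zero], hn⟩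

/-- coordinates with respect to an independent family -/
theorem mem_inv (K : IntermediateField ℚ ℂ) {κ : Type} [Fintype κ] (v : κ → E d)
    (hv : ∀ s m, v s m ∈ K) (hi : LinearIndependent ℂ v) (x : κ → ℂ)
    (hx : ∀ m, (∑ s, x s • v s) m ∈ K) (s : κ) : x s ∈ K := by
  obtain ⟨ρ, hρ⟩ := (Algebra.linearMap K ℂ).exists_leftInverse_of_injective
    (LinearMap.ker_eq_bot.2 (algebraMap K ℂ).injective)
  have h1 : ∀ y ∈ K, (ρ y : ℂ) = y := fun y hy =>
    congrArg Subtype.val (LinearMap.congr_fun hρ ⟨y, hy⟩)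
  have h2 : ∀ (z : ℂ), ∀ y ∈ K, (ρ (z * y) : ℂ) = ρ z * y := fun z y hy => by
    have := ρ.map_smul (⟨y, hy⟩ : K) z
    rw [mul_comm z, mul_comm (ρ z : ℂ)]
    exact congrArg Subtype.val this
  have h3 : ∑ s, ((ρ (x s) : ℂ) - x s) • v s = 0 := by
    funext m
    have := h1 _ (hx m)
    simp only [Finset.sum_apply, Pi.smul_apply, smul_eq_mul, map_sum] at this
    push_cast at this
    simp only [h2 _ _ (hv _ m)] at this
    simp only [Finset.sum_apply, Pi.smul_apply, smul_eq_mul, sub_mul, Finset.sum_sub_distrib, this,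
      sub_self, Pi.zero_apply]
  rw [← sub_eq_zero.1 (Fintype.linearIndependent_iff.1 hi _ h3 s)]
  exact (ρ (x s)).2

/-- the stable case inside an abelian subvariety -/
theorem stable (A : VX d M) (hA : Arith A) {c : ℂ}
    {F : IntermediateField ℚ ℂ} {t : ℕ} (hc : c ≠ 0) (hF : ∀ l ∈ A.Λ, ∀ m, c * lf A l m ∈ F)
    (hQ : ∀ x, IsAlgebraic ℚ x → x ∈ F) (ht : Algebra.trdeg ℚ F ≤ t) (W : Submodule ℂ (E d))
    (hW : ZE.Rat A W) (Y : Submodule ℝ (E d)) (hY : Submodule.span ℝ ((Y : Set (E d)) ∩ A.Λ) = Y)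
    (hle : Y ≤ W.restrictScalars ℝ) (hs : ∀ U, ZE.Rat A U → U ≠ ⊥ → U < W →
      finrank ℂ W * finrank ℝ ↥(U.restrictScalars ℝ ⊓ Y) < finrank ℝ Y * finrank ℂ U) :
    (finrank ℝ Y : ℝ) * (2 * finrank ℂ W - finrank ℝ Y) ≤ t * finrank ℂ W *
      (2 * finrank ℂ (Submodule.span ℂ (Y : Set (E d))) - finrank ℝ Y) := by
  obtain ⟨N, φ, N0, p1, p2, p3⟩ := poin d M A W hW
  have N1 : (N : ℂ) ≠ 0 := Nat.cast_ne_zero.2 N0.ne'
  obtain ⟨u, v, v1, v2, v3⟩ := DecAux.basis φ (DecAux.alg_end A hA φ p1)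
  let ι : E u →ₗ[ℂ] E d := Fintype.linearCombination ℂ v
  have hι : Function.Injective ι := (injective_iff_map_eq_zero _).2 fun x hx =>
    funext (Fintype.linearIndependent_iff.1 v1 x hx)
  have hr : LinearMap.range ι = W := v3.trans (le_antisymm (by rintro _ ⟨z, rfl⟩; exact p3 z)
    fun z hz => ⟨(N : ℂ)⁻¹ • z, by rw [map_smul, p2 z hz, inv_smul_smul₀ N1]⟩)
  have hv : ∀ j, ι (Pi.single j 1) = v j := fun j => by simp [ι]
  obtain ⟨B, hB, hl, hH⟩ := subS d M A hA u ι hι (fun j k => hv j ▸ v2 j k) (hr ▸ hW)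
  have hu : finrank ℂ W = u := by rw [← hr, LinearMap.finrank_range_of_inj hι, finrank_fin_fun]
  obtain ⟨l, hY'⟩ : ∃ l, finrank ℝ Y = l := ⟨_, rfl⟩
  obtain ⟨y, y1, y2, y3⟩ := basis hY hY'
  choose x hx using fun j => hr.ge (hle (y3.le (Submodule.subset_span ⟨j, rfl⟩)) : y j ∈ W)
  have ex : ι ∘ x = y := funext hx
  have e1 : (Submodule.span ℝ (Set.range x)).map (ι.restrictScalars ℝ) = Y := by
    rw [Submodule.map_span, ← Set.range_comp, ← y3, ← ex]
    rfl
  have e2 : (Submodule.span ℂ (Set.range x)).map ι = Submodule.span ℂ (Y : Set (E d)) := by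
    rw [Submodule.map_span, ← Set.range_comp, ex, ← Submodule.span_span_of_tower ℝ, y3]
  have h4 := full u M (toNV B hB) (Fin l) x c F t (fun j => (hl _).2 (hx j ▸ y1 j))
    (LinearIndependent.of_comp (ι.restrictScalars ℝ) (ex ▸ y2 :))
    (fun U hU u1 u2 => ?_) hc (fun z h m => ⟨?_, ?_⟩) ht
  · rw [Fintype.card_fin,
      (Submodule.equivMapOfInjective ι hι (Submodule.span ℂ (Set.range x))).finrank_eq, e2] at h4
    have h5 : l ≤ 2 * finrank ℂ (Submodule.span ℂ (Y : Set (E d))) :=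
      hY'.symm.trans_le ((Submodule.finrank_mono (fun z hz => Submodule.subset_span hz :
        Y ≤ (Submodule.span ℂ (Y : Set (E d))).restrictScalars ℝ)).trans_eq (GraphAux.rank_real _))
    have h6 : l ≤ 2 * u := hY'.symm.trans_le ((Submodule.finrank_mono hle).trans_eq
      ((GraphAux.rank_real W).trans (hu ▸ rfl)))
    rw [hu, hY']
    rify [h5, h6] at h4
    exact h4
  · have h5 := hs (U.map ι) (span_map ι hU fun z hz => (hl z).1 hz.2)
      (fun h => u1 (Submodule.map_injective_of_injective hι (h.trans (Submodule.map_bot _).symm)))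
      (lt_of_le_of_ne (hr ▸ LinearMap.map_le_range) fun h => u2
        (Submodule.map_injective_of_injective hι
          (h.trans (hr.symm.trans (Submodule.map_top _).symm))))
    have e3 : dimIn x U = finrank ℝ ↥((U.map ι).restrictScalars ℝ ⊓ Y) := by
      unfold dimIn
      rw [(Submodule.equivMapOfInjective (ι.restrictScalars ℝ) hι _).finrank_eq,
        Submodule.map_inf (ι.restrictScalars ℝ) hι, e1]
      rfl
    rw [← (Submodule.equivMapOfInjective ι hι U).finrank_eq, ← e3, hu, hY'] at h5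
    rw [Fintype.card_fin]
    exact ⟨h5.le, fun _ => h5⟩
  · refine mem_inv F v (fun s k => hQ _ (v2 s k)) v1 (c • z) (fun k => ?_) m
    have e : ∑ s, (c • z) s • v s = c • ι z := (map_smul ι c z :)
    rw [e]
    exact hF _ ((hl z).1 h) (.inl k)
  · show c * B.H z m ∈ F
    rw [hH, hv, dotProduct, Finset.mul_sum]
    exact sum_mem fun k _ => mul_assoc c _ _ ▸
      mul_mem (hF _ ((hl z).1 h) (.inr k)) (hQ _ (v2 m k))

theorem slope (A : VX d M) (hA : Arith A) {c : ℂ}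
    {F : IntermediateField ℚ ℂ} {t : ℕ} (hc : c ≠ 0) (hF : ∀ l ∈ A.Λ, ∀ m, c * lf A l m ∈ F)
    (hQ : ∀ x, IsAlgebraic ℚ x → x ∈ F) (ht : Algebra.trdeg ℚ F ≤ t) (μ : ℝ)
    (W : Submodule ℂ (E d)) (hW : ZE.Rat A W) (Y : Submodule ℝ (E d))
    (hY : Submodule.span ℝ ((Y : Set (E d)) ∩ A.Λ) = Y) (hle : Y ≤ W.restrictScalars ℝ)
    (hs : ∀ U, ZE.Rat A U → U ≤ W →
      (finrank ℝ ↥(U.restrictScalars ℝ ⊓ Y) : ℝ) ≤ μ * finrank ℂ U) :
    (finrank ℝ Y : ℝ) * (2 - μ) ≤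
      t * (2 * finrank ℂ (Submodule.span ℂ (Y : Set (E d))) - finrank ℝ Y) := by
  induction W using WellFoundedLT.induction generalizing Y with
  | _ W ih =>
    by_cases hst : ∀ U, ZE.Rat A U → U ≠ ⊥ → U < W →
        finrank ℂ W * finrank ℝ ↥(U.restrictScalars ℝ ⊓ Y) < finrank ℝ Y * finrank ℂ U
    · have h1 := stable A hA hc hF hQ ht W hW Y hY hle hst
      have h2 := hs W hW le_rfl
      rw [inf_eq_right.2 hle] at h2
      rcases Nat.eq_zero_or_pos (finrank ℂ W) with h0 | h0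
      · rw [h0, Nat.cast_zero, mul_zero, Nat.cast_nonpos] at h2
        simp only [h2, Nat.cast_zero, zero_mul, sub_zero]
        positivity
      · have h3 : (0 : ℝ) < finrank ℂ W := Nat.cast_pos.2 h0
        refine le_of_mul_le_mul_left ?_ h3
        nlinarith [mul_le_mul_of_nonneg_left h2 (Nat.cast_nonneg (α := ℝ) (finrank ℝ Y))]
    push Not at hst
    obtain ⟨U₀, a1, a2, a3, a4⟩ := hst
    obtain ⟨_, ⟨U, ⟨hU, u0, u1⟩, rfl⟩, hmax⟩ := Set.exists_max_image
      ((fun U : Submodule ℂ (E d) => (finrank ℝ ↥(U.restrictScalars ℝ ⊓ Y), finrank ℂ U)) ''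
        {U | ZE.Rat A U ∧ U ≠ ⊥ ∧ U < W}) (fun p => (p.1 : ℝ) / p.2)
      ((Set.finite_Iic (finrank ℝ Y, finrank ℂ (E d))).subset (by
        rintro _ ⟨U, -, rfl⟩
        exact ⟨Submodule.finrank_mono inf_le_right, U.finrank_le⟩)) ⟨_, U₀, ⟨a1, a2, a3⟩, rfl⟩
    have pos : ∀ {V : Submodule ℂ (E d)}, V ≠ ⊥ → (0 : ℝ) < finrank ℂ V := fun h =>
      Nat.cast_pos.2 (Nat.pos_of_ne_zero fun e => h (Submodule.finrank_eq_zero.1 e))
    obtain ⟨ν, hν⟩ : ∃ ν : ℝ, ν = (finrank ℝ ↥(U.restrictScalars ℝ ⊓ Y) : ℝ) / finrank ℂ U :=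
      ⟨_, rfl⟩
    have n0 : 0 ≤ ν := by rw [hν]; positivity
    have n1 : ν * finrank ℂ U = finrank ℝ ↥(U.restrictScalars ℝ ⊓ Y) := by
      rw [hν, div_mul_cancel₀ _ (pos u0).ne']
    have n2 : ν ≤ μ := by rw [hν, div_le_iff₀ (pos u0)]; exact hs U hU u1.le
    have n3 : ∀ V, ZE.Rat A V → V ≠ ⊥ → V ≤ W →
        (finrank ℝ ↥(V.restrictScalars ℝ ⊓ Y) : ℝ) ≤ ν * finrank ℂ V := fun V hV v0 v1 => by
      rw [← div_le_iff₀ (pos v0), hν]
      rcases v1.lt_or_eq with h | rfl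
      · exact hmax _ ⟨V, ⟨hV, v0, h⟩, rfl⟩
      · refine le_trans ?_ (hmax _ ⟨U₀, ⟨a1, a2, a3⟩, rfl⟩)
        rw [inf_eq_right.2 hle, div_le_div_iff₀ (pos v0) (pos a2), mul_comm _ (finrank ℂ V : ℝ)]
        exact_mod_cast a4
    obtain ⟨N, φ, N0, p1, p2, p3⟩ := poin d M A U hU
    have N1 : (N : ℂ) ≠ 0 := Nat.cast_ne_zero.2 N0.ne'
    let ψ : E d →ₗ[ℂ] E d := (N : ℂ) • LinearMap.id - φ
    have hψ : ∀ z, ψ z = (N : ℂ) • z - φ z := fun _ => rfl
    have c1 : ∀ l ∈ A.Λ, ψ l ∈ A.Λ := fun l hl => by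
      rw [hψ, Nat.cast_smul_eq_nsmul]
      exact A.Λ.sub_mem (nsmul_mem hl _) (p1 l hl)
    have c2 : LinearMap.ker ψ = U := Submodule.ext fun z => ⟨fun h =>
      (U.smul_mem_iff N1).1 (sub_eq_zero.1 ((hψ z).symm.trans h) ▸ p3 z),
      fun h => (hψ z).trans (by rw [p2 z h, sub_self])⟩
    have c3 : LinearMap.ker (ψ.restrictScalars ℝ) = U.restrictScalars ℝ := by rw [← c2]; rfl
    have r1 := rank_null ψ W
    have r2 := rank_null (ψ.restrictScalars ℝ) Y
    have r3 := rank_null ψ (Submodule.span ℂ (Y : Set (E d)))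
    rw [c2, inf_eq_right.2 u1.le] at r1
    rw [c3, inf_comm] at r2
    have u4 : 0 < finrank ℂ U := Nat.cast_pos.1 (pos u0)
    have c5 : W.map ψ ≤ W := by
      rintro _ ⟨z, hz, rfl⟩
      exact W.sub_mem (W.smul_mem _ hz) (u1.le (p3 z))
    have i1 := ih U u1 hU (U.restrictScalars ℝ ⊓ Y) ?_ inf_le_left fun V hV hVU =>
      (Nat.cast_le.2 (Submodule.finrank_mono (inf_le_inf_left _ inf_le_right))).trans
        (hs V hV (hVU.trans u1.le))
    have i2 := ih (W.map ψ) (lt_of_le_of_ne c5 fun h => by rw [h] at r1; omega)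
      (rat_map ψ c1 hW) (Y.map (ψ.restrictScalars ℝ)) ?_
      (by rintro _ ⟨z, hz, rfl⟩; exact ⟨z, hle hz, rfl⟩) fun V hV hVW => ?_
    · have e1 : (Submodule.span ℂ (Y : Set (E d))).map ψ =
          Submodule.span ℂ (Y.map (ψ.restrictScalars ℝ) : Set (E d)) := Submodule.map_span _ _
      have e2 : Submodule.span ℂ ((U.restrictScalars ℝ ⊓ Y : Submodule ℝ (E d)) : Set (E d)) ≤
          Submodule.span ℂ (Y : Set (E d)) ⊓ LinearMap.ker ψ :=
        Submodule.span_le.2 fun z hz => ⟨Submodule.subset_span hz.2, c2.ge hz.1⟩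
      have e3 := (Nat.cast_le (α := ℝ)).2 (Submodule.finrank_mono e2)
      rw [← e1] at i2
      rw [← r2, ← r3]
      push_cast
      nlinarith [mul_le_mul_of_nonneg_left e3 (Nat.cast_nonneg (α := ℝ) t)]
    · refine rat_up (s := ψ '' ((Y : Set (E d)) ∩ A.Λ)) ?_ ?_ fun _ hx => hx.1
      · rw [← ψ.coe_restrictScalars ℝ, ← Submodule.map_span, hY]
      · rintro _ ⟨z, hz, rfl⟩
        exact ⟨⟨z, hz.1, rfl⟩, c1 z hz.2⟩
    · have s1 : ZE.Rat A (V ⊔ U) := by
        refine le_antisymm (Submodule.span_le.2 fun x hx => hx.1) fun x hx => ?_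
        obtain ⟨a, ha, b, hb, rfl⟩ := Submodule.mem_sup.1 hx
        exact add_mem
          (Submodule.span_mono (Set.inter_subset_inter_left _ (le_sup_left (a := V))) (hV.ge ha))
          (Submodule.span_mono (Set.inter_subset_inter_left _ (le_sup_right (b := U))) (hU.ge hb))
      have s2 := n3 (V ⊔ U) s1 (fun h => u0 (le_bot_iff.1 (h ▸ le_sup_right)))
        (sup_le (hVW.trans c5) u1.le)
      have s3 := Submodule.finrank_sup_add_finrank_inf_eq V U
      have s4 := rank_null (ψ.restrictScalars ℝ) ((V ⊔ U).restrictScalars ℝ ⊓ Y)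
      have s5 : V.restrictScalars ℝ ⊓ Y.map (ψ.restrictScalars ℝ) ≤
          ((V ⊔ U).restrictScalars ℝ ⊓ Y).map (ψ.restrictScalars ℝ) := by
        rintro _ ⟨h, z, hz, rfl⟩
        refine ⟨z, ⟨((V ⊔ U).smul_mem_iff N1).1 ?_, hz⟩, rfl⟩
        rw [← sub_add_cancel ((N : ℂ) • z) (φ z)]
        exact add_mem (Submodule.mem_sup_left h) (Submodule.mem_sup_right (p3 z))
      have s6 : U.restrictScalars ℝ ⊓ Y ≤
          (V ⊔ U).restrictScalars ℝ ⊓ Y ⊓ LinearMap.ker (ψ.restrictScalars ℝ) :=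
        fun z hz => ⟨⟨Submodule.mem_sup_right hz.1, hz.2⟩, c3.ge hz.1⟩
      have s7 := Submodule.finrank_mono s5
      have s8 := Submodule.finrank_mono s6
      have s9 : (finrank ℝ ↥(V.restrictScalars ℝ ⊓ Y.map (ψ.restrictScalars ℝ)) : ℝ) +
          finrank ℝ ↥(U.restrictScalars ℝ ⊓ Y) ≤ finrank ℝ ↥((V ⊔ U).restrictScalars ℝ ⊓ Y) := by
        exact_mod_cast (by omega)
      have s10 : (finrank ℂ ↥(V ⊔ U) : ℝ) ≤ finrank ℂ V + finrank ℂ U := by
        exact_mod_cast (by omega)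
      nlinarith [mul_le_mul_of_nonneg_left s10 n0,
        mul_le_mul_of_nonneg_right n2 (Nat.cast_nonneg (α := ℝ) (finrank ℂ V))]
    · obtain ⟨y, y1, -, y3⟩ := basis hY rfl
      refine le_antisymm (Submodule.span_le.2 fun x hx => hx.1) fun x hx => ?_
      obtain ⟨a, rfl⟩ := (Submodule.mem_span_range_iff_exists_fun ℝ).1 (y3.ge hx.2)
      refine Submodule.span_mono ?_
        (ker_rat A y (ψ.restrictScalars ℝ) (fun j => c1 _ (y1 j)) a (c3.ge hx.1))
      exact fun z hz => ⟨⟨c3.le hz.1, y3.le (Submodule.span_subset_span ℤ ℝ _ hz.2)⟩,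
        Submodule.span_le.2 (Set.range_subset_iff.2 y1) hz.2⟩

end MuAux

/-- the theorem for an arbitrary rational subspace -/
theorem mu {d M : ℕ} (A : NV d M) (Y : Submodule ℝ (E d))
    (hY : Submodule.span ℝ ((Y : Set (E d)) ∩ A.Λ) = Y) (μ : ℝ)
    (hs : ∀ U : Submodule ℂ (E d), Submodule.span ℝ ((U : Set (E d)) ∩ A.Λ) = U.restrictScalars ℝ →
      (finrank ℝ ↥(U.restrictScalars ℝ ⊓ Y) : ℝ) ≤ μ * finrank ℂ U)
    {c : ℂ} (hc : c ≠ 0) {F : IntermediateField ℚ ℂ} (hF : A.Per c F) {t : ℕ}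
    (ht : Algebra.trdeg ℚ F ≤ t) :
    (finrank ℝ Y : ℝ) * (2 - μ) ≤
      t * (2 * finrank ℂ (Submodule.span ℂ (Y : Set (E d))) - finrank ℝ Y) := by
  obtain ⟨M', B, N, N0, ha, hl, hl', hH⟩ := modelS siegS d M A
  obtain ⟨F', f1, f2⟩ := WZ.CMAux.exists_field F
  have N1 : (N : ℝ) ≠ 0 := Nat.cast_ne_zero.2 N0.ne'
  refine MuAux.slope B ha hc
    (fun l h m => f1 _ (isAlgebraic_algebraMap (⟨_, field hl hH hF l h m⟩ : F)))
    (fun x hx => f1 x (hx.tower_top F)) (f2 ▸ ht) μ ⊤ (by simpa [ZE.Rat] using B.span_top) Y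
    (le_antisymm (Submodule.span_le.2 fun x hx => hx.1) (hY.ge.trans (Submodule.span_le.2
      fun x hx => (Submodule.smul_mem_iff _ N1).1 (Submodule.subset_span
        ⟨Y.smul_mem _ hx.1, ?_⟩)))) le_top fun U hU _ =>
    hs U (rat_up hU (fun _ hx => ⟨hx.1, hl _ hx.2⟩) fun _ hx => hx.1)
  simpa only [Nat.cast_smul_eq_nsmul, SetLike.mem_coe] using hl' x hx.2

end Pool.Agent.Lib.MP_caab05_ag.NC
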