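import Mathlib
import Pool.Agent.Lib.MP_caab05_ag.NC.Pos

/-! The theorem for one abelian variety, from the abstract form applied to its powers. -/

namespace Pool.Agent.Lib.MP_caab05_ag.NC

open MvPolynomial Complex Module Matrix
open Pool.Agent.Lib.MP_caab05_ag.LT (E sl)
open Pool.Agent.Lib.MP_caab05_ag.ZE (VX)
open Pool.Agent.Lib.MP_caab05_ag.WZ (EE zz Arith)

namespace TwoAux

open PosAux

/-- all algebraic linear forms which vanish at `η` vanish at `x` -/
def Sp {σ : Type} [Fintype σ] (η x : σ → ℂ) : Prop :=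
  ∀ e : σ → ℂ, (∀ s, IsAlgebraic ℚ (e s)) → ∑ s, e s * η s = 0 → ∑ s, e s * x s = 0

lemma fin_eq {σ : Type} [Fintype σ] (η : σ → ℂ) : ∃ (κ : Type) (_ : Fintype κ) (eq : κ → σ → ℂ),
    (∀ r s, IsAlgebraic ℚ (eq r s)) ∧ (∀ r, ∑ s, eq r s * η s = 0) ∧
    ∀ x : σ → ℂ, (∀ r, ∑ s, eq r s * x s = 0) → Sp η x := by
  obtain ⟨T, hT1, hT2, hT3⟩ := exists_linearIndependent ℂ
    {e : σ → ℂ | (∀ s, IsAlgebraic ℚ (e s)) ∧ ∑ s, e s * η s = 0}
  have := hT3.finite
  refine ⟨T, Fintype.ofFinite T, fun r => r.1, fun r => (hT1 r.2).1, fun r => (hT1 r.2).2,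
    fun x hx e h1 h2 => ?_⟩
  have h3 : Submodule.span ℂ T ≤ LinearMap.ker ((dotProductBilin ℂ ℂ).flip x) :=
    Submodule.span_le.2 fun r hr => hx ⟨r, hr⟩
  exact h3 (hT2 ▸ Submodule.subset_span ⟨h1, h2⟩)

variable {d M d' M' p : ℕ}

/-- the abelian subvarieties are respected -/
lemma keep (h3 : AlgS) (A : VX d M) (hA : Arith A) {σ : Type} [Fintype σ] {η x : σ → ℂ} {c : ℂ}
    (ξ : (σ → ℂ) → E d →ₗ[ℝ] EE (Fin d))
    (h1 : ∀ z ∈ A.Λ, ∀ m, ∃ k : σ → ℤ, ∀ x, ξ x z m = ∑ s, k s * x s)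
    (h2 : ∀ z, ξ η z = c • lf A z) (hx : Sp η x) {U : Submodule ℂ (E d)} (hU : ZE.Rat A U) :
    Submodule.span ℂ (ξ x '' (U : Set (E d))) ≤ SE A U := by
  obtain ⟨a, ha, hv⟩ := h3 d M A hA U hU
  refine Submodule.span_le.2 ?_
  rintro _ ⟨u, hu, rfl⟩
  have h5 : Submodule.span ℝ ((U : Set _) ∩ (A.Λ : Set _)) ≤
      ((SE A U).restrictScalars ℝ).comap (ξ x) := by
    refine Submodule.span_le.2 fun l hl => (hv _).2 (funext fun r => ?_)
    choose k hk using h1 l hl.2
    have e : ∀ x, (a *ᵥ ξ x l) r = ∑ s, (∑ m, a r m * k m s) * x s := fun x => by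
      simp only [mulVec, dotProduct, hk, Finset.mul_sum, Finset.sum_mul, mul_assoc]
      exact Finset.sum_comm
    rw [e]
    refine hx _ (fun s => ?_) ?_
    · refine Finset.sum_induction _ _ (fun _ _ => IsAlgebraic.add) isAlgebraic_zero fun m _ =>
        (ha r m).mul (isAlgebraic_intCast _)
    · rw [← e, h2, mulVec_smul, (hv _).1 (Submodule.subset_span ⟨l, hl.1, rfl⟩), smul_zero]
      rfl
  exact h5 (hU.ge hu)

/-- the real linear map with matrix `x` -/
noncomputable def x0 (b : Basis (Fin d ⊕ Fin d) ℝ (E d))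
    (x : (Fin d ⊕ Fin d) × (Fin d ⊕ Fin d) → ℂ) : E d →ₗ[ℝ] EE (Fin d) :=
  b.constr ℝ fun i m => x (m, i)

lemma x0_int {b : Basis (Fin d ⊕ Fin d) ℝ (E d)} {z : E d}
    (hz : z ∈ Submodule.span ℤ (Set.range b)) (m : Fin d ⊕ Fin d) :
    ∃ k : (Fin d ⊕ Fin d) × (Fin d ⊕ Fin d) → ℤ, ∀ x, x0 b x z m = ∑ s, k s * x s := by
  induction hz using Submodule.span_induction with
  | mem x hx =>
    obtain ⟨i, rfl⟩ := hx
    refine ⟨Pi.single (m, i) 1, fun x => ?_⟩
    rw [x0, Basis.constr_basis, Finset.sum_eq_single (m, i) (fun s _ hs => by simp [hs]) (by simp)]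
    simp
  | zero => exact ⟨0, fun x => by simp⟩
  | add u v _ _ hu hv =>
    obtain ⟨k, hk⟩ := hu
    obtain ⟨k', hk'⟩ := hv
    exact ⟨k + k', fun x => by simp [hk, hk', add_mul, Finset.sum_add_distrib]⟩
  | smul c u _ hu =>
    obtain ⟨k, hk⟩ := hu
    refine ⟨c • k, fun x => ?_⟩
    rw [map_zsmul, Pi.smul_apply, hk, Finset.smul_sum]
    simp [mul_assoc]

lemma x0_top (b : Basis (Fin d ⊕ Fin d) ℝ (E d)) (x : (Fin d ⊕ Fin d) × (Fin d ⊕ Fin d) → ℂ) :
    (Matrix.of fun m i => x (m, i)).det ≠ 0 ↔ Submodule.span ℂ (Set.range (x0 b x)) = ⊤ := by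
  have e : Submodule.span ℂ (Set.range (x0 b x)) =
      Submodule.span ℂ (Set.range (Matrix.of fun m i => x (m, i)).col) := by
    refine le_antisymm (Submodule.span_le.2 ?_) (Submodule.span_mono ?_)
    · rintro _ ⟨z, rfl⟩
      rw [x0, Basis.constr_apply_fintype]
      exact Submodule.sum_mem _ fun i _ => Submodule.smul_of_tower_mem _ _
        (Submodule.subset_span ⟨i, rfl⟩)
    · rintro _ ⟨i, rfl⟩
      exact ⟨b i, b.constr_basis ℝ _ i⟩
  rw [e, ← Matrix.range_mulVecLin, LinearMap.range_eq_top, ← isUnit_iff_ne_zero,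
    ← Matrix.isUnit_iff_isUnit_det, ← Matrix.mulVec_surjective_iff_isUnit]
  rfl

/-- the block and the position of a coordinate -/
def blk (δ : Fin p × Fin d ≃ Fin d') : Fin d' ⊕ Fin d' → Fin p × (Fin d ⊕ Fin d)
  | .inl k => ((δ.symm k).1, .inl (δ.symm k).2)
  | .inr k => ((δ.symm k).1, .inr (δ.symm k).2)

/-- a vector placed in the block `j` -/
def emb (δ : Fin p × Fin d ≃ Fin d') (j : Fin p) (z : E d) : E d' :=
  fun k => if (δ.symm k).1 = j then z (δ.symm k).2 else 0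

lemma sl_emb (δ : Fin p × Fin d ≃ Fin d') (j j' : Fin p) (z : E d) :
    sl δ (emb δ j z) j' = if j' = j then z else 0 := by
  funext i
  by_cases h : j' = j <;> simp [sl, emb, h]

/-- the same for lifted vectors -/
def embE (δ : Fin p × Fin d ≃ Fin d') (j : Fin p) : EE (Fin d) →ₗ[ℂ] EE (Fin d') where
  toFun v m := if (blk δ m).1 = j then v (blk δ m).2 else 0
  map_add' v w := by
    funext m
    by_cases h : (blk δ m).1 = j <;> simp [h]
  map_smul' c v := by
    funext m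
    by_cases h : (blk δ m).1 = j <;> simp [h]

/-- the block diagonal map -/
noncomputable def xB (δ : Fin p × Fin d ≃ Fin d') (ξ : E d →ₗ[ℝ] EE (Fin d)) : E d' →ₗ[ℝ] EE (Fin d') where
  toFun z m := ξ (sl δ z (blk δ m).1) (blk δ m).2
  map_add' z w := by
    funext m
    rw [show sl δ (z + w) (blk δ m).1 = sl δ z (blk δ m).1 + sl δ w (blk δ m).1 from rfl, map_add]
    rfl
  map_smul' c z := by
    funext m
    rw [show sl δ (c • z) (blk δ m).1 = c • sl δ z (blk δ m).1 from rfl, map_smul]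
    rfl

lemma xB_emb (δ : Fin p × Fin d ≃ Fin d') (ξ : E d →ₗ[ℝ] EE (Fin d)) (j : Fin p) (z : E d) :
    xB δ ξ (emb δ j z) = embE δ j (ξ z) := by
  funext m
  change ξ (sl δ (emb δ j z) (blk δ m).1) (blk δ m).2 =
    if (blk δ m).1 = j then ξ z (blk δ m).2 else 0
  rw [sl_emb]
  split_ifs <;> simp

lemma zz_embE (δ : Fin p × Fin d ≃ Fin d') (j : Fin p) (v : EE (Fin d)) :
    zz (embE δ j v) = emb δ j (zz v) := rfl

lemma xB_top (δ : Fin p × Fin d ≃ Fin d') {ξ : E d →ₗ[ℝ] EE (Fin d)}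
    (h : Submodule.span ℂ (Set.range ξ) = ⊤) : Submodule.span ℂ (Set.range (xB δ ξ)) = ⊤ := by
  have h1 : ∀ j v, embE δ j v ∈ Submodule.span ℂ (Set.range (xB δ ξ)) := fun j v => by
    have : (⊤ : Submodule ℂ _) ≤ (Submodule.span ℂ (Set.range (xB δ ξ))).comap (embE δ j) := by
      rw [← h]
      refine Submodule.span_le.2 ?_
      rintro _ ⟨z, rfl⟩
      exact Submodule.subset_span ⟨_, xB_emb δ ξ j z⟩
    exact this Submodule.mem_top
  refine eq_top_iff.2 fun v _ => ?_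
  have e : v = ∑ j, embE δ j
      (Sum.elim (fun k => v (.inl (δ (j, k)))) fun k => v (.inr (δ (j, k)))) := by
    funext m
    rw [Finset.sum_apply, Finset.sum_eq_single (blk δ m).1
      (fun j _ hj => by simp [embE, hj.symm]) (by simp)]
    rcases m with k | k <;> simp [embE, blk]
  rw [e]
  exact Submodule.sum_mem _ fun j _ => h1 j _

/-- the subspace is not contained in the preimage of an abelian subvariety -/
lemma hor (h5 : DimS) (A : VX d M) {ν : Type} [Fintype ν] {y : ν → E d} (hy : ∀ i, y i ∈ A.Λ)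
    (hi : LinearIndependent ℝ y) {ξ : E d →ₗ[ℝ] EE (Fin d)}
    (ht : Submodule.span ℂ (Set.range ξ) = ⊤) {U : Submodule ℂ (E d)}
    (hk : ∀ u ∈ U, zz (ξ u) ∈ U)
    (hlt : dimIn y U + d < Fintype.card ν + finrank ℂ U) : ∃ i, zz (ξ (y i)) ∉ U := by
  by_contra hcon
  push Not at hcon
  let π : EE (Fin d) →ₗ[ℂ] E d := LinearMap.funLeft ℂ ℂ Sum.inl
  have h1 : Submodule.span ℂ (Set.range fun i => ξ (y i)) ⊔
      Submodule.span ℂ (ξ '' (U : Set (E d))) ≤ U.comap π := by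
    refine sup_le (Submodule.span_le.2 ?_) (Submodule.span_le.2 ?_)
    · rintro _ ⟨i, rfl⟩
      exact hcon i
    · rintro _ ⟨u, hu, rfl⟩
      exact hk u hu
  have h2 := (h5 d M A ν y ξ hy hi ht U).trans (Nat.add_le_add_right (Submodule.finrank_mono h1) _)
  have hs : Function.Surjective π :=
    LinearMap.funLeft_surjective_of_injective _ _ _ Sum.inl_injective
  have h3 := LinearMap.finrank_range_add_finrank_ker π
  rw [LinearMap.range_eq_top.2 hs, finrank_top] at h3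
  have h4 := LinearMap.finrank_range_add_finrank_ker (π.domRestrict (U.comap π))
  have h6 : finrank ℂ (LinearMap.range (π.domRestrict (U.comap π))) ≤ finrank ℂ U :=
    Submodule.finrank_mono (by
      rintro _ ⟨v, rfl⟩
      exact v.2)
  have h7 : finrank ℂ (LinearMap.ker (π.domRestrict (U.comap π))) ≤
      finrank ℂ (LinearMap.ker π) := by
    rw [← Submodule.finrank_map_subtype_eq]
    refine Submodule.finrank_mono ?_
    rintro _ ⟨v, hv, rfl⟩
    exact hv
  simp only [finrank_fintype_fun_eq_card, Fintype.card_fin, Fintype.card_sum] at h3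
  omega

end TwoAux

open TwoAux PosAux in
theorem twoS (h1 : MainGS) (h2 : NondS) (h3 : AlgS) (h4 : YpS) (h5 : DimS) : TwoS := by
  intro d M A ν _ y c F t hP hy hi hd hl hS hc hF ht
  obtain ⟨b, hb⟩ : ∃ b : Basis (Fin d ⊕ Fin d) ℝ (E d), Submodule.span ℤ (Set.range b) = A.Λ := by
    obtain ⟨ι, _, b, hb⟩ := LT.exists_basis A.toAbVar
    have hc : Fintype.card ι = Fintype.card (Fin d ⊕ Fin d) := by
      rw [← finrank_eq_card_basis b, finrank_pi_fintype]
      simp [mul_two]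
    exact ⟨b.reindex (Fintype.equivOfCardEq hc), by rw [Basis.range_reindex, hb]⟩
  have hbm : ∀ i, b i ∈ A.Λ := fun i => hb ▸ Submodule.subset_span ⟨i, rfl⟩
  obtain ⟨K, hK⟩ := exists_nat_ge (max ‖c‖ 1)
  have hK0 : (0 : ℝ) < K := lt_of_lt_of_le one_pos ((le_max_right _ _).trans hK)
  have hK1 : (K : ℂ) ≠ 0 := by exact_mod_cast hK0.ne'
  obtain ⟨c', hc', hc1, hc2⟩ : ∃ c' : ℂ, c' ≠ 0 ∧ ‖c'‖ ≤ 1 ∧ ∀ l ∈ A.Λ, ∀ m, c' * lf A l m ∈ F :=
    ⟨(K : ℂ)⁻¹ * c, mul_ne_zero (inv_ne_zero hK1) hc, by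
      rw [norm_mul, norm_inv, Complex.norm_natCast, inv_mul_le_iff₀ hK0, mul_one]
      exact (le_max_left _ _).trans hK, fun l hl m => by
      rw [mul_assoc]
      exact mul_mem (inv_mem (natCast_mem F K)) (hF l hl m)⟩
  let η : (Fin d ⊕ Fin d) × (Fin d ⊕ Fin d) → ℂ := fun s => c' * lf A (b s.2) s.1
  have hη : ∀ z, x0 b η z = c' • lf A z := fun z =>
    LinearMap.congr_fun (b.ext (f₁ := x0 b η) (f₂ := c' • lfR A) fun i => b.constr_basis ℝ _ i) z
  have hint : ∀ z ∈ A.Λ, ∀ m, ∃ k : _ → ℤ, ∀ x, x0 b x z m = ∑ s, k s * x s :=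
    fun z hz m => x0_int (hb ▸ hz) m
  obtain ⟨κ, _, eq, he1, he2, he3⟩ := fin_eq η
  obtain ⟨n₀⟩ : Nonempty ν := Fintype.card_pos_iff.1 (hd.trans_le hl)
  obtain ⟨k₀, hk₀⟩ := Function.ne_iff.1 (hi.ne_zero n₀)
  obtain ⟨g, hg⟩ := hint _ (hy n₀) (.inl k₀)
  let G : MvPolynomial ((Fin d ⊕ Fin d) × (Fin d ⊕ Fin d)) ℤ :=
    (Matrix.of fun m i => X (m, i)).det * ∑ s, C (g s) * X s
  have hG : ∀ x : _ → ℂ, aeval x G = (Matrix.of fun m i => x (m, i)).det *
      x0 b x (y n₀) (.inl k₀) := fun x => by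
    rw [map_mul, AlgHom.map_det, hg, map_sum]
    congr 1
    · congr 1
      ext m i
      simp
    · simp
  have hGh : G.IsHomogeneous (Fintype.card (Fin d ⊕ Fin d) + 1) :=
    LT.isHomogeneous_of_scaling fun l x _ => by
      rw [hG, hG, show (Matrix.of fun m i => (l • x) (m, i)) = l • Matrix.of fun m i => x (m, i)
        from rfl, det_smul, hg, hg, pow_succ, mul_mul_mul_comm, Finset.mul_sum _ _ l]
      simp only [Pi.smul_apply, smul_eq_mul, mul_left_comm]
  have hGη : aeval η G ≠ 0 := by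
    rw [hG, hη]
    refine mul_ne_zero ((x0_top b η).2 (eq_top_iff.2 ?_)) (mul_ne_zero hc' hk₀)
    rw [← h2 d M A]
    refine Submodule.span_le.2 ?_
    rintro _ ⟨l, -, rfl⟩
    exact (Submodule.smul_mem_iff _ hc').1 (Submodule.subset_span ⟨l, hη l⟩)
  have key : ∀ p : ℕ, 0 < p → p * Fintype.card ν * (p * (2 * d - Fintype.card ν)) ≤
      t * (p * d) *
        (p * (2 * finrank ℂ (Submodule.span ℂ (Set.range y)) - Fintype.card ν) + 2) := by
    intro p hp
    obtain ⟨d', M', B, δ, hB, hBA, hBZ⟩ := hP p hp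
    have hd' : d' = p * d := by simpa using (Fintype.card_congr δ).symm
    obtain ⟨y1, y2, y3, y4, y5⟩ := h4 d M d' M' p A B δ ν y hB hy hi hS.le
    have hintB : ∀ z ∈ B.Λ, ∀ m, ∃ k : _ → ℤ, ∀ x, xB δ (x0 b x) z m = ∑ s, k s * x s :=
      fun z hz m => hint _ ((hB.lat z).1 hz _) _
    have hηB : ∀ z, xB δ (x0 b η) z = c' • lf B z := fun z => by
      funext m
      change x0 b η (sl δ z (blk δ m).1) (blk δ m).2 = _
      rw [hη]
      rcases m with k | k
      · simp [blk, lf, sl]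
      · simp [blk, lf, ← hB.H, sl]
    choose cf hcf using fun m i => hintB _ (y1 i) m
    have hjl : ∀ x u, jl cf x u = ∑ i, u i • xB δ (x0 b x) (ypow δ y i) := fun x u => by
      funext m
      simp only [jl, Finset.sum_apply, Pi.smul_apply, smul_eq_mul, hcf, mul_comm]
    have hW : ∀ x, Wl cf x = Submodule.span ℂ (Set.range fun i => xB δ (x0 b x) (ypow δ y i)) :=
      fun x => by
        ext w
        simp only [mem_Wl, hjl, Submodule.mem_span_range_iff_exists_fun]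
    have hcard : Fintype.card (Fin p × ν) = p * Fintype.card ν := by simp
    have := h1 d' M' B (Fin p × ν) _ κ (ypow δ y) cf η G _ eq c' F t hBA hBZ y1 y2
      (by rw [hd']; positivity) (by rw [hd', hcard]; gcongr) ht (fun s => hc2 _ (hbm _) _) hGh hGη
      he1 he2 hc1 (fun u => by
        simp only [hjl, hηB, Jy, Pi.smul_apply, smul_smul, smul_eq_mul, mul_comm]) ?_
    · rw [y3, hcard, hd', mul_left_comm 2 p, mul_left_comm 2 p, ← Nat.mul_sub,
        ← Nat.mul_sub] at this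
      exact this
    intro x hx hx'
    rw [hG] at hx
    have htop := (x0_top b x).1 (left_ne_zero_of_mul hx)
    have hkB := fun U hU =>
      keep h3 B hBA (fun x => xB δ (x0 b x)) hintB hηB (he3 x hx') (U := U) hU
    refine ⟨fun U hU => ?_, fun U hU hne => ?_⟩
    · have e1 := h5 d' M' B _ (ypow δ y) _ y1 y2 (xB_top δ htop) U
      have e2 : finrank ℂ ↥(Submodule.span ℂ (Set.range fun i => xB δ (x0 b x) (ypow δ y i)) ⊔
          Submodule.span ℂ (xB δ (x0 b x) '' (U : Set (E d')))) ≤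
          finrank ℂ ↥(Wl cf x ⊔ SE B U) :=
        Submodule.finrank_mono (sup_le_sup (hW x).ge (hkB U hU))
      have e3 := y4 U hU
      obtain ⟨a, ha⟩ := Nat.exists_eq_add_of_le hl
      generalize finrank ℂ ↥(Wl cf x ⊔ SE B U) = w at e2 ⊢
      generalize finrank ℂ U = u at e1 e3 ⊢
      rw [hcard, hd', ← Nat.mul_sub, ha, Nat.add_sub_cancel_left]
      rw [hcard, ha] at e1
      rw [ha] at e3
      have e4 := Nat.mul_le_mul_left (p * d) (e1.trans (Nat.add_le_add_right e2 _))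
      have e5 := Nat.mul_le_mul_left p e3
      nlinarith
    · obtain ⟨j, U₀, u1, u2, u3⟩ := y5 U hU hne
      suffices h : ∃ i, zz (x0 b x (y i)) ∉ U₀ by
        obtain ⟨i, hi'⟩ := h
        refine ⟨xB δ (x0 b x) (ypow δ y (j, i)), (hW x).ge (Submodule.subset_span ⟨_, rfl⟩),
          fun h => hi' ((u3 _).2 ?_)⟩
        rwa [show ypow δ y (j, i) = emb δ j (y i) from rfl, xB_emb, zz_embE] at h
      by_cases h0 : U₀ = ⊥
      · refine ⟨n₀, fun h => right_ne_zero_of_mul hx ?_⟩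
        rw [h0, Submodule.mem_bot] at h
        exact congrFun h k₀
      · refine hor h5 A hy hi htop (fun u hu => (u3 _).2 ?_) (hS.lt U₀ u1 h0 u2)
        have e1 : SE B U ≤ U.comap (LinearMap.funLeft ℂ ℂ Sum.inl) := by
          refine Submodule.span_le.2 ?_
          rintro _ ⟨u, hu, rfl⟩
          exact hu
        have e2 := e1 (hkB U hU (Submodule.subset_span ⟨emb δ j u, (u3 u).1 hu, rfl⟩))
        rw [xB_emb] at e2
        exact e2
  have h6 := key (2 * t * d + 1) (Nat.succ_pos _)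
  by_contra hcon
  have h7 := Nat.succ_le_of_lt (not_le.1 hcon)
  have h8 := Nat.mul_le_mul_left ((2 * t * d + 1) * (2 * t * d + 1)) h7
  rw [mul_mul_mul_comm] at h6
  have h9 := h8.trans h6
  rw [Nat.succ_eq_add_one] at h9
  nlinarith

end Pool.Agent.Lib.MP_caab05_ag.NC
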